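import Pool.Agent.CT.ChainTor

/-!
# CT: the action of the lattice `Λ³ H` on `Xt g` (assembly, definitions)
-/

set_option autoImplicit false

noncomputable section

open scoped ContDiff

namespace Pool.Agent.CT

variable {g : ℕ}

theorem isPt_add (p : Amb g) (hp : IsPt p) (w : Ix g → Ix g → Ix g → ℝ) (hw : w ∈ Lam g) :
    IsPt (p.1, p.2.1, p.2.2.1, w + p.2.2.2) := by
  obtain ⟨hJ, C, hC, hcur, G, hG, hξ⟩ := hp
  refine ⟨hJ, C, hC, hcur, ?_⟩
  obtain ⟨G', hG', hη⟩ := (Hm_lat C.cur w hw).trans ⟨G, hG, hξ⟩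
  exact ⟨G', hG', fun i j k => hη i j k⟩

instance : VAdd (Lam g) (Xt g) :=
  ⟨fun w p => ⟨(p.1.1, p.1.2.1, p.1.2.2.1, w.1 + p.1.2.2.2), isPt_add p.1 p.2 w.1 w.2⟩⟩

theorem vadd_def (w : Lam g) (p : Xt g) :
    (w +ᵥ p).1 = (p.1.1, p.1.2.1, p.1.2.2.1, w.1 + p.1.2.2.2) := rfl

instance : AddAction (Lam g) (Xt g) where
  zero_vadd p := by
    apply Subtype.ext
    rw [vadd_def]
    simp
  add_vadd w w' p := by
    apply Subtype.ext
    simp only [vadd_def, AddSubgroup.coe_add, add_assoc]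

instance : ContinuousConstVAdd (Lam g) (Xt g) where
  continuous_const_vadd w := by
    apply Continuous.subtype_mk
    fun_prop

theorem cyc_vadd (w : Lam g) (p : Xt g) : cyc (w +ᵥ p) = cyc p := rfl

theorem cyc_cont : Continuous (cyc : Xt g → Zs g) := by
  unfold cyc
  fun_prop

end Pool.Agent.CT
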