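import Mathlib

/-!
CT-Alg: the contradiction of section 5 (pure algebra).

`W u v w` is `u ∧ v ∧ w`, `th` is the 4-form `x₀* y₀* x₁* x₂*`, `J` an alternating form on the group `M`
of 3-vectors. Write `(x,y), (a,b), (c,d)` for `(e 0, f 0), (e 1, f 1), (e 2, f 2)`, `uvw` for `W u v w`.

PLAN.
(R1') For every symplectic basis `x, y` (`SympB om x y`), `i ≠ j`, `k ≠ j`: for `A = ⟨x j, y j⟩`,
`w_A = x_j ∧ y_j`: `J(x_i w_A, x_k w_A) = th(x_i, x_k, x_j, y_j)` for `k ≠ i` (both orthogonal to each other):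
apply R1 to the basis with `y_i` replaced by `y_i + x_k` and `y_k` by `y_k + x_i` (still symplectic), and
subtract R1. Only the cases needed below have to be proved.
(R3') subtracting from R3 the instance of (R1') `J(x_{c0} w_A, x_{c1} w_A) = th(x_{c0},x_{c1},A)`:
`J(x_{c0} w_B, x_{c1} w_A) = 0` for `B = ⟨x_{c1}, y_{c1}⟩`, `A = ⟨x_{c2}, y_{c2}⟩`, `c0, c1, c2` distinct.
(i) R1 for `(x,y)`, `A = ⟨a, b + c⟩` (the basis with `b, d` replaced by `b + c, d + a`) minus R1 for
`A = ⟨a, b - c⟩` (`b - c, d - a`): `2 J(xab, yac) + 2 J(xac, yab) = 2`.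
(ii) `J(xab, yac) = 1`: `yac = - cay`, `c∧a∧y = c∧(x+a)∧y - c∧x∧y`; `J(xab, cxy) = 0` by (R3')
(`cxy = c w_B`, `B = ⟨x,y⟩`; `xab = x w_A`; antisymmetry of `J`); `x∧a∧b = (x+a)∧a∧(b-y) - a∧(x+a)∧y`
(check: `(x+a)ab - (x+a)ay - axy = xab - xay - axy = xab`), with `A' = ⟨a, b-y⟩`, `B' = ⟨x+a, y⟩` a symplectic
basis together with `(c,d)`; `J((x+a) w_A', c w_B') = 0` by (R3') and `J(a w_B', c w_B') = th(a,c,x+a,y) = 1`
up to the sign, by (R1'). So `J(xab, cay) = -1` and `J(xab, yac) = 1`.
(iii) the same with `(x,y)` replaced by `(y,-x)`: `J(yab, -xac) = 1`, so `J(xac, yab) = 1`.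
Then (i) gives `4 = 2`.
-/

namespace Pool.Agent.CT

/-- `x, y` is a symplectic basis (the relations). -/
def SympB {g : ℕ} {H : Type*} [AddCommGroup H] (om : H →+ H →+ ℤ) (x y : Fin g → H) : Prop :=
  (∀ i j, om (x i) (y j) = if i = j then 1 else 0) ∧ (∀ i j, om (x i) (x j) = 0) ∧
    (∀ i j, om (y i) (y j) = 0)

section

variable {g : ℕ} {H M : Type*} [AddCommGroup H] [AddCommGroup M] {om : H →+ H →+ ℤ}
  {x y : Fin g → H}

private theorem om_swap (hom : ∀ u, om u u = 0) (u v : H) : om u v = -om v u := by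
  have h := hom (u + v)
  simp only [map_add, AddMonoidHom.add_apply, hom, zero_add, add_zero] at h
  omega

private theorem symp_yx (hom : ∀ u, om u u = 0) (h : SympB om x y) (i j : Fin g) :
    om (y i) (x j) = if j = i then -1 else 0 := by
  rw [om_swap hom, h.1]
  split_ifs <;> rfl

/-- the shear `y_i + t x_k`, `y_k + t x_i` -/
private theorem symp_shear (hom : ∀ u, om u u = 0) (h : SympB om x y) {i k : Fin g} (hik : i ≠ k)
    (t : ℤ) : SympB om x (fun j => y j + t • ((if j = i then x k else 0) +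
      (if j = k then x i else 0))) := by
  refine ⟨fun a b => ?_, h.2.1, fun a b => ?_⟩
  · have hz : ∀ (P : Prop) [Decidable P] (c : Fin g), om (x a) (if P then x c else 0) = 0 := by
      intro P _ c
      split_ifs
      · exact h.2.1 a c
      · exact map_zero _
    rw [map_add, map_zsmul, map_add, hz, hz, add_zero, smul_zero, add_zero, h.1]
  · by_cases h1 : b = i <;> by_cases h2 : b = k <;> by_cases h3 : a = i <;> by_cases h4 : a = k <;>
      simp_all [h.1, h.2.1, h.2.2, symp_yx hom h, hik.symm] <;> intro hh <;>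
      exact absurd hh.symm (by assumption)

/-- `x_i + x_k`, `y_k - y_i` -/
private theorem symp_trans (h : SympB om x y) {i k : Fin g} (hik : i ≠ k) :
    SympB om (fun j => x j + (if j = i then x k else 0))
      (fun j => y j - (if j = k then y i else 0)) := by
  refine ⟨fun a b => ?_, fun a b => ?_, fun a b => ?_⟩
  · by_cases h1 : b = k <;> by_cases h3 : a = i <;>
      simp_all [h.1, eq_comm]
  · by_cases h1 : b = i <;> by_cases h3 : a = i <;>
      simp_all [h.1, h.2.1, h.2.2]
  · by_cases h1 : b = k <;> by_cases h3 : a = k <;>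
      simp_all [h.1, h.2.1, h.2.2]

/-- `(y_i, -x_i)` -/
private theorem symp_rot (hom : ∀ u, om u u = 0) (h : SympB om x y) (i : Fin g) :
    SympB om (fun j => if j = i then y i else x j) (fun j => if j = i then - x i else y j) := by
  refine ⟨fun a b => ?_, fun a b => ?_, fun a b => ?_⟩
  · by_cases h1 : b = i <;> by_cases h3 : a = i <;>
      simp_all [h.1, h.2.1, h.2.2, symp_yx hom h, eq_comm]
  · by_cases h1 : b = i <;> by_cases h3 : a = i <;>
      simp_all [h.1, h.2.1, h.2.2, symp_yx hom h, eq_comm]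
  · by_cases h1 : b = i <;> by_cases h3 : a = i <;>
      simp_all [h.1, h.2.1, h.2.2, symp_yx hom h, eq_comm]

end

theorem alg_main {g : ℕ} (i0 i1 i2 : Fin g) (h01 : i0 ≠ i1) (h02 : i0 ≠ i2) (h12 : i1 ≠ i2)
    {H M : Type*} [AddCommGroup H] [AddCommGroup M]
    (om : H →+ H →+ ℤ) (hom : ∀ u, om u u = 0)
    (e f : Fin g → H) (hef : SympB om e f)
    (W : H →+ H →+ H →+ M) (hW1 : ∀ u v, W u u v = 0) (hW2 : ∀ u v, W u v v = 0)
    (hW3 : ∀ u v, W u v u = 0)
    (th : H →+ H →+ H →+ H →+ ℝ) (ht1 : ∀ u v w, th u u v w = 0) (ht2 : ∀ u v w, th u v v w = 0)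
    (ht3 : ∀ u v w, th u v w w = 0)
    (hth : th (e i0) (f i0) (e i1) (e i2) = 1)
    (hth0 : th (e i0) (f i0) (e i1) (f i1) = 0)
    (J : M →+ M →+ ℝ) (hJ : ∀ m, J m m = 0)
    (R1 : ∀ x y : Fin g → H, SympB om x y → ∀ c0 c1, c0 ≠ c1 →
      J (W (x c0) (x c1) (y c1)) (W (y c0) (x c1) (y c1)) = th (x c0) (y c0) (x c1) (y c1))
    (R3 : ∀ x y : Fin g → H, SympB om x y → ∀ c0 c1 c2, c0 ≠ c1 → c0 ≠ c2 → c1 ≠ c2 →
      J (W (x c0) (x c1) (y c1) + W (x c0) (x c2) (y c2)) (W (x c1) (x c2) (y c2)) =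
        th (x c0) (x c1) (x c2) (y c2)) : False := by
  -- antisymmetry
  have aJ : ∀ m m', J m m' = -J m' m := by
    intro m m'
    have h := hJ (m + m')
    simp only [map_add, AddMonoidHom.add_apply, hJ, zero_add, add_zero] at h
    linarith
  have aW1 : ∀ u v w, W u v w = -W v u w := by
    intro u v w
    have h := hW1 (u + v) w
    simp only [map_add, AddMonoidHom.add_apply, hW1, zero_add, add_zero] at h
    exact eq_neg_of_add_eq_zero_right h
  have aW2 : ∀ u v w, W u v w = -W u w v := by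
    intro u v w
    have h := hW2 u (v + w)
    simp only [map_add, AddMonoidHom.add_apply, hW2, zero_add, add_zero] at h
    exact eq_neg_of_add_eq_zero_right h
  have at1 : ∀ u v w z, th u v w z = -th v u w z := by
    intro u v w z
    have h := ht1 (u + v) w z
    simp only [map_add, AddMonoidHom.add_apply, ht1, zero_add, add_zero] at h
    linarith
  have at2 : ∀ u v w z, th u v w z = -th u w v z := by
    intro u v w z
    have h := ht2 u (v + w) z
    simp only [map_add, AddMonoidHom.add_apply, ht2, zero_add, add_zero] at h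
    linarith
  have at3 : ∀ u v w z, th u v w z = -th u v z w := by
    intro u v w z
    have h := ht3 u v (w + z)
    simp only [map_add, AddMonoidHom.add_apply, ht3, zero_add, add_zero] at h
    linarith
  -- (R1')
  have R1' : ∀ x y : Fin g → H, SympB om x y → ∀ i j k, i ≠ j → k ≠ j → i ≠ k →
      J (W (x i) (x j) (y j)) (W (x k) (x j) (y j)) = th (x i) (x k) (x j) (y j) := by
    intro x y h i j k hij hkj hik
    have h1 := R1 x y h i j hij
    have h2 := R1 x _ (symp_shear hom h hik 1) i j hij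
    simp only [hij.symm, hkj.symm, hik, if_true, if_false, add_zero, one_smul, smul_zero,
      map_add, AddMonoidHom.add_apply] at h2
    linarith
  -- (R3')
  have R3' : ∀ x y : Fin g → H, SympB om x y → ∀ c0 c1 c2, c0 ≠ c1 → c0 ≠ c2 → c1 ≠ c2 →
      J (W (x c0) (x c1) (y c1)) (W (x c1) (x c2) (y c2)) = 0 := by
    intro x y h c0 c1 c2 g01 g02 g12
    have h1 := R3 x y h c0 c1 c2 g01 g02 g12
    have h2 := R1' x y h c0 c2 c1 g02 g12 g01
    rw [map_add, AddMonoidHom.add_apply, h2] at h1
    linarith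
  -- (ii)
  have key : ∀ x y : Fin g → H, SympB om x y →
      J (W (x i0) (x i1) (y i1)) (W (y i0) (x i1) (x i2)) = th (x i1) (x i2) (x i0) (y i0) := by
    intro x y h
    have h1 := R3' x y h i2 i0 i1 h02.symm h12.symm h01
    have hs := symp_trans h h01
    have h2 := R3' _ _ hs i2 i0 i1 h02.symm h12.symm h01
    have h3 := R1' _ _ hs i1 i0 i2 h01.symm h02.symm h12
    simp only [h01, h01.symm, h02.symm, h12.symm, h02, h12, if_true, if_false, add_zero,
      sub_zero] at h2 h3
    set X := x i0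
    set Y := y i0
    set a := x i1
    set b := y i1
    set c := x i2
    -- `h1 : J (c X Y) (X a b) = 0`, `h2 : J (c (X+a) Y) ((X+a) a (b-Y)) = 0`,
    -- `h3 : J (a (X+a) Y) (c (X+a) Y) = th a c (X+a) Y`
    have e1 : W X a b = W (X + a) a (b - Y) - W a (X + a) Y := by
      simp only [map_add, map_sub, AddMonoidHom.add_apply, hW1, add_zero, sub_zero]
      rw [aW1 a X Y]
      abel
    have e2 : W Y a c = -(W c (X + a) Y) + W c X Y := by
      simp only [map_add, AddMonoidHom.add_apply]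
      rw [aW1 Y a c, aW2 a Y c, neg_neg, aW1 a c Y]
      abel
    have e3 : th a c (X + a) Y = th a c X Y := by
      have : th a c a Y = 0 := by
        rw [at2, ht1, neg_zero]
      rw [map_add, AddMonoidHom.add_apply, this, add_zero]
    rw [e3] at h3
    have s1 : J (W X a b) (W c X Y) = 0 := by rw [aJ, h1, neg_zero]
    have s2 : J (W (X + a) a (b - Y)) (W c (X + a) Y) = 0 := by rw [aJ, h2, neg_zero]
    calc J (W X a b) (W Y a c) = -J (W X a b) (W c (X + a) Y) + J (W X a b) (W c X Y) := by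
          rw [e2, map_add, map_neg]
      _ = -J (W (X + a) a (b - Y) - W a (X + a) Y) (W c (X + a) Y) := by
          rw [s1, add_zero, ← e1]
      _ = th a c X Y := by
          rw [map_sub, AddMonoidHom.sub_apply, s2, h3]
          ring
  -- (iii)
  have k1 := key e f hef
  have k2 := key _ _ (symp_rot hom hef i0)
  simp only [h01.symm, h02.symm, if_true, if_false, map_neg, AddMonoidHom.neg_apply] at k2
  have t1 : th (e i1) (e i2) (e i0) (f i0) = 1 := by
    rw [at2, at1, at3, at2, neg_neg, neg_neg, hth]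
  have t2 : th (e i1) (e i2) (f i0) (e i0) = -1 := by rw [at3, t1]
  -- (i)
  have m0 := R1 e f hef i0 i1 h01
  have m1 := R1 e _ (symp_shear hom hef h12 1) i0 i1 h01
  have m2 := R1 e _ (symp_shear hom hef h12 (-1)) i0 i1 h01
  simp only [h01, h02, h12, if_true, if_false, add_zero, smul_zero, one_smul, neg_smul, map_add,
    map_neg, AddMonoidHom.add_apply, AddMonoidHom.neg_apply] at m1 m2
  rw [t1] at k1
  rw [t2] at k2
  have k3 := aJ (W (e i0) (e i1) (e i2)) (W (f i0) (e i1) (f i1))
  linarith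

end Pool.Agent.CT
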