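import Pool.Agent.CT.Cub

/-!
# CT-LIFT : lifting maps to the circle, total increments

PLAN. `AddCircle.isCoveringMap_coe (1 : ℝ) : IsCoveringMap ((↑) : ℝ → AddCircle (1 : ℝ))`
(`Mathlib/Topology/Covering/AddCircle.lean`) and the lifting theorem for maps from a simply
connected, locally path connected space (`IsCoveringMap.existsUnique_continuousMap_lifts` or
similar, `Mathlib/Topology/Homotopy/Lifting.lean`); `unitInterval` and `unitInterval × unitInterval`
are contractible, hence simply connected. (Alternative: uniform continuity and a finite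
subdivision.) Two lifts of the same map from `unitInterval` differ by a continuous integer valued
function, hence by a constant; this gives `incr_eq`.
`incr_sq`: lift `G` to `l : C(Sq, ℝ)` and use `incr_eq` four times; telescoping.
-/

set_option autoImplicit false

noncomputable section

namespace Pool.Agent.CT

private theorem contractible_unitInterval : ContractibleSpace unitInterval :=
  (convex_Icc (0 : ℝ) 1).contractibleSpace ⟨0, by simp⟩

private theorem lpc_unitInterval : LocallyPathConnectedSpace unitInterval :=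
  (convex_Icc (0 : ℝ) 1).locallyPathConnectedSpace

private theorem exists_lift_gen {A : Type*} [TopologicalSpace A] [SimplyConnectedSpace A]
    [LocallyPathConnectedSpace A] (a₀ : A) (g : C(A, AddCircle (1 : ℝ))) :
    ∃ l : C(A, ℝ), ∀ s, ((l s : ℝ) : AddCircle (1 : ℝ)) = g s := by
  obtain ⟨e₀, he⟩ := QuotientAddGroup.mk_surjective (g a₀)
  obtain ⟨F, ⟨_, hF⟩, _⟩ :=
    (AddCircle.isCoveringMap_coe (1 : ℝ)).existsUnique_continuousMap_lifts g a₀ e₀ he
  exact ⟨F, fun s => congrFun hF s⟩

theorem exists_lift1 (g : C(unitInterval, AddCircle (1 : ℝ))) :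
    ∃ l : C(unitInterval, ℝ), ∀ s, ((l s : ℝ) : AddCircle (1 : ℝ)) = g s := by
  have := contractible_unitInterval
  have := lpc_unitInterval
  exact exists_lift_gen 0 g

theorem exists_lift2 (g : C(Sq, AddCircle (1 : ℝ))) :
    ∃ l : C(Sq, ℝ), ∀ s, ((l s : ℝ) : AddCircle (1 : ℝ)) = g s := by
  have := contractible_unitInterval
  have := lpc_unitInterval
  exact exists_lift_gen (0, 0) g

private theorem two_lifts (l l' : C(unitInterval, ℝ))
    (h : ∀ s, ((l s : ℝ) : AddCircle (1 : ℝ)) = ((l' s : ℝ) : AddCircle (1 : ℝ))) :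
    l 1 - l 0 = l' 1 - l' 0 := by
  obtain ⟨n, hn⟩ : ∃ n : ℤ, n • (1 : ℝ) = l' 0 - l 0 := by
    rw [← AddCircle.coe_eq_zero_iff, AddCircle.coe_sub, h 0, sub_self]
  have key : (fun s => l s + n • (1 : ℝ)) = fun s => l' s := by
    apply (AddCircle.isCoveringMap_coe (1 : ℝ)).eq_of_comp_eq (by fun_prop) (by fun_prop) _ 0
    · rw [hn]; ring
    · funext s
      simp only [Function.comp]
      rw [AddCircle.coe_add, h s]
      have : ((n • (1 : ℝ) : ℝ) : AddCircle (1 : ℝ)) = 0 := AddCircle.coe_eq_zero_iff _ |>.mpr ⟨n, rfl⟩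
      rw [this, add_zero]
  have h1 := congrFun key 1
  have h0 := congrFun key 0
  linarith

theorem incr_eq (g : C(unitInterval, AddCircle (1 : ℝ))) (l : C(unitInterval, ℝ))
    (h : ∀ s, ((l s : ℝ) : AddCircle (1 : ℝ)) = g s) : incr g = l 1 - l 0 := by
  unfold incr
  have hex : ∃ l : C(unitInterval, ℝ), ∀ s, ((l s : ℝ) : AddCircle (1 : ℝ)) = g s := ⟨l, h⟩
  rw [dif_pos hex]
  exact two_lifts _ _ (fun s => (hex.choose_spec s).trans (h s).symm)

theorem incr_add (g g' : C(unitInterval, AddCircle (1 : ℝ))) :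
    incr (g + g') = incr g + incr g' := by
  obtain ⟨l, hl⟩ := exists_lift1 g
  obtain ⟨l', hl'⟩ := exists_lift1 g'
  rw [incr_eq g l hl, incr_eq g' l' hl', incr_eq (g + g') (l + l')]
  · simp only [ContinuousMap.add_apply]; ring
  · intro s
    simp only [ContinuousMap.add_apply]
    rw [AddCircle.coe_add, hl, hl']

theorem incr_sub (g g' : C(unitInterval, AddCircle (1 : ℝ))) :
    incr (g - g') = incr g - incr g' := by
  have := incr_add (g - g') g'
  rw [sub_add_cancel] at this
  linarith

theorem incr_const (g : C(unitInterval, AddCircle (1 : ℝ))) (h : ∀ s s', g s = g s') :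
    incr g = 0 := by
  obtain ⟨x, hx⟩ := QuotientAddGroup.mk_surjective (g 0)
  rw [incr_eq g (ContinuousMap.const _ x)]
  · simp
  · intro s
    simp only [ContinuousMap.const_apply]
    rw [h s 0]
    exact hx

theorem incr_sq (G : C(Sq, AddCircle (1 : ℝ))) :
    incr (G.comp (eB false)) + incr (G.comp (eA true)) - incr (G.comp (eB true)) -
      incr (G.comp (eA false)) = 0 := by
  obtain ⟨l, hl⟩ := exists_lift2 G
  rw [incr_eq (G.comp (eB false)) (l.comp (eB false)) (fun s => hl _),
    incr_eq (G.comp (eB true)) (l.comp (eB true)) (fun s => hl _),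
    incr_eq (G.comp (eA false)) (l.comp (eA false)) (fun s => hl _),
    incr_eq (G.comp (eA true)) (l.comp (eA true)) (fun s => hl _)]
  simp only [ContinuousMap.comp_apply, eA, eB, en, ContinuousMap.coe_mk]
  simp

end Pool.Agent.CT
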