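import Pool.Agent.CT.TvCube
import Pool.Agent.CT.Lift

/-!
# CT-CCOC : the cubical 2-cocycle of a circle cocycle

PLAN. (a) `diff`: if `u`, `v` are trivialisations over `σ : B → K` (continuous, on `Set.univ`), there
is `d : C(B, AddCircle 1)` with `d b = u i b - v i b` whenever `σ b ∈ N i` (choose `i(b)` by
`c.cov`; independence of `i` from `Tv.eq`; continuity: `N i` is open).
(b) For every path `e : C(unitInterval, K)` choose a trivialisation `U e` (`tv_int`) such that
`U e i s` does not depend on `s` if `e` is constant (for a constant path `e = y`, `y ∈ N i0`, take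
`U e j s = c.h i0 j y`).
(c) For `Q : C(Sq, K)` and a trivialisation `u` over `Q` put
`φ Q u = incr (u|B0 - U) + incr (u|A1 - U) - incr (u|B1 - U) - incr (u|A0 - U)`, where `A0, A1,
B0, B1` are the edges `Q ∘ eA false`, ... and `u|B0 - U` is the difference (a) of the restriction
of `u` and of `U (Q ∘ eB false)`. By `incr_sq` and `incr_add`, `φ Q u` does not depend on `u`.
`f Q := φ Q u` for any `u` (`tv_sq`).
(d) `bd`: take a trivialisation over the cube (`tv_cu`) and restrict it to the six faces: every
edge occurs twice with opposite signs. `swap`: `u ∘ sw`. `deg`: for `Q = dg p` take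
`u i (s, t) = U p i s`: the edges `B0`, `B1` give `0`; on the edges `A0`, `A1` the map `Q` is
constant, both `u` and `U` are constant there, `incr = 0` (`incr_const`).
(e) last property: for `Q` with `Q (1, s) = Q (0, s)`, `Q (s, 1) = Q (s, 0)` the edges `B0 = B1` and
`A0 = A1` coincide, so `f Q = [incr (u|B0 - U) - incr (u|B1 - U)] + [incr (u|A1 - U) -
incr (u|A0 - U)] = incr d1 + incr d2` (`incr_sub`).
-/

set_option autoImplicit false

noncomputable section

namespace Pool.Agent.CT

namespace CCoc

variable {K : Type*} [TopologicalSpace K]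

/-- (a) the difference of two trivialisations -/
theorem exists_diff (c : CC K) {B : Type*} [TopologicalSpace B] (σ : B → K) (hσ : Continuous σ)
    (u v : c.ι → B → AddCircle (1 : ℝ)) (hu : c.Tv σ Set.univ u) (hv : c.Tv σ Set.univ v) :
    ∃ d : C(B, AddCircle (1 : ℝ)), ∀ b i, σ b ∈ c.N i → d b = u i b - v i b := by
  classical
  choose ix hix using fun b => c.cov (σ b)
  have key : ∀ b i, σ b ∈ c.N i → u (ix b) b - v (ix b) b = u i b - v i b := by
    intro b i hi
    have h1 := hu.eq (ix b) i b (Set.mem_univ b) (hix b) hi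
    have h2 := hv.eq (ix b) i b (Set.mem_univ b) (hix b) hi
    have h3 : u i b - u (ix b) b = v i b - v (ix b) b := h1.trans h2.symm
    have h4 : u (ix b) b - v (ix b) b - (u i b - v i b) =
      -((u i b - u (ix b) b) - (v i b - v (ix b) b)) := by abel
    have h5 : u (ix b) b - v (ix b) b - (u i b - v i b) = 0 := by
      rw [h4, h3, sub_self, neg_zero]
    exact sub_eq_zero.mp h5
  refine ⟨⟨fun b => u (ix b) b - v (ix b) b, ?_⟩, fun b i hi => key b i hi⟩
  rw [continuous_iff_continuousAt]
  intro b
  have hopen : IsOpen {b' | σ b' ∈ c.N (ix b)} := (c.op (ix b)).preimage hσ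
  have hmem : {b' | σ b' ∈ c.N (ix b)} ∈ nhds b := hopen.mem_nhds (hix b)
  have hset : {b' | b' ∈ (Set.univ : Set B) ∧ σ b' ∈ c.N (ix b)} = {b' | σ b' ∈ c.N (ix b)} := by
    ext b'
    simp
  have hu1 : ContinuousAt (u (ix b)) b := by
    have := hu.cont (ix b)
    rw [hset] at this
    exact this.continuousAt hmem
  have hv1 : ContinuousAt (v (ix b)) b := by
    have := hv.cont (ix b)
    rw [hset] at this
    exact this.continuousAt hmem
  refine (hu1.sub hv1).congr ?_
  filter_upwards [hmem] with b' hb'
  exact (key b' (ix b) hb').symm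

/-- (a) the difference of two trivialisations, chosen -/
def dff (c : CC K) {B : Type*} [TopologicalSpace B] (σ : B → K)
    (u v : c.ι → B → AddCircle (1 : ℝ)) : C(B, AddCircle (1 : ℝ)) :=
  letI := Classical.propDecidable
  if h : ∃ d : C(B, AddCircle (1 : ℝ)), ∀ b i, σ b ∈ c.N i → d b = u i b - v i b then h.choose
  else 0

theorem dff_spec (c : CC K) {B : Type*} [TopologicalSpace B] (σ : B → K) (hσ : Continuous σ)
    (u v : c.ι → B → AddCircle (1 : ℝ)) (hu : c.Tv σ Set.univ u) (hv : c.Tv σ Set.univ v)
    (b : B) (i : c.ι) (hi : σ b ∈ c.N i) : dff c σ u v b = u i b - v i b := by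
  have h := exists_diff c σ hσ u v hu hv
  unfold dff
  rw [dif_pos h]
  exact h.choose_spec b i hi

/-- the value on an edge -/
def ed (c : CC K) (U : C(unitInterval, K) → c.ι → unitInterval → AddCircle (1 : ℝ))
    (e : C(unitInterval, K)) (u : c.ι → unitInterval → AddCircle (1 : ℝ)) : ℝ :=
  incr (dff c e u (U e))

/-- the value on a square -/
def ph (c : CC K) (U : C(unitInterval, K) → c.ι → unitInterval → AddCircle (1 : ℝ))
    (Q : C(Sq, K)) (u : c.ι → Sq → AddCircle (1 : ℝ)) : ℝ :=
  ed c U (Q.comp (eB false)) (fun i s => u i (eB false s)) +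
    ed c U (Q.comp (eA true)) (fun i s => u i (eA true s)) -
    ed c U (Q.comp (eB true)) (fun i s => u i (eB true s)) -
    ed c U (Q.comp (eA false)) (fun i s => u i (eA false s))

theorem exists_U (c : CC K) :
    ∃ U : C(unitInterval, K) → c.ι → unitInterval → AddCircle (1 : ℝ),
      (∀ e : C(unitInterval, K), c.Tv e Set.univ (U e)) ∧
      ∀ e : C(unitInterval, K), (∀ s s', e s = e s') → ∀ i s s', U e i s = U e i s' := by
  classical
  have h : ∀ e : C(unitInterval, K), ∃ u : c.ι → unitInterval → AddCircle (1 : ℝ),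
      c.Tv e Set.univ u ∧ ((∀ s s', e s = e s') → ∀ i s s', u i s = u i s') := by
    intro e
    by_cases he : ∀ s s', e s = e s'
    · obtain ⟨i0, hi0⟩ := c.cov (e 0)
      refine ⟨fun j _ => c.h i0 j (e 0), ⟨fun i => continuousOn_const, ?_⟩, fun _ _ _ _ => rfl⟩
      intro i j s _ hi hj
      rw [he s 0] at hi hj ⊢
      have := c.coc i0 i j (e 0) hi0 hi hj
      rw [← this]
      abel
    · obtain ⟨u, hu⟩ := tv_int c e
      exact ⟨u, hu, fun h => absurd h he⟩
  choose U hU1 hU2 using h
  exact ⟨U, hU1, hU2⟩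

theorem tv_comp {c : CC K} {B B' : Type*} [TopologicalSpace B] [TopologicalSpace B']
    {σ : C(B, K)} {u : c.ι → B → AddCircle (1 : ℝ)} (h : c.Tv σ Set.univ u) (ψ : C(B', B)) :
    c.Tv (σ.comp ψ) Set.univ (fun i b => u i (ψ b)) :=
  h.comp (fun b => ψ b) ψ.continuous Set.univ (fun _ _ => Set.mem_univ _)

theorem ed_sub (c : CC K) (U : C(unitInterval, K) → c.ι → unitInterval → AddCircle (1 : ℝ))
    (hU : ∀ e : C(unitInterval, K), c.Tv e Set.univ (U e)) (Q : C(Sq, K))
    (u v : c.ι → Sq → AddCircle (1 : ℝ))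
    (hu : c.Tv Q Set.univ u) (hv : c.Tv Q Set.univ v) (ψ : C(unitInterval, Sq)) :
    ed c U (Q.comp ψ) (fun i s => u i (ψ s)) - ed c U (Q.comp ψ) (fun i s => v i (ψ s)) =
      incr ((dff c Q u v).comp ψ) := by
  unfold ed
  rw [← incr_sub]
  congr 1
  ext s
  obtain ⟨i, hi⟩ := c.cov (Q (ψ s))
  have h1 := dff_spec c (Q.comp ψ) (Q.comp ψ).continuous _ _ (tv_comp hu ψ) (hU _) s i hi
  have h2 := dff_spec c (Q.comp ψ) (Q.comp ψ).continuous _ _ (tv_comp hv ψ) (hU _) s i hi
  have h3 := dff_spec c Q Q.continuous _ _ hu hv (ψ s) i hi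
  rw [ContinuousMap.sub_apply, ContinuousMap.comp_apply, h1, h2, h3]
  abel

theorem ph_eq (c : CC K) (U : C(unitInterval, K) → c.ι → unitInterval → AddCircle (1 : ℝ))
    (hU : ∀ e : C(unitInterval, K), c.Tv e Set.univ (U e)) (Q : C(Sq, K))
    (u v : c.ι → Sq → AddCircle (1 : ℝ))
    (hu : c.Tv Q Set.univ u) (hv : c.Tv Q Set.univ v) : ph c U Q u = ph c U Q v := by
  have h1 := ed_sub c U hU Q u v hu hv (eB false)
  have h2 := ed_sub c U hU Q u v hu hv (eA true)
  have h3 := ed_sub c U hU Q u v hu hv (eB true)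
  have h4 := ed_sub c U hU Q u v hu hv (eA false)
  have h5 := incr_sq (dff c Q u v)
  unfold ph
  linarith

theorem ed_congr (c : CC K) (U : C(unitInterval, K) → c.ι → unitInterval → AddCircle (1 : ℝ))
    {e e' : C(unitInterval, K)} {u u' : c.ι → unitInterval → AddCircle (1 : ℝ)} (he : e = e')
    (hu : u = u') : ed c U e u = ed c U e' u' := by
  rw [he, hu]

/-- the edges of the cube -/
def ex (j k : Bool) : C(unitInterval, Cu) := ⟨fun s => (s, en j, en k), by fun_prop⟩

/-- the edges of the cube -/
def ey (j k : Bool) : C(unitInterval, Cu) := ⟨fun s => (en j, s, en k), by fun_prop⟩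

/-- the edges of the cube -/
def ez (j k : Bool) : C(unitInterval, Cu) := ⟨fun s => (en j, en k, s), by fun_prop⟩

theorem fA_eB (i j : Bool) : (fA i).comp (eB j) = ey i j := rfl
theorem fA_eA (i j : Bool) : (fA i).comp (eA j) = ez i j := rfl
theorem fB_eB (i j : Bool) : (fB i).comp (eB j) = ex i j := rfl
theorem fB_eA (i j : Bool) : (fB i).comp (eA j) = ez j i := rfl
theorem fC_eB (i j : Bool) : (fC i).comp (eB j) = ex j i := rfl
theorem fC_eA (i j : Bool) : (fC i).comp (eA j) = ey j i := rfl

end CCoc

open CCoc in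
theorem exists_coc {K : Type*} [TopologicalSpace K] (c : CC K) :
    ∃ f : C(Sq, K) → ℝ, Coc f ∧ ∀ (Q : C(Sq, K)) (u : c.ι → Sq → AddCircle (1 : ℝ))
      (d1 d2 : C(unitInterval, AddCircle (1 : ℝ))), c.Tor Q u d1 d2 →
      f Q = incr d1 + incr d2 := by
  classical
  obtain ⟨U, hU, hUc⟩ := exists_U c
  choose t ht using fun Q : C(Sq, K) => tv_sq c Q
  have hf : ∀ (Q : C(Sq, K)) (u : c.ι → Sq → AddCircle (1 : ℝ)), c.Tv Q Set.univ u →
      ph c U Q (t Q) = ph c U Q u := fun Q u hu => ph_eq c U hU Q (t Q) u (ht Q) hu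
  refine ⟨fun Q => ph c U Q (t Q), ⟨?_, ?_, ?_⟩, ?_⟩
  · intro R
    obtain ⟨w, hw⟩ := tv_cu c R
    have key : ∀ ψ : C(Sq, Cu), ph c U (R.comp ψ) (t (R.comp ψ)) =
        ph c U (R.comp ψ) (fun i s => w i (ψ s)) := fun ψ => hf _ _ (tv_comp hw ψ)
    have hA : ∀ i, ph c U (R.comp (fA i)) (t (R.comp (fA i))) =
        ed c U (R.comp (ey i false)) (fun l s => w l (ey i false s)) +
        ed c U (R.comp (ez i true)) (fun l s => w l (ez i true s)) -
        ed c U (R.comp (ey i true)) (fun l s => w l (ey i true s)) -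
        ed c U (R.comp (ez i false)) (fun l s => w l (ez i false s)) := fun i => key (fA i)
    have hB : ∀ i, ph c U (R.comp (fB i)) (t (R.comp (fB i))) =
        ed c U (R.comp (ex i false)) (fun l s => w l (ex i false s)) +
        ed c U (R.comp (ez true i)) (fun l s => w l (ez true i s)) -
        ed c U (R.comp (ex i true)) (fun l s => w l (ex i true s)) -
        ed c U (R.comp (ez false i)) (fun l s => w l (ez false i s)) := fun i => key (fB i)
    have hC : ∀ i, ph c U (R.comp (fC i)) (t (R.comp (fC i))) =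
        ed c U (R.comp (ex false i)) (fun l s => w l (ex false i s)) +
        ed c U (R.comp (ey true i)) (fun l s => w l (ey true i s)) -
        ed c U (R.comp (ex true i)) (fun l s => w l (ex true i s)) -
        ed c U (R.comp (ey false i)) (fun l s => w l (ey false i s)) := fun i => key (fC i)
    unfold bdry
    beta_reduce
    rw [hA true, hA false, hB true, hB false, hC true, hC false]
    ring
  · intro Q
    have h1 : ph c U (Q.comp sw) (t (Q.comp sw)) =
        ph c U (Q.comp sw) (fun i s => t Q i (sw s)) := hf _ _ (tv_comp (ht Q) sw)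
    have h2 : ph c U (Q.comp sw) (fun i s => t Q i (sw s)) =
        ed c U (Q.comp (eA false)) (fun i s => t Q i (eA false s)) +
        ed c U (Q.comp (eB true)) (fun i s => t Q i (eB true s)) -
        ed c U (Q.comp (eA true)) (fun i s => t Q i (eA true s)) -
        ed c U (Q.comp (eB false)) (fun i s => t Q i (eB false s)) := rfl
    show ph c U (Q.comp sw) (t (Q.comp sw)) = - ph c U Q (t Q)
    rw [h1, h2]
    unfold ph
    ring
  · intro p
    have htv : c.Tv (dg p) Set.univ (fun i s => U p i s.1) :=
      (hU p).comp (fun s : Sq => s.1) continuous_fst Set.univ (fun _ _ => Set.mem_univ _)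
    show ph c U (dg p) (t (dg p)) = 0
    rw [hf _ _ htv]
    have hBB : ∀ j, ed c U ((dg p).comp (eB j)) (fun i s => U p i (eB j s).1) = 0 := by
      intro j
      have h1 : (dg p).comp (eB j) = p := rfl
      rw [h1]
      unfold ed
      apply incr_const
      intro s s'
      obtain ⟨i, hi⟩ := c.cov (p s)
      obtain ⟨i', hi'⟩ := c.cov (p s')
      have e1 := dff_spec c p p.continuous (fun i s => U p i (eB j s).1) (U p) (hU p) (hU p) s i hi
      have e2 := dff_spec c p p.continuous (fun i s => U p i (eB j s).1) (U p) (hU p) (hU p) s' i'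
        hi'
      rw [e1, e2]
      show U p i s - U p i s = U p i' s' - U p i' s'
      rw [sub_self, sub_self]
    have hAA : ∀ j, ed c U ((dg p).comp (eA j)) (fun i s => U p i (eA j s).1) = 0 := by
      intro j
      have hc : ∀ s s', (dg p).comp (eA j) s = (dg p).comp (eA j) s' := fun s s' => rfl
      have hcU := hUc _ hc
      unfold ed
      apply incr_const
      intro s s'
      obtain ⟨i, hi⟩ := c.cov ((dg p).comp (eA j) s)
      have htv' : c.Tv ((dg p).comp (eA j)) Set.univ (fun i s => U p i (eA j s).1) :=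
        tv_comp htv (eA j)
      have e1 := dff_spec c ((dg p).comp (eA j)) ((dg p).comp (eA j)).continuous _ _ htv' (hU _)
        s i hi
      have e2 := dff_spec c ((dg p).comp (eA j)) ((dg p).comp (eA j)).continuous _ _ htv' (hU _)
        s' i hi
      rw [e1, e2, hcU i s s']
      rfl
    unfold ph
    rw [hBB false, hBB true, hAA false, hAA true]
    ring
  · intro Q u d1 d2 h
    show ph c U Q (t Q) = _
    rw [hf Q u h.tv]
    have hB : Q.comp (eB true) = Q.comp (eB false) := by
      ext s
      exact h.per2 s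
    have hA : Q.comp (eA true) = Q.comp (eA false) := by
      ext s
      exact h.per1 s
    have h1 : ed c U (Q.comp (eB false)) (fun i s => u i (eB false s)) -
        ed c U (Q.comp (eB true)) (fun i s => u i (eB true s)) = incr d1 := by
      have tv1 := tv_comp h.tv (eB true)
      rw [hB] at tv1 ⊢
      unfold ed
      rw [← incr_sub]
      congr 1
      ext s
      obtain ⟨i, hi⟩ := c.cov (Q.comp (eB false) s)
      have e1 := dff_spec c (Q.comp (eB false)) (Q.comp (eB false)).continuous _ _
        (tv_comp h.tv (eB false)) (hU _) s i hi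
      have e2 := dff_spec c (Q.comp (eB false)) (Q.comp (eB false)).continuous _ _
        tv1 (hU _) s i hi
      rw [ContinuousMap.sub_apply, e1, e2, h.eq1 i s hi]
      show u i (s, 0) - _ - (u i (s, 1) - _) = _
      abel
    have h2 : ed c U (Q.comp (eA true)) (fun i s => u i (eA true s)) -
        ed c U (Q.comp (eA false)) (fun i s => u i (eA false s)) = incr d2 := by
      have tv1 := tv_comp h.tv (eA true)
      rw [hA] at tv1 ⊢
      unfold ed
      rw [← incr_sub]
      congr 1
      ext s
      obtain ⟨i, hi⟩ := c.cov (Q.comp (eA false) s)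
      have e1 := dff_spec c (Q.comp (eA false)) (Q.comp (eA false)).continuous _ _
        (tv_comp h.tv (eA false)) (hU _) s i hi
      have e2 := dff_spec c (Q.comp (eA false)) (Q.comp (eA false)).continuous _ _
        tv1 (hU _) s i hi
      rw [ContinuousMap.sub_apply, e1, e2, h.eq2 i s hi]
      show u i (1, s) - _ - (u i (0, s) - _) = _
      abel
    unfold ph
    linarith

end Pool.Agent.CT
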