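import Pool.Agent.CT.Lift

/-!
# CT-INCRDERIV : the increment of a path in the circle is the integral of its derivative

PLAN. `L s = ∫ x in (0 : ℝ)..s, φ x` has derivative `φ`. The map
`g s - (L s : AddCircle 1)` is locally constant on `unitInterval`: near `s` it is
`((Ψ - L) s' : AddCircle)` and `Ψ - L` has derivative `0` on an interval around `s`
(`is_const_of_deriv_eq_zero` on a ball, e.g. `Convex.is_const_of_fderivWithin_eq_zero` or
`constant_of_has_deriv_right_zero`), so it is constant (`IsLocallyConstant`, `unitInterval` is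
preconnected). Choose `r : ℝ` with `(r : AddCircle 1) = g 0`; `s ↦ L s + r` is a lift of `g`;
`incr_eq`.
-/

set_option autoImplicit false

noncomputable section

open scoped Topology

namespace Pool.Agent.CT

theorem incr_of_deriv (g : C(unitInterval, AddCircle (1 : ℝ))) (φ : ℝ → ℝ) (hφ : Continuous φ)
    (h : ∀ s : unitInterval, ∃ Ψ : ℝ → ℝ,
      (∀ᶠ s' : unitInterval in 𝓝 s, ((Ψ s' : ℝ) : AddCircle (1 : ℝ)) = g s') ∧
      ∀ᶠ s' in 𝓝 (s : ℝ), HasDerivAt Ψ (φ s') s') :
    incr g = ∫ s in (0 : ℝ)..1, φ s := by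
  set L : ℝ → ℝ := fun s => ∫ x in (0 : ℝ)..s, φ x with hL
  have hLd : ∀ s, HasDerivAt L (φ s) s := fun s =>
    intervalIntegral.integral_hasDerivAt_right (hφ.intervalIntegrable _ _)
      (hφ.stronglyMeasurableAtFilter _ _) hφ.continuousAt
  have hLc : Continuous L := continuous_iff_continuousAt.2 fun s => (hLd s).continuousAt
  set D : unitInterval → AddCircle (1 : ℝ) := fun s => g s - ((L s : ℝ) : AddCircle (1 : ℝ)) with hD
  have hloc : IsLocallyConstant D := by
    rw [IsLocallyConstant.iff_eventually_eq]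
    intro s
    obtain ⟨Ψ, h1, h2⟩ := h s
    obtain ⟨r, hr, hr'⟩ := Metric.eventually_nhds_iff_ball.1 h2
    have hconst : ∀ t ∈ Metric.ball (s : ℝ) r, Ψ t - L t = Ψ s - L s := by
      intro t ht
      have h3 := (convex_ball (s : ℝ) r).norm_image_sub_le_of_norm_hasDerivWithin_le
        (f := fun t => Ψ t - L t) (f' := fun _ => (0 : ℝ)) (C := 0)
        (fun x hx => by
          have := ((hr' x hx).sub (hLd x)).hasDerivWithinAt (s := Metric.ball (s : ℝ) r)
          rwa [sub_self] at this)
        (fun _ _ => by simp) (Metric.mem_ball_self hr) ht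
      rw [zero_mul] at h3
      exact sub_eq_zero.1 (norm_le_zero_iff.1 h3)
    have h4 : ∀ᶠ t : unitInterval in 𝓝 s, (t : ℝ) ∈ Metric.ball (s : ℝ) r :=
      continuous_subtype_val.continuousAt.eventually (Metric.ball_mem_nhds _ hr)
    filter_upwards [h1, h4] with t ht1 ht2
    have h5 := hconst t ht2
    have h6 := h1.self_of_nhds
    simp only [hD]
    rw [← ht1, ← h6, ← QuotientAddGroup.mk_sub, ← QuotientAddGroup.mk_sub, h5]
  obtain ⟨r, hr⟩ := QuotientAddGroup.mk_surjective (D 0)
  have hg : ∀ s : unitInterval, ((L s + r : ℝ) : AddCircle (1 : ℝ)) = g s := by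
    intro s
    have h1 : D s = D 0 := hloc.apply_eq_of_preconnectedSpace s 0
    have h2 : g s = ((L s : ℝ) : AddCircle (1 : ℝ)) + D s := by
      simp only [hD]
      abel
    rw [h2, h1, ← hr]
    rfl
  rw [incr_eq g ⟨fun s => L s + r, by fun_prop⟩ hg]
  show L ((1 : unitInterval) : ℝ) + r - (L ((0 : unitInterval) : ℝ) + r) = _
  simp [hL]

end Pool.Agent.CT
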