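import Pool.Agent.CT.TvCube
import Pool.Agent.CT.IncrDeriv

/-!
# CT-CW : Chern-Weil formula for circle cocycles on a torus

`a1 i, a2 i` are the components of the connection form in the trivialisation `i`, `F` is the
curvature.

PLAN. Take a trivialisation `u` over the square `sqr Q` (`tv_sq`); `d1, d2` are the continuous maps
`d1 s = u i (s, 0) - u i (s, 1)` (any `i` with `Q (s, 0) ∈ N i`; independent of `i` because
`Q (s, 1) = Q (s, 0)`), similarly `d2`. Claim `incr d1 + incr d2 = - ∫ F`.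
Grid: `lebesgue_number_lemma_of_metric`: there is `n ≥ 1` such that every closed box
`B j k = [j/n, (j+1)/n] × [k/n, (k+1)/n]` (`j, k < n`) is mapped by `Q` to some `N i`, `i = i(j,k)`.
For an oriented edge `e` (horizontal or vertical, as an affine path in the unit square) with
`Q (e) ⊆ N i` put `δ i e = incr (u i ∘ e) - ∫_e (a1 i dx + a2 i dy)`. If also `Q (e) ⊆ N j`, then
`δ i e = δ j e`: `u j - u i = h i j ∘ Q` on `e` and `incr (h i j ∘ Q ∘ e) = ∫_e (a^j - a^i)` by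
`incr_of_deriv` and `hh`. For a box `B` with `Q (B) ⊆ N i` the alternating sum of `incr (u i ∘ e)`
over its four edges is `0` (`incr_sq`), and the alternating sum of the integrals of `a^i` is
`∫_B (∂₁ a2 - ∂₂ a1) = ∫_B F` (Green: `MeasureTheory.integral2_divergence_prod_of_hasFDerivWithinAt_off_countable`
or twice the fundamental theorem of calculus). So the alternating sum of the `δ e` over the four
edges of a box `B` is `- ∫_B F`. Summing over all boxes only the edges on the boundary of the unit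
square remain: `- ∫_{[0,1]²} F = Σ_j (δ (bottom j) - δ (top j)) + Σ_k (δ (right k) - δ (left k))`.
`δ (bottom j) - δ (top j) = incr (d1 on [j/n, (j+1)/n])` because `Q` and `a1 i` are periodic in the
second variable; the sum over `j` is `incr d1` (lift `d1` by `exists_lift1`). Same for `d2`.
(It is convenient to lift `u i` on every small box to a real function, or to define for a path
`γ : ℝ → AddCircle 1`, continuous on `[a, b]`, its increment on `[a, b]`.)
-/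

set_option autoImplicit false

noncomputable section

open scoped Topology

namespace Pool.Agent.CT

open Metric Set Filter

variable {K : Type*} [TopologicalSpace K]

/-- local primitives of the form `f1 dx + f2 dy` -/
private structure CwPot (f1 f2 : ℝ × ℝ → ℝ) (A : ℝ × ℝ → ℝ) (b : ℝ × ℝ) : Prop where
  cont : ContinuousAt A b
  d1 : ∀ᶠ b' in 𝓝 b, HasDerivAt (fun x => A (x, b'.2)) (f1 b') b'.1
  d2 : ∀ᶠ b' in 𝓝 b, HasDerivAt (fun y => A (b'.1, y)) (f2 b') b'.2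

private lemma cw_const1 (f : ℝ → ℝ) (x0 ε : ℝ) (h : ∀ x ∈ ball x0 ε, HasDerivAt f 0 x) (x : ℝ)
    (hx : x ∈ ball x0 ε) : f x = f x0 := by
  refine IsOpen.is_const_of_deriv_eq_zero isOpen_ball (convex_ball x0 ε).isPreconnected
    (fun y hy => (h y hy).differentiableAt.differentiableWithinAt)
    (fun y hy => (h y hy).deriv) hx (mem_ball_self ?_)
  exact pos_of_mem_ball hx

private lemma cw_const (f1 f2 A A' : ℝ × ℝ → ℝ) (b : ℝ × ℝ) (h : CwPot f1 f2 A b)
    (h' : CwPot f1 f2 A' b) : ∃ k : ℝ, ∀ᶠ b' in 𝓝 b, A b' = A' b' + k := by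
  refine ⟨A b - A' b, ?_⟩
  obtain ⟨ε, hε, hb⟩ := Metric.eventually_nhds_iff_ball.1
    (h.d1.and (h'.d1.and (h.d2.and h'.d2)))
  refine Metric.eventually_nhds_iff_ball.2 ⟨ε, hε, ?_⟩
  rintro ⟨x, y⟩ hxy
  obtain ⟨x0, y0⟩ := b
  rw [← ball_prod_same] at hb hxy
  obtain ⟨hx, hy⟩ := hxy
  have e1 := cw_const1 (fun x => A (x, y0) - A' (x, y0)) x0 ε (by
    intro z hz
    have h1 := hb (z, y0) ⟨hz, mem_ball_self hε⟩
    have h2 := h1.1.sub h1.2.1
    rw [sub_self] at h2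
    exact h2) x hx
  have e2 := cw_const1 (fun y => A (x, y) - A' (x, y)) y0 ε (by
    intro z hz
    have h1 := hb (x, z) ⟨hx, hz⟩
    have h2 := h1.2.2.1.sub h1.2.2.2
    rw [sub_self] at h2
    exact h2) y hy
  linarith

private lemma CwPot.add_const {f1 f2 A : ℝ × ℝ → ℝ} {b : ℝ × ℝ} (h : CwPot f1 f2 A b) (r : ℝ) :
    CwPot f1 f2 (fun b => A b + r) b where
  cont := h.cont.add continuousAt_const
  d1 := by
    filter_upwards [h.d1] with b' hb
    exact hb.add_const r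
  d2 := by
    filter_upwards [h.d2] with b' hb
    exact hb.add_const r

/-- parallel trivialisations over `s` -/
private def CwGood (c : CC K) (Q : ℝ × ℝ → K) (f1 f2 : c.ι → ℝ × ℝ → ℝ) (s : Set (ℝ × ℝ)) : Prop :=
  ∃ v : c.ι → ℝ × ℝ → AddCircle (1 : ℝ),
    (∀ i j, ∀ b ∈ s, Q b ∈ c.N i → Q b ∈ c.N j → v j b - v i b = c.h i j (Q b)) ∧
    ∀ i, ∀ b ∈ s, Q b ∈ c.N i → ∃ A, CwPot (f1 i) (f2 i) A b ∧
      ∀ᶠ b' in 𝓝[s] b, ((A b' : ℝ) : AddCircle (1 : ℝ)) = v i b'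

private lemma cw_union (c : CC K) (Q : ℝ × ℝ → K) (hQ : Continuous Q)
    (f1 f2 : c.ι → ℝ × ℝ → ℝ) (s t : Set (ℝ × ℝ)) (hs : IsClosed s) (ht : IsClosed t)
    (hst : IsPreconnected (s ∩ t)) (b0 : ℝ × ℝ) (hb0 : b0 ∈ s ∩ t) (h1 : CwGood c Q f1 f2 s)
    (h2 : CwGood c Q f1 f2 t) : CwGood c Q f1 f2 (s ∪ t) := by
  classical
  obtain ⟨v, hv, hvA⟩ := h1
  obtain ⟨v', hv', hvA'⟩ := h2
  have hind : ∀ b ∈ s ∩ t, ∀ i j, Q b ∈ c.N i → Q b ∈ c.N j → v i b - v' i b = v j b - v' j b := by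
    intro b hb i j hi hj
    have e1 := hv i j b hb.1 hi hj
    have e2 := hv' i j b hb.2 hi hj
    have e3 : v j b - v i b = v' j b - v' i b := by rw [e1, e2]
    rw [sub_eq_sub_iff_sub_eq_sub]
    have e4 := congrArg Neg.neg e3
    rw [neg_sub, neg_sub] at e4
    exact e4
  let ix : ℝ × ℝ → c.ι := fun b => (c.cov (Q b)).choose
  have hix : ∀ b, Q b ∈ c.N (ix b) := fun b => (c.cov (Q b)).choose_spec
  let κ : ↥(s ∩ t) → AddCircle (1 : ℝ) := fun b => v (ix b) b - v' (ix b) b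
  -- local form
  have hloc : ∀ b ∈ s ∩ t, ∀ i, Q b ∈ c.N i → ∀ A A' : ℝ × ℝ → ℝ, CwPot (f1 i) (f2 i) A b →
      CwPot (f1 i) (f2 i) A' b → (∀ᶠ b' in 𝓝[s] b, ((A b' : ℝ) : AddCircle (1 : ℝ)) = v i b') →
      (∀ᶠ b' in 𝓝[t] b, ((A' b' : ℝ) : AddCircle (1 : ℝ)) = v' i b') →
      ∃ k : ℝ, (∀ᶠ b' in 𝓝 b, A b' = A' b' + k) ∧
        (∀ᶠ b' in 𝓝[s ∩ t] b, v i b' - v' i b' = (k : AddCircle (1 : ℝ))) := by
    intro b hb i hi A A' hA hA' e1 e2
    obtain ⟨k, hk⟩ := cw_const _ _ _ _ _ hA hA'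
    refine ⟨k, hk, ?_⟩
    have e1' := e1.filter_mono (nhdsWithin_mono b (inter_subset_left : s ∩ t ⊆ s))
    have e2' := e2.filter_mono (nhdsWithin_mono b (inter_subset_right : s ∩ t ⊆ t))
    have hk' := hk.filter_mono (nhdsWithin_le_nhds : 𝓝[s ∩ t] b ≤ 𝓝 b)
    filter_upwards [e1', e2', hk'] with b' g1 g2 g3
    rw [← g1, ← g2, g3, AddCircle.coe_add, add_sub_cancel_left]
  have hN : ∀ b i, Q b ∈ c.N i → ∀ᶠ b' in 𝓝 b, Q b' ∈ c.N i := fun b i hi =>
    hQ.continuousAt.eventually ((c.op i).mem_nhds hi)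
  have hlc : IsLocallyConstant κ := by
    rw [IsLocallyConstant.iff_eventually_eq]
    intro x
    obtain ⟨A, hA, e1⟩ := hvA (ix x) x x.2.1 (hix x)
    obtain ⟨A', hA', e2⟩ := hvA' (ix x) x x.2.2 (hix x)
    obtain ⟨k, -, hk⟩ := hloc x x.2 (ix x) (hix x) A A' hA hA' e1 e2
    have hk0 : κ x = (k : AddCircle (1 : ℝ)) := hk.self_of_nhdsWithin x.2
    have h3 : ∀ᶠ b' in 𝓝[s ∩ t] (x : ℝ × ℝ), v (ix b') b' - v' (ix b') b' = (k : AddCircle (1 : ℝ)) := by
      filter_upwards [hk, (hN x (ix x) (hix x)).filter_mono nhdsWithin_le_nhds,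
        self_mem_nhdsWithin] with b' g1 g2 g3
      rw [hind b' g3 (ix b') (ix x) (hix b') g2, g1]
    rw [hk0]
    exact (eventually_nhds_subtype_iff (s ∩ t) x
      (fun b' => v (ix b') b' - v' (ix b') b' = (k : AddCircle (1 : ℝ)))).2 h3
  have : PreconnectedSpace ↥(s ∩ t) := Subtype.preconnectedSpace hst
  set κ0 : AddCircle (1 : ℝ) := κ ⟨b0, hb0⟩ with hκ0
  have hκ : ∀ b ∈ s ∩ t, ∀ i, Q b ∈ c.N i → v i b - v' i b = κ0 := by
    intro b hb i hi
    rw [hind b hb i (ix b) hi (hix b)]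
    exact hlc.apply_eq_of_preconnectedSpace ⟨b, hb⟩ ⟨b0, hb0⟩
  obtain ⟨r, hr⟩ : ∃ r : ℝ, (r : AddCircle (1 : ℝ)) = κ0 := QuotientAddGroup.mk_surjective κ0
  refine ⟨fun i b => if b ∈ s then v i b else v' i b + κ0, ?_, ?_⟩
  · intro i j b hb hi hj
    by_cases hbs : b ∈ s
    · simp only [if_pos hbs]
      exact hv i j b hbs hi hj
    · simp only [if_neg hbs]
      rw [add_sub_add_right_eq_sub]
      exact hv' i j b (hb.resolve_left hbs) hi hj
  · intro i b hb hi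
    by_cases hbs : b ∈ s
    · obtain ⟨A, hA, e1⟩ := hvA i b hbs hi
      refine ⟨A, hA, ?_⟩
      rw [eventually_nhdsWithin_iff] at e1 ⊢
      by_cases hbt : b ∈ t
      · obtain ⟨A', hA', e2⟩ := hvA' i b hbt hi
        obtain ⟨k, hk, hk2⟩ := hloc b ⟨hbs, hbt⟩ i hi A A' hA hA'
          (eventually_nhdsWithin_iff.2 e1) e2
        have hk3 : κ0 = (k : AddCircle (1 : ℝ)) := by
          rw [← hκ b ⟨hbs, hbt⟩ i hi]
          exact hk2.self_of_nhdsWithin ⟨hbs, hbt⟩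
        rw [eventually_nhdsWithin_iff] at e2
        filter_upwards [e1, e2, hk] with b' g1 g2 g3 g4
        by_cases hbs' : b' ∈ s
        · rw [if_pos hbs']
          exact g1 hbs'
        · rw [if_neg hbs', g3, AddCircle.coe_add, g2 (g4.resolve_left hbs'), hk3]
      · filter_upwards [e1, ht.isOpen_compl.mem_nhds hbt] with b' g1 g2 g4
        have hbs' : b' ∈ s := g4.resolve_right g2
        rw [if_pos hbs']
        exact g1 hbs'
    · have hbt : b ∈ t := hb.resolve_left hbs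
      obtain ⟨A', hA', e2⟩ := hvA' i b hbt hi
      refine ⟨fun b => A' b + r, hA'.add_const r, ?_⟩
      rw [eventually_nhdsWithin_iff] at e2 ⊢
      filter_upwards [e2, hs.isOpen_compl.mem_nhds hbs] with b' g1 g2 g4
      rw [if_neg g2, AddCircle.coe_add, g1 (g4.resolve_left g2), hr]

/-- the primitive in the second variable -/
private def cwG (F : ℝ × ℝ → ℝ) (b : ℝ × ℝ) : ℝ := ∫ t in (0 : ℝ)..b.2, F (b.1, t)

private lemma cwG_cont (F : ℝ × ℝ → ℝ) (hF : Continuous F) : Continuous (cwG F) := by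
  unfold cwG
  exact intervalIntegral.continuous_parametric_intervalIntegral_of_continuous
    (f := fun (b : ℝ × ℝ) t => F (b.1, t)) (by fun_prop) continuous_snd

/-- the integral over a vertical segment and its derivative -/
private lemma cw_vert (a : ℝ × ℝ → ℝ) (ha : ContDiff ℝ 1 a) (y0 y x : ℝ) :
    HasDerivAt (fun x => ∫ t in y0..y, a (x, t)) (∫ t in y0..y, fderiv ℝ a (x, t) (1, 0)) x := by
  have hd : Continuous fun b : ℝ × ℝ => fderiv ℝ a b (1, 0) :=
    (ha.continuous_fderiv one_ne_zero).clm_apply continuous_const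
  have hdx : ∀ z t : ℝ, HasDerivAt (fun z => a (z, t)) (fderiv ℝ a (z, t) (1, 0)) z := by
    intro z t
    have h1 : HasFDerivAt a (fderiv ℝ a (z, t)) (z, t) :=
      (ha.differentiable one_ne_zero _).hasFDerivAt
    have h2 : HasDerivAt (fun z : ℝ => (z, t)) ((1 : ℝ), (0 : ℝ)) z :=
      (hasDerivAt_id z).prodMk (hasDerivAt_const z t)
    exact h1.comp_hasDerivAt z h2
  -- a bound on a compact set
  obtain ⟨C, hC⟩ := (isCompact_Icc (a := x - 1) (b := x + 1)).prod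
    (isCompact_uIcc (a := y0) (b := y)) |>.exists_bound_of_continuousOn hd.continuousOn
  refine (intervalIntegral.hasDerivAt_integral_of_dominated_loc_of_deriv_le
    (F := fun x t => a (x, t)) (F' := fun x t => fderiv ℝ a (x, t) (1, 0)) (bound := fun _ => C)
    (s := Icc (x - 1) (x + 1)) (Icc_mem_nhds (by linarith) (by linarith)) ?_ ?_ ?_ ?_ ?_ ?_).2
  · apply Filter.Eventually.of_forall
    intro z
    exact (ha.continuous.comp (by fun_prop : Continuous fun t : ℝ => (z, t))).aestronglyMeasurable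
  · exact (ha.continuous.comp (by fun_prop : Continuous fun t : ℝ => (x, t))).intervalIntegrable _ _
  · exact (hd.comp (by fun_prop : Continuous fun t : ℝ => (x, t))).aestronglyMeasurable
  · apply Filter.Eventually.of_forall
    intro t ht z hz
    exact hC (z, t) ⟨hz, uIoc_subset_uIcc ht⟩
  · exact intervalIntegrable_const
  · apply Filter.Eventually.of_forall
    intro t _ z _
    exact hdx z t

private lemma cw_dy (a : ℝ × ℝ → ℝ) (ha : ContDiff ℝ 1 a) (x y : ℝ) :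
    HasDerivAt (fun y => a (x, y)) (fderiv ℝ a (x, y) (0, 1)) y := by
  have h1 : HasFDerivAt a (fderiv ℝ a (x, y)) (x, y) :=
    (ha.differentiable one_ne_zero _).hasFDerivAt
  have h2 : HasDerivAt (fun z : ℝ => (x, z)) ((0 : ℝ), (1 : ℝ)) y :=
    (hasDerivAt_const y x).prodMk (hasDerivAt_id y)
  exact h1.comp_hasDerivAt y h2

/-- potential on a ball -/
private lemma cw_pot (a1 a2 F : ℝ × ℝ → ℝ) (hF : Continuous F) (ha1 : ContDiff ℝ 1 a1)
    (ha2 : ContDiff ℝ 1 a2) (b0 : ℝ × ℝ) (ε : ℝ)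
    (hc : ∀ b ∈ ball b0 ε, fderiv ℝ a2 b (1, 0) - fderiv ℝ a1 b (0, 1) = F b) :
    ∃ A : ℝ × ℝ → ℝ, ∀ b ∈ ball b0 ε, CwPot (fun b => a1 b + cwG F b) a2 A b := by
  obtain ⟨x0, y0⟩ := b0
  have hG := cwG_cont F hF
  have hg : Continuous fun t : ℝ => a1 (t, y0) + cwG F (t, y0) := by
    have := ha1.continuous
    fun_prop
  let A : ℝ × ℝ → ℝ := fun b => (∫ t in x0..b.1, (a1 (t, y0) + cwG F (t, y0))) +
    ∫ t in y0..b.2, a2 (b.1, t)
  have hAc : Continuous A := by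
    apply Continuous.add
    · exact (intervalIntegral.continuous_primitive (fun a b => hg.intervalIntegrable a b) x0).comp
        continuous_fst
    · exact intervalIntegral.continuous_parametric_intervalIntegral_of_continuous
        (f := fun (b : ℝ × ℝ) t => a2 (b.1, t)) (by have := ha2.continuous; fun_prop) continuous_snd
  have hd1 : ∀ b ∈ ball (x0, y0) ε, HasDerivAt (fun x => A (x, b.2)) (a1 b + cwG F b) b.1 := by
    rintro ⟨x, y⟩ hb
    rw [← ball_prod_same] at hb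
    obtain ⟨hx, hy⟩ := hb
    simp only [A]
    have e1 : HasDerivAt (fun x => ∫ t in x0..x, (a1 (t, y0) + cwG F (t, y0)))
        (a1 (x, y0) + cwG F (x, y0)) x :=
      intervalIntegral.integral_hasDerivAt_right (hg.intervalIntegrable _ _)
        (hg.stronglyMeasurableAtFilter _ _) hg.continuousAt
    have e2 := e1.add (cw_vert a2 ha2 y0 y x)
    have e3 : ∫ t in y0..y, fderiv ℝ a2 (x, t) (1, 0) =
        ∫ t in y0..y, (F (x, t) + fderiv ℝ a1 (x, t) (0, 1)) := by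
      apply intervalIntegral.integral_congr
      intro t ht
      have hxt : (x, t) ∈ ball (x0, y0) ε := by
        rw [← ball_prod_same]
        refine ⟨hx, ?_⟩
        have hconv : uIcc y0 y ⊆ ball y0 ε := by
          rw [← segment_eq_uIcc]
          exact (convex_ball y0 ε).segment_subset (mem_ball_self (pos_of_mem_ball hy)) hy
        exact hconv ht
      have := hc _ hxt
      simp only
      linarith
    have hFx : Continuous fun t : ℝ => F (x, t) := hF.comp (by fun_prop)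
    have hax : Continuous fun t : ℝ => fderiv ℝ a1 (x, t) (0, 1) :=
      ((ha1.continuous_fderiv one_ne_zero).clm_apply continuous_const).comp
        (by fun_prop : Continuous fun t : ℝ => (x, t))
    have e4 : ∫ t in y0..y, (F (x, t) + fderiv ℝ a1 (x, t) (0, 1)) =
        (cwG F (x, y) - cwG F (x, y0)) + (a1 (x, y) - a1 (x, y0)) := by
      rw [intervalIntegral.integral_add (hFx.intervalIntegrable _ _) (hax.intervalIntegrable _ _)]
      congr 1
      · unfold cwG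
        rw [intervalIntegral.integral_interval_sub_left (hFx.intervalIntegrable _ _)
          (hFx.intervalIntegrable _ _)]
      · exact intervalIntegral.integral_eq_sub_of_hasDerivAt (fun t _ => cw_dy a1 ha1 x t)
          (hax.intervalIntegrable _ _)
    rw [e3, e4] at e2
    have e5 : a1 (x, y0) + cwG F (x, y0) + ((cwG F (x, y) - cwG F (x, y0)) +
        (a1 (x, y) - a1 (x, y0))) = a1 (x, y) + cwG F (x, y) := by ring
    rw [e5] at e2
    exact e2
  have hd2 : ∀ b : ℝ × ℝ, HasDerivAt (fun y => A (b.1, y)) (a2 b) b.2 := by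
    rintro ⟨x, y⟩
    have hax : Continuous fun t : ℝ => a2 (x, t) := ha2.continuous.comp (by fun_prop)
    have e1 : HasDerivAt (fun y => ∫ t in y0..y, a2 (x, t)) (a2 (x, y)) y :=
      intervalIntegral.integral_hasDerivAt_right (hax.intervalIntegrable _ _)
        (hax.stronglyMeasurableAtFilter _ _) hax.continuousAt
    exact e1.const_add (∫ t in x0..x, (a1 (t, y0) + cwG F (t, y0)))
  exact ⟨A, fun b hb => ⟨hAc.continuousAt, by
    filter_upwards [isOpen_ball.mem_nhds hb] with b' hb'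
    exact hd1 b' hb', Filter.Eventually.of_forall hd2⟩⟩

/-- the hypotheses on the connection -/
private structure CwHyp (c : CC K) (Q : C(ℝ × ℝ, K)) (a1 a2 : c.ι → ℝ × ℝ → ℝ)
    (F : ℝ × ℝ → ℝ) : Prop where
  hF : Continuous F
  ha1 : ∀ i, ContDiff ℝ 1 (a1 i)
  ha2 : ∀ i, ContDiff ℝ 1 (a2 i)
  hcurv : ∀ i b, Q b ∈ c.N i → fderiv ℝ (a2 i) b (1, 0) - fderiv ℝ (a1 i) b (0, 1) = F b
  hh : ∀ i j b, Q b ∈ c.N i → Q b ∈ c.N j → ∃ Ψ : ℝ × ℝ → ℝ,
      (∀ᶠ b' in 𝓝 b, ((Ψ b' : ℝ) : AddCircle (1 : ℝ)) = c.h i j (Q b')) ∧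
      ∀ᶠ b' in 𝓝 b, HasFDerivAt Ψ ((a1 j b' - a1 i b') • ContinuousLinearMap.fst ℝ ℝ ℝ +
        (a2 j b' - a2 i b') • ContinuousLinearMap.snd ℝ ℝ ℝ) b'

private lemma cw_small {c : CC K} {Q : C(ℝ × ℝ, K)} {a1 a2 : c.ι → ℝ × ℝ → ℝ}
    {F : ℝ × ℝ → ℝ} (H : CwHyp c Q a1 a2 F) (b0 : ℝ × ℝ) :
    ∃ ε > 0, ∀ s ⊆ ball b0 ε, CwGood c Q (fun i b => a1 i b + cwG F b) a2 s := by
  obtain ⟨i0, hi0⟩ := c.cov (Q b0)
  obtain ⟨ε, hε, hb⟩ := Metric.eventually_nhds_iff_ball.1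
    (Q.continuous.continuousAt.eventually ((c.op i0).mem_nhds hi0))
  refine ⟨ε, hε, fun s hs => ?_⟩
  obtain ⟨A, hA⟩ := cw_pot (a1 i0) (a2 i0) F H.hF (H.ha1 i0) (H.ha2 i0) b0 ε
    (fun b hb' => H.hcurv i0 b (hb b hb'))
  refine ⟨fun i b => ((A b : ℝ) : AddCircle (1 : ℝ)) + c.h i0 i (Q b), ?_, ?_⟩
  · intro i j b hbs hi hj
    rw [add_sub_add_left_eq_sub, ← c.coc i0 i j (Q b) (hb b (hs hbs)) hi hj, add_sub_cancel_left]
  · intro i b hbs hi
    obtain ⟨Ψ, hΨ1, hΨ2⟩ := H.hh i0 i b (hb b (hs hbs)) hi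
    have hAb := hA b (hs hbs)
    refine ⟨fun b => A b + Ψ b, ⟨?_, ?_, ?_⟩, ?_⟩
    · exact hAb.cont.add hΨ2.self_of_nhds.continuousAt
    · filter_upwards [hAb.d1, hΨ2] with b' g1 g2
      have h2 : HasDerivAt (fun x : ℝ => (x, b'.2)) ((1 : ℝ), (0 : ℝ)) b'.1 :=
        (hasDerivAt_id _).prodMk (hasDerivAt_const _ _)
      have h3 := HasFDerivAt.comp_hasDerivAt (b'.1) (f := fun x : ℝ => (x, b'.2)) g2 h2
      have h4 := g1.add h3
      have e : (a1 i0 b' + cwG F b') + ((a1 i b' - a1 i0 b') • ContinuousLinearMap.fst ℝ ℝ ℝ +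
        (a2 i b' - a2 i0 b') • ContinuousLinearMap.snd ℝ ℝ ℝ) ((1 : ℝ), (0 : ℝ)) =
          a1 i b' + cwG F b' := by
        simp
        ring
      rw [e] at h4
      exact h4
    · filter_upwards [hAb.d2, hΨ2] with b' g1 g2
      have h2 : HasDerivAt (fun y : ℝ => (b'.1, y)) ((0 : ℝ), (1 : ℝ)) b'.2 :=
        (hasDerivAt_const _ _).prodMk (hasDerivAt_id _)
      have h3 := HasFDerivAt.comp_hasDerivAt (b'.2) (f := fun y : ℝ => (b'.1, y)) g2 h2
      have h4 := g1.add h3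
      have e : a2 i0 b' + ((a1 i b' - a1 i0 b') • ContinuousLinearMap.fst ℝ ℝ ℝ +
        (a2 i b' - a2 i0 b') • ContinuousLinearMap.snd ℝ ℝ ℝ) ((0 : ℝ), (1 : ℝ)) = a2 i b' := by
        simp
      rw [e] at h4
      exact h4
    · refine Filter.Eventually.filter_mono nhdsWithin_le_nhds ?_
      filter_upwards [hΨ1] with b' g1
      rw [AddCircle.coe_add, g1]

private lemma cw_prod_pre (a b c d a' b' c' d' : ℝ) :
    IsPreconnected ((Icc a b ×ˢ Icc c d) ∩ (Icc a' b' ×ˢ Icc c' d')) :=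
  (((convex_Icc a b).prod (convex_Icc c d)).inter
    ((convex_Icc a' b').prod (convex_Icc c' d'))).isPreconnected

private lemma cw_grid {c : CC K} {Q : C(ℝ × ℝ, K)} {f1 f2 : c.ι → ℝ × ℝ → ℝ}
    (h : ∀ b0 : ℝ × ℝ, ∃ ε > 0, ∀ s ⊆ ball b0 ε, CwGood c Q f1 f2 s) :
    CwGood c Q f1 f2 (Icc (0 : ℝ) 1 ×ˢ Icc (0 : ℝ) 1) := by
  choose ε hε hgood using h
  obtain ⟨δ, hδ, hleb⟩ := lebesgue_number_lemma_of_metric
    ((isCompact_Icc (a := (0 : ℝ)) (b := 1)).prod (isCompact_Icc (a := (0 : ℝ)) (b := 1)))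
    (c := fun b0 : ℝ × ℝ => ball b0 (ε b0)) (fun b0 => isOpen_ball)
    (fun x _ => mem_iUnion.2 ⟨x, mem_ball_self (hε x)⟩)
  obtain ⟨m, hm⟩ := exists_nat_one_div_lt hδ
  set N : ℝ := (m : ℝ) + 1 with hN
  have hNpos : 0 < N := by positivity
  have hbox : ∀ j k : ℕ, j ≤ m → k ≤ m →
      CwGood c Q f1 f2 (Icc (j / N) ((j + 1) / N) ×ˢ Icc (k / N) ((k + 1) / N)) := by
    intro j k hj hk
    have hj' : (j : ℝ) ≤ m := by exact_mod_cast hj
    have hk' : (k : ℝ) ≤ m := by exact_mod_cast hk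
    have hmem : ((j / N : ℝ), (k / N : ℝ)) ∈ Icc (0 : ℝ) 1 ×ˢ Icc (0 : ℝ) 1 := by
      refine ⟨⟨by positivity, ?_⟩, ⟨by positivity, ?_⟩⟩
      · rw [div_le_one hNpos]; linarith
      · rw [div_le_one hNpos]; linarith
    obtain ⟨b0, hb0⟩ := hleb _ hmem
    apply hgood b0
    refine Subset.trans ?_ hb0
    rintro ⟨x, y⟩ ⟨hx, hy⟩
    rw [← ball_prod_same]
    have key : ∀ (l : ℕ) (z : ℝ), z ∈ Icc ((l : ℝ) / N) ((l + 1) / N) → z ∈ ball ((l : ℝ) / N) δ := by
      intro l z hz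
      rw [mem_ball, Real.dist_eq, abs_of_nonneg (by linarith [hz.1])]
      have h1 : ((l : ℝ) + 1) / N = l / N + 1 / N := by rw [add_div]
      have h2 := hz.2
      rw [h1] at h2
      linarith
    exact ⟨key j x hx, key k y hy⟩
  have hrow : ∀ k : ℕ, k ≤ m → ∀ j : ℕ, j ≤ m →
      CwGood c Q f1 f2 (Icc (0 : ℝ) ((j + 1) / N) ×ˢ Icc (k / N) ((k + 1) / N)) := by
    intro k hk j
    induction j with
    | zero =>
      intro _
      have h1 := hbox 0 k (Nat.zero_le _) hk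
      simpa using h1
    | succ j ih =>
      intro hj
      have h1 := ih (by omega)
      have h2 := hbox (j + 1) k hj hk
      have e1 : (((j + 1 : ℕ) : ℝ)) = (j : ℝ) + 1 := by push_cast; ring
      rw [e1] at h2 ⊢
      have hle1 : (0 : ℝ) ≤ ((j : ℝ) + 1) / N := by positivity
      have hle2 : ((j : ℝ) + 1) / N ≤ ((j : ℝ) + 1 + 1) / N := by
        apply div_le_div_of_nonneg_right _ hNpos.le
        linarith
      have hle3 : (k : ℝ) / N ≤ ((k : ℝ) + 1) / N := by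
        apply div_le_div_of_nonneg_right _ hNpos.le
        linarith
      have h3 := cw_union c Q Q.continuous f1 f2 _ _ (isClosed_Icc.prod isClosed_Icc)
        (isClosed_Icc.prod isClosed_Icc) (cw_prod_pre _ _ _ _ _ _ _ _)
        (((j : ℝ) + 1) / N, (k : ℝ) / N)
        ⟨⟨⟨hle1, le_rfl⟩, ⟨le_rfl, hle3⟩⟩, ⟨⟨le_rfl, hle2⟩, ⟨le_rfl, hle3⟩⟩⟩ h1 h2
      rw [← union_prod, Icc_union_Icc_eq_Icc hle1 hle2] at h3
      exact h3
  have hcol : ∀ k : ℕ, k ≤ m →
      CwGood c Q f1 f2 (Icc (0 : ℝ) 1 ×ˢ Icc (0 : ℝ) ((k + 1) / N)) := by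
    have hone : ((m : ℝ) + 1) / N = 1 := by rw [hN]; exact div_self (by rw [← hN]; exact hNpos.ne')
    intro k
    induction k with
    | zero =>
      intro _
      have h1 := hrow 0 (Nat.zero_le _) m le_rfl
      rw [hone] at h1
      simpa using h1
    | succ k ih =>
      intro hk
      have h1 := ih (by omega)
      have h2 := hrow (k + 1) hk m le_rfl
      rw [hone] at h2
      have e1 : (((k + 1 : ℕ) : ℝ)) = (k : ℝ) + 1 := by push_cast; ring
      rw [e1] at h2 ⊢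
      have hle1 : (0 : ℝ) ≤ ((k : ℝ) + 1) / N := by positivity
      have hle2 : ((k : ℝ) + 1) / N ≤ ((k : ℝ) + 1 + 1) / N := by
        apply div_le_div_of_nonneg_right _ hNpos.le
        linarith
      have h3 := cw_union c Q Q.continuous f1 f2 _ _ (isClosed_Icc.prod isClosed_Icc)
        (isClosed_Icc.prod isClosed_Icc) (cw_prod_pre _ _ _ _ _ _ _ _)
        ((0 : ℝ), ((k : ℝ) + 1) / N)
        ⟨⟨⟨le_rfl, zero_le_one⟩, ⟨hle1, le_rfl⟩⟩, ⟨⟨le_rfl, zero_le_one⟩, ⟨le_rfl, hle2⟩⟩⟩ h1 h2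
      rw [← prod_union, Icc_union_Icc_eq_Icc hle1 hle2] at h3
      exact h3
  have h1 := hcol m le_rfl
  have hone : ((m : ℝ) + 1) / N = 1 := by rw [hN]; exact div_self (by rw [← hN]; exact hNpos.ne')
  rw [hone] at h1
  exact h1

private lemma cw_path (g : unitInterval → AddCircle (1 : ℝ)) (φ : ℝ → ℝ) (hφ : Continuous φ)
    (h : ∀ s : unitInterval, ∃ Ψ : ℝ → ℝ,
      (∀ᶠ s' : unitInterval in 𝓝 s, ((Ψ s' : ℝ) : AddCircle (1 : ℝ)) = g s') ∧
      ∀ᶠ s' in 𝓝 (s : ℝ), HasDerivAt Ψ (φ s') s') :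
    ∃ d : C(unitInterval, AddCircle (1 : ℝ)), (∀ s, d s = g s) ∧ incr d = ∫ s in (0 : ℝ)..1, φ s := by
  have hc : Continuous g := by
    rw [continuous_iff_continuousAt]
    intro s
    obtain ⟨Ψ, h1, h2⟩ := h s
    have h3 : ContinuousAt Ψ s := h2.self_of_nhds.continuousAt
    have h4 : ContinuousAt (fun s' : unitInterval => ((Ψ s' : ℝ) : AddCircle (1 : ℝ))) s :=
      (AddCircle.continuous_mk' (1 : ℝ)).continuousAt.comp
        (ContinuousAt.comp (f := fun s' : unitInterval => (s' : ℝ)) h3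
          continuous_subtype_val.continuousAt)
    exact h4.congr h1
  exact ⟨⟨g, hc⟩, fun s => rfl, incr_of_deriv ⟨g, hc⟩ φ hφ h⟩

theorem chern_weil {K : Type*} [TopologicalSpace K] (c : CC K) (Q : C(ℝ × ℝ, K))
    (hQ1 : ∀ x y, Q (x + 1, y) = Q (x, y)) (hQ2 : ∀ x y, Q (x, y + 1) = Q (x, y))
    (a1 a2 : c.ι → ℝ × ℝ → ℝ) (F : ℝ × ℝ → ℝ) (hF : Continuous F)
    (ha1 : ∀ i, ContDiff ℝ 1 (a1 i)) (ha2 : ∀ i, ContDiff ℝ 1 (a2 i))
    (hp1 : ∀ i x y, a1 i (x, y + 1) = a1 i (x, y)) (hp2 : ∀ i x y, a2 i (x + 1, y) = a2 i (x, y))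
    (hcurv : ∀ i b, Q b ∈ c.N i → fderiv ℝ (a2 i) b (1, 0) - fderiv ℝ (a1 i) b (0, 1) = F b)
    (hh : ∀ i j b, Q b ∈ c.N i → Q b ∈ c.N j → ∃ Ψ : ℝ × ℝ → ℝ,
      (∀ᶠ b' in 𝓝 b, ((Ψ b' : ℝ) : AddCircle (1 : ℝ)) = c.h i j (Q b')) ∧
      ∀ᶠ b' in 𝓝 b, HasFDerivAt Ψ ((a1 j b' - a1 i b') • ContinuousLinearMap.fst ℝ ℝ ℝ +
        (a2 j b' - a2 i b') • ContinuousLinearMap.snd ℝ ℝ ℝ) b') :
    ∃ (u : c.ι → Sq → AddCircle (1 : ℝ)) (d1 d2 : C(unitInterval, AddCircle (1 : ℝ))),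
      c.Tor (sqr Q) u d1 d2 ∧ incr d1 + incr d2 = - ∫ b in Set.Icc (0 : ℝ × ℝ) 1, F b := by
  have H : CwHyp c Q a1 a2 F := ⟨hF, ha1, ha2, hcurv, hh⟩
  obtain ⟨v, hv, hvA⟩ := cw_grid (cw_small H)
  have hmem : ∀ s : Sq, ((s.1 : ℝ), (s.2 : ℝ)) ∈ Icc (0 : ℝ) 1 ×ˢ Icc (0 : ℝ) 1 :=
    fun s => ⟨s.1.2, s.2.2⟩
  have hloc : ∀ i (s : Sq), Q ((s.1 : ℝ), (s.2 : ℝ)) ∈ c.N i → ∃ A : ℝ × ℝ → ℝ,
      CwPot (fun b => a1 i b + cwG F b) (a2 i) A ((s.1 : ℝ), (s.2 : ℝ)) ∧
      ∀ᶠ s' : Sq in 𝓝 s, ((A ((s'.1 : ℝ), (s'.2 : ℝ)) : ℝ) : AddCircle (1 : ℝ)) =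
        v i ((s'.1 : ℝ), (s'.2 : ℝ)) := by
    intro i s hs
    obtain ⟨A, hA, e⟩ := hvA i _ (hmem s) hs
    refine ⟨A, hA, ?_⟩
    have hcont : Continuous fun s' : Sq => ((s'.1 : ℝ), (s'.2 : ℝ)) := by fun_prop
    have ht : Tendsto (fun s' : Sq => ((s'.1 : ℝ), (s'.2 : ℝ))) (𝓝 s)
        (𝓝[Icc (0 : ℝ) 1 ×ˢ Icc (0 : ℝ) 1] ((s.1 : ℝ), (s.2 : ℝ))) :=
      tendsto_nhdsWithin_of_tendsto_nhds_of_eventually_within _ hcont.continuousAt
        (Filter.Eventually.of_forall hmem)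
    exact ht.eventually e
  have hQ2' : ∀ x, Q (x, 1) = Q (x, 0) := fun x => by
    have := hQ2 x 0
    rwa [zero_add] at this
  have hQ1' : ∀ y, Q (1, y) = Q (0, y) := fun y => by
    have := hQ1 0 y
    rwa [zero_add] at this
  have hp1' : ∀ i x, a1 i (x, 1) = a1 i (x, 0) := fun i x => by
    have := hp1 i x 0
    rwa [zero_add] at this
  have hp2' : ∀ i y, a2 i (1, y) = a2 i (0, y) := fun i y => by
    have := hp2 i 0 y
    rwa [zero_add] at this
  let ix : ℝ × ℝ → c.ι := fun b => (c.cov (Q b)).choose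
  have hix : ∀ b, Q b ∈ c.N (ix b) := fun b => (c.cov (Q b)).choose_spec
  have h01 : (0 : ℝ) ∈ Icc (0 : ℝ) 1 := ⟨le_rfl, zero_le_one⟩
  have h11 : (1 : ℝ) ∈ Icc (0 : ℝ) 1 := ⟨zero_le_one, le_rfl⟩
  -- the two differences
  have hd1i : ∀ i (s : unitInterval), Q ((s : ℝ), 0) ∈ c.N i →
      v (ix ((s : ℝ), 0)) ((s : ℝ), 0) - v (ix ((s : ℝ), 0)) ((s : ℝ), 1) =
        v i ((s : ℝ), 0) - v i ((s : ℝ), 1) := by
    intro i s hs
    have e1 := hv (ix ((s : ℝ), 0)) i ((s : ℝ), 0) ⟨s.2, h01⟩ (hix _) hs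
    have e2 := hv (ix ((s : ℝ), 0)) i ((s : ℝ), 1) ⟨s.2, h11⟩ (by rw [hQ2']; exact hix _)
      (by rw [hQ2']; exact hs)
    rw [hQ2', ← e1] at e2
    rw [sub_eq_sub_iff_sub_eq_sub]
    have e4 := congrArg Neg.neg e2
    rw [neg_sub, neg_sub] at e4
    exact e4.symm
  have hd2i : ∀ i (s : unitInterval), Q (0, (s : ℝ)) ∈ c.N i →
      v (ix (0, (s : ℝ))) (1, (s : ℝ)) - v (ix (0, (s : ℝ))) (0, (s : ℝ)) =
        v i (1, (s : ℝ)) - v i (0, (s : ℝ)) := by
    intro i s hs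
    have e1 := hv (ix (0, (s : ℝ))) i (0, (s : ℝ)) ⟨h01, s.2⟩ (hix _) hs
    have e2 := hv (ix (0, (s : ℝ))) i (1, (s : ℝ)) ⟨h11, s.2⟩ (by rw [hQ1']; exact hix _)
      (by rw [hQ1']; exact hs)
    rw [hQ1', ← e1] at e2
    rw [sub_eq_sub_iff_sub_eq_sub]
    have e4 := congrArg Neg.neg e2
    rw [neg_sub, neg_sub] at e4
    exact e4
  have hGc := cwG_cont F hF
  obtain ⟨d1, hd1, hi1⟩ := cw_path
    (fun s => v (ix ((s : ℝ), 0)) ((s : ℝ), 0) - v (ix ((s : ℝ), 0)) ((s : ℝ), 1))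
    (fun x => - cwG F (x, 1)) (by fun_prop) (by
      intro s
      have hs := hix ((s : ℝ), 0)
      obtain ⟨A, hA, e⟩ := hloc (ix ((s : ℝ), 0)) (s, 0) (by simpa using hs)
      obtain ⟨A', hA', e'⟩ := hloc (ix ((s : ℝ), 0)) (s, 1) (by
        have := hs
        rw [← hQ2'] at this
        simpa using this)
      simp only [Set.Icc.coe_zero, Set.Icc.coe_one] at hA hA' e e'
      refine ⟨fun x => A (x, 0) - A' (x, 1), ?_, ?_⟩
      · have t1 : Tendsto (fun s' : unitInterval => ((s', 0) : Sq)) (𝓝 s) (𝓝 (s, 0)) :=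
          (by fun_prop : Continuous fun s' : unitInterval => ((s', 0) : Sq)).continuousAt
        have t2 : Tendsto (fun s' : unitInterval => ((s', 1) : Sq)) (𝓝 s) (𝓝 (s, 1)) :=
          (by fun_prop : Continuous fun s' : unitInterval => ((s', 1) : Sq)).continuousAt
        have t3 : ContinuousAt (fun s' : unitInterval => Q ((s' : ℝ), 0)) s :=
          (by fun_prop : Continuous fun s' : unitInterval => Q ((s' : ℝ), 0)).continuousAt
        filter_upwards [t1.eventually e, t2.eventually e',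
          t3.eventually ((c.op _).mem_nhds hs)] with s' g1 g2 g3
        rw [hd1i _ s' g3, AddCircle.coe_sub]
        simp only [Set.Icc.coe_zero, Set.Icc.coe_one] at g1 g2
        rw [g1, g2]
      · have t1 : Tendsto (fun x : ℝ => ((x, 0) : ℝ × ℝ)) (𝓝 (s : ℝ)) (𝓝 ((s : ℝ), 0)) :=
          (by fun_prop : Continuous fun x : ℝ => ((x, 0) : ℝ × ℝ)).continuousAt
        have t2 : Tendsto (fun x : ℝ => ((x, 1) : ℝ × ℝ)) (𝓝 (s : ℝ)) (𝓝 ((s : ℝ), 1)) :=
          (by fun_prop : Continuous fun x : ℝ => ((x, 1) : ℝ × ℝ)).continuousAt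
        filter_upwards [t1.eventually hA.d1, t2.eventually hA'.d1] with x g1 g2
        have g3 := g1.sub g2
        have hG0 : cwG F (x, 0) = 0 := by
          unfold cwG
          exact intervalIntegral.integral_same
        have e5 : a1 (ix ((s : ℝ), 0)) (x, 0) + cwG F (x, 0) -
            (a1 (ix ((s : ℝ), 0)) (x, 1) + cwG F (x, 1)) = - cwG F (x, 1) := by
          rw [hG0, hp1']
          ring
        rw [e5] at g3
        exact g3)
  obtain ⟨d2, hd2, hi2⟩ := cw_path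
    (fun s => v (ix (0, (s : ℝ))) (1, (s : ℝ)) - v (ix (0, (s : ℝ))) (0, (s : ℝ)))
    (fun _ => 0) continuous_const (by
      intro s
      have hs := hix (0, (s : ℝ))
      obtain ⟨A, hA, e⟩ := hloc (ix (0, (s : ℝ))) (0, s) (by simpa using hs)
      obtain ⟨A', hA', e'⟩ := hloc (ix (0, (s : ℝ))) (1, s) (by
        have := hs
        rw [← hQ1'] at this
        simpa using this)
      simp only [Set.Icc.coe_zero, Set.Icc.coe_one] at hA hA' e e'
      refine ⟨fun x => A' (1, x) - A (0, x), ?_, ?_⟩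
      · have t1 : Tendsto (fun s' : unitInterval => ((0, s') : Sq)) (𝓝 s) (𝓝 (0, s)) :=
          (by fun_prop : Continuous fun s' : unitInterval => ((0, s') : Sq)).continuousAt
        have t2 : Tendsto (fun s' : unitInterval => ((1, s') : Sq)) (𝓝 s) (𝓝 (1, s)) :=
          (by fun_prop : Continuous fun s' : unitInterval => ((1, s') : Sq)).continuousAt
        have t3 : ContinuousAt (fun s' : unitInterval => Q (0, (s' : ℝ))) s :=
          (by fun_prop : Continuous fun s' : unitInterval => Q (0, (s' : ℝ))).continuousAt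
        filter_upwards [t1.eventually e, t2.eventually e',
          t3.eventually ((c.op _).mem_nhds hs)] with s' g1 g2 g3
        rw [hd2i _ s' g3, AddCircle.coe_sub]
        simp only [Set.Icc.coe_zero, Set.Icc.coe_one] at g1 g2
        rw [g1, g2]
      · have t1 : Tendsto (fun x : ℝ => ((0, x) : ℝ × ℝ)) (𝓝 (s : ℝ)) (𝓝 (0, (s : ℝ))) :=
          (by fun_prop : Continuous fun x : ℝ => ((0, x) : ℝ × ℝ)).continuousAt
        have t2 : Tendsto (fun x : ℝ => ((1, x) : ℝ × ℝ)) (𝓝 (s : ℝ)) (𝓝 (1, (s : ℝ))) :=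
          (by fun_prop : Continuous fun x : ℝ => ((1, x) : ℝ × ℝ)).continuousAt
        filter_upwards [t1.eventually hA.d2, t2.eventually hA'.d2] with x g1 g2
        have g3 := g2.sub g1
        have e5 : a2 (ix (0, (s : ℝ))) (1, x) - a2 (ix (0, (s : ℝ))) (0, x) = 0 := by
          rw [hp2', sub_self]
        rw [e5] at g3
        exact g3)
  refine ⟨fun i s => v i ((s.1 : ℝ), (s.2 : ℝ)), d1, d2, ⟨⟨?_, ?_⟩, ?_, ?_, ?_, ?_⟩, ?_⟩
  · intro i b hb
    obtain ⟨A, hA, e⟩ := hloc i b hb.2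
    have h4 : ContinuousAt (fun s' : Sq => ((A ((s'.1 : ℝ), (s'.2 : ℝ)) : ℝ) :
        AddCircle (1 : ℝ))) b :=
      (AddCircle.continuous_mk' (1 : ℝ)).continuousAt.comp
        (ContinuousAt.comp (f := fun s' : Sq => ((s'.1 : ℝ), (s'.2 : ℝ))) hA.cont
          (by fun_prop : Continuous fun s' : Sq => ((s'.1 : ℝ), (s'.2 : ℝ))).continuousAt)
    exact (h4.congr e).continuousWithinAt
  · intro i j b _ hi hj
    exact hv i j _ (hmem b) hi hj
  · intro s
    exact hQ1' _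
  · intro s
    exact hQ2' _
  · intro i s hs
    rw [hd1, hd1i i s (by simpa [sqr] using hs)]
    simp
  · intro i s hs
    rw [hd2, hd2i i s (by simpa [sqr] using hs)]
    simp
  · rw [hi1, hi2, intervalIntegral.integral_neg, intervalIntegral.integral_zero, add_zero]
    congr 1
    have e1 : Icc (0 : ℝ × ℝ) 1 = Icc (0 : ℝ) 1 ×ˢ Icc (0 : ℝ) 1 := by
      rw [Icc_prod_eq]
      rfl
    rw [e1, MeasureTheory.Measure.volume_eq_prod, MeasureTheory.setIntegral_prod]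
    · rw [MeasureTheory.integral_Icc_eq_integral_Ioc,
        intervalIntegral.integral_of_le zero_le_one]
      apply MeasureTheory.setIntegral_congr_fun measurableSet_Ioc
      intro x _
      unfold cwG
      simp only
      rw [MeasureTheory.integral_Icc_eq_integral_Ioc,
        intervalIntegral.integral_of_le zero_le_one]
    · rw [← MeasureTheory.Measure.volume_eq_prod]
      exact hF.continuousOn.integrableOn_compact (isCompact_Icc.prod isCompact_Icc)

end Pool.Agent.CT
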