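import Pool.Agent.CT.NDefs

/-!
# CT-CALC : calculus of the means over triangles and segments

PLAN. Differentiation under the integral over the compact sets `tri` and `[0, 1]`
(`hasFDerivAt_integral_of_dominated_of_fderiv_le`, or `ContDiff` of parametric integrals:
`contDiff_of_...`; smoothness by induction with `contDiff_infty_iff_fderiv` or by
`ContDiff.parametric_integral...`; an easy way: write the integral over `tri` as the iterated
integral `∫ s in 0..1, ∫ t in 0..(1 - s)` or, after `t = (1 - s) t'`, as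
`∫ s in 0..1, ∫ t' in 0..1, (1 - s) * ρ (x - s • p - ((1 - s) * t') • q)`, so that only smoothness of
`x ↦ ∫ t in 0..1, f (t, x)` for smooth `f` is needed).
`dr_GG_left`: `dr (GG ρ p q) p x = ∫_tri fderiv ρ (x - s p - t q) p = - ∫_tri d/ds [ρ (x - s p - t q)]
= - ∫_0^1 (ρ (x - (1 - t) p - t q) - ρ (x - t q)) dt`; `dr_GG_right` similarly, with
`EE ρ q p = EE ρ p q` (`t ↦ 1 - t`).
-/

set_option autoImplicit false

noncomputable section

open scoped ContDiff

namespace Pool.Agent.CT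

open MeasureTheory

/-! ### general means -/

section mean

variable {α : Type} [TopologicalSpace α] [SecondCountableTopology α] [MeasurableSpace α]
  [OpensMeasurableSpace α]

private def MM {F : Type} [NormedAddCommGroup F] [NormedSpace ℝ F] (μ : Measure α) (φ : α → R4)
    (f : R4 → F) (x : R4) : F := ∫ s, f (x - φ s) ∂μ

private theorem MM_meas {F : Type} [NormedAddCommGroup F] [NormedSpace ℝ F] (μ : Measure α)
    {φ : α → R4} (hφ : Continuous φ) {f : R4 → F} (hf : Continuous f) (x : R4) :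
    AEStronglyMeasurable (fun s => f (x - φ s)) μ :=
  (hf.comp (continuous_const.sub hφ)).aestronglyMeasurable

private theorem MM_bound {F : Type} [NormedAddCommGroup F] (μ : Measure α)
    {φ : α → R4} {R : ℝ} (hR : ∀ᵐ s ∂μ, ‖φ s‖ ≤ R) {f : R4 → F}
    (hf : Continuous f) (x₀ : R4) :
    ∃ C : ℝ, ∀ᵐ s ∂μ, ∀ x ∈ Metric.ball x₀ 1, ‖f (x - φ s)‖ ≤ C := by
  obtain ⟨C, hC⟩ := (isCompact_closedBall (0 : R4) (‖x₀‖ + 1 + R)).exists_bound_of_continuousOn
    hf.continuousOn
  refine ⟨C, hR.mono fun s hs x hx => hC _ ?_⟩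
  rw [mem_closedBall_zero_iff]
  have h1 : ‖x‖ ≤ ‖x₀‖ + 1 := by
    have h2 : ‖x - x₀‖ < 1 := mem_ball_iff_norm.1 hx
    have h3 : ‖x‖ ≤ ‖x₀‖ + ‖x - x₀‖ := by
      calc ‖x‖ = ‖x₀ + (x - x₀)‖ := by congr 1; abel
        _ ≤ _ := norm_add_le _ _
    linarith
  exact (norm_sub_le _ _).trans (by linarith)

private theorem MM_int {F : Type} [NormedAddCommGroup F] [NormedSpace ℝ F] (μ : Measure α)
    [IsFiniteMeasure μ] {φ : α → R4} (hφ : Continuous φ) {R : ℝ} (hR : ∀ᵐ s ∂μ, ‖φ s‖ ≤ R)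
    {f : R4 → F} (hf : Continuous f) (x : R4) : Integrable (fun s => f (x - φ s)) μ := by
  obtain ⟨C, hC⟩ := MM_bound μ hR hf x
  exact Integrable.of_bound (MM_meas μ hφ hf x) C
    (hC.mono fun s hs => hs x (Metric.mem_ball_self one_pos))

private theorem MM_cont {F : Type} [NormedAddCommGroup F] [NormedSpace ℝ F] (μ : Measure α)
    [IsFiniteMeasure μ] {φ : α → R4} (hφ : Continuous φ) {R : ℝ} (hR : ∀ᵐ s ∂μ, ‖φ s‖ ≤ R)
    {f : R4 → F} (hf : Continuous f) : Continuous (MM μ φ f) := by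
  rw [continuous_iff_continuousAt]
  intro x₀
  obtain ⟨C, hC⟩ := MM_bound μ hR hf x₀
  unfold MM
  refine continuousAt_of_dominated (bound := fun _ => C)
    (Filter.Eventually.of_forall fun x => MM_meas μ hφ hf x) ?_ (integrable_const C)
    (Filter.Eventually.of_forall fun s => ?_)
  · filter_upwards [Metric.ball_mem_nhds x₀ one_pos] with x hx
    exact hC.mono fun s hs => hs x hx
  · exact (hf.comp (continuous_id.sub continuous_const)).continuousAt

private theorem MM_fderiv {F : Type} [NormedAddCommGroup F] [NormedSpace ℝ F] (μ : Measure α)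
    [IsFiniteMeasure μ] {φ : α → R4} (hφ : Continuous φ) {R : ℝ} (hR : ∀ᵐ s ∂μ, ‖φ s‖ ≤ R)
    {f : R4 → F} (hf : ContDiff ℝ 1 f) (x₀ : R4) :
    HasFDerivAt (MM μ φ f) (MM μ φ (fderiv ℝ f) x₀) x₀ := by
  have hf' : Continuous (fderiv ℝ f) := hf.continuous_fderiv one_ne_zero
  obtain ⟨C, hC⟩ := MM_bound μ hR hf' x₀
  unfold MM
  refine hasFDerivAt_integral_of_dominated_of_fderiv_le (s := Metric.ball x₀ 1)
    (bound := fun _ => C) (F' := fun x s => fderiv ℝ f (x - φ s))
    (Metric.ball_mem_nhds x₀ one_pos)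
    (Filter.Eventually.of_forall fun x => MM_meas μ hφ hf.continuous x)
    (MM_int μ hφ hR hf.continuous x₀) (MM_meas μ hφ hf' x₀) hC (integrable_const C) ?_
  refine Filter.Eventually.of_forall fun s x _ => ?_
  have h1 : HasFDerivAt f (fderiv ℝ f (x - φ s)) (x - φ s) :=
    (hf.differentiable one_ne_zero _).hasFDerivAt
  have h2 : HasFDerivAt (fun y : R4 => y - φ s) (ContinuousLinearMap.id ℝ R4) x :=
    (hasFDerivAt_id x).sub_const (φ s)
  exact h1.comp x h2

private theorem MM_contDiff (μ : Measure α)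
    [IsFiniteMeasure μ] {φ : α → R4} (hφ : Continuous φ) {R : ℝ} (hR : ∀ᵐ s ∂μ, ‖φ s‖ ≤ R)
    (n : ℕ) : ∀ {F : Type} [NormedAddCommGroup F] [NormedSpace ℝ F] (f : R4 → F),
      ContDiff ℝ n f → ContDiff ℝ n (MM μ φ f) := by
  induction n with
  | zero =>
    intro F _ _ f hf
    have h0 : ((0 : ℕ) : WithTop ℕ∞) = 0 := rfl
    rw [h0, contDiff_zero] at hf ⊢
    exact MM_cont μ hφ hR hf
  | succ n ih =>
    intro F _ _ f hf
    have hn : ((n + 1 : ℕ) : WithTop ℕ∞) = (n : WithTop ℕ∞) + 1 := by push_cast; rfl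
    have hf1 : ContDiff ℝ 1 f := hf.of_le (by
      rw [hn]
      exact le_add_self)
    rw [hn, contDiff_succ_iff_fderiv] at hf ⊢
    have hd := MM_fderiv μ hφ hR hf1
    refine ⟨fun x => (hd x).differentiableAt, fun h => absurd h (by simp), ?_⟩
    have hfd : fderiv ℝ (MM μ φ f) = MM μ φ (fderiv ℝ f) := funext fun x => (hd x).fderiv
    rw [hfd]
    exact ih _ hf.2.2

private theorem MM_smooth (μ : Measure α)
    [IsFiniteMeasure μ] {φ : α → R4} (hφ : Continuous φ) {R : ℝ} (hR : ∀ᵐ s ∂μ, ‖φ s‖ ≤ R)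
    {f : R4 → ℝ} (hf : ContDiff ℝ ∞ f) : ContDiff ℝ ∞ (MM μ φ f) := by
  rw [contDiff_infty] at hf ⊢
  exact fun n => MM_contDiff μ hφ hR n f (hf n)

private theorem dr_MM (μ : Measure α)
    [IsFiniteMeasure μ] {φ : α → R4} (hφ : Continuous φ) {R : ℝ} (hR : ∀ᵐ s ∂μ, ‖φ s‖ ≤ R)
    {f : R4 → ℝ} (hf : ContDiff ℝ ∞ f) (h : R4) : dr (MM μ φ f) h = MM μ φ (dr f h) := by
  have hf1 : ContDiff ℝ 1 f := hf.of_le (by exact_mod_cast le_top)
  funext x
  show fderiv ℝ (MM μ φ f) x h = ∫ s, fderiv ℝ f (x - φ s) h ∂μ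
  rw [(MM_fderiv μ hφ hR hf1 x).fderiv]
  exact ContinuousLinearMap.integral_apply
    (MM_int μ hφ hR (hf1.continuous_fderiv one_ne_zero) x) h

end mean

variable {ρ : R4 → ℝ}

private theorem tri_closed : IsClosed tri := by
  unfold tri
  exact (isClosed_le continuous_const continuous_fst).inter
    ((isClosed_le continuous_const continuous_snd).inter
      (isClosed_le (continuous_fst.add continuous_snd) continuous_const))

private theorem tri_sub : tri ⊆ Set.Icc (0 : ℝ × ℝ) 1 := by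
  rintro ⟨a, b⟩ ⟨h1, h2, h3⟩
  simp only at h1 h2 h3
  exact ⟨⟨h1, h2⟩, ⟨show a ≤ 1 by linarith, show b ≤ 1 by linarith⟩⟩

private theorem tri_cpt : IsCompact tri := isCompact_Icc.of_isClosed_subset tri_closed tri_sub

private theorem tri_fin : IsFiniteMeasure ((volume : Measure (ℝ × ℝ)).restrict tri) :=
  ⟨by
    rw [Measure.restrict_apply_univ]
    exact tri_cpt.measure_lt_top⟩

private theorem fi_cont (p q : R4) : Continuous (fun s : ℝ × ℝ => s.1 • p + s.2 • q) := by
  fun_prop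

private theorem fi_bd (p q : R4) : ∀ᵐ s ∂((volume : Measure (ℝ × ℝ)).restrict tri),
    ‖s.1 • p + s.2 • q‖ ≤ ‖p‖ + ‖q‖ := by
  refine (ae_restrict_iff' tri_closed.measurableSet).2 (Filter.Eventually.of_forall fun s hs => ?_)
  obtain ⟨h1, h2, h3⟩ := hs
  refine (norm_add_le _ _).trans (add_le_add ?_ ?_)
  · rw [norm_smul, Real.norm_eq_abs, abs_of_nonneg h1]
    exact mul_le_of_le_one_left (norm_nonneg _) (by linarith)
  · rw [norm_smul, Real.norm_eq_abs, abs_of_nonneg h2]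
    exact mul_le_of_le_one_left (norm_nonneg _) (by linarith)

private theorem GG_eq (ρ : R4 → ℝ) (p q : R4) :
    GG ρ p q = MM ((volume : Measure (ℝ × ℝ)).restrict tri) (fun s => s.1 • p + s.2 • q) ρ := by
  funext x
  unfold GG MM
  refine integral_congr_ae (Filter.Eventually.of_forall fun s => ?_)
  show ρ (x - s.1 • p - s.2 • q) = ρ (x - (s.1 • p + s.2 • q))
  rw [sub_sub]

private theorem ei_cont (p q : R4) : Continuous (fun t : ℝ => p + t • (q - p)) := by
  fun_prop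

private theorem ei_bd (p q : R4) : ∀ᵐ t ∂((volume : Measure ℝ).restrict (Set.Ioc 0 1)),
    ‖p + t • (q - p)‖ ≤ ‖p‖ + ‖q - p‖ := by
  refine (ae_restrict_iff' measurableSet_Ioc).2 (Filter.Eventually.of_forall fun t ht => ?_)
  refine (norm_add_le _ _).trans (add_le_add le_rfl ?_)
  rw [norm_smul, Real.norm_eq_abs, abs_of_nonneg ht.1.le]
  exact mul_le_of_le_one_left (norm_nonneg _) ht.2

private theorem EE_eq (ρ : R4 → ℝ) (p q : R4) :
    EE ρ p q = MM ((volume : Measure ℝ).restrict (Set.Ioc 0 1)) (fun t => p + t • (q - p)) ρ := by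
  funext x
  unfold EE MM
  rw [intervalIntegral.integral_of_le zero_le_one]
  refine integral_congr_ae (Filter.Eventually.of_forall fun t => ?_)
  show ρ (x - p - t • (q - p)) = ρ (x - (p + t • (q - p)))
  rw [sub_sub]

theorem GG_smooth (hρ : ContDiff ℝ ∞ ρ) (p q : R4) : ContDiff ℝ ∞ (GG ρ p q) := by
  have := tri_fin
  rw [GG_eq]
  exact MM_smooth _ (fi_cont p q) (fi_bd p q) hρ

theorem EE_smooth (hρ : ContDiff ℝ ∞ ρ) (p q : R4) : ContDiff ℝ ∞ (EE ρ p q) := by
  rw [EE_eq]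
  exact MM_smooth _ (ei_cont p q) (ei_bd p q) hρ

theorem dr_smooth (hρ : ContDiff ℝ ∞ ρ) (h : R4) : ContDiff ℝ ∞ (dr ρ h) := by
  have h1 : ContDiff ℝ ∞ (fderiv ℝ ρ) := hρ.fderiv_right (by exact le_rfl)
  exact h1.clm_apply contDiff_const

theorem GG_per (hρ : Per4 ρ) (p q : R4) : Per4 (GG ρ p q) := by
  intro m x
  unfold GG
  refine integral_congr_ae (Filter.Eventually.of_forall fun s => ?_)
  show ρ (x + zv m - s.1 • p - s.2 • q) = ρ (x - s.1 • p - s.2 • q)
  rw [← hρ m (x - s.1 • p - s.2 • q)]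
  congr 1
  abel

theorem EE_per (hρ : Per4 ρ) (p q : R4) : Per4 (EE ρ p q) := by
  intro m x
  unfold EE
  refine intervalIntegral.integral_congr fun t _ => ?_
  show ρ (x + zv m - p - t • (q - p)) = ρ (x - p - t • (q - p))
  rw [← hρ m (x - p - t • (q - p))]
  congr 1
  abel

theorem dr_per (hρ : Per4 ρ) (h : R4) : Per4 (dr ρ h) := by
  intro m x
  unfold dr
  have h1 : (fun y => ρ (y + zv m)) = ρ := funext fun y => hρ m y
  have h2 := fderiv_comp_add_right (𝕜 := ℝ) (f := ρ) (x := x) (zv m)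
  rw [h1] at h2
  rw [← h2]

theorem dr_supp {ε : ℝ} (hρ : Supp4 ε ρ) (h : R4) (x : R4)
    (hx : ∀ m : Fin 4 → ℤ, ε < ‖x - zv m‖) : dr ρ h x = 0 := by
  have hfin : {m : Fin 4 → ℤ | ‖x - zv m‖ ≤ ε + 1}.Finite := by
    refine (Set.Finite.pi (fun a : Fin 4 => Set.finite_Icc (⌊x a - (ε + 1)⌋ - 1)
      (⌈x a + (ε + 1)⌉ + 1))).subset ?_
    intro m hm a _
    have h1 : ‖(x - zv m) a‖ ≤ ε + 1 := (norm_le_pi_norm _ a).trans hm
    have h2 : |x a - m a| ≤ ε + 1 := h1
    obtain ⟨h3, h4⟩ := abs_le.1 h2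
    have h5 : ((⌊x a - (ε + 1)⌋ : ℤ) : ℝ) ≤ x a - (ε + 1) := Int.floor_le _
    have h6 : x a + (ε + 1) ≤ ((⌈x a + (ε + 1)⌉ : ℤ) : ℝ) := Int.le_ceil _
    constructor
    · have h7 : ((⌊x a - (ε + 1)⌋ : ℤ) : ℝ) ≤ ((m a : ℤ) : ℝ) := by linarith
      have h8 : ⌊x a - (ε + 1)⌋ ≤ m a := by exact_mod_cast h7
      omega
    · have h7 : ((m a : ℤ) : ℝ) ≤ ((⌈x a + (ε + 1)⌉ : ℤ) : ℝ) := by linarith
      have h8 : m a ≤ ⌈x a + (ε + 1)⌉ := by exact_mod_cast h7
      omega
  have hev : ∀ᶠ y in nhds x, ∀ m ∈ {m : Fin 4 → ℤ | ‖x - zv m‖ ≤ ε + 1}, ε < ‖y - zv m‖ := by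
    rw [Filter.eventually_all_finite hfin]
    intro m _
    have hc : ContinuousAt (fun y : R4 => ‖y - zv m‖) x := by fun_prop
    exact hc.eventually (lt_mem_nhds (hx m))
  have hz : ρ =ᶠ[nhds x] fun _ => (0 : ℝ) := by
    filter_upwards [hev, Metric.ball_mem_nhds x one_pos] with y hy hyb
    by_contra hne
    obtain ⟨m, hm⟩ := hρ y hne
    have hyx : ‖y - x‖ < 1 := mem_ball_iff_norm.1 hyb
    have h1 : ‖x - zv m‖ ≤ ε + 1 := by
      calc ‖x - zv m‖ = ‖(y - zv m) - (y - x)‖ := by congr 1; abel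
        _ ≤ ‖y - zv m‖ + ‖y - x‖ := norm_sub_le _ _
        _ ≤ ε + 1 := by linarith
    exact absurd hm (not_lt.2 (hy m h1).le)
  unfold dr
  rw [hz.fderiv_eq, fderiv_const_apply]
  rfl

theorem dr_GG (hρ : ContDiff ℝ ∞ ρ) (p q h : R4) : dr (GG ρ p q) h = GG (dr ρ h) p q := by
  have := tri_fin
  rw [GG_eq, GG_eq]
  exact dr_MM _ (fi_cont p q) (fi_bd p q) hρ h

theorem dr_EE (hρ : ContDiff ℝ ∞ ρ) (p q h : R4) : dr (EE ρ p q) h = EE (dr ρ h) p q := by
  rw [EE_eq, EE_eq]
  exact dr_MM _ (ei_cont p q) (ei_bd p q) hρ h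

private theorem ftc (hρ : ContDiff ℝ ∞ ρ) (y v : R4) (a b : ℝ) :
    ∫ s in a..b, dr ρ v (y - s • v) = ρ (y - a • v) - ρ (y - b • v) := by
  have hd : ∀ s ∈ Set.uIcc a b, HasDerivAt (fun s : ℝ => -ρ (y - s • v))
      (dr ρ v (y - s • v)) s := by
    intro s _
    have h1 : HasFDerivAt ρ (fderiv ℝ ρ (y - s • v)) (y - s • v) :=
      (hρ.differentiable (by norm_num) _).hasFDerivAt
    have h2 : HasDerivAt (fun s : ℝ => y - s • v) (-v) s := by
      have h3 : HasDerivAt (fun s : ℝ => s • v) ((1 : ℝ) • v) s := (hasDerivAt_id s).smul_const v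
      rw [one_smul] at h3
      exact h3.const_sub y
    have h4 := (h1.comp_hasDerivAt s h2).neg
    rw [map_neg, neg_neg] at h4
    exact h4
  have hc : Continuous (fun s : ℝ => dr ρ v (y - s • v)) :=
    (dr_smooth hρ v).continuous.comp (by fun_prop)
  rw [intervalIntegral.integral_eq_sub_of_hasDerivAt hd (hc.intervalIntegrable _ _)]
  ring

private theorem tri_fubini {f : ℝ × ℝ → ℝ} (hf : Continuous f) :
    ∫ s in tri, f s = ∫ t in (0 : ℝ)..1, ∫ s in (0 : ℝ)..(1 - t), f (s, t) := by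
  have hint : IntegrableOn f tri volume := hf.continuousOn.integrableOn_compact tri_cpt
  have hind : Integrable (tri.indicator f) ((volume : Measure ℝ).prod volume) := by
    have h1 := (integrable_indicator_iff tri_closed.measurableSet).2 hint
    exact h1
  rw [← integral_indicator tri_closed.measurableSet]
  have h2 : ∫ x, tri.indicator f x = ∫ t, ∫ s, tri.indicator f (s, t) := integral_prod_symm _ hind
  rw [h2, intervalIntegral.integral_of_le zero_le_one, ← integral_Icc_eq_integral_Ioc,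
    ← integral_indicator measurableSet_Icc]
  refine integral_congr_ae (Filter.Eventually.of_forall fun t => ?_)
  show ∫ s, tri.indicator f (s, t) = _
  by_cases ht : t ∈ Set.Icc (0 : ℝ) 1
  · rw [Set.indicator_of_mem ht, intervalIntegral.integral_of_le (by linarith [ht.2]),
      ← integral_Icc_eq_integral_Ioc, ← integral_indicator measurableSet_Icc]
    refine integral_congr_ae (Filter.Eventually.of_forall fun s => ?_)
    show tri.indicator f (s, t) = (Set.Icc 0 (1 - t)).indicator (fun s => f (s, t)) s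
    by_cases hs : s ∈ Set.Icc 0 (1 - t)
    · rw [Set.indicator_of_mem hs, Set.indicator_of_mem]
      exact ⟨hs.1, ht.1, by simpa using (by linarith [hs.2] : s + t ≤ 1)⟩
    · rw [Set.indicator_of_notMem hs, Set.indicator_of_notMem]
      rintro ⟨h3, h4, h5⟩
      exact hs ⟨h3, by
        simp only at h5
        linarith⟩
  · rw [Set.indicator_of_notMem ht]
    have h3 : (fun s => tri.indicator f (s, t)) = fun _ => 0 := by
      funext s
      rw [Set.indicator_of_notMem]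
      rintro ⟨h3, h4, h5⟩
      simp only at h3 h4 h5
      exact ht ⟨h4, by linarith⟩
    rw [h3, integral_zero]

private theorem GG_comm (ρ : R4 → ℝ) (p q : R4) : GG ρ p q = GG ρ q p := by
  funext x
  unfold GG
  have h1 : MeasurePreserving (Prod.swap : ℝ × ℝ → ℝ × ℝ) volume volume :=
    Measure.measurePreserving_swap
  have h2 := h1.setIntegral_preimage_emb (MeasurableEquiv.prodComm.measurableEmbedding)
    (fun s : ℝ × ℝ => ρ (x - s.1 • q - s.2 • p)) tri
  have h3 : (Prod.swap : ℝ × ℝ → ℝ × ℝ) ⁻¹' tri = tri := by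
    ext ⟨a, b⟩
    constructor
    · rintro ⟨h4, h5, h6⟩
      exact ⟨h5, h4, by simpa [add_comm] using h6⟩
    · rintro ⟨h4, h5, h6⟩
      exact ⟨h5, h4, by simpa [add_comm] using h6⟩
  rw [h3] at h2
  rw [← h2]
  refine integral_congr_ae (Filter.Eventually.of_forall fun s => ?_)
  show ρ (x - s.1 • p - s.2 • q) = ρ (x - s.2 • q - s.1 • p)
  congr 1
  abel

private theorem EE_comm (ρ : R4 → ℝ) (p q : R4) : EE ρ p q = EE ρ q p := by
  funext x
  unfold EE
  have h := intervalIntegral.integral_comp_sub_left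
    (fun t : ℝ => ρ (x - p - t • (q - p))) (a := 0) (b := 1) 1
  rw [sub_self, sub_zero] at h
  rw [← h]
  refine intervalIntegral.integral_congr fun t _ => ?_
  show ρ (x - p - (1 - t) • (q - p)) = ρ (x - q - t • (p - q))
  congr 1
  module

theorem dr_GG_left (hρ : ContDiff ℝ ∞ ρ) (p q x : R4) :
    dr (GG ρ p q) p x = EE ρ 0 q x - EE ρ p q x := by
  rw [dr_GG hρ]
  have hc : Continuous (fun s : ℝ × ℝ => dr ρ p (x - s.1 • p - s.2 • q)) :=
    (dr_smooth hρ p).continuous.comp (by fun_prop)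
  have h1 : GG (dr ρ p) p q x = ∫ t in (0 : ℝ)..1, ∫ s in (0 : ℝ)..(1 - t),
      dr ρ p (x - s • p - t • q) := tri_fubini hc
  have h2 : ∀ t : ℝ, ∫ s in (0 : ℝ)..(1 - t), dr ρ p (x - s • p - t • q) =
      ρ (x - 0 - t • (q - 0)) - ρ (x - p - t • (q - p)) := by
    intro t
    have h3 := ftc hρ (x - t • q) p 0 (1 - t)
    have h4 : ∀ s : ℝ, dr ρ p (x - s • p - t • q) = dr ρ p (x - t • q - s • p) := by
      intro s
      congr 1
      abel
    simp only [h4]
    rw [h3]
    congr 2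
    · module
    · module
  rw [h1]
  simp only [h2]
  unfold EE
  rw [intervalIntegral.integral_sub]
  · exact (hρ.continuous.comp (by fun_prop)).intervalIntegrable _ _
  · exact (hρ.continuous.comp (by fun_prop)).intervalIntegrable _ _

theorem dr_GG_right (hρ : ContDiff ℝ ∞ ρ) (p q x : R4) :
    dr (GG ρ p q) q x = EE ρ 0 p x - EE ρ p q x := by
  rw [GG_comm, dr_GG_left hρ, EE_comm ρ q p]

theorem dr_EE_self (hρ : ContDiff ℝ ∞ ρ) (t x : R4) :
    dr (EE ρ 0 t) t x = ρ x - ρ (x - t) := by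
  rw [dr_EE hρ]
  unfold EE
  have h := ftc hρ x t 0 1
  have h1 : ∀ s : ℝ, dr ρ t (x - 0 - s • (t - 0)) = dr ρ t (x - s • t) := by
    intro s
    rw [sub_zero, sub_zero]
  simp only [h1]
  rw [h, zero_smul, one_smul, sub_zero]

end Pool.Agent.CT
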