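import Pool.Agent.CT.SDefs

/-!
# CT-CHAINALG : calculus of homologies of currents

PLAN. Chains can be added (`Fin.append`, `Fin.sum_univ_add`), negated (`c ↦ - c`) and translated
(`σ ↦ σ + v`, same derivatives, `G'.int i j k a = G.int i j k (fun x => a (x + v))`). `IsPer`, smoothness
and `pd` commute with translations.
-/

set_option autoImplicit false

noncomputable section

open scoped ContDiff

namespace Pool.Agent.CT

variable {g : ℕ} {S S' S'' T T' : Ix g → Ix g → (V g → ℝ) → ℝ}
  {ξ η : Ix g → Ix g → Ix g → ℝ}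

private def zeroC : Chain3 g := ⟨0, Fin.elim0, fun l => l.elim0, fun l => l.elim0⟩

private theorem zeroC_int (i j k : Ix g) (a : V g → ℝ) : (zeroC : Chain3 g).int i j k a = 0 := by
  unfold Chain3.int
  exact Finset.sum_eq_zero fun l _ => l.elim0

private def negC (G : Chain3 g) : Chain3 g := ⟨G.m, fun l => - G.c l, G.σ, G.smooth⟩

private theorem negC_int (G : Chain3 g) (i j k : Ix g) (a : V g → ℝ) :
    (negC G).int i j k a = - G.int i j k a := by
  unfold Chain3.int
  rw [← Finset.sum_neg_distrib]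
  refine Finset.sum_congr rfl fun l _ => ?_
  show (((- G.c l : ℤ)) : ℝ) * _ = _
  rw [Int.cast_neg, neg_mul]
  rfl

private def addC (G H : Chain3 g) : Chain3 g :=
  ⟨G.m + H.m, Fin.append G.c H.c, Fin.append G.σ H.σ, fun l => by
    refine Fin.addCases (fun i => ?_) (fun i => ?_) l
    · rw [Fin.append_left]; exact G.smooth i
    · rw [Fin.append_right]; exact H.smooth i⟩

private theorem addC_int (G H : Chain3 g) (i j k : Ix g) (a : V g → ℝ) :
    (addC G H).int i j k a = G.int i j k a + H.int i j k a := by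
  unfold Chain3.int
  show ∑ l : Fin (G.m + H.m), ((Fin.append G.c H.c l : ℤ) : ℝ) *
    ∫ s in Set.Icc (0 : Fin 3 → ℝ) 1, a (Fin.append G.σ H.σ l s) *
    wed3 (fderiv ℝ (Fin.append G.σ H.σ l) s (Pi.single 0 1))
      (fderiv ℝ (Fin.append G.σ H.σ l) s (Pi.single 1 1))
      (fderiv ℝ (Fin.append G.σ H.σ l) s (Pi.single 2 1)) i j k = _
  rw [Fin.sum_univ_add]
  congr 1
  · refine Finset.sum_congr rfl fun l _ => ?_
    rw [Fin.append_left, Fin.append_left]
  · refine Finset.sum_congr rfl fun l _ => ?_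
    rw [Fin.append_right, Fin.append_right]

private def shiftC (G : Chain3 g) (v : V g) : Chain3 g :=
  ⟨G.m, G.c, fun l s => G.σ l s + v, fun l => (G.smooth l).add contDiff_const⟩

private theorem shiftC_int (G : Chain3 g) (v : V g) (i j k : Ix g) (a : V g → ℝ) :
    (shiftC G v).int i j k a = G.int i j k (fun x => a (x + v)) := by
  unfold Chain3.int
  refine Finset.sum_congr rfl fun l _ => ?_
  show (G.c l : ℝ) * ∫ s in Set.Icc (0 : Fin 3 → ℝ) 1, a (G.σ l s + v) *
    wed3 (fderiv ℝ (fun s => G.σ l s + v) s (Pi.single 0 1))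
      (fderiv ℝ (fun s => G.σ l s + v) s (Pi.single 1 1))
      (fderiv ℝ (fun s => G.σ l s + v) s (Pi.single 2 1)) i j k = _
  simp only [fderiv_add_const]

theorem Hm.refl (S : Ix g → Ix g → (V g → ℝ) → ℝ) : Hm S S (fun _ _ _ => 0) := by
  refine ⟨zeroC, fun a _ _ i j => ?_, fun i j k => (zeroC_int i j k _).symm⟩
  rw [sub_self]
  exact Finset.sum_eq_zero fun k _ => zeroC_int _ _ _ _

theorem Hm.symm (h : Hm S S' ξ) : Hm S' S (fun i j k => - ξ i j k) := by
  obtain ⟨G, hG, hξ⟩ := h
  refine ⟨negC G, fun a ha hp i j => ?_, fun i j k => ?_⟩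
  · rw [Finset.sum_congr rfl fun k _ => negC_int G k i j (pd a k), Finset.sum_neg_distrib,
      hG a ha hp i j, neg_sub]
  · show - ξ i j k = _
    rw [negC_int, hξ]

theorem Hm.trans (h : Hm S S' ξ) (h' : Hm S' S'' η) :
    Hm S S'' (fun i j k => ξ i j k + η i j k) := by
  obtain ⟨G, hG, hξ⟩ := h
  obtain ⟨H, hH, hη⟩ := h'
  refine ⟨addC G H, fun a ha hp i j => ?_, fun i j k => ?_⟩
  · rw [Finset.sum_congr rfl fun k _ => addC_int G H k i j (pd a k), Finset.sum_add_distrib,
      hG a ha hp i j, hH a ha hp i j]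
    ring
  · show ξ i j k + η i j k = _
    rw [addC_int, hξ, hη]

theorem Hm.add (h : Hm S S' ξ) (h' : Hm T T' η) :
    Hm (fun i j a => S i j a + T i j a) (fun i j a => S' i j a + T' i j a)
      (fun i j k => ξ i j k + η i j k) := by
  obtain ⟨G, hG, hξ⟩ := h
  obtain ⟨H, hH, hη⟩ := h'
  refine ⟨addC G H, fun a ha hp i j => ?_, fun i j k => ?_⟩
  · rw [Finset.sum_congr rfl fun k _ => addC_int G H k i j (pd a k), Finset.sum_add_distrib,
      hG a ha hp i j, hH a ha hp i j]
    ring
  · show ξ i j k + η i j k = _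
    rw [addC_int, hξ, hη]

theorem Hm.neg (h : Hm S S' ξ) :
    Hm (fun i j a => - S i j a) (fun i j a => - S' i j a) (fun i j k => - ξ i j k) := by
  obtain ⟨G, hG, hξ⟩ := h
  refine ⟨negC G, fun a ha hp i j => ?_, fun i j k => ?_⟩
  · rw [Finset.sum_congr rfl fun k _ => negC_int G k i j (pd a k), Finset.sum_neg_distrib,
      hG a ha hp i j]
    ring
  · show - ξ i j k = _
    rw [negC_int, hξ]

theorem Hm.sum {n : ℕ} (F F' : Fin n → Ix g → Ix g → (V g → ℝ) → ℝ)
    (η : Fin n → Ix g → Ix g → Ix g → ℝ) (h : ∀ c, Hm (F c) (F' c) (η c)) :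
    Hm (fun i j a => ∑ c, F c i j a) (fun i j a => ∑ c, F' c i j a)
      (fun i j k => ∑ c, η c i j k) := by
  induction n with
  | zero =>
    simp only [Finset.univ_eq_empty, Finset.sum_empty]
    exact Hm.refl _
  | succ n ih =>
    simp only [Fin.sum_univ_succ]
    exact Hm.add (h 0) (ih (fun c => F c.succ) (fun c => F' c.succ) (fun c => η c.succ)
      fun c => h c.succ)

theorem Hm.congr (h : Hm S S' ξ)
    (hT : ∀ i j (a : V g → ℝ), ContDiff ℝ ∞ a → IsPer a → T i j a = S i j a)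
    (hT' : ∀ i j (a : V g → ℝ), ContDiff ℝ ∞ a → IsPer a → T' i j a = S' i j a)
    (hη : ∀ i j k, η i j k = ξ i j k) : Hm T T' η := by
  obtain ⟨G, hG, hξ⟩ := h
  refine ⟨G, fun a ha hp i j => ?_, fun i j k => ?_⟩
  · rw [hT i j a ha hp, hT' i j a ha hp, hG a ha hp i j]
  · rw [hη, hξ]

theorem Hm.shift (h : Hm S S' ξ) (v : V g) :
    Hm (fun i j a => S i j (fun x => a (x + v))) (fun i j a => S' i j (fun x => a (x + v))) ξ := by
  obtain ⟨G, hG, hξ⟩ := h
  refine ⟨shiftC G v, fun a ha hp i j => ?_, fun i j k => ?_⟩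
  · have h1 : ContDiff ℝ ∞ (fun x => a (x + v)) := ha.comp (contDiff_id.add contDiff_const)
    have h2 : IsPer (fun x => a (x + v)) := fun n x => by
      show a (x + lat n + v) = a (x + v)
      rw [add_right_comm]
      exact hp n _
    have h3 := hG _ h1 h2 i j
    rw [← h3]
    refine Finset.sum_congr rfl fun k _ => ?_
    rw [shiftC_int]
    congr 1
    funext x
    show fderiv ℝ a (x + v) (Pi.single k 1) = fderiv ℝ (fun x => a (x + v)) x (Pi.single k 1)
    rw [fderiv_comp_add_right]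
  · rw [shiftC_int, hξ]

end Pool.Agent.CT
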