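import Pool.Agent.CT.SDefs

/-!
# CT-CHAINCUBE : Stokes for the 3-cubes `(r, s, t) ↦ Ψ (r, s) + t v`, `v` a lattice vector

PLAN. `G` has one cube `σ y = Ψ (y 0, y 1) + y 2 • lat v`, coefficient `1`. Put `Ψ_r = fderiv Ψ (r, s) (1, 0)`,
`Ψ_s = fderiv Ψ (r, s) (0, 1)`. `fderiv σ` in the three coordinate directions is `Ψ_r, Ψ_s, lat v`, and
`Σ_k pd a k (x) * wed3 u v w k i j = (fderiv a x u) wed2 v w i j - (fderiv a x v) wed2 u w i j +
(fderiv a x w) wed2 u v i j` (expand the 3×3 determinant along the first column). So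
`Σ_k G.int k i j (pd a k) = ∫∫∫ [(a∘σ)_r wed2 Ψ_s v - (a∘σ)_s wed2 Ψ_r v + (a∘σ)_t wed2 Ψ_r Ψ_s]`. The last
term integrates to `0` over `t` (`a` periodic). `∂_r (wed2 Ψ_s v) = ∂_s (wed2 Ψ_r v)` (symmetry of the second
derivative, `v` constant), so the integrand is
`∂_r [a(σ) wed2 Ψ_s v] - ∂_s [a(σ) wed2 Ψ_r v]`: fundamental theorem of calculus in `r`, resp. `s`.
The integral over `Set.Icc (0 : Fin 3 → ℝ) 1` is the iterated integral (`MeasureTheory.volume_preserving_piFinSuccAbove`,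
`MeasureTheory.integral_fin_succ`.. / a measurable equivalence `(Fin 3 → ℝ) ≃ ℝ × ℝ × ℝ`).
-/

set_option autoImplicit false

noncomputable section

open MeasureTheory Filter Set

open scoped ContDiff Topology

namespace Pool.Agent.CT

variable {g : ℕ}

private theorem icc_succ {n : ℕ} {f : (Fin (n + 1) → ℝ) → ℝ} (hf : Continuous f) :
    ∫ y in Set.Icc (0 : Fin (n + 1) → ℝ) 1, f y =
      ∫ x in (0 : ℝ)..1, ∫ y in Set.Icc (0 : Fin n → ℝ) 1, f (Fin.cons x y) := by
  have hmp := (volume_preserving_piFinSuccAbove (fun _ : Fin (n + 1) => ℝ) 0).symm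
  have hemb := (MeasurableEquiv.piFinSuccAbove (fun _ : Fin (n + 1) => ℝ) 0).symm.measurableEmbedding
  have h1 := hmp.setIntegral_preimage_emb hemb f (Set.Icc 0 1)
  have hsymm : ∀ p : ℝ × (Fin n → ℝ),
      (MeasurableEquiv.piFinSuccAbove (fun _ : Fin (n + 1) => ℝ) 0).symm p = Fin.cons p.1 p.2 := by
    intro p
    show (Fin.insertNth 0 p.1 p.2 : Fin (n + 1) → ℝ) = _
    exact Fin.insertNth_zero' p.1 p.2
  rw [← h1]
  have hpre : (MeasurableEquiv.piFinSuccAbove (fun _ : Fin (n + 1) => ℝ) 0).symm ⁻¹'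
      Set.Icc 0 1 = Set.Icc (0 : ℝ) 1 ×ˢ Set.Icc (0 : Fin n → ℝ) 1 := by
    ext ⟨x, y⟩
    simp only [MeasurableEquiv.piFinSuccAbove, Set.mem_preimage, Set.mem_Icc, Pi.le_def,
      Set.mem_prod, MeasurableEquiv.symm_mk, MeasurableEquiv.coe_mk, Equiv.symm_symm,
      Fin.forall_fin_succ, Fin.insertNthEquiv_apply, Fin.insertNth_zero, Fin.cons_zero,
      Fin.cons_succ, Pi.zero_apply, Pi.one_apply]
    tauto
  rw [hpre, Measure.volume_eq_prod, setIntegral_prod, intervalIntegral.integral_of_le zero_le_one,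
    ← integral_Icc_eq_integral_Ioc]
  · simp only [hsymm]
  · have hc : Continuous (fun p : ℝ × (Fin n → ℝ) =>
        f ((MeasurableEquiv.piFinSuccAbove (fun _ : Fin (n + 1) => ℝ) 0).symm p)) := by
      simp only [hsymm]
      have h2 : Continuous (fun p : ℝ × (Fin n → ℝ) => (Fin.cons p.1 p.2 : Fin (n + 1) → ℝ)) :=
        Continuous.finCons (A := fun _ : Fin (n + 1) => ℝ) continuous_fst continuous_snd
      exact hf.comp h2
    exact hc.continuousOn.integrableOn_compact (isCompact_Icc.prod isCompact_Icc)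

private theorem icc_three {f : (Fin 3 → ℝ) → ℝ} (hf : Continuous f) :
    ∫ y in Set.Icc (0 : Fin 3 → ℝ) 1, f y =
      ∫ t in (0 : ℝ)..1, ∫ r in (0 : ℝ)..1, ∫ s in (0 : ℝ)..1, f ![t, r, s] := by
  rw [icc_succ hf]
  congr 1
  funext t
  have h1 : Continuous (fun y : Fin 2 → ℝ => f (Fin.cons t y)) :=
    hf.comp (continuous_const.finCons continuous_id)
  rw [icc_succ h1]
  congr 1
  funext r
  have h2 : Continuous (fun y : Fin 1 → ℝ => f (Fin.cons t (Fin.cons r y))) :=
    h1.comp (continuous_const.finCons continuous_id)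
  rw [icc_succ h2]
  congr 1
  funext s
  have h3 : Set.Icc (0 : Fin 0 → ℝ) 1 = Set.univ := by
    ext y
    simp
  rw [h3, Measure.restrict_univ, Measure.volume_pi_eq_dirac, integral_dirac]
  rfl

/-- swap of the outer variable -/
private theorem swap3 {F : ℝ → ℝ → ℝ → ℝ}
    (hF : Continuous (fun p : ℝ × ℝ × ℝ => F p.1 p.2.1 p.2.2)) :
    ∫ t in (0 : ℝ)..1, ∫ r in (0 : ℝ)..1, ∫ s in (0 : ℝ)..1, F t r s =
      ∫ r in (0 : ℝ)..1, ∫ s in (0 : ℝ)..1, ∫ t in (0 : ℝ)..1, F t r s := by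
  have hint : ∀ G : ℝ × ℝ → ℝ, Continuous G →
      IntegrableOn G (uIoc (0 : ℝ) 1 ×ˢ uIoc (0 : ℝ) 1) := by
    intro G hG
    refine (hG.continuousOn.integrableOn_compact (isCompact_Icc (a := (0 : ℝ)) (b := 1) |>.prod
      (isCompact_Icc (a := (0 : ℝ)) (b := 1)))).mono_set ?_
    rw [uIoc_of_le zero_le_one]
    exact prod_mono Ioc_subset_Icc_self Ioc_subset_Icc_self
  rw [intervalIntegral_intervalIntegral_swap]
  · congr 1
    funext r
    rw [intervalIntegral_intervalIntegral_swap]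
    apply hint
    exact hF.comp (by fun_prop : Continuous fun p : ℝ × ℝ => (p.1, r, p.2))
  · apply hint
    have h1 : Continuous (fun p : (ℝ × ℝ) × ℝ => F p.1.1 p.1.2 p.2) :=
      hF.comp (by fun_prop : Continuous fun p : (ℝ × ℝ) × ℝ => (p.1.1, p.1.2, p.2))
    exact intervalIntegral.continuous_parametric_intervalIntegral_of_continuous' (μ := volume)
      (f := fun (p : ℝ × ℝ) s => F p.1 p.2 s) h1 0 1


private theorem int4 {f1 f2 f3 f4 : ℝ → ℝ} (h1 : Continuous f1) (h2 : Continuous f2)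
    (h3 : Continuous f3) (h4 : Continuous f4) :
    ∫ t in (0 : ℝ)..1, ((f1 t - f2 t) - (f3 t - f4 t)) =
      ((∫ t in (0 : ℝ)..1, f1 t) - ∫ t in (0 : ℝ)..1, f2 t) -
        ((∫ t in (0 : ℝ)..1, f3 t) - ∫ t in (0 : ℝ)..1, f4 t) := by
  have e1 : Continuous (fun t => f1 t - f2 t) := h1.sub h2
  have e2 : Continuous (fun t => f3 t - f4 t) := h3.sub h4
  rw [intervalIntegral.integral_sub (e1.intervalIntegrable _ _) (e2.intervalIntegrable _ _),
    intervalIntegral.integral_sub (h1.intervalIntegrable _ _) (h2.intervalIntegrable _ _),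
    intervalIntegral.integral_sub (h3.intervalIntegrable _ _) (h4.intervalIntegrable _ _)]

private theorem det_id (a : V g → ℝ) (x u v w : V g) (i j : Ix g) :
    ∑ k, pd a k x * wed3 u v w k i j = fderiv ℝ a x u * wed2 v w i j -
      fderiv ℝ a x v * wed2 u w i j + fderiv ℝ a x w * wed2 u v i j := by
  have hs : ∀ v : V g, fderiv ℝ a x v = ∑ k, pd a k x * v k := by
    intro v
    have h2 : (fderiv ℝ a x) v = ∑ i, v i • (fderiv ℝ a x) (fun j => if i = j then 1 else 0) :=
      (fderiv ℝ a x).toLinearMap.pi_apply_eq_sum_univ v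
    rw [h2]
    refine Finset.sum_congr rfl fun i _ => ?_
    unfold pd
    rw [smul_eq_mul, mul_comm]
    congr 2
    funext j
    by_cases hij : i = j
    · subst hij
      simp
    · rw [if_neg hij, Pi.single_eq_of_ne (Ne.symm hij)]
  rw [hs u, hs v, hs w, Finset.sum_mul, Finset.sum_mul, Finset.sum_mul, ← Finset.sum_sub_distrib,
    ← Finset.sum_add_distrib]
  refine Finset.sum_congr rfl fun k _ => ?_
  unfold wed3 wed2
  rw [Matrix.det_fin_three]
  simp
  ring

theorem cube_bounds (Ψ : ℝ × ℝ → V g) (hΨ : ContDiff ℝ ∞ Ψ) (v : Ix g → ℤ) :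
    ∃ G : Chain3 g, (∀ a : V g → ℝ, ContDiff ℝ ∞ a → IsPer a → ∀ i j,
      ∑ k, G.int k i j (pd a k) =
        (fP (fun s => Ψ (1, s)) (lat v) i j a - fP (fun s => Ψ (0, s)) (lat v) i j a) -
        (fP (fun r => Ψ (r, 1)) (lat v) i j a - fP (fun r => Ψ (r, 0)) (lat v) i j a)) ∧
      ∀ i j k, G.int i j k (fun _ => 1) = ∫ r in (0 : ℝ)..1, ∫ s in (0 : ℝ)..1,
        wed3 (fderiv ℝ Ψ (r, s) (1, 0)) (fderiv ℝ Ψ (r, s) (0, 1)) (lat v) i j k := by
  have hfd : ContDiff ℝ ∞ (fderiv ℝ Ψ) := hΨ.fderiv_right (by simp)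
  have hr : ∀ w : ℝ × ℝ, ContDiff ℝ ∞ (fun p => fderiv ℝ Ψ p w) := fun w =>
    hfd.clm_apply contDiff_const
  have hrk : ∀ (w : ℝ × ℝ) (k : Ix g), ContDiff ℝ ∞ (fun p => fderiv ℝ Ψ p w k) := fun w k =>
    contDiff_pi.1 (hr w) k
  set σ : (Fin 3 → ℝ) → V g := fun y => Ψ (y 1, y 2) + y 0 • lat v with hσdef
  have hσ : ContDiff ℝ ∞ σ := by
    refine (hΨ.comp ((contDiff_apply ℝ ℝ 1).prodMk (contDiff_apply ℝ ℝ 2))).add ?_
    exact (contDiff_apply ℝ ℝ 0).smul contDiff_const
  have hdσ : ∀ y : Fin 3 → ℝ, HasFDerivAt σ ((fderiv ℝ Ψ (y 1, y 2)).comp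
      ((ContinuousLinearMap.proj (R := ℝ) (φ := fun _ : Fin 3 => ℝ) 1).prod
        (ContinuousLinearMap.proj 2)) +
      (ContinuousLinearMap.proj (R := ℝ) (φ := fun _ : Fin 3 => ℝ) 0).smulRight (lat v)) y := by
    intro y
    have h1 : HasFDerivAt (fun y : Fin 3 → ℝ => (y 1, y 2))
        ((ContinuousLinearMap.proj (R := ℝ) (φ := fun _ : Fin 3 => ℝ) 1).prod
        (ContinuousLinearMap.proj 2)) y :=
      (hasFDerivAt_apply 1 y).prodMk (hasFDerivAt_apply 2 y)
    have h2 : HasFDerivAt Ψ (fderiv ℝ Ψ (y 1, y 2)) (y 1, y 2) :=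
      ((hΨ.differentiable (by simp)) _).hasFDerivAt
    have h3 : HasFDerivAt (fun y : Fin 3 → ℝ => y 0 • (lat v : V g))
        ((ContinuousLinearMap.proj (R := ℝ) (φ := fun _ : Fin 3 => ℝ) 0).smulRight (lat v)) y :=
      (hasFDerivAt_apply 0 y).smul_const (lat v)
    exact (h2.comp y h1).add h3
  have hd0 : ∀ y, fderiv ℝ σ y (Pi.single 0 1) = lat v := by
    intro y
    rw [(hdσ y).fderiv]
    simp
    exact map_zero _
  have hd1 : ∀ y, fderiv ℝ σ y (Pi.single 1 1) = fderiv ℝ Ψ (y 1, y 2) (1, 0) := by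
    intro y
    rw [(hdσ y).fderiv]
    simp
  have hd2 : ∀ y, fderiv ℝ σ y (Pi.single 2 1) = fderiv ℝ Ψ (y 1, y 2) (0, 1) := by
    intro y
    rw [(hdσ y).fderiv]
    simp
  let G : Chain3 g := ⟨1, fun _ => 1, fun _ => σ, fun _ => hσ⟩
  have hG : ∀ i j k (a : V g → ℝ), G.int i j k a = ∫ y in Set.Icc (0 : Fin 3 → ℝ) 1, a (σ y) *
      wed3 (lat v) (fderiv ℝ Ψ (y 1, y 2) (1, 0)) (fderiv ℝ Ψ (y 1, y 2) (0, 1)) i j k := by
    intro i j k a
    unfold Chain3.int
    show ∑ l : Fin 1, ((1 : ℤ) : ℝ) * _ = _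
    rw [Fin.sum_univ_one, Int.cast_one, one_mul]
    simp only [G, hd0, hd1, hd2]
  have hc12 : Continuous (fun y : Fin 3 → ℝ => (y 1, y 2)) := by fun_prop
  have hck : ∀ (w : ℝ × ℝ) (k : Ix g),
      Continuous (fun y : Fin 3 → ℝ => fderiv ℝ Ψ (y 1, y 2) w k) := fun w k =>
    (hrk w k).continuous.comp hc12
  have hcw3 : ∀ i j k, Continuous (fun y : Fin 3 → ℝ => wed3 (lat v)
      (fderiv ℝ Ψ (y 1, y 2) (1, 0)) (fderiv ℝ Ψ (y 1, y 2) (0, 1)) i j k) := by
    intro i j k
    unfold wed3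
    simp only [Matrix.det_fin_three]
    have h0 := hck (1, 0)
    have h1 := hck (0, 1)
    simp only [Matrix.of_apply, Matrix.cons_val', Matrix.cons_val_zero, Matrix.cons_val_one,
      Matrix.cons_val]
    fun_prop
  refine ⟨G, ?_, ?_⟩
  · intro a ha hp i j
    -- the two parts of the integrand
    have hac : ∀ w : ℝ × ℝ → V g, Continuous w →
        Continuous (fun q : ℝ × ℝ × ℝ => fderiv ℝ a (Ψ q.2 + q.1 • lat v) (w q.2)) := by
      intro w hw
      have h1 : Continuous (fun q : ℝ × ℝ × ℝ => Ψ q.2 + q.1 • (lat v : V g)) :=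
        (hΨ.continuous.comp continuous_snd).add (continuous_fst.smul continuous_const)
      exact ((ha.continuous_fderiv (by simp)).comp h1).clm_apply (hw.comp continuous_snd)
    have hcr : Continuous (fun p => fderiv ℝ Ψ p (1, 0)) := (hr (1, 0)).continuous
    have hcs : Continuous (fun p => fderiv ℝ Ψ p (0, 1)) := (hr (0, 1)).continuous
    have hwc : ∀ w w' : ℝ × ℝ → V g, Continuous w → Continuous w' →
        Continuous (fun p => wed2 (w p) (w' p) i j) := by
      intro w w' hw hw'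
      unfold wed2
      have h1 : ∀ k, Continuous (fun p => w p k) := fun k => (continuous_apply k).comp hw
      have h2 : ∀ k, Continuous (fun p => w' p k) := fun k => (continuous_apply k).comp hw'
      exact ((h1 i).mul (h2 j)).sub ((h1 j).mul (h2 i))
    set f1 : ℝ × ℝ × ℝ → ℝ := fun q => fderiv ℝ a (Ψ q.2 + q.1 • lat v) (lat v) *
      wed2 (fderiv ℝ Ψ q.2 (1, 0)) (fderiv ℝ Ψ q.2 (0, 1)) i j with hf1
    set f2 : ℝ × ℝ × ℝ → ℝ := fun q =>
      fderiv ℝ a (Ψ q.2 + q.1 • lat v) (fderiv ℝ Ψ q.2 (1, 0)) *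
        wed2 (fderiv ℝ Ψ q.2 (0, 1)) (lat v) i j -
      fderiv ℝ a (Ψ q.2 + q.1 • lat v) (fderiv ℝ Ψ q.2 (0, 1)) *
        wed2 (fderiv ℝ Ψ q.2 (1, 0)) (lat v) i j with hf2
    have hf1c : Continuous f1 :=
      (hac (fun _ => lat v) continuous_const).mul ((hwc _ _ hcr hcs).comp continuous_snd)
    have hf2c : Continuous f2 :=
      ((hac _ hcr).mul ((hwc _ _ hcs continuous_const).comp continuous_snd)).sub
        ((hac _ hcs).mul ((hwc _ _ hcr continuous_const).comp continuous_snd))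
    have hq : Continuous (fun y : Fin 3 → ℝ => (y 0, y 1, y 2)) := by fun_prop
    have hstep1 : ∑ k, G.int k i j (pd a k) =
        ∫ y in Set.Icc (0 : Fin 3 → ℝ) 1, (f1 (y 0, y 1, y 2) + f2 (y 0, y 1, y 2)) := by
      simp only [hG]
      have hpc : ∀ k, Continuous (fun y : Fin 3 → ℝ => pd a k (σ y)) := fun k =>
        ((ha.continuous_fderiv (by simp)).comp hσ.continuous).clm_apply continuous_const
      have hii : ∀ k, IntegrableOn (fun y : Fin 3 → ℝ => pd a k (σ y) * wed3 (lat v)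
          (fderiv ℝ Ψ (y 1, y 2) (1, 0)) (fderiv ℝ Ψ (y 1, y 2) (0, 1)) k i j)
          (Set.Icc (0 : Fin 3 → ℝ) 1) := fun k =>
        ((hpc k).mul (hcw3 k i j)).continuousOn.integrableOn_compact isCompact_Icc
      rw [← integral_finsetSum _ fun k _ => hii k]
      congr 1
      funext y
      rw [det_id]
      simp only [hf1, hf2, hσdef]
      unfold wed2
      ring
    have hi1 : IntegrableOn (fun y : Fin 3 → ℝ => f1 (y 0, y 1, y 2)) (Set.Icc (0 : Fin 3 → ℝ) 1) :=
      (hf1c.comp hq).continuousOn.integrableOn_compact isCompact_Icc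
    have hi2 : IntegrableOn (fun y : Fin 3 → ℝ => f2 (y 0, y 1, y 2)) (Set.Icc (0 : Fin 3 → ℝ) 1) :=
      (hf2c.comp hq).continuousOn.integrableOn_compact isCompact_Icc
    rw [hstep1, integral_add hi1 hi2,
      icc_three (f := fun y => f1 (y 0, y 1, y 2)) (hf1c.comp hq),
      icc_three (f := fun y => f2 (y 0, y 1, y 2)) (hf2c.comp hq)]
    simp only [Matrix.cons_val_zero, Matrix.cons_val_one, Matrix.cons_val]
    -- the first part
    have hpart1 : ∫ t in (0 : ℝ)..1, ∫ r in (0 : ℝ)..1, ∫ s in (0 : ℝ)..1, f1 (t, r, s) = 0 := by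
      rw [swap3 (F := fun t r s => f1 (t, r, s)) hf1c]
      have h1 : ∀ r s : ℝ, ∫ t in (0 : ℝ)..1, f1 (t, r, s) = 0 := by
        intro r s
        simp only [hf1]
        rw [intervalIntegral.integral_mul_const]
        have h2 : ∀ t : ℝ, HasDerivAt (fun t : ℝ => a (Ψ (r, s) + t • lat v))
            (fderiv ℝ a (Ψ (r, s) + t • lat v) (lat v)) t := by
          intro t
          have h3 : HasDerivAt (fun t : ℝ => Ψ (r, s) + t • (lat v : V g)) (lat v) t := by
            have := (hasDerivAt_id t).smul_const (lat v : V g)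
            simpa using this.const_add (Ψ (r, s))
          exact ((ha.differentiable (by simp)) _).hasFDerivAt.comp_hasDerivAt t h3
        rw [intervalIntegral.integral_eq_sub_of_hasDerivAt (fun t _ => h2 t)]
        · have h4 : a (Ψ (r, s) + (1 : ℝ) • lat v) = a (Ψ (r, s) + (0 : ℝ) • lat v) := by
            rw [one_smul, zero_smul, add_zero]
            exact hp v _
          rw [h4]
          ring
        · apply Continuous.intervalIntegrable
          exact (hac (fun _ => lat v) continuous_const).comp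
            (by fun_prop : Continuous fun t : ℝ => (t, r, s))
      simp [h1]
    rw [hpart1, zero_add]
    -- the second part
    have hdiv : ∀ t : ℝ, ∫ r in (0 : ℝ)..1, ∫ s in (0 : ℝ)..1, f2 (t, r, s) =
        ((∫ s in (0 : ℝ)..1, a (Ψ (1, s) + t • lat v) * wed2 (fderiv ℝ Ψ (1, s) (0, 1)) (lat v) i j) -
        ∫ s in (0 : ℝ)..1, a (Ψ (0, s) + t • lat v) * wed2 (fderiv ℝ Ψ (0, s) (0, 1)) (lat v) i j) -
        ((∫ r in (0 : ℝ)..1, a (Ψ (r, 1) + t • lat v) * wed2 (fderiv ℝ Ψ (r, 1) (1, 0)) (lat v) i j) -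
        ∫ r in (0 : ℝ)..1, a (Ψ (r, 0) + t • lat v) * wed2 (fderiv ℝ Ψ (r, 0) (1, 0)) (lat v) i j) := by
      intro t
      have hA : ContDiff ℝ ∞ (fun p : ℝ × ℝ => a (Ψ p + t • lat v)) :=
        ha.comp (hΨ.add contDiff_const)
      have hW : ∀ w : ℝ × ℝ, ContDiff ℝ ∞ (fun p => wed2 (fderiv ℝ Ψ p w) (lat v) i j) := by
        intro w
        unfold wed2
        exact ((hrk w i).mul contDiff_const).sub ((hrk w j).mul contDiff_const)
      have hdA : ∀ (p w : ℝ × ℝ), fderiv ℝ (fun p : ℝ × ℝ => a (Ψ p + t • lat v)) p w =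
          fderiv ℝ a (Ψ p + t • lat v) (fderiv ℝ Ψ p w) := by
        intro p w
        have h1 : HasFDerivAt (fun p : ℝ × ℝ => Ψ p + t • (lat v : V g)) (fderiv ℝ Ψ p) p :=
          (((hΨ.differentiable (by simp)) p).hasFDerivAt).add_const _
        have h2 : HasFDerivAt (fun p : ℝ × ℝ => a (Ψ p + t • (lat v : V g))) _ p :=
          (((ha.differentiable (by simp)) (Ψ p + t • lat v)).hasFDerivAt).comp p h1
        rw [h2.fderiv]
        rfl
      have hdW : ∀ (p w w' : ℝ × ℝ), fderiv ℝ (fun p => wed2 (fderiv ℝ Ψ p w) (lat v) i j) p w' =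
          wed2 (fderiv ℝ (fderiv ℝ Ψ) p w' w) (lat v) i j := by
        intro p w w'
        have h1 : ∀ k, HasFDerivAt (fun p => fderiv ℝ Ψ p w k)
            (((ContinuousLinearMap.proj (R := ℝ) (φ := fun _ : Ix g => ℝ) k).comp
              ((ContinuousLinearMap.apply ℝ (V g) w).comp (fderiv ℝ (fderiv ℝ Ψ) p)))) p := by
          intro k
          have h2 : HasFDerivAt (fderiv ℝ Ψ) (fderiv ℝ (fderiv ℝ Ψ) p) p :=
            ((hfd.differentiable (by simp)) p).hasFDerivAt
          exact ((ContinuousLinearMap.proj (R := ℝ) (φ := fun _ : Ix g => ℝ) k).comp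
            (ContinuousLinearMap.apply ℝ (V g) w)).hasFDerivAt.comp p h2
        have h3 : HasFDerivAt (fun p => wed2 (fderiv ℝ Ψ p w) (lat v) i j) _ p :=
          ((h1 i).mul_const (lat v j)).sub ((h1 j).mul_const (lat v i))
        rw [h3.fderiv]
        simp only [sub_apply, smul_apply, ContinuousLinearMap.comp_apply,
          ContinuousLinearMap.proj_apply, ContinuousLinearMap.apply_apply, smul_eq_mul]
        unfold wed2
        ring
      set B : ℝ × ℝ → ℝ := fun p => a (Ψ p + t • lat v) * wed2 (fderiv ℝ Ψ p (0, 1)) (lat v) i j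
        with hB
      set C : ℝ × ℝ → ℝ := fun p => -(a (Ψ p + t • lat v) * wed2 (fderiv ℝ Ψ p (1, 0)) (lat v) i j)
        with hC
      have hBs : ContDiff ℝ ∞ B := hA.mul (hW _)
      have hCs : ContDiff ℝ ∞ C := (hA.mul (hW _)).neg
      have hdB : ∀ p, fderiv ℝ B p (1, 0) =
          a (Ψ p + t • lat v) * wed2 (fderiv ℝ (fderiv ℝ Ψ) p (1, 0) (0, 1)) (lat v) i j +
          wed2 (fderiv ℝ Ψ p (0, 1)) (lat v) i j *
            fderiv ℝ a (Ψ p + t • lat v) (fderiv ℝ Ψ p (1, 0)) := by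
        intro p
        have h1 : HasFDerivAt B _ p := ((hA.differentiable (by simp)) p).hasFDerivAt.mul
          (((hW (0, 1)).differentiable (by simp)) p).hasFDerivAt
        rw [h1.fderiv]
        simp only [add_apply, smul_apply, smul_eq_mul]
        rw [hdA, hdW]
      have hdC : ∀ p, fderiv ℝ C p (0, 1) =
          -(a (Ψ p + t • lat v) * wed2 (fderiv ℝ (fderiv ℝ Ψ) p (0, 1) (1, 0)) (lat v) i j +
          wed2 (fderiv ℝ Ψ p (1, 0)) (lat v) i j *
            fderiv ℝ a (Ψ p + t • lat v) (fderiv ℝ Ψ p (0, 1))) := by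
        intro p
        have h1 : HasFDerivAt C _ p := (((hA.differentiable (by simp)) p).hasFDerivAt.mul
          (((hW (1, 0)).differentiable (by simp)) p).hasFDerivAt).neg
        rw [h1.fderiv]
        simp only [neg_apply, add_apply, smul_apply, smul_eq_mul]
        rw [hdA, hdW]
      have hsym : ∀ p, fderiv ℝ (fderiv ℝ Ψ) p (1, 0) (0, 1) =
          fderiv ℝ (fderiv ℝ Ψ) p (0, 1) (1, 0) := by
        intro p
        have h1 : IsSymmSndFDerivAt ℝ Ψ p := hΨ.contDiffAt.isSymmSndFDerivAt (by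
          rw [minSmoothness_of_isRCLikeNormedField]
          norm_cast)
        exact h1.eq _ _
      have hkey : ∀ r s : ℝ, f2 (t, r, s) = fderiv ℝ B (r, s) (1, 0) + fderiv ℝ C (r, s) (0, 1) := by
        intro r s
        rw [hdB, hdC, hsym]
        simp only [hf2]
        ring
      have hgreen := integral2_divergence_prod_of_hasFDerivAt B C (fderiv ℝ B) (fderiv ℝ C) 0 0 1 1
        hBs.continuous.continuousOn hCs.continuous.continuousOn
        (fun p _ => ((hBs.differentiable (by simp)) p).hasFDerivAt)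
        (fun p _ => ((hCs.differentiable (by simp)) p).hasFDerivAt)
        (by
          rw [uIcc_of_le zero_le_one]
          refine ContinuousOn.integrableOn_compact (isCompact_Icc.prod isCompact_Icc) ?_
          exact (((hBs.continuous_fderiv (by simp)).clm_apply continuous_const).add
            ((hCs.continuous_fderiv (by simp)).clm_apply continuous_const)).continuousOn)
      simp only [hkey]
      rw [hgreen]
      simp only [hB, hC, intervalIntegral.integral_neg]
      ring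
    simp only [hdiv]
    -- continuity in `t` and exchange of the integrals
    have hedge : ∀ (γ δ : ℝ → V g), Continuous γ → Continuous δ →
        (Continuous fun t : ℝ => ∫ s in (0 : ℝ)..1, a (γ s + t • lat v) * wed2 (δ s) (lat v) i j) ∧
        (∫ t in (0 : ℝ)..1, ∫ s in (0 : ℝ)..1, a (γ s + t • lat v) * wed2 (δ s) (lat v) i j) =
          ∫ s in (0 : ℝ)..1, ∫ t in (0 : ℝ)..1, a (γ s + t • lat v) * wed2 (δ s) (lat v) i j := by
      intro γ δ hγ hδ
      have hδk : ∀ k, Continuous (fun s => δ s k) := fun k => (continuous_apply k).comp hδ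
      have h1 : Continuous (fun p : ℝ × ℝ => a (γ p.2 + p.1 • lat v) * wed2 (δ p.2) (lat v) i j) := by
        have h2 : Continuous (fun p : ℝ × ℝ => γ p.2 + p.1 • (lat v : V g)) :=
          (hγ.comp continuous_snd).add (continuous_fst.smul continuous_const)
        have h3 : Continuous (fun s => wed2 (δ s) (lat v) i j) := by
          unfold wed2
          exact ((hδk i).mul continuous_const).sub ((hδk j).mul continuous_const)
        exact (ha.continuous.comp h2).mul (h3.comp continuous_snd)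
      refine ⟨intervalIntegral.continuous_parametric_intervalIntegral_of_continuous' (μ := volume)
        (f := fun t s => a (γ s + t • lat v) * wed2 (δ s) (lat v) i j) h1 0 1, ?_⟩
      rw [intervalIntegral_intervalIntegral_swap]
      refine (h1.continuousOn.integrableOn_compact (isCompact_Icc (a := (0 : ℝ)) (b := 1) |>.prod
        (isCompact_Icc (a := (0 : ℝ)) (b := 1)))).mono_set ?_
      rw [uIoc_of_le zero_le_one]
      exact prod_mono Ioc_subset_Icc_self Ioc_subset_Icc_self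
    have hE1 : ∀ c : ℝ, Continuous (fun s : ℝ => Ψ (c, s)) := fun c =>
      hΨ.continuous.comp (by fun_prop)
    have hE2 : ∀ c : ℝ, Continuous (fun s : ℝ => Ψ (s, c)) := fun c =>
      hΨ.continuous.comp (by fun_prop)
    have hD1 : ∀ c : ℝ, Continuous (fun s : ℝ => fderiv ℝ Ψ (c, s) (0, 1)) := fun c =>
      hcs.comp (by fun_prop : Continuous fun s : ℝ => (c, s))
    have hD2 : ∀ c : ℝ, Continuous (fun s : ℝ => fderiv ℝ Ψ (s, c) (1, 0)) := fun c =>
      hcr.comp (by fun_prop : Continuous fun s : ℝ => (s, c))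
    have e1 := hedge _ _ (hE1 1) (hD1 1)
    have e0 := hedge _ _ (hE1 0) (hD1 0)
    have e1' := hedge _ _ (hE2 1) (hD2 1)
    have e0' := hedge _ _ (hE2 0) (hD2 0)
    rw [int4 e1.1 e0.1 e1'.1 e0'.1, e1.2, e0.2, e1'.2, e0'.2]
    have hfP1 : ∀ c : ℝ, fP (fun s => Ψ (c, s)) (lat v) i j a = ∫ s in (0 : ℝ)..1,
        ∫ t in (0 : ℝ)..1, a (Ψ (c, s) + t • lat v) * wed2 (fderiv ℝ Ψ (c, s) (0, 1)) (lat v) i j := by
      intro c
      unfold fP
      have h1 : ∀ s, deriv (fun s => Ψ (c, s)) s = fderiv ℝ Ψ (c, s) (0, 1) := by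
        intro s
        have h2 : HasDerivAt (fun s : ℝ => (c, s)) (0, 1) s :=
          (hasDerivAt_const s c).prodMk (hasDerivAt_id s)
        exact (((hΨ.differentiable (by simp)) (c, s)).hasFDerivAt.comp_hasDerivAt s h2).deriv
      simp only [h1]
    have hfP2 : ∀ c : ℝ, fP (fun s => Ψ (s, c)) (lat v) i j a = ∫ s in (0 : ℝ)..1,
        ∫ t in (0 : ℝ)..1, a (Ψ (s, c) + t • lat v) * wed2 (fderiv ℝ Ψ (s, c) (1, 0)) (lat v) i j := by
      intro c
      unfold fP
      have h1 : ∀ s, deriv (fun s => Ψ (s, c)) s = fderiv ℝ Ψ (s, c) (1, 0) := by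
        intro s
        have h2 : HasDerivAt (fun s : ℝ => (s, c)) (1, 0) s :=
          (hasDerivAt_id s).prodMk (hasDerivAt_const s c)
        exact (((hΨ.differentiable (by simp)) (s, c)).hasFDerivAt.comp_hasDerivAt s h2).deriv
      simp only [h1]
    rw [hfP1, hfP1, hfP2, hfP2]
  · intro i j k
    rw [hG]
    simp only [one_mul]
    rw [icc_three (hcw3 i j k)]
    simp only [Matrix.cons_val_one, Matrix.cons_val, intervalIntegral.integral_const, sub_zero,
      one_smul]
    congr 1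
    funext r
    congr 1
    funext s
    unfold wed3
    simp only [Matrix.det_fin_three]
    simp
    ring

end Pool.Agent.CT
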