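import Pool.Agent.CT.SDefs

/-!
# CT-SYMPB : symplectic bases

PLAN. Let `Ω a b = om (lat (single a 1)) (lat (single b 1))` (`= 1` for `a = (i, false)`, `b = (i, true)`, `-1` for the
reverse, `0` otherwise) as a matrix over `ℝ` (or `ℤ`) indexed by `Ix g`, and `P` the matrix with rows `e a`.
`SympBasis e` says `P Ω Pᵀ = Ω`. `Ω² = -1`, so `P (Ω Pᵀ (-Ω)) = 1`, hence `(Ω Pᵀ (-Ω)) P = 1`
(`Matrix.mul_eq_one_comm`), i.e. `Pᵀ Ω P = Ω`. `Pᵀ Ω P = Ω` is `wed_symp` (and `wed_int`), and multiplying a
vector `v` gives the expansion `symp_expand`: (coefficients: `om v (lat (e (c, true)))` of `lat (e (c, false))` and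
`- om v (lat (e (c, false)))` of `lat (e (c, true))`).
`alt_sum`: `B u v = Σ_{a, b} u a * v b • B ε_a ε_b`; with `M a b = Σ_c e (c, false) a * e (c, true) b` and `M0` the same
for the standard basis, `M - M0` is symmetric (by `wed_int`: `M a b - M b a = M0 a b - M0 b a`), and
`Σ_{a,b} Sym a b • B ε_a ε_b = 0` for symmetric integral `Sym` (`Finset.sum_involution` with `(a, b) ↦ (b, a)`,
`B ε_a ε_b + B ε_b ε_a = 0`, `B ε_a ε_a = 0`).
-/

set_option autoImplicit false

noncomputable section

namespace Pool.Agent.CT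

variable {g : ℕ}

private theorem om_sf (c : Fin g) (w : V g) : om (lat (Pi.single (c, false) 1)) w = w (c, true) := by
  unfold om lat
  rw [Finset.sum_eq_single c]
  · simp
  · intro i _ hi
    simp [hi]
  · simp

private theorem om_st (c : Fin g) (w : V g) : om (lat (Pi.single (c, true) 1)) w = - w (c, false) := by
  unfold om lat
  rw [Finset.sum_eq_single c]
  · simp
  · intro i _ hi
    simp [hi]
  · simp

private def Om : Matrix (Ix g) (Ix g) ℝ := fun a b => om (lat (Pi.single a 1)) (lat (Pi.single b 1))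

private theorem Om_f (c : Fin g) (b : Ix g) : Om (c, false) b = if (c, true) = b then 1 else 0 := by
  unfold Om
  rw [om_sf]
  unfold lat
  rw [Pi.single_apply]
  split_ifs <;> simp

private theorem Om_t (c : Fin g) (b : Ix g) :
    Om (c, true) b = - if (c, false) = b then 1 else 0 := by
  unfold Om
  rw [om_st]
  unfold lat
  rw [Pi.single_apply]
  split_ifs <;> simp

private theorem om_eq (v w : V g) : om v w = ∑ b, (∑ a, v a * Om a b) * w b := by
  have h1 : ∀ b, (∑ a, v a * Om a b) * w b = ∑ a, v a * (Om a b * w b) := fun b => by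
    rw [Finset.sum_mul]
    exact Finset.sum_congr rfl fun a _ => mul_assoc _ _ _
  rw [Finset.sum_congr rfl fun b _ => h1 b, Finset.sum_comm, Fintype.sum_prod_type]
  unfold om
  refine Finset.sum_congr rfl fun c _ => ?_
  rw [Fintype.sum_bool, ← Finset.mul_sum, ← Finset.mul_sum]
  have h2 : ∑ b, Om (c, true) b * w b = - w (c, false) := by
    rw [Finset.sum_eq_single (c, false)]
    · rw [Om_t, if_pos rfl]
      ring
    · intro b _ hb
      rw [Om_t, if_neg hb.symm]
      ring
    · intro h
      exact absurd (Finset.mem_univ _) h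
  have h3 : ∑ b, Om (c, false) b * w b = w (c, true) := by
    rw [Finset.sum_eq_single (c, true)]
    · rw [Om_f, if_pos rfl]
      ring
    · intro b _ hb
      rw [Om_f, if_neg hb.symm]
      ring
    · intro h
      exact absurd (Finset.mem_univ _) h
  rw [h2, h3]
  ring

private theorem Om_sq : (Om : Matrix (Ix g) (Ix g) ℝ) * Om = -1 := by
  ext ⟨c, x⟩ b
  rw [Matrix.mul_apply, Matrix.neg_apply, Matrix.one_apply]
  cases x
  · rw [Finset.sum_eq_single (c, true)]
    · rw [Om_f, if_pos rfl, Om_t, one_mul]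
    · intro k _ hk
      rw [Om_f, if_neg hk.symm, zero_mul]
    · intro h
      exact absurd (Finset.mem_univ _) h
  · rw [Finset.sum_eq_single (c, false)]
    · rw [Om_t, if_pos rfl, Om_f, neg_one_mul]
    · intro k _ hk
      rw [Om_t, if_neg hk.symm, neg_zero, zero_mul]
    · intro h
      exact absurd (Finset.mem_univ _) h

private def Pm (e : Ix g → Ix g → ℤ) : Matrix (Ix g) (Ix g) ℝ := fun a i => lat (e a) i

private theorem PmOm (e : Ix g → Ix g → ℤ) (he : SympBasis e) :
    (Pm e).transpose * Om * Pm e = Om := by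
  have h1 : Pm e * Om * (Pm e).transpose = Om := by
    ext a b
    rw [Matrix.mul_apply]
    have h2 := om_eq (lat (e a)) (lat (e b))
    rw [he a b] at h2
    show _ = om (lat (Pi.single a 1)) (lat (Pi.single b 1))
    rw [h2]
    refine Finset.sum_congr rfl fun j _ => ?_
    rw [Matrix.mul_apply]
    rfl
  have h2 : Pm e * (Om * (Pm e).transpose * (-Om)) = 1 := by
    rw [← Matrix.mul_assoc, ← Matrix.mul_assoc, h1, Matrix.mul_neg, Om_sq, neg_neg]
  have h3 : Om * (Pm e).transpose * (-Om) * Pm e = 1 := mul_eq_one_comm.1 h2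
  have h4 : Om * (Om * (Pm e).transpose * (-Om) * Pm e) = Om := by
    rw [h3, Matrix.mul_one]
  have h5 : Om * (Om * (Pm e).transpose * (-Om) * Pm e) =
      (Om * Om) * ((Pm e).transpose * (-Om) * Pm e) := by
    simp only [Matrix.mul_assoc]
  rw [h5, Om_sq] at h4
  have h6 : (Pm e).transpose * Om * Pm e = -1 * ((Pm e).transpose * (-Om) * Pm e) := by
    simp only [Matrix.mul_neg, Matrix.neg_mul, Matrix.one_mul, neg_neg]
  rw [h6, h4]

private theorem quad (e : Ix g → Ix g → ℤ) (i j : Ix g) :
    ((Pm e).transpose * Om * Pm e : Matrix (Ix g) (Ix g) ℝ) i j =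
      ∑ c : Fin g, wed2 (lat (e (c, false))) (lat (e (c, true))) i j := by
  rw [Matrix.mul_assoc, Matrix.mul_apply, Fintype.sum_prod_type]
  refine Finset.sum_congr rfl fun c _ => ?_
  rw [Fintype.sum_bool, Matrix.mul_apply, Matrix.mul_apply]
  have h2 : ∑ b, Om (c, true) b * Pm e b j = - Pm e (c, false) j := by
    rw [Finset.sum_eq_single (c, false)]
    · rw [Om_t, if_pos rfl]
      ring
    · intro b _ hb
      rw [Om_t, if_neg hb.symm]
      ring
    · intro h
      exact absurd (Finset.mem_univ _) h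
  have h3 : ∑ b, Om (c, false) b * Pm e b j = Pm e (c, true) j := by
    rw [Finset.sum_eq_single (c, true)]
    · rw [Om_f, if_pos rfl]
      ring
    · intro b _ hb
      rw [Om_f, if_neg hb.symm]
      ring
    · intro h
      exact absurd (Finset.mem_univ _) h
  rw [h2, h3]
  show lat (e (c, true)) i * (- lat (e (c, false)) j) + lat (e (c, false)) i * lat (e (c, true)) j = _
  unfold wed2
  ring

private theorem std_symp : SympBasis (fun a : Ix g => (Pi.single a 1 : Ix g → ℤ)) :=
  fun _ _ => rfl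

private theorem lat_single (a : Ix g) : lat (Pi.single a 1 : Ix g → ℤ) = eV a := by
  funext i
  unfold lat eV
  rw [Pi.single_apply, Pi.single_apply]
  split_ifs <;> simp

private theorem wed_eq (e : Ix g → Ix g → ℤ) (he : SympBasis e) (i j : Ix g) :
    ∑ c : Fin g, wed2 (lat (e (c, false))) (lat (e (c, true))) i j = Om i j := by
  rw [← quad, PmOm e he]

private theorem wed_std (i j : Ix g) :
    ∑ c : Fin g, wed2 (eV (c, false)) (eV (c, true)) i j = Om i j := by
  rw [← wed_eq _ std_symp i j]
  refine Finset.sum_congr rfl fun c _ => ?_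
  rw [lat_single, lat_single]

theorem symp_expand (e : Ix g → Ix g → ℤ) (he : SympBasis e) (v : V g) :
    v = ∑ c : Fin g, (om v (lat (e (c, true))) • lat (e (c, false)) -
      om v (lat (e (c, false))) • lat (e (c, true))) := by
  funext j
  rw [Finset.sum_apply]
  have h1 : ∀ c : Fin g, (om v (lat (e (c, true))) • lat (e (c, false)) -
      om v (lat (e (c, false))) • lat (e (c, true))) j =
      ∑ i : Fin g, (- (v (i, false) * wed2 (lat (e (c, false))) (lat (e (c, true))) (i, true) j) +
        v (i, true) * wed2 (lat (e (c, false))) (lat (e (c, true))) (i, false) j) := by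
    intro c
    show om v (lat (e (c, true))) * lat (e (c, false)) j -
      om v (lat (e (c, false))) * lat (e (c, true)) j = _
    unfold om wed2
    rw [Finset.sum_mul, Finset.sum_mul, ← Finset.sum_sub_distrib]
    exact Finset.sum_congr rfl fun i _ => by ring
  rw [Finset.sum_congr rfl fun c _ => h1 c, Finset.sum_comm]
  have h2 : ∀ i : Fin g, ∑ c : Fin g,
      (- (v (i, false) * wed2 (lat (e (c, false))) (lat (e (c, true))) (i, true) j) +
        v (i, true) * wed2 (lat (e (c, false))) (lat (e (c, true))) (i, false) j) =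
      v (i, false) * (if (i, false) = j then 1 else 0) +
        v (i, true) * (if (i, true) = j then 1 else 0) := by
    intro i
    rw [Finset.sum_add_distrib, Finset.sum_neg_distrib, ← Finset.mul_sum, ← Finset.mul_sum,
      wed_eq e he, wed_eq e he, Om_t, Om_f]
    ring
  rw [Finset.sum_congr rfl fun i _ => h2 i]
  obtain ⟨k, x⟩ := j
  rw [Finset.sum_eq_single k]
  · cases x <;> simp
  · intro i _ hi
    simp [hi]
  · intro h
    exact absurd (Finset.mem_univ _) h

theorem wed_symp (e : Ix g → Ix g → ℤ) (he : SympBasis e) (i j : Ix g) :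
    ∑ c : Fin g, wed2 (lat (e (c, false))) (lat (e (c, true))) i j =
      ∑ c : Fin g, wed2 (eV (c, false)) (eV (c, true)) i j := by
  rw [wed_eq e he, wed_std]

theorem wed_int (e : Ix g → Ix g → ℤ) (he : SympBasis e) (a b : Ix g) :
    ∑ c : Fin g, (e (c, false) a * e (c, true) b - e (c, false) b * e (c, true) a) =
      ∑ c : Fin g, ((Pi.single (c, false) 1 : Ix g → ℤ) a * (Pi.single (c, true) 1 : Ix g → ℤ) b -
        (Pi.single (c, false) 1 : Ix g → ℤ) b * (Pi.single (c, true) 1 : Ix g → ℤ) a) := by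
  have h1 := (wed_eq e he a b).trans (wed_eq _ std_symp a b).symm
  unfold wed2 lat at h1
  exact_mod_cast h1

theorem symp_cc (e : Ix g → Ix g → ℤ) (he : SympBasis e) (c c' : Fin g) :
    om (lat (e (c, false))) (lat (e (c', true))) = (if c = c' then 1 else 0) ∧
    om (lat (e (c, true))) (lat (e (c', false))) = (if c = c' then -1 else 0) ∧
    om (lat (e (c, false))) (lat (e (c', false))) = 0 ∧
    om (lat (e (c, true))) (lat (e (c', true))) = 0 := by
  rw [he, he, he, he]
  have h1 : ∀ a b : Ix g, om (lat (Pi.single a 1)) (lat (Pi.single b 1)) = Om a b :=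
    fun _ _ => rfl
  rw [h1, h1, h1, h1, Om_f, Om_t, Om_f, Om_t]
  refine ⟨?_, ?_, ?_, ?_⟩
  · simp
  · by_cases h : c = c' <;> simp [h]
  · simp
  · simp

theorem om_int (n m : Ix g → ℤ) : ∃ k : ℤ, om (lat n) (lat m) = k := by
  refine ⟨∑ i : Fin g, (n (i, false) * m (i, true) - n (i, true) * m (i, false)), ?_⟩
  unfold om lat
  push_cast
  rfl

theorem om_lin (v w w' : V g) (r : ℝ) : om (v + w) w' = om v w' + om w w' ∧
    om (r • v) w' = r * om v w' ∧ om v w = - om w v := by
  unfold om
  refine ⟨?_, ?_, ?_⟩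
  · rw [← Finset.sum_add_distrib]
    refine Finset.sum_congr rfl fun i _ => ?_
    rw [Pi.add_apply, Pi.add_apply]
    ring
  · rw [Finset.mul_sum]
    refine Finset.sum_congr rfl fun i _ => ?_
    rw [Pi.smul_apply, Pi.smul_apply, smul_eq_mul, smul_eq_mul]
    ring
  · rw [← Finset.sum_neg_distrib]
    exact Finset.sum_congr rfl fun i _ => by ring

private theorem B_expand {A : Type*} [AddCommGroup A] (B : (Ix g → ℤ) →+ (Ix g → ℤ) →+ A)
    (u v : Ix g → ℤ) :
    B u v = ∑ p : Ix g × Ix g, (u p.1 * v p.2) • B (Pi.single p.1 1) (Pi.single p.2 1) := by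
  have hex : ∀ u : Ix g → ℤ, u = ∑ a, u a • (Pi.single a 1 : Ix g → ℤ) := by
    intro u
    funext i
    rw [Finset.sum_apply, Finset.sum_eq_single i]
    · simp
    · intro b _ hb
      simp [hb.symm]
    · intro h
      exact absurd (Finset.mem_univ _) h
  rw [Fintype.sum_prod_type]
  have h1 : B u v = ∑ a, u a • B (Pi.single a 1) v := by
    conv_lhs => rw [hex u]
    rw [map_sum, AddMonoidHom.finsetSum_apply]
    refine Finset.sum_congr rfl fun a _ => ?_
    rw [map_zsmul, AddMonoidHom.zsmul_apply]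
  rw [h1]
  refine Finset.sum_congr rfl fun a _ => ?_
  have h2 : B (Pi.single a 1) v = ∑ b, v b • B (Pi.single a 1) (Pi.single b 1) := by
    conv_lhs => rw [hex v]
    rw [map_sum]
    refine Finset.sum_congr rfl fun b _ => ?_
    rw [map_zsmul]
  rw [h2, Finset.smul_sum]
  refine Finset.sum_congr rfl fun b _ => ?_
  rw [smul_smul]

theorem alt_sum {A : Type*} [AddCommGroup A] (B : (Ix g → ℤ) →+ (Ix g → ℤ) →+ A)
    (hB : ∀ u, B u u = 0) (e : Ix g → Ix g → ℤ) (he : SympBasis e) :
    ∑ c : Fin g, B (e (c, false)) (e (c, true)) =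
      ∑ c : Fin g, B (Pi.single (c, false) 1) (Pi.single (c, true) 1) := by
  have hanti : ∀ u v, B u v + B v u = 0 := by
    intro u v
    have h := hB (u + v)
    rw [map_add B, AddMonoidHom.add_apply, map_add (B u), map_add (B v), hB, hB, zero_add,
      add_zero] at h
    exact h
  have hM : ∀ f : Ix g → Ix g → ℤ, ∑ c : Fin g, B (f (c, false)) (f (c, true)) =
      ∑ p : Ix g × Ix g, (∑ c : Fin g, f (c, false) p.1 * f (c, true) p.2) •
        B (Pi.single p.1 1) (Pi.single p.2 1) := by
    intro f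
    rw [Finset.sum_congr rfl fun c _ => B_expand B (f (c, false)) (f (c, true)), Finset.sum_comm]
    refine Finset.sum_congr rfl fun p _ => ?_
    rw [Finset.sum_smul]
  rw [hM e, hM fun a => Pi.single a 1, ← sub_eq_zero, ← Finset.sum_sub_distrib]
  have h1 : ∀ p : Ix g × Ix g,
      (∑ c : Fin g, e (c, false) p.1 * e (c, true) p.2) •
        B (Pi.single p.1 1) (Pi.single p.2 1) -
      (∑ c : Fin g, (Pi.single (c, false) 1 : Ix g → ℤ) p.1 *
        (Pi.single (c, true) 1 : Ix g → ℤ) p.2) • B (Pi.single p.1 1) (Pi.single p.2 1) =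
      (∑ c : Fin g, (e (c, false) p.1 * e (c, true) p.2 -
        (Pi.single (c, false) 1 : Ix g → ℤ) p.1 * (Pi.single (c, true) 1 : Ix g → ℤ) p.2)) •
        B (Pi.single p.1 1) (Pi.single p.2 1) := by
    intro p
    rw [← sub_smul, Finset.sum_sub_distrib]
  rw [Finset.sum_congr rfl fun p _ => h1 p]
  refine Finset.sum_involution (fun p _ => (p.2, p.1)) ?_ ?_ ?_ ?_
  · rintro ⟨a, b⟩ _
    have h2 := wed_int e he a b
    have h3 : ∑ c : Fin g, (e (c, false) b * e (c, true) a -
        (Pi.single (c, false) 1 : Ix g → ℤ) b * (Pi.single (c, true) 1 : Ix g → ℤ) a) =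
        ∑ c : Fin g, (e (c, false) a * e (c, true) b -
        (Pi.single (c, false) 1 : Ix g → ℤ) a * (Pi.single (c, true) 1 : Ix g → ℤ) b) := by
      simp only [Finset.sum_sub_distrib] at h2 ⊢
      linarith
    show (∑ c : Fin g, (e (c, false) a * e (c, true) b -
        (Pi.single (c, false) 1 : Ix g → ℤ) a * (Pi.single (c, true) 1 : Ix g → ℤ) b)) •
        B (Pi.single a 1) (Pi.single b 1) + (∑ c : Fin g, (e (c, false) b * e (c, true) a -
        (Pi.single (c, false) 1 : Ix g → ℤ) b * (Pi.single (c, true) 1 : Ix g → ℤ) a)) •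
        B (Pi.single b 1) (Pi.single a 1) = 0
    rw [h3, ← smul_add, hanti, smul_zero]
  · rintro ⟨a, b⟩ _ hne heq
    apply hne
    have hab : b = a := (Prod.ext_iff.1 heq).1
    subst hab
    show _ • B (Pi.single b 1) (Pi.single b 1) = 0
    rw [hB, smul_zero]
  · rintro ⟨a, b⟩ _
    exact Finset.mem_univ _
  · rintro ⟨a, b⟩ _
    rfl

end Pool.Agent.CT
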