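import Pool.Agent.CT.ChainTor
import Pool.Agent.CT.SympB

/-!
# CT-CHAINSTAR : stars of elliptic curves are homologous to the reference curve

PLAN. (1) The currents `S` with `Hm S 0 ξ` for some `ξ` form a subgroup `Bd` of the group
`Ix g → Ix g → (V g → ℝ) → ℝ` (`Hm.add`, `Hm.neg`, `Hm.refl`). Let `A` be the quotient and
`B u v` the class of `fT (lat u) (lat v) 0`; `B` is additive in `u` (`Hm_prism`), `B v u = - B u v` (the currents
`fT y x 0` and `- fT x y 0` agree on continuous functions: swap the variables; `wed2` is alternating), hence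
additive in `v`, `B u u = 0`. `alt_sum`: `Σ_c [fT x_c y_c 0] = Σ_c [fT (eV (c, false)) (eV (c, true)) 0]`, and the
latter sum is `cur0` (definition, `mul_comm`, `add_zero`). So there is `ξ0` with
`Hm (Σ_c fT x_c y_c 0) cur0 ξ0`.
(2) `Hm_transl` with `t = 0`, `h = t c`, `Hm.sum`, `Hm.trans`.
`cur0_transl`: `Hm_transl` for the standard basis, summed: `cur0` translated by `v`.
-/

set_option autoImplicit false

noncomputable section

open scoped ContDiff

namespace Pool.Agent.CT

variable {g : ℕ}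

private theorem cs_lat_single (a : Ix g) :
    lat (Pi.single a 1 : Ix g → ℤ) = (Pi.single a 1 : V g) := by
  funext i
  by_cases h : i = a
  · subst h; simp [lat]
  · simp [lat, h]

private theorem cs_sub {S S' : Ix g → Ix g → (V g → ℝ) → ℝ} {ξ : Ix g → Ix g → Ix g → ℝ}
    (h : Hm S S' ξ) : Hm (S - S') 0 ξ :=
  (h.add (Hm.refl (-S'))).congr (fun i j a _ _ => by simp [sub_eq_add_neg])
    (fun i j a _ _ => by simp) (fun i j k => by simp)

private theorem cs_of_sub {S S' : Ix g → Ix g → (V g → ℝ) → ℝ} {ξ : Ix g → Ix g → Ix g → ℝ}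
    (h : Hm (S - S') 0 ξ) : Hm S S' ξ :=
  (h.add (Hm.refl S')).congr (fun i j a _ _ => by simp)
    (fun i j a _ _ => by simp) (fun i j k => by simp)

/-- the currents which are boundaries -/
private def csBd (g : ℕ) : AddSubgroup (Ix g → Ix g → (V g → ℝ) → ℝ) where
  carrier := {S | ∃ ξ, Hm S 0 ξ}
  zero_mem' := ⟨_, Hm.refl 0⟩
  add_mem' := by
    rintro S T ⟨ξ, h⟩ ⟨η, h'⟩
    exact ⟨_, (h.add h').congr (fun i j a _ _ => by simp) (fun i j a _ _ => by simp)
      (fun i j k => rfl)⟩
  neg_mem' := by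
    rintro S ⟨ξ, h⟩
    exact ⟨_, h.neg.congr (fun i j a _ _ => by simp) (fun i j a _ _ => by simp)
      (fun i j k => rfl)⟩

/-- the class of a current modulo boundaries -/
private def csq (S : Ix g → Ix g → (V g → ℝ) → ℝ) :
    (Ix g → Ix g → (V g → ℝ) → ℝ) ⧸ csBd g := QuotientAddGroup.mk' (csBd g) S

private theorem csq_eq {S S' : Ix g → Ix g → (V g → ℝ) → ℝ} :
    csq S = csq S' ↔ ∃ ξ, Hm S S' ξ := by
  constructor
  · intro h
    have h1 : csq (S - S') = 0 := by
      have : csq (S - S') = csq S - csq S' := map_sub _ _ _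
      rw [this, h, sub_self]
    obtain ⟨ξ, h2⟩ := (QuotientAddGroup.eq_zero_iff (N := csBd g) (S - S')).1 h1
    exact ⟨ξ, cs_of_sub h2⟩
  · rintro ⟨ξ, h⟩
    have h1 : csq (S - S') = 0 := (QuotientAddGroup.eq_zero_iff (N := csBd g) (S - S')).2
      ⟨ξ, cs_sub h⟩
    have h2 : csq (S - S') = csq S - csq S' := map_sub _ _ _
    rw [h2] at h1
    exact sub_eq_zero.1 h1

private theorem csq_add (S S' : Ix g → Ix g → (V g → ℝ) → ℝ) :
    csq (S + S') = csq S + csq S' := map_add _ _ _

private theorem csq_neg (S : Ix g → Ix g → (V g → ℝ) → ℝ) : csq (-S) = - csq S := map_neg _ _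

private theorem csq_sum (F : Fin g → Ix g → Ix g → (V g → ℝ) → ℝ) :
    csq (∑ c, F c) = ∑ c, csq (F c) := map_sum _ _ _

private theorem cs_swap (x y : V g) (i j : Ix g) (a : V g → ℝ) :
    fT y x 0 i j a = - fT x y 0 i j a := by
  unfold fT
  have h1 : ∫ s in Set.Icc (0 : ℝ × ℝ) 1, a (s.1 • y + s.2 • x + 0) =
      ∫ s in Set.Icc (0 : ℝ × ℝ) 1, a (s.1 • x + s.2 • y + 0) := by
    have h2 := (MeasureTheory.Measure.measurePreserving_swap (μ := (MeasureTheory.volume : MeasureTheory.Measure ℝ))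
      (ν := (MeasureTheory.volume : MeasureTheory.Measure ℝ))).setIntegral_preimage_emb
      (MeasurableEquiv.prodComm (α := ℝ) (β := ℝ)).measurableEmbedding
      (fun s : ℝ × ℝ => a (s.1 • x + s.2 • y + 0)) (Set.Icc (0 : ℝ × ℝ) 1)
    have h3 : (Prod.swap : ℝ × ℝ → ℝ × ℝ) ⁻¹' (Set.Icc (0 : ℝ × ℝ) 1) = Set.Icc (0 : ℝ × ℝ) 1 := by
      ext s
      simp only [Set.mem_preimage, Set.mem_Icc, Prod.le_def, Prod.fst_swap, Prod.snd_swap,
        Prod.fst_zero, Prod.snd_zero, Prod.fst_one, Prod.snd_one]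
      tauto
    rw [h3] at h2
    refine Eq.trans ?_ h2
    refine MeasureTheory.integral_congr_ae (Filter.Eventually.of_forall fun s => ?_)
    show a (s.1 • y + s.2 • x + 0) = a (s.swap.1 • x + s.swap.2 • y + 0)
    rw [Prod.fst_swap, Prod.snd_swap, add_comm (s.1 • y)]
  rw [h1]
  unfold wed2
  ring

private theorem cs_anti (u v : Ix g → ℤ) :
    csq (fT (lat v) (lat u) 0) = - csq (fT (lat u) (lat v) 0) := by
  rw [← csq_neg]
  congr 1
  funext i j a
  exact cs_swap _ _ _ _ _

private theorem cs_addl (u u' v : Ix g → ℤ) :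
    csq (fT (lat (u + u')) (lat v) 0) = csq (fT (lat u) (lat v) 0) + csq (fT (lat u') (lat v) 0) := by
  rw [← csq_add, csq_eq]
  exact Hm_prism u u' v

private theorem cs_addr (u v v' : Ix g → ℤ) :
    csq (fT (lat u) (lat (v + v')) 0) = csq (fT (lat u) (lat v) 0) + csq (fT (lat u) (lat v') 0) := by
  rw [cs_anti (v + v') u, cs_addl, cs_anti u v, cs_anti u v']
  abel

/-- the class of a flat torus as a biadditive map -/
private def csB (g : ℕ) :
    (Ix g → ℤ) →+ (Ix g → ℤ) →+ ((Ix g → Ix g → (V g → ℝ) → ℝ) ⧸ csBd g) :=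
  AddMonoidHom.mk' (fun u => AddMonoidHom.mk' (fun v => csq (fT (lat u) (lat v) 0))
    (fun v v' => cs_addr u v v')) (fun u u' => AddMonoidHom.ext fun v => cs_addl u u' v)

private theorem csB_apply (u v : Ix g → ℤ) : csB g u v = csq (fT (lat u) (lat v) 0) := rfl

private theorem csB_self (u : Ix g → ℤ) : csB g u u = 0 := by
  rw [csB_apply]
  have h : fT (lat u) (lat u) 0 = (0 : Ix g → Ix g → (V g → ℝ) → ℝ) := by
    funext i j a
    have h1 : wed2 (lat u) (lat u) i j = 0 := by unfold wed2; ring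
    simp [fT, h1]
  rw [h]
  exact map_zero _

private theorem cs_cur0 : (cur0 : Ix g → Ix g → (V g → ℝ) → ℝ) =
    ∑ c : Fin g, fT (lat (Pi.single (c, false) 1)) (lat (Pi.single (c, true) 1)) 0 := by
  funext i j a
  rw [Finset.sum_apply, Finset.sum_apply, Finset.sum_apply]
  unfold cur0 fT
  refine Finset.sum_congr rfl fun c _ => ?_
  rw [cs_lat_single, cs_lat_single, mul_comm]
  simp only [add_zero]

theorem chain_star (e : Ix g → Ix g → ℤ) (he : SympBasis e) :
    ∃ ξ0 : Ix g → Ix g → Ix g → ℝ, ∀ t : Fin g → V g,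
      Hm (fun i j a => ∑ c : Fin g, fT (lat (e (c, false))) (lat (e (c, true))) (t c) i j a) cur0
        (fun i j k => ξ0 i j k +
          ∑ c : Fin g, wed3 (t c) (lat (e (c, false))) (lat (e (c, true))) i j k) := by
  have h1 := alt_sum (csB g) csB_self e he
  simp only [csB_apply] at h1
  rw [← csq_sum, ← csq_sum, ← cs_cur0, csq_eq] at h1
  obtain ⟨ξ0, h0⟩ := h1
  refine ⟨ξ0, fun t => ?_⟩
  have h2 : ∀ c : Fin g, Hm (fT (lat (e (c, false))) (lat (e (c, true))) (t c))
      (fT (lat (e (c, false))) (lat (e (c, true))) 0)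
      (wed3 (t c) (lat (e (c, false))) (lat (e (c, true)))) := by
    intro c
    have h3 := Hm_transl (e (c, false)) (e (c, true)) 0 (t c)
    rwa [zero_add] at h3
  have h4 := Hm.sum _ _ _ h2
  have h5 : Hm (fun i j a => ∑ c : Fin g, fT (lat (e (c, false))) (lat (e (c, true))) 0 i j a)
      cur0 ξ0 := by
    refine h0.congr (fun i j a _ _ => ?_) (fun i j a _ _ => rfl) (fun i j k => rfl)
    rw [Finset.sum_apply, Finset.sum_apply, Finset.sum_apply]
  exact (h4.trans h5).congr (fun i j a _ _ => rfl) (fun i j a _ _ => rfl)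
    (fun i j k => add_comm _ _)

theorem cur0_transl (v : V g) :
    Hm (fun i j a => cur0 i j (fun x => a (x + v))) cur0 (wom v) := by
  have h2 : ∀ c : Fin g, Hm (fT (lat (Pi.single (c, false) 1)) (lat (Pi.single (c, true) 1)) v)
      (fT (lat (Pi.single (c, false) 1)) (lat (Pi.single (c, true) 1)) 0)
      (wed3 v (lat (Pi.single (c, false) 1)) (lat (Pi.single (c, true) 1))) := by
    intro c
    have h3 := Hm_transl (Pi.single (c, false) 1) (Pi.single (c, true) 1) 0 v
    rwa [zero_add] at h3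
  refine (Hm.sum _ _ _ h2).congr (fun i j a _ _ => ?_) (fun i j a _ _ => ?_) (fun i j k => ?_)
  · rw [cs_cur0, Finset.sum_apply, Finset.sum_apply, Finset.sum_apply]
    refine Finset.sum_congr rfl fun c _ => ?_
    unfold fT
    simp only [add_zero]
  · rw [cs_cur0, Finset.sum_apply, Finset.sum_apply, Finset.sum_apply]
  · unfold wom
    refine Finset.sum_congr rfl fun c _ => ?_
    rw [cs_lat_single, cs_lat_single]

end Pool.Agent.CT
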