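import Pool.Agent.CT.ChainCube
import Pool.Agent.CT.ChainAlg

/-!
# CT-CHAINTOR : homologies between flat tori

PLAN. `fP_line`: for `γ s = t + s • x` one has `fP γ v i j a = fT x v t i j a` (continuous `a`; Fubini on
`Set.Icc (0 : ℝ × ℝ) 1`).
`Hm_transl`: `cube_bounds` with `Ψ (r, s) = t + r • h + s • lat x`, `v = y`: the faces `Ψ (·, 1)`, `Ψ (·, 0)`
differ by the lattice vector `lat x`, so they cancel; the volume is `wed3 h (lat x) (lat y)`.
`Hm_prism`: `cube_bounds` with `Ψ (r, s) = s • lat u + (s * r) • lat u'`: `Ψ (1, s) = s • lat (u + u')`,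
`Ψ (0, s) = s • lat u`, `Ψ (r, 1) = lat u + r • lat u'` (translate by a lattice vector of `r • lat u'`),
`Ψ (r, 0) = 0` (contributes `0`).
`Hm_lat`: `Hm_transl` with `h = lat c`, `fT_per`-type periodicity: the two tori have the same current;
together with `Hm.refl S` and `Hm.add`, `Hm.congr` for a general `S`.
-/

set_option autoImplicit false

noncomputable section

open scoped ContDiff

namespace Pool.Agent.CT

variable {g : ℕ}

private theorem fP_line (x t v : V g) (γ : ℝ → V g) (hγ : ∀ s, γ s = t + s • x) (a : V g → ℝ)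
    (ha : Continuous a) (i j : Ix g) : fP γ v i j a = fT x v t i j a := by
  have hd : ∀ s, deriv γ s = x := by
    intro s
    have h1 : γ = fun s => t + s • x := funext hγ
    rw [h1]
    have h2 : HasDerivAt (fun s : ℝ => t + s • x) ((1 : ℝ) • x) s :=
      ((hasDerivAt_id s).smul_const x).const_add t
    rw [h2.deriv, one_smul]
  unfold fP fT
  have hIcc : (Set.Icc (0 : ℝ × ℝ) 1) = Set.Icc (0 : ℝ) 1 ×ˢ Set.Icc (0 : ℝ) 1 := by
    rw [Set.Icc_prod_Icc]; rfl
  have hc : Continuous fun s : ℝ × ℝ => a (s.1 • x + s.2 • v + t) := by fun_prop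
  have hint : MeasureTheory.IntegrableOn (fun s : ℝ × ℝ => a (s.1 • x + s.2 • v + t))
      (Set.Icc (0 : ℝ) 1 ×ˢ Set.Icc (0 : ℝ) 1) (MeasureTheory.volume.prod MeasureTheory.volume) :=
    hc.continuousOn.integrableOn_compact (isCompact_Icc.prod isCompact_Icc)
  rw [hIcc, MeasureTheory.Measure.volume_eq_prod, MeasureTheory.setIntegral_prod _ hint]
  simp only [hd, hγ]
  rw [intervalIntegral.integral_of_le zero_le_one, ← MeasureTheory.integral_Icc_eq_integral_Ioc,
    ← MeasureTheory.integral_const_mul]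
  refine MeasureTheory.integral_congr_ae (Filter.Eventually.of_forall fun s => ?_)
  dsimp only
  rw [intervalIntegral.integral_of_le zero_le_one, ← MeasureTheory.integral_Icc_eq_integral_Ioc,
    ← MeasureTheory.integral_const_mul]
  refine MeasureTheory.integral_congr_ae (Filter.Eventually.of_forall fun r => ?_)
  dsimp only
  rw [mul_comm, show t + s • x + r • v = s • x + r • v + t by abel]

private theorem fP_shift (v : V g) (γ γ' : ℝ → V g) (n : Ix g → ℤ) (hγ : ∀ s, γ s = γ' s + lat n)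
    (a : V g → ℝ) (ha : IsPer a) (i j : Ix g) : fP γ v i j a = fP γ' v i j a := by
  have h1 : γ = fun s => γ' s + lat n := funext hγ
  have hd : ∀ s, deriv γ s = deriv γ' s := by
    intro s
    rw [h1]
    exact deriv_add_const (lat n)
  unfold fP
  simp only [hd]
  refine intervalIntegral.integral_congr fun s _ => ?_
  refine intervalIntegral.integral_congr fun r _ => ?_
  show a (γ s + r • v) * _ = a (γ' s + r • v) * _
  rw [hγ, show γ' s + lat n + r • v = γ' s + r • v + lat n by abel, ha]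

private theorem fP_const (v p : V g) (γ : ℝ → V g) (hγ : ∀ s, γ s = p) (a : V g → ℝ)
    (i j : Ix g) : fP γ v i j a = 0 := by
  have h1 : γ = fun _ => p := funext hγ
  unfold fP
  rw [h1]
  simp [wed2]

private theorem fT_per (x y t : V g) (n : Ix g → ℤ) (a : V g → ℝ) (ha : IsPer a) (i j : Ix g) :
    fT x y (t + lat n) i j a = fT x y t i j a := by
  unfold fT
  congr 1
  refine MeasureTheory.integral_congr_ae (Filter.Eventually.of_forall fun s => ?_)
  dsimp only
  rw [← add_assoc, ha]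

private theorem lat_add (u u' : Ix g → ℤ) : lat (u + u') = lat u + lat u' := by
  ext i; simp [lat]

theorem Hm_transl (x y : Ix g → ℤ) (t h : V g) :
    Hm (fT (lat x) (lat y) (t + h)) (fT (lat x) (lat y) t) (wed3 h (lat x) (lat y)) := by
  let Ψ : ℝ × ℝ → V g := fun p => t + p.1 • h + p.2 • lat x
  have hΨ : ContDiff ℝ ∞ Ψ := by
    have h1 : ContDiff ℝ ∞ (fun p : ℝ × ℝ => p.1 • h) := contDiff_fst.smul contDiff_const
    have h2 : ContDiff ℝ ∞ (fun p : ℝ × ℝ => p.2 • lat x) := contDiff_snd.smul contDiff_const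
    exact (contDiff_const.add h1).add h2
  have hD : ∀ p : ℝ × ℝ, HasFDerivAt Ψ
      ((ContinuousLinearMap.fst ℝ ℝ ℝ).smulRight h +
        (ContinuousLinearMap.snd ℝ ℝ ℝ).smulRight (lat x)) p := by
    intro p
    have h1 : HasFDerivAt (fun p : ℝ × ℝ => p.1 • h) ((ContinuousLinearMap.fst ℝ ℝ ℝ).smulRight h) p :=
      ((ContinuousLinearMap.fst ℝ ℝ ℝ).smulRight h).hasFDerivAt
    have h2 : HasFDerivAt (fun p : ℝ × ℝ => p.2 • lat x)
        ((ContinuousLinearMap.snd ℝ ℝ ℝ).smulRight (lat x)) p :=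
      ((ContinuousLinearMap.snd ℝ ℝ ℝ).smulRight (lat x)).hasFDerivAt
    exact (h1.const_add t).add h2
  obtain ⟨G, hG, hv⟩ := cube_bounds Ψ hΨ y
  refine ⟨G, ?_, ?_⟩
  · intro a ha hp i j
    rw [hG a ha hp i j]
    rw [fP_line (lat x) (t + h) (lat y) (fun s => Ψ (1, s)) (fun s => by simp [Ψ]) a ha.continuous,
      fP_line (lat x) t (lat y) (fun s => Ψ (0, s)) (fun s => by simp [Ψ]) a ha.continuous,
      fP_shift (lat y) (fun r => Ψ (r, 1)) (fun r => Ψ (r, 0)) x (fun s => by simp [Ψ]) a hp]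
    ring
  · intro i j k
    rw [hv]
    have hc : ∀ r s : ℝ, wed3 (fderiv ℝ Ψ (r, s) (1, 0)) (fderiv ℝ Ψ (r, s) (0, 1)) (lat y) i j k =
        wed3 h (lat x) (lat y) i j k := by
      intro r s
      rw [(hD (r, s)).fderiv]
      simp
    simp only [hc]
    simp

theorem Hm_prism (u u' v : Ix g → ℤ) :
    ∃ ξ, Hm (fT (lat (u + u')) (lat v) 0)
      (fun i j a => fT (lat u) (lat v) 0 i j a + fT (lat u') (lat v) 0 i j a) ξ := by
  let Ψ : ℝ × ℝ → V g := fun p => p.2 • lat u + (p.2 * p.1) • lat u'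
  have hΨ : ContDiff ℝ ∞ Ψ := by
    have h1 : ContDiff ℝ ∞ (fun p : ℝ × ℝ => p.2 • lat u) := contDiff_snd.smul contDiff_const
    have h2 : ContDiff ℝ ∞ (fun p : ℝ × ℝ => (p.2 * p.1) • lat u') :=
      (contDiff_snd.mul contDiff_fst).smul contDiff_const
    exact h1.add h2
  obtain ⟨G, hG, -⟩ := cube_bounds Ψ hΨ v
  refine ⟨fun i j k => G.int i j k (fun _ => 1), G, ?_, fun _ _ _ => rfl⟩
  intro a ha hp i j
  rw [hG a ha hp i j]
  rw [fP_line (lat (u + u')) 0 (lat v) (fun s => Ψ (1, s))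
      (fun s => by simp [Ψ, lat_add, smul_add]) a ha.continuous,
    fP_line (lat u) 0 (lat v) (fun s => Ψ (0, s)) (fun s => by simp [Ψ]) a ha.continuous,
    fP_shift (lat v) (fun r => Ψ (r, 1)) (fun r => r • lat u') u
      (fun s => by simp [Ψ, add_comm]) a hp,
    fP_line (lat u') 0 (lat v) (fun r => r • lat u') (fun s => by simp) a ha.continuous,
    fP_const (lat v) 0 (fun r => Ψ (r, 0)) (fun s => by simp [Ψ]) a]
  ring

theorem Hm_lat (S : Ix g → Ix g → (V g → ℝ) → ℝ) (w : Ix g → Ix g → Ix g → ℝ)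
    (hw : w ∈ Lam g) : Hm S S w := by
  refine AddSubgroup.closure_induction (p := fun w _ => Hm S S w) ?_ ?_ ?_ ?_ hw
  · rintro _ ⟨c, b, d, rfl⟩
    obtain ⟨G, hG, hv⟩ := Hm_transl b d 0 (lat c)
    refine ⟨G, fun a ha hp i j => ?_, hv⟩
    rw [hG a ha hp i j, fT_per _ _ _ _ _ hp]
    ring
  · exact Hm.refl S
  · intro x y _ _ hx hy
    exact hx.trans hy
  · intro x _ hx
    exact hx.symm

end Pool.Agent.CT
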