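import Pool.Agent.CT.SympB

/-!
# CT-CONNR : the star families R1 and R3

PLAN. `toTor '' (fZ x y t)` is the image of the connected set `ℝ × ℝ` under a continuous map
(`toTor (v + lat n) = toTor v`), hence connected. Write `E c = fZ (lat (e (c, false))) (lat (e (c, true)))`.
R1: all components `E c`, `c ≠ c1`, contain `0`; the component `E c1 + b.1 x_{c0} + b.2 y_{c0}` contains the point
`b.1 x_{c0} + b.2 y_{c0}`, which lies in `E c0`. (`IsConnected` of a union of connected sets which all meet
one connected set: `isPreconnected_sUnion`, `IsPreconnected.union`, `IsPreconnected.biUnion_of_..`.)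
R3: `E c`, `c ≠ c1, c2`, contain `0`; `E c1 + b.1 x_{c0}` contains `b.1 x_{c0} ∈ E c0`;
`E c2 + b.1 x_{c0} + b.2 x_{c1}` contains `b.1 x_{c0} + b.2 x_{c1} ∈ E c1 + b.1 x_{c0}`.
General lemma: if `f : Fin g → Fin g` (parent) and every component `c` meets the component `f c`, and
iterating `f` leads to `c0`. Here two steps suffice.
-/

set_option autoImplicit false

noncomputable section

namespace Pool.Agent.CT

variable {g : ℕ}

private theorem toTor_lat (v : V g) (n : Ix g → ℤ) : toTor (v + lat n) = toTor v := by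
  funext i
  show ((v i + (n i : ℝ) : ℝ) : AddCircle (1 : ℝ)) = ((v i : ℝ) : AddCircle (1 : ℝ))
  have h : ((n i : ℝ) : AddCircle (1 : ℝ)) = 0 := by
    rw [AddCircle.coe_eq_zero_iff]
    exact ⟨n i, by simp⟩
  rw [AddCircle.coe_add, h, add_zero]

private theorem continuous_toTor : Continuous (toTor : V g → Ix g → AddCircle (1 : ℝ)) :=
  continuous_pi fun i => (AddCircle.continuous_mk' (1 : ℝ)).comp (continuous_apply i)

private theorem conn_fZ (x y t : V g) : IsConnected (toTor '' fZ x y t) := by
  have e : toTor '' fZ x y t = (fun s : ℝ × ℝ => toTor (s.1 • x + s.2 • y + t)) '' Set.univ := by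
    ext w
    constructor
    · rintro ⟨v, ⟨s, n, rfl⟩, rfl⟩
      exact ⟨s, Set.mem_univ _, (toTor_lat _ n).symm⟩
    · rintro ⟨s, _, rfl⟩
      refine ⟨_, ⟨s, 0, rfl⟩, ?_⟩
      exact toTor_lat _ 0
  rw [e]
  refine isConnected_univ.image _ (Continuous.continuousOn ?_)
  exact continuous_toTor.comp (by fun_prop)

private theorem mem_fZ (x y t : V g) (s : ℝ × ℝ) :
    toTor (s.1 • x + s.2 • y + t) ∈ toTor '' fZ x y t :=
  ⟨_, ⟨s, 0, rfl⟩, toTor_lat _ 0⟩

private theorem lat_zero : lat (0 : Ix g → ℤ) = 0 := by
  funext i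
  simp [lat]

private theorem conn_all (S : Fin g → Set (Ix g → AddCircle (1 : ℝ))) (hS : ∀ c, IsConnected (S c))
    (c0 : Fin g)
    (K : ∀ c, Relation.ReflTransGen (fun i j => (S i ∩ S j).Nonempty) c c0) :
    IsConnected (⋃ c, S c) := by
  have : Nonempty (Fin g) := ⟨c0⟩
  refine IsConnected.iUnion_of_reflTransGen hS fun i j => ?_
  have hsymm : Std.Symm (fun i j => (S i ∩ S j).Nonempty) :=
    ⟨fun a b h => by rwa [Set.inter_comm]⟩
  have hst : Std.Symm (Relation.ReflTransGen (fun i j => (S i ∩ S j).Nonempty)) :=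
    Relation.ReflTransGen.stdSymm
  exact (K i).trans (hst.symm _ _ (K j))

theorem star_R1 (e : Ix g → Ix g → ℤ) (he : SympBasis e) (c0 c1 : Fin g) (h : c0 ≠ c1) :
    ∃ s : Star g, s.e = e ∧
      (∀ c, s.h false c = if c = c1 then e (c0, false) else 0) ∧
      ∀ c, s.h true c = if c = c1 then e (c0, true) else 0 := by
  refine ⟨⟨e, he, fun k c => if c = c1 then e (c0, k) else 0, ?_⟩, rfl, fun c => rfl, fun c => rfl⟩
  intro b
  rw [Set.image_iUnion]
  refine conn_all _ (fun c => conn_fZ _ _ _) c0 fun c => ?_
  refine Relation.ReflTransGen.single ?_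
  by_cases hc : c = c1
  · subst hc
    refine ⟨toTor (b.1 • lat (e (c0, false)) + b.2 • lat (e (c0, true))), ?_, ?_⟩
    · have := mem_fZ (lat (e (c, false))) (lat (e (c, true)))
        (b.1 • lat (if c = c then e (c0, false) else 0) +
          b.2 • lat (if c = c then e (c0, true) else 0)) (0, 0)
      simpa using this
    · have := mem_fZ (lat (e (c0, false))) (lat (e (c0, true)))
        (b.1 • lat (if c0 = c then e (c0, false) else 0) +
          b.2 • lat (if c0 = c then e (c0, true) else 0)) b
      simpa [h, lat_zero] using this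
  · refine ⟨toTor 0, ?_, ?_⟩
    · have := mem_fZ (lat (e (c, false))) (lat (e (c, true)))
        (b.1 • lat (if c = c1 then e (c0, false) else 0) +
          b.2 • lat (if c = c1 then e (c0, true) else 0)) (0, 0)
      simpa [hc, lat_zero] using this
    · have := mem_fZ (lat (e (c0, false))) (lat (e (c0, true)))
        (b.1 • lat (if c0 = c1 then e (c0, false) else 0) +
          b.2 • lat (if c0 = c1 then e (c0, true) else 0)) (0, 0)
      simpa [h, lat_zero] using this

theorem star_R3 (e : Ix g → Ix g → ℤ) (he : SympBasis e) (c0 c1 c2 : Fin g) (h01 : c0 ≠ c1)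
    (h02 : c0 ≠ c2) (h12 : c1 ≠ c2) :
    ∃ s : Star g, s.e = e ∧
      (∀ c, s.h false c = if c = c1 ∨ c = c2 then e (c0, false) else 0) ∧
      ∀ c, s.h true c = if c = c2 then e (c1, false) else 0 := by
  refine ⟨⟨e, he, fun k c => match k with
    | false => if c = c1 ∨ c = c2 then e (c0, false) else 0
    | true => if c = c2 then e (c1, false) else 0, ?_⟩, rfl, fun c => rfl, fun c => rfl⟩
  intro b
  rw [Set.image_iUnion]
  refine conn_all _ (fun c => conn_fZ _ _ _) c0 fun c => ?_
  have hc1 : ((toTor '' fZ (lat (e (c1, false))) (lat (e (c1, true)))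
      (b.1 • lat (if c1 = c1 ∨ c1 = c2 then e (c0, false) else 0) +
        b.2 • lat (if c1 = c2 then e (c1, false) else 0))) ∩
      (toTor '' fZ (lat (e (c0, false))) (lat (e (c0, true)))
      (b.1 • lat (if c0 = c1 ∨ c0 = c2 then e (c0, false) else 0) +
        b.2 • lat (if c0 = c2 then e (c1, false) else 0)))).Nonempty := by
    refine ⟨toTor (b.1 • lat (e (c0, false))), ?_, ?_⟩
    · have := mem_fZ (lat (e (c1, false))) (lat (e (c1, true)))
        (b.1 • lat (if c1 = c1 ∨ c1 = c2 then e (c0, false) else 0) +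
          b.2 • lat (if c1 = c2 then e (c1, false) else 0)) (0, 0)
      simpa [h12, lat_zero] using this
    · have := mem_fZ (lat (e (c0, false))) (lat (e (c0, true)))
        (b.1 • lat (if c0 = c1 ∨ c0 = c2 then e (c0, false) else 0) +
          b.2 • lat (if c0 = c2 then e (c1, false) else 0)) (b.1, 0)
      simpa [h01, h02, lat_zero] using this
  by_cases hc : c = c1
  · subst hc
    exact Relation.ReflTransGen.single hc1
  by_cases hc' : c = c2
  · subst hc'
    refine Relation.ReflTransGen.head ?_ (Relation.ReflTransGen.single hc1)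
    refine ⟨toTor (b.1 • lat (e (c0, false)) + b.2 • lat (e (c1, false))), ?_, ?_⟩
    · have := mem_fZ (lat (e (c, false))) (lat (e (c, true)))
        (b.1 • lat (if c = c1 ∨ c = c then e (c0, false) else 0) +
          b.2 • lat (if c = c then e (c1, false) else 0)) (0, 0)
      simpa using this
    · have := mem_fZ (lat (e (c1, false))) (lat (e (c1, true)))
        (b.1 • lat (if c1 = c1 ∨ c1 = c then e (c0, false) else 0) +
          b.2 • lat (if c1 = c then e (c1, false) else 0)) (b.2, 0)
      simpa [h12, lat_zero, add_comm] using this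
  · refine Relation.ReflTransGen.single ⟨toTor 0, ?_, ?_⟩
    · have := mem_fZ (lat (e (c, false))) (lat (e (c, true)))
        (b.1 • lat (if c = c1 ∨ c = c2 then e (c0, false) else 0) +
          b.2 • lat (if c = c2 then e (c1, false) else 0)) (0, 0)
      simpa [hc, hc', lat_zero] using this
    · have := mem_fZ (lat (e (c0, false))) (lat (e (c0, true)))
        (b.1 • lat (if c0 = c1 ∨ c0 = c2 then e (c0, false) else 0) +
          b.2 • lat (if c0 = c2 then e (c1, false) else 0)) (0, 0)
      simpa [h01, h02, lat_zero] using this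

end Pool.Agent.CT
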