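import Mathlib

/-!
# Project CT (MP_45233e_ag): cubes, the filling property, cubical 2-cocycles

Definitions only.
-/

set_option autoImplicit false

noncomputable section

open scoped BigOperators

namespace Pool.Agent.CT

/-- the unit square -/
abbrev Sq : Type := unitInterval × unitInterval

/-- the unit cube -/
abbrev Cu : Type := unitInterval × unitInterval × unitInterval

/-- the end points of the unit interval: `en false = 0`, `en true = 1` -/
def en (i : Bool) : unitInterval := if i then 1 else 0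

/-- two-connectedness: maps on the boundary of the cube of dimension `1, 2, 3` extend -/
structure Fill (X : Type*) [TopologicalSpace X] : Prop where
  ne : Nonempty X
  f1 : ∀ x : Bool → X, ∃ p : C(unitInterval, X), ∀ i, p (en i) = x i
  f2 : ∀ A B : Bool → C(unitInterval, X), (∀ i j, A i (en j) = B j (en i)) →
    ∃ Q : C(Sq, X), (∀ i s, Q (en i, s) = A i s) ∧ ∀ j s, Q (s, en j) = B j s
  f3 : ∀ A B C : Bool → C(Sq, X), (∀ i j s, A i (en j, s) = B j (en i, s)) →
    (∀ i k s, A i (s, en k) = C k (en i, s)) → (∀ j k s, B j (s, en k) = C k (s, en j)) →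
    ∃ R : C(Cu, X), (∀ i s t, R (en i, s, t) = A i (s, t)) ∧
      (∀ j s t, R (s, en j, t) = B j (s, t)) ∧ ∀ k s t, R (s, t, en k) = C k (s, t)

/-- the faces of the cube -/
def fA (i : Bool) : C(Sq, Cu) := ⟨fun s => (en i, s.1, s.2), by fun_prop⟩

/-- the faces of the cube -/
def fB (j : Bool) : C(Sq, Cu) := ⟨fun s => (s.1, en j, s.2), by fun_prop⟩

/-- the faces of the cube -/
def fC (k : Bool) : C(Sq, Cu) := ⟨fun s => (s.1, s.2, en k), by fun_prop⟩

/-- the edges of the square -/
def eA (i : Bool) : C(unitInterval, Sq) := ⟨fun s => (en i, s), by fun_prop⟩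

/-- the edges of the square -/
def eB (j : Bool) : C(unitInterval, Sq) := ⟨fun s => (s, en j), by fun_prop⟩

/-- the boundary of the square -/
def bSq : Set Sq := {p | p.1 = 0 ∨ p.1 = 1 ∨ p.2 = 0 ∨ p.2 = 1}

/-- the boundary of the cube -/
def bCu : Set Cu := {p | p.1 = 0 ∨ p.1 = 1 ∨ p.2.1 = 0 ∨ p.2.1 = 1 ∨ p.2.2 = 0 ∨ p.2.2 = 1}

/-- restriction of a map on the plane to the unit square -/
def sqr {X : Type*} [TopologicalSpace X] (Q : C(ℝ × ℝ, X)) : C(Sq, X) :=
  ⟨fun s => Q ((s.1 : ℝ), (s.2 : ℝ)), by fun_prop⟩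

/-- the reflection of the square -/
def sw : C(Sq, Sq) := ⟨Prod.swap, continuous_swap⟩

/-- the square `(s, t) ↦ p s` -/
def dg {X : Type*} [TopologicalSpace X] (p : C(unitInterval, X)) : C(Sq, X) :=
  ⟨fun s => p s.1, by fun_prop⟩

/-- the alternating sum of the values of `f` on the faces of a cube -/
def bdry {X A : Type*} [TopologicalSpace X] [AddCommGroup A] (f : C(Sq, X) → A) (R : C(Cu, X)) :
    A :=
  (f (R.comp (fA true)) - f (R.comp (fA false))) -
    (f (R.comp (fB true)) - f (R.comp (fB false))) +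
    (f (R.comp (fC true)) - f (R.comp (fC false)))

/-- (normalised, alternating) cubical 2-cocycles -/
structure Coc {X A : Type*} [TopologicalSpace X] [AddCommGroup A] (f : C(Sq, X) → A) :
    Prop where
  bd : ∀ R : C(Cu, X), bdry f R = 0
  swap : ∀ Q : C(Sq, X), f (Q.comp sw) = - f Q
  deg : ∀ p : C(unitInterval, X), f (dg p) = 0

section Action

variable {Λ X : Type*} [TopologicalSpace X] [AddCommGroup Λ] [AddAction Λ X]
  [ContinuousConstVAdd Λ X]

/-- translates of singular squares -/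
def tr (w : Λ) (Q : C(Sq, X)) : C(Sq, X) :=
  ⟨fun s => w +ᵥ Q s, Q.continuous.const_vadd w⟩

end Action

/-- the lifting of a loop or path in the circle to the reals: total increment -/
def incr (g : C(unitInterval, AddCircle (1 : ℝ))) : ℝ :=
  letI := Classical.propDecidable
  if h : ∃ l : C(unitInterval, ℝ), ∀ s, ((l s : ℝ) : AddCircle (1 : ℝ)) = g s then
    h.choose 1 - h.choose 0 else 0

/-- circle valued Čech 1-cocycle on a space -/
structure CC (K : Type*) [TopologicalSpace K] where
  ι : Type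
  N : ι → Set K
  op : ∀ i, IsOpen (N i)
  cov : ∀ y, ∃ i, y ∈ N i
  h : ι → ι → K → AddCircle (1 : ℝ)
  cont : ∀ i j, ContinuousOn (h i j) (N i ∩ N j)
  coc : ∀ i j k, ∀ y, y ∈ N i → y ∈ N j → y ∈ N k → h i j y + h j k y = h i k y

/-- `u` is a trivialisation over the subset `s` of `B` of the pull-back of the cocycle by `σ` -/
structure CC.Tv {K : Type*} [TopologicalSpace K] (c : CC K) {B : Type*} [TopologicalSpace B]
    (σ : B → K) (s : Set B) (u : c.ι → B → AddCircle (1 : ℝ)) : Prop where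
  cont : ∀ i, ContinuousOn (u i) {b | b ∈ s ∧ σ b ∈ c.N i}
  eq : ∀ i j, ∀ b ∈ s, σ b ∈ c.N i → σ b ∈ c.N j → u j b - u i b = c.h i j (σ b)

/-- the data which compute the value of the cocycle on a torus -/
structure CC.Tor {K : Type*} [TopologicalSpace K] (c : CC K) (Q : C(Sq, K))
    (u : c.ι → Sq → AddCircle (1 : ℝ)) (d1 d2 : C(unitInterval, AddCircle (1 : ℝ))) : Prop where
  tv : c.Tv Q Set.univ u
  per1 : ∀ s, Q (1, s) = Q (0, s)
  per2 : ∀ s, Q (s, 1) = Q (s, 0)
  eq1 : ∀ i s, Q (s, 0) ∈ c.N i → d1 s = u i (s, 0) - u i (s, 1)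
  eq2 : ∀ i s, Q (0, s) ∈ c.N i → d2 s = u i (1, s) - u i (0, s)

end Pool.Agent.CT
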