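import Pool.Agent.CT.PieceCur

/-!
# CT-CYCBASIC : basic properties of cycles

PLAN. `toPer a = a` for continuous periodic `a`. `y.cur i j a = Σ_k (P k).cur i j a` for such `a`; sum of
`piece_cur`; for the pieces `van` holds on the larger set `⋃ carrier` too. `Cur` for `y.cur`: all
fields are about continuous periodic functions (`pd a i` is continuous and periodic for smooth
periodic `a`). `car_per` is clear. `NN_cont`: `NN κ ρ y.cur p q` is a finite linear combination of
coordinates `y.2 i j a` of `y` with fixed `a : Per g`.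
-/

set_option autoImplicit false

noncomputable section

open scoped ContDiff

namespace Pool.Agent.CT

variable {g : ℕ} {J : V g →L[ℝ] V g}

theorem toPer_coe (a : V g → ℝ) (ha : Continuous a) (hp : IsPer a) : (toPer a).1 = a := by
  unfold toPer
  rw [dif_pos ⟨ha, hp⟩]

private theorem lat_add' (m n : Ix g → ℤ) : (lat m : V g) + lat n = lat (m + n) := by
  funext i
  simp [lat]

theorem car_per (P : Piece J) : ∀ x ∈ P.carrier, ∀ n : Ix g → ℤ, x + lat n ∈ P.carrier := by
  rintro x ⟨z, hz, m, rfl⟩ n
  exact ⟨z, hz, m + n, by rw [add_assoc, lat_add']⟩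

theorem cyc_per (y : Zs g) (hy : IsCyc y) : ∀ x ∈ (y.1 : Set (V g)), ∀ n : Ix g → ℤ,
    x + lat n ∈ (y.1 : Set (V g)) := by
  obtain ⟨J, m, P, h1, h2⟩ := hy
  intro x hx n
  rw [h1] at hx ⊢
  obtain ⟨k, hk⟩ := Set.mem_iUnion.1 hx
  exact Set.mem_iUnion.2 ⟨k, car_per (P k) x hk n⟩

private theorem pd_cont (a : V g → ℝ) (ha : ContDiff ℝ ∞ a) (i : Ix g) : Continuous (pd a i) :=
  (ha.continuous_fderiv (by simp)).clm_apply continuous_const

private theorem pd_per (a : V g → ℝ) (hp : IsPer a) (i : Ix g) : IsPer (pd a i) := by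
  intro n v
  unfold pd
  have h1 : (fun x => a (x + lat n)) = a := funext fun x => hp n x
  rw [← fderiv_comp_add_right, h1]

theorem cyc_cur (y : Zs g) (hy : IsCyc y) : Cur (y.1 : Set (V g)) y.cur := by
  obtain ⟨J, m, P, h1, h2⟩ := hy
  have hcur : ∀ i j (a : V g → ℝ), Continuous a → IsPer a →
      y.cur i j a = ∑ k, (P k).cur i j a := by
    intro i j a ha hp
    unfold Zs.cur
    rw [h2, toPer_coe a ha hp]
  refine ⟨?_, ?_, ?_, ?_, ?_⟩
  · intro i j a b ha hpa hb hpb
    have hp : IsPer fun x => a x + b x := fun n v => by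
      show a (v + lat n) + b (v + lat n) = _
      rw [hpa, hpb]
    rw [hcur i j (fun x => a x + b x) (ha.add hb) hp, hcur i j a ha hpa, hcur i j b hb hpb, ← Finset.sum_add_distrib]
    exact Finset.sum_congr rfl fun k _ => (piece_cur (P k)).add i j a b ha hpa hb hpb
  · intro i j r a ha hpa
    have hp : IsPer fun x => r * a x := fun n v => by
      show r * a (v + lat n) = _
      rw [hpa]
    rw [hcur i j (fun x => r * a x) (continuous_const.mul ha) hp, hcur i j a ha hpa, Finset.mul_sum]
    exact Finset.sum_congr rfl fun k _ => (piece_cur (P k)).smul i j r a ha hpa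
  · intro i j a ha hpa
    rw [hcur j i a ha hpa, hcur i j a ha hpa, ← Finset.sum_neg_distrib]
    exact Finset.sum_congr rfl fun k _ => (piece_cur (P k)).anti i j a ha hpa
  · intro i j a ha hpa h0
    rw [hcur i j a ha hpa]
    refine Finset.sum_eq_zero fun k _ => (piece_cur (P k)).van i j a ha hpa fun x hx => ?_
    apply h0
    rw [h1]
    exact Set.mem_iUnion.2 ⟨k, hx⟩
  · intro j a ha hpa
    have h3 : ∀ i, y.cur i j (pd a i) = ∑ k, (P k).cur i j (pd a i) := fun i =>
      hcur i j _ (pd_cont a ha i) (pd_per a hpa i)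
    rw [Finset.sum_congr rfl fun i _ => h3 i, Finset.sum_comm]
    exact Finset.sum_eq_zero fun k _ => (piece_cur (P k)).closed j a ha hpa

theorem isCyc_cyc (p : Xt g) : IsCyc (cyc p) := by
  obtain ⟨_, C, h1, h2, _⟩ := p.2
  exact ⟨p.1.1, C.m, C.P, h1, h2⟩

private theorem tri_compact : IsCompact tri := by
  apply Metric.isCompact_of_isClosed_isBounded
  · exact (isClosed_le continuous_const continuous_fst).inter
      ((isClosed_le continuous_const continuous_snd).inter
        (isClosed_le (continuous_fst.add continuous_snd) continuous_const))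
  · apply (Metric.isBounded_closedBall (x := (0 : ℝ × ℝ)) (r := 1)).subset
    rintro ⟨s, t⟩ ⟨h1, h2, h3⟩
    simp only at h1 h2 h3
    rw [mem_closedBall_zero_iff, Prod.norm_mk, Real.norm_of_nonneg h1, Real.norm_of_nonneg h2]
    exact max_le (by linarith) (by linarith)

theorem GG_per' (κ : Fin 4 → Ix g) (ρ : R4 → ℝ) (hρ : Continuous ρ) (hper : Per4 ρ) (p q : R4) :
    Continuous (fun x : V g => GG ρ p q (pr κ x)) ∧ IsPer (fun x : V g => GG ρ p q (pr κ x)) := by
  constructor
  · have h1 : Continuous (GG ρ p q) := by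
      unfold GG
      have hc : Continuous (Function.uncurry fun (x : R4) (s : ℝ × ℝ) =>
          ρ (x - s.1 • p - s.2 • q)) := by
        apply hρ.comp
        fun_prop
      exact continuous_parametric_integral_of_continuous hc tri_compact
    exact h1.comp (pr κ).continuous
  · intro n v
    show GG ρ p q (pr κ (v + lat n)) = GG ρ p q (pr κ v)
    have h1 : pr κ (v + lat n) = pr κ v + zv fun a => n (κ a) := by
      funext a
      rfl
    rw [h1]
    unfold GG
    congr 1
    funext s
    have h2 : pr κ v + (zv fun a => n (κ a)) - s.1 • p - s.2 • q =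
        pr κ v - s.1 • p - s.2 • q + zv fun a => n (κ a) := by abel
    rw [h2, hper]

theorem NN_cont (κ : Fin 4 → Ix g) (ρ : R4 → ℝ) (p q : R4) :
    Continuous (fun y : Zs g => NN κ ρ y.cur p q) := by
  unfold NN PP Zs.cur
  refine continuous_const.mul (continuous_finsetSum _ fun b _ => continuous_finsetSum _ fun c _ =>
    continuous_const.mul ?_)
  exact (continuous_apply _).comp ((continuous_apply _).comp ((continuous_apply _).comp
    continuous_snd))

end Pool.Agent.CT
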