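import Mathlib

/-!
# Project CT (MP_45233e_ag): the space `X g`

`X g` is the orbifold universal cover of the quotient `M_g^ct` of the moduli space of compact type
curves of genus `g` by the fibres of Hain's extended lifted period map.

* `V g` is `ℝ^{2g}` with coordinates `x_i = (i, false)`, `y_i = (i, true)`, the lattice is
  `ℤ^{2g}`, the torus is `V g / ℤ^{2g}`; everything on the torus is written as an object on `V g`
  which is periodic under the lattice;
* `om` : the standard symplectic form;
* `IsCplx J` : `J` is a complex structure compatible with `om` (these `J` form the Siegel space);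
* `Piece J` : a compact connected Riemann surface `C = U / Γ` (`U` a simply connected open
  subset of `ℂ`, `Γ` a group acting freely and properly discontinuously by holomorphic maps, with
  compact quotient) together with a holomorphic map `f : C → (V g / ℤ^{2g}, J)`, given by a
  holomorphic map `F : U → V g` with `F (γ z) = F z + ρ γ`, `ρ γ` a lattice vector;
* `Piece.cur` : the current of integration over `f`, `a ↦ ∫_C f^*(a dx_i ∧ dx_j)`; the integral
  over `C = U / Γ` is written as an integral over `U` with a smooth cut-off `χ`, `Σ χ ∘ γ = 1`;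
* `CTCurve J` : a curve of compact type (rational components contracted) in its Jacobian
  `(V g / ℤ^{2g}, J, om)`.
-/

set_option autoImplicit false

noncomputable section

open scoped BigOperators ContDiff

namespace Pool.Agent.CT

/-- indices of the coordinates: `(i, false)` is `x_i`, `(i, true)` is `y_i` -/
abbrev Ix (g : ℕ) : Type := Fin g × Bool

/-- the real vector space of dimension `2 g` -/
abbrev V (g : ℕ) : Type := Ix g → ℝ

variable {g : ℕ}

/-- the standard symplectic form -/
def om (v w : V g) : ℝ := ∑ i : Fin g, (v (i, false) * w (i, true) - v (i, true) * w (i, false))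

/-- the lattice vector of an integer vector -/
def lat (n : Ix g → ℤ) : V g := fun i => (n i : ℝ)

/-- functions on the torus -/
def IsPer (a : V g → ℝ) : Prop := ∀ (n : Ix g → ℤ) (v : V g), a (v + lat n) = a v

/-- continuous functions on the torus -/
abbrev Per (g : ℕ) : Type := {a : V g → ℝ // Continuous a ∧ IsPer a}

/-- the projection to the torus -/
def toTor (v : V g) : Ix g → AddCircle (1 : ℝ) := fun i => (v i : AddCircle (1 : ℝ))

/-- complex structures compatible with the symplectic form -/
structure IsCplx (J : V g →L[ℝ] V g) : Prop where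
  sq : ∀ v, J (J v) = -v
  symp : ∀ v w, om (J v) (J w) = om v w
  pos : ∀ v, v ≠ 0 → 0 < om v (J v)

/-- the coefficients of the bivector `v ∧ w` -/
def wed2 (v w : V g) (i j : Ix g) : ℝ := v i * w j - v j * w i

/-- the coefficients of the trivector `u ∧ v ∧ w` -/
def wed3 (u v w : V g) (i j k : Ix g) : ℝ :=
  Matrix.det !![u i, u j, u k; v i, v j, v k; w i, w j, w k]

/-- a compact connected Riemann surface `U / Γ` with a holomorphic map to the torus `(V g, J)` -/
structure Piece (J : V g →L[ℝ] V g) where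
  U : Set ℂ
  isOpen : IsOpen U
  simply : SimplyConnectedSpace U
  Γ : Type
  [grp : Group Γ]
  act : Γ → ℂ → ℂ
  maps : ∀ γ, ∀ z ∈ U, act γ z ∈ U
  act_one : ∀ z ∈ U, act 1 z = z
  act_mul : ∀ γ δ, ∀ z ∈ U, act (γ * δ) z = act γ (act δ z)
  hol : ∀ γ, DifferentiableOn ℂ (act γ) U
  free : ∀ γ, ∀ z ∈ U, act γ z = z → γ = 1
  proper : ∀ L : Set ℂ, IsCompact L → L ⊆ U → {γ | ∃ z ∈ L, act γ z ∈ L}.Finite
  χ : ℂ → ℝ
  χ_smooth : ContDiff ℝ ∞ χ
  χ_nonneg : ∀ z, 0 ≤ χ z
  χ_cpt : HasCompactSupport χ
  χ_sub : tsupport χ ⊆ U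
  χ_sum : ∀ z ∈ U, ∑ᶠ γ, χ (act γ z) = 1
  F : ℂ → V g
  F_smooth : ContDiffOn ℝ ∞ F U
  F_hol : ∀ z ∈ U, ∀ w : ℂ, fderiv ℝ F z (Complex.I * w) = J (fderiv ℝ F z w)
  ρ : Γ → Ix g → ℤ
  F_per : ∀ γ, ∀ z ∈ U, F (act γ z) = F z + lat (ρ γ)

attribute [instance] Piece.grp

namespace Piece

variable {J : V g →L[ℝ] V g}

/-- the image of the Riemann surface, as a periodic subset of `V g` -/
def carrier (P : Piece J) : Set (V g) := {x | ∃ z ∈ P.U, ∃ n : Ix g → ℤ, x = P.F z + lat n}

/-- the current of integration: `a ↦ ∫ f^*(a dx_i ∧ dx_j)` -/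
def cur (P : Piece J) (i j : Ix g) (a : V g → ℝ) : ℝ :=
  ∫ z : ℂ, P.χ z * a (P.F z) *
    wed2 (fderiv ℝ P.F z 1) (fderiv ℝ P.F z Complex.I) i j

end Piece

/-- symplectic bases of the lattice; the hyperbolic pairs are `e (c, false), e (c, true)` -/
def SympBasis (e : Ix g → Ix g → ℤ) : Prop :=
  ∀ a b, om (lat (e a)) (lat (e b)) = om (lat (Pi.single a 1)) (lat (Pi.single b 1))

/-- A curve of compact type (with its rational components contracted) in its Jacobian
`(V g / ℤ^{2g}, J, om)`: a symplectic basis `e` of the lattice and a partition `blk` of the `g`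
hyperbolic pairs into `m` nonempty blocks; for every block `k` a compact Riemann surface `C_k`
with a holomorphic map `f_k` to the torus which induces an isomorphism of `H_1(C_k)` with the
sublattice `H_k` of the block and maps the fundamental class of `C_k` to the dual class of the
symplectic form of `H_k` (in other words, `f_k` is the Abel-Jacobi map of `C_k`, up to a
translation); the union of the images of the `C_k` is connected. -/
structure CTCurve (J : V g →L[ℝ] V g) where
  m : ℕ
  e : Ix g → Ix g → ℤ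
  symp : SympBasis e
  blk : Fin g → Fin m
  surj : Function.Surjective blk
  P : Fin m → Piece J
  range_ρ : ∀ (k : Fin m) (n : Ix g → ℤ), (∃ γ, (P k).ρ γ = n) ↔
    n ∈ AddSubgroup.closure {v | ∃ a : Ix g, blk a.1 = k ∧ v = e a}
  ker_ρ : ∀ (k : Fin m) (γ : (P k).Γ), (P k).ρ γ = 0 ↔ γ ∈ commutator (P k).Γ
  cls : ∀ (k : Fin m) (i j : Ix g), (P k).cur i j (fun _ => 1) =
    ∑ c : Fin g, if blk c = k then wed2 (lat (e (c, false))) (lat (e (c, true))) i j else 0
  conn : IsConnected (toTor '' (⋃ k, (P k).carrier))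

namespace CTCurve

variable {J : V g →L[ℝ] V g}

/-- the image of the curve, as a periodic subset of `V g` -/
def carrier (C : CTCurve J) : Set (V g) := ⋃ k, (C.P k).carrier

/-- the current of integration over the curve -/
def cur (C : CTCurve J) (i j : Ix g) (a : V g → ℝ) : ℝ := ∑ k, (C.P k).cur i j a

end CTCurve

/-- the partial derivative -/
def pd (a : V g → ℝ) (k : Ix g) : V g → ℝ := fun v => fderiv ℝ a v (Pi.single k 1)

/-- smooth integral 3-chains -/
structure Chain3 (g : ℕ) where
  m : ℕ
  c : Fin m → ℤ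
  σ : Fin m → (Fin 3 → ℝ) → V g
  smooth : ∀ l, ContDiff ℝ ∞ (σ l)

/-- the integral of the form `a dx_i ∧ dx_j ∧ dx_k` over a 3-chain -/
def Chain3.int (G : Chain3 g) (i j k : Ix g) (a : V g → ℝ) : ℝ :=
  ∑ l, (G.c l : ℝ) * ∫ s in Set.Icc (0 : Fin 3 → ℝ) 1, a (G.σ l s) *
    wed3 (fderiv ℝ (G.σ l) s (Pi.single 0 1)) (fderiv ℝ (G.σ l) s (Pi.single 1 1))
      (fderiv ℝ (G.σ l) s (Pi.single 2 1)) i j k

/-- the current of integration over the union of the coordinate 2-tori (a union of `g` elliptic
curves through the origin, the reference curve) -/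
def cur0 (i j : Ix g) (a : V g → ℝ) : ℝ :=
  ∑ c : Fin g, (∫ s in Set.Icc (0 : ℝ × ℝ) 1,
      a (s.1 • Pi.single (c, false) 1 + s.2 • Pi.single (c, true) 1)) *
    wed2 (Pi.single (c, false) 1) (Pi.single (c, true) 1) i j

/-- the boundary of the 3-chain is the difference of two 2-currents:
`G (d (a dx_i ∧ dx_j)) = S (a dx_i ∧ dx_j) - S' (a dx_i ∧ dx_j)` for all smooth `a` on the torus -/
def Bounds (G : Chain3 g) (S S' : Ix g → Ix g → (V g → ℝ) → ℝ) : Prop :=
  ∀ a : V g → ℝ, ContDiff ℝ ∞ a → IsPer a → ∀ i j,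
    ∑ k, G.int k i j (pd a k) = S i j a - S' i j a

/-- ambient space: complex structure, closed subset (Hausdorff distance), current (weak
topology), trivector -/
abbrev Amb (g : ℕ) : Type :=
  (V g →L[ℝ] V g) × TopologicalSpace.Closeds (V g) × (Ix g → Ix g → Per g → ℝ) ×
    (Ix g → Ix g → Ix g → ℝ)

/-- `(J, Z, S, ξ)`: `Z` is a curve of compact type in its Jacobian `(V g / ℤ^{2g}, J, om)`, `S` is
its current of integration and `ξ` is a lift of its Abel-Jacobi class: `ξ` is the integral over an
integral 3-chain whose boundary is `Z` minus the reference curve -/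
def IsPt (p : Amb g) : Prop :=
  IsCplx p.1 ∧ ∃ C : CTCurve p.1, (p.2.1 : Set (V g)) = C.carrier ∧
    (∀ i j (a : Per g), p.2.2.1 i j a = C.cur i j a.1) ∧
    ∃ G : Chain3 g, Bounds G C.cur cur0 ∧ ∀ i j k, p.2.2.2 i j k = G.int i j k (fun _ => 1)

/-- the space of all `(J, Z, S, ξ)` -/
abbrev Xt (g : ℕ) : Type := {p : Amb g // IsPt p}

/-- the orbifold universal cover of `M_g^ct`: the curve `Z` is normalised by a translation such
that the contraction of `ξ` with the symplectic form vanishes -/
abbrev X (g : ℕ) : Type :=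
  {p : Amb g // IsPt p ∧ ∀ k, ∑ i : Fin g, p.2.2.2 (i, false) (i, true) k = 0}

/-- `n`-connected spaces: nonempty and `π_k = 0` for `0 ≤ k ≤ n` -/
def NConn (n : ℤ) (Y : Type) [TopologicalSpace Y] : Prop :=
  Nonempty Y ∧ ∀ k : ℕ, (k : ℤ) ≤ n → ∀ y : Y, Subsingleton (HomotopyGroup.Pi k Y y)

end Pool.Agent.CT
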