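import Pool.Agent.CT.NDefs

/-!
# CT-DEG : the area formula with integer multiplicities

PLAN. Let `D x = (fderiv ℝ Φ x).det`, continuous on `Ω`. Put `s⁺ = {x ∈ E | 0 < D x}`,
`s⁻ = {x ∈ E | D x < 0}` (measurable). For `s = s⁺` (and `s⁻`) apply
`exists_partition_approximatesLinearOn_of_hasFDerivWithinAt Φ s (fderiv ℝ Φ)` with
`r A = ‖A.symm‖₊⁻¹ / 2` for invertible `A` (and `r A = 1` otherwise, or `‖..‖ + ..` such that
`r A ≠ 0`): measurable disjoint `t n`, `A n = fderiv ℝ Φ y` with `y ∈ s` (so `A n` is invertible), and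
`Φ` is injective on `s ∩ t n` (`ApproximatesLinearOn.injOn`). So `s = ⋃ₙ u n` (disjoint, measurable),
`Φ` injective on `u n`. By `integral_image_eq_integral_abs_det_fderiv_smul`,
`∫_{u n} ρ (Φ x) |D x| dx = ∫_{Φ '' (u n)} ρ`, and `volume (Φ '' u n) = ∫_{u n} |D|`, the sum over `n`
is `∫_s |D| < ∞`. `n v = Σ_n 1_{Φ(u⁺ n)} (v) - Σ_n 1_{Φ(u⁻ n)} (v)` where both sums have finitely many
nonzero terms (for almost all `v`; `n v = 0` otherwise; define it by `tsum` in `ℤ` or
`Set.encard`/`finsum`). `Φ '' u n` is measurable (`measurable_image_of_fderivWithin` /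
`MeasurableSet.image_of_continuousOn_injOn`). Exchange sum and integral
(`integral_tsum` / `hasSum_integral_of_summable_integral_norm`); on `{x ∈ E | D x = 0}` the
integrand vanishes.
-/

set_option autoImplicit false

noncomputable section

open MeasureTheory

namespace Pool.Agent.CT

open Set Filter Topology

/-- positive version of the area formula on a set where the derivative is invertible -/
private theorem deg_aux (s : Set R4) (hs : MeasurableSet s) (Φ : R4 → R4) (hΦc : ContinuousOn Φ s)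
    (hd : ∀ x ∈ s, HasFDerivAt Φ (fderiv ℝ Φ x) x) (h0 : ∀ x ∈ s, (fderiv ℝ Φ x).det ≠ 0)
    (hint : IntegrableOn (fun x => |(fderiv ℝ Φ x).det|) s) :
    ∃ n : R4 → ℕ, Integrable (fun v => (n v : ℝ)) ∧
      ∀ ρ : R4 → ℝ, Continuous ρ → (∃ C, ∀ x, |ρ x| ≤ C) →
        ∫ x in s, ρ (Φ x) * |(fderiv ℝ Φ x).det| = ∫ v, ρ v * n v := by
  classical
  rcases s.eq_empty_or_nonempty with rfl | hne
  · exact ⟨fun _ => 0, by simp, fun ρ _ _ => by simp⟩
  let r : (R4 →L[ℝ] R4) → NNReal := fun A => if hA : A.det ≠ 0 then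
    ‖((A.toContinuousLinearEquivOfDetNeZero hA).symm : R4 →L[ℝ] R4)‖₊⁻¹ / 2 else 1
  have hr : ∀ A, r A ≠ 0 := by
    intro A
    simp only [r]
    split_ifs with hA
    · have := ContinuousLinearEquiv.nnnorm_symm_pos (A.toContinuousLinearEquivOfDetNeZero hA)
      positivity
    · exact one_ne_zero
  obtain ⟨t, A, htd, htm, hst, happ, hA⟩ :=
    exists_partition_approximatesLinearOn_of_hasFDerivWithinAt Φ s (fderiv ℝ Φ)
      (fun x hx => (hd x hx).hasFDerivWithinAt) r hr
  set u : ℕ → Set R4 := fun n => s ∩ t n with hu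
  have hum : ∀ n, MeasurableSet (u n) := fun n => hs.inter (htm n)
  have hud : Pairwise (Function.onFun Disjoint u) := by
    intro i j hij
    exact (htd hij).mono inter_subset_right inter_subset_right
  have huU : ⋃ n, u n = s := by
    rw [hu, ← inter_iUnion]
    exact inter_eq_left.2 hst
  have hus : ∀ n, u n ⊆ s := fun n => inter_subset_left
  have hinj : ∀ n, InjOn Φ (u n) := by
    intro n
    obtain ⟨y, hy, hAy⟩ := hA hne n
    have hdet : (A n).det ≠ 0 := by rw [hAy]; exact h0 y hy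
    have h1 := happ n
    have h2 : r (A n) = ‖(((A n).toContinuousLinearEquivOfDetNeZero hdet).symm :
        R4 →L[ℝ] R4)‖₊⁻¹ / 2 := by
      simp only [r]
      rw [dif_pos hdet]
    have hpos := ContinuousLinearEquiv.nnnorm_symm_pos
      ((A n).toContinuousLinearEquivOfDetNeZero hdet)
    have h3 : ApproximatesLinearOn Φ
        (((A n).toContinuousLinearEquivOfDetNeZero hdet : R4 ≃L[ℝ] R4) : R4 →L[ℝ] R4) (u n)
        (r (A n)) := h1
    refine h3.injOn (Or.inr ?_)
    rw [h2]
    exact NNReal.half_lt_self (by positivity)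
  have hdw : ∀ n, ∀ x ∈ u n, HasFDerivWithinAt Φ (fderiv ℝ Φ x) (u n) x :=
    fun n x hx => (hd x (hus n hx)).hasFDerivWithinAt
  have himm : ∀ n, MeasurableSet (Φ '' u n) := fun n =>
    measurable_image_of_fderivWithin (hum n) (hdw n) (hinj n)
  -- volumes
  have hvol : ∀ n, ∫⁻ x in u n, ENNReal.ofReal |(fderiv ℝ Φ x).det| = volume (Φ '' u n) :=
    fun n => lintegral_abs_det_fderiv_eq_addHaar_image volume (hum n) (hdw n) (hinj n)
  have hfin : ∫⁻ x in s, ENNReal.ofReal |(fderiv ℝ Φ x).det| ≠ ⊤ := by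
    have h1 := hint.2
    rw [HasFiniteIntegral] at h1
    refine ne_of_lt (lt_of_le_of_lt (lintegral_mono fun x => ?_) h1)
    rw [← ofReal_norm, Real.norm_eq_abs, abs_abs]
  have hsum : ∑' n, volume (Φ '' u n) = ∫⁻ x in s, ENNReal.ofReal |(fderiv ℝ Φ x).det| := by
    rw [← huU, lintegral_iUnion hum hud]
    exact tsum_congr fun n => (hvol n).symm
  have hvf : ∀ n, volume (Φ '' u n) ≠ ⊤ := by
    intro n hn
    have h1 : volume (Φ '' u n) ≤ ∑' n, volume (Φ '' u n) := ENNReal.le_tsum n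
    rw [hsum, hn] at h1
    exact hfin (top_le_iff.1 h1)
  -- the multiplicity
  let Ne : R4 → ENNReal := fun v => ∑' n, (Φ '' u n).indicator (fun _ => (1 : ENNReal)) v
  have hNm : Measurable Ne := Measurable.tsum fun n => measurable_const.indicator (himm n)
  have hNi : ∫⁻ v, Ne v = ∑' n, volume (Φ '' u n) := by
    simp only [Ne]
    rw [lintegral_tsum fun n => (measurable_const.indicator (himm n)).aemeasurable]
    refine tsum_congr fun n => ?_
    rw [lintegral_indicator (himm n), setLIntegral_const, one_mul]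
  have hNe : ∀ v, (Ne v).toReal = (({n | v ∈ Φ '' u n} : Set ℕ).ncard : ℝ) := by
    intro v
    have h1 : Ne v = ((({n | v ∈ Φ '' u n} : Set ℕ).encard : ℕ∞) : ENNReal) := by
      rw [← ENNReal.tsum_set_one, tsum_subtype ({n | v ∈ Φ '' u n} : Set ℕ) (fun _ => (1 : ENNReal))]
      refine tsum_congr fun n => ?_
      by_cases hn : v ∈ Φ '' u n
      · rw [indicator_of_mem hn, indicator_of_mem (show n ∈ {n | v ∈ Φ '' u n} from hn)]
      · rw [indicator_of_notMem hn, indicator_of_notMem (show n ∉ {n | v ∈ Φ '' u n} from hn)]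
    rw [h1, Set.ncard_def]
    cases hE : ({n | v ∈ Φ '' u n} : Set ℕ).encard with
    | top => simp
    | coe k => simp
  have hNint : Integrable fun v => (Ne v).toReal :=
    integrable_toReal_of_lintegral_ne_top hNm.aemeasurable (by rw [hNi, hsum]; exact hfin)
  refine ⟨fun v => ({n | v ∈ Φ '' u n} : Set ℕ).ncard, ?_, fun ρ hρ hC => ?_⟩
  · refine hNint.congr (Eventually.of_forall fun v => ?_)
    exact hNe v
  obtain ⟨C, hC⟩ := hC
  have hC0 : 0 ≤ C := le_trans (abs_nonneg _) (hC 0)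
  -- left side
  have hLint : IntegrableOn (fun x => ρ (Φ x) * |(fderiv ℝ Φ x).det|) s := by
    refine Integrable.bdd_mul (c := C) hint ?_ (Eventually.of_forall fun x => ?_)
    · exact (hρ.comp_continuousOn hΦc).aestronglyMeasurable hs
    · rw [Real.norm_eq_abs]
      exact hC _
  have hL : HasSum (fun n => ∫ x in u n, ρ (Φ x) * |(fderiv ℝ Φ x).det|)
      (∫ x in s, ρ (Φ x) * |(fderiv ℝ Φ x).det|) := by
    have h1 := hasSum_integral_iUnion hum hud (f := fun x => ρ (Φ x) * |(fderiv ℝ Φ x).det|)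
      (μ := volume) (by rw [huU]; exact hLint)
    rw [huU] at h1
    exact h1
  have hpiece : ∀ n, ∫ x in u n, ρ (Φ x) * |(fderiv ℝ Φ x).det| = ∫ v in Φ '' u n, ρ v := by
    intro n
    rw [integral_image_eq_integral_abs_det_fderiv_smul volume (hum n) (hdw n) (hinj n)]
    refine integral_congr_ae (Eventually.of_forall fun x => ?_)
    simp only [smul_eq_mul]
    ring
  -- right side
  let G : ℕ → R4 → ℝ := fun n v => (Φ '' u n).indicator ρ v
  have hρi : ∀ n, IntegrableOn ρ (Φ '' u n) := by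
    intro n
    refine Measure.integrableOn_of_bounded (M := C) (hvf n) hρ.aestronglyMeasurable ?_
    exact Eventually.of_forall fun v => by rw [Real.norm_eq_abs]; exact hC v
  have hGi : ∀ n, Integrable (G n) := fun n => (integrable_indicator_iff (himm n)).2 (hρi n)
  have hGn : ∀ n, ∫ v, ‖G n v‖ ≤ C * (volume (Φ '' u n)).toReal := by
    intro n
    have h1 : ∀ v, ‖G n v‖ = (Φ '' u n).indicator (fun v => ‖ρ v‖) v := by
      intro v
      simp only [G]
      rw [norm_indicator_eq_indicator_norm]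
    simp_rw [h1]
    rw [integral_indicator (himm n)]
    have h2 : ∫ v in Φ '' u n, ‖ρ v‖ ≤ ∫ v in Φ '' u n, C := by
      refine integral_mono (hρi n).norm (integrableOn_const (hvf n)) fun v => ?_
      exact hC v
    refine h2.trans (le_of_eq ?_)
    rw [setIntegral_const, smul_eq_mul, mul_comm]
    rfl
  have hsummable : Summable fun n => ∫ v, ‖G n v‖ := by
    refine Summable.of_nonneg_of_le (fun n => integral_nonneg fun v => norm_nonneg _) hGn ?_
    refine Summable.mul_left C ?_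
    exact ENNReal.summable_toReal (by rw [hsum]; exact hfin)
  have hR := hasSum_integral_of_summable_integral_norm hGi hsummable
  have hGp : ∀ n, ∫ v, G n v = ∫ v in Φ '' u n, ρ v := fun n => integral_indicator (himm n)
  have hGs : ∀ v, ∑' n, G n v = ρ v * (({n | v ∈ Φ '' u n} : Set ℕ).ncard : ℝ) := by
    intro v
    rw [← hNe v]
    have h1 : ∀ n, G n v = ρ v *
        ((Φ '' u n).indicator (fun _ => (1 : ENNReal)) v).toReal := by
      intro n
      simp only [G]
      by_cases hn : v ∈ Φ '' u n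
      · rw [indicator_of_mem hn, indicator_of_mem hn]
        simp
      · rw [indicator_of_notMem hn, indicator_of_notMem hn]
        simp
    simp_rw [h1]
    rw [tsum_mul_left, ENNReal.tsum_toReal_eq]
    intro n
    by_cases hn : v ∈ Φ '' u n
    · rw [indicator_of_mem hn]; simp
    · rw [indicator_of_notMem hn]; simp
  simp_rw [hGs, hGp] at hR
  simp_rw [hpiece] at hL
  exact hL.unique hR

theorem deg (Ω E : Set R4) (hΩ : IsOpen Ω) (hE : MeasurableSet E) (hEΩ : E ⊆ Ω) (Φ : R4 → R4)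
    (hΦ : ContDiffOn ℝ 1 Φ Ω) (hint : IntegrableOn (fun x => (fderiv ℝ Φ x).det) E) :
    ∃ n : R4 → ℤ, Integrable (fun v => (n v : ℝ)) ∧
      ∀ ρ : R4 → ℝ, Continuous ρ → (∃ C, ∀ x, |ρ x| ≤ C) →
        ∫ x in E, ρ (Φ x) * (fderiv ℝ Φ x).det = ∫ v, ρ v * n v := by
  have hDc : ContinuousOn (fun x => (fderiv ℝ Φ x).det) Ω :=
    ContinuousLinearMap.continuous_det.comp_continuousOn
      (hΦ.continuousOn_fderiv_of_isOpen hΩ le_rfl)
  have hd : ∀ x ∈ Ω, HasFDerivAt Φ (fderiv ℝ Φ x) x := fun x hx =>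
    ((hΦ.differentiableOn one_ne_zero).differentiableAt (hΩ.mem_nhds hx)).hasFDerivAt
  set D : R4 → ℝ := fun x => (fderiv ℝ Φ x).det with hD
  set sp : Set R4 := E ∩ (Ω ∩ D ⁻¹' Ioi 0) with hsp
  set sn : Set R4 := E ∩ (Ω ∩ D ⁻¹' Iio 0) with hsn
  have hspm : MeasurableSet sp :=
    hE.inter (hDc.isOpen_inter_preimage hΩ isOpen_Ioi).measurableSet
  have hsnm : MeasurableSet sn :=
    hE.inter (hDc.isOpen_inter_preimage hΩ isOpen_Iio).measurableSet
  have hspΩ : sp ⊆ Ω := fun x hx => hx.2.1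
  have hsnΩ : sn ⊆ Ω := fun x hx => hx.2.1
  have hpi : ∀ x ∈ sp, 0 < D x := fun x hx => hx.2.2
  have hni : ∀ x ∈ sn, D x < 0 := fun x hx => hx.2.2
  obtain ⟨np, hnp, hp⟩ := deg_aux sp hspm Φ (hΦ.continuousOn.mono hspΩ)
    (fun x hx => hd x (hspΩ hx)) (fun x hx => (hpi x hx).ne')
    ((hint.mono_set inter_subset_left).abs)
  obtain ⟨nn, hnn, hn⟩ := deg_aux sn hsnm Φ (hΦ.continuousOn.mono hsnΩ)
    (fun x hx => hd x (hsnΩ hx)) (fun x hx => (hni x hx).ne)
    ((hint.mono_set inter_subset_left).abs)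
  refine ⟨fun v => (np v : ℤ) - nn v, ?_, fun ρ hρ hC => ?_⟩
  · have h1 := hnp.sub hnn
    refine h1.congr (Eventually.of_forall fun v => ?_)
    simp
  have hp1 := hp ρ hρ hC
  have hn1 := hn ρ hρ hC
  obtain ⟨C, hC⟩ := hC
  have hFi : IntegrableOn (fun x => ρ (Φ x) * D x) E := by
    refine Integrable.bdd_mul (c := C) hint ?_ (Eventually.of_forall fun x => ?_)
    · exact (hρ.comp_continuousOn (hΦ.continuousOn.mono hEΩ)).aestronglyMeasurable hE
    · rw [Real.norm_eq_abs]
      exact hC _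
  have hbm : ∀ N : R4 → ℕ, Integrable (fun v => (N v : ℝ)) →
      Integrable fun v => ρ v * (N v : ℝ) := by
    intro N hN
    refine Integrable.bdd_mul (c := C) hN hρ.aestronglyMeasurable
      (Eventually.of_forall fun x => ?_)
    rw [Real.norm_eq_abs]
    exact hC _
  -- splitting of the integral
  have hdisj : Disjoint sp sn := by
    rw [Set.disjoint_left]
    intro x h1 h2
    exact lt_asymm (hpi x h1) (hni x h2)
  have hsplit : ∫ x in E, ρ (Φ x) * D x =
      (∫ x in sp, ρ (Φ x) * D x) + ∫ x in sn, ρ (Φ x) * D x := by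
    rw [← setIntegral_union hdisj hsnm (hFi.mono_set inter_subset_left)
      (hFi.mono_set inter_subset_left)]
    refine setIntegral_eq_of_subset_of_forall_sdiff_eq_zero hE
      (union_subset inter_subset_left inter_subset_left) fun x hx => ?_
    have h0 : D x = 0 := by
      by_contra hne
      rcases lt_or_gt_of_ne hne with h1 | h1
      · exact hx.2 (Or.inr ⟨hx.1, hEΩ hx.1, h1⟩)
      · exact hx.2 (Or.inl ⟨hx.1, hEΩ hx.1, h1⟩)
    rw [h0, mul_zero]
  have e1 : ∫ x in sp, ρ (Φ x) * D x = ∫ x in sp, ρ (Φ x) * |D x| :=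
    setIntegral_congr_fun hspm fun x hx => by simp only [abs_of_pos (hpi x hx)]
  have e2 : ∫ x in sn, ρ (Φ x) * D x = -∫ x in sn, ρ (Φ x) * |D x| := by
    rw [← integral_neg]
    refine setIntegral_congr_fun hsnm fun x hx => ?_
    simp only [abs_of_neg (hni x hx)]
    ring
  rw [hsplit, e1, e2, hp1, hn1, ← sub_eq_add_neg, ← integral_sub (hbm np hnp) (hbm nn hnn)]
  refine integral_congr_ae (Eventually.of_forall fun v => ?_)
  simp only
  push_cast
  ring

end Pool.Agent.CT
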