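import Pool.Agent.CT.NDefs

/-!
# CT-MGOPEN : the margin conditions are open, respectively closed, in the space of cycles

PLAN. The topology of `Closeds (V g)` is given by the Hausdorff (e)distance
(`TopologicalSpace.Closeds.instEMetricSpace`, `EMetric.hausdorffEdist`, `edist_eq`...; it is the topology of
the uniform space instance): if `hausdorffEdist Z Z' < η` then every `x' ∈ Z'` has `x ∈ Z` with
`‖x - x'‖ < η` and vice versa; `‖pr κ x - pr κ x'‖ ≤ ‖x - x'‖` (sup norms). `Mg_open`: if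
`δ > ε` works for `Z`, then `(δ + ε) / 2` works for all `Z'` with `hausdorffEdist Z Z' < (δ - ε) / 2`.
`Mg_closed`: if `x ∈ Z` has `‖pr κ x - t‖ < r` then every `Z'` near `Z` has such a point.
-/

set_option autoImplicit false

noncomputable section

namespace Pool.Agent.CT

variable {g : ℕ}

private theorem pr_norm_le (κ : Fin 4 → Ix g) (x : V g) : ‖pr κ x‖ ≤ ‖x‖ := by
  rw [pi_norm_le_iff_of_nonneg (norm_nonneg _)]
  intro a
  exact norm_le_pi_norm x (κ a)

private theorem near_isOpen (y : Zs g) (η : ℝ) :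
    IsOpen {y' : Zs g | edist y'.1 y.1 < ENNReal.ofReal η} :=
  isOpen_lt (continuous_fst.edist continuous_const) continuous_const

private theorem near_mem {Z Z' : TopologicalSpace.Closeds (V g)} {η : ℝ}
    (h : edist Z Z' < ENNReal.ofReal η) {x : V g} (hx : x ∈ (Z : Set (V g))) :
    ∃ x' ∈ (Z' : Set (V g)), ‖x - x'‖ < η := by
  rw [TopologicalSpace.Closeds.edist_eq] at h
  obtain ⟨x', hx', h1⟩ := Metric.exists_edist_lt_of_hausdorffEDist_lt hx h
  refine ⟨x', hx', ?_⟩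
  rw [edist_dist, ENNReal.ofReal_lt_ofReal_iff_of_nonneg dist_nonneg, dist_eq_norm] at h1
  exact h1

theorem Mg_mono (κ : Fin 4 → Ix g) (Z : Set (V g)) (ε ε' : ℝ) (h : ε' ≤ ε) (p q : R4)
    (hM : Mg κ Z ε p q) : Mg κ Z ε' p q := by
  obtain ⟨δ, hδ, h1⟩ := hM
  exact ⟨δ, lt_of_le_of_lt h hδ, h1⟩

theorem Mg_open (κ : Fin 4 → Ix g) (ε : ℝ) (p q : R4) :
    IsOpen {y : Zs g | Mg κ (y.1 : Set (V g)) ε p q} := by
  rw [isOpen_iff_mem_nhds]
  rintro y ⟨δ, hδ, h1⟩
  have hη : 0 < (δ - ε) / 2 := by linarith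
  filter_upwards [(near_isOpen y ((δ - ε) / 2)).mem_nhds (by
    change edist y.1 y.1 < _
    rw [edist_self]
    exact ENNReal.ofReal_pos.2 hη)] with y' hy'
  refine ⟨(δ + ε) / 2, by linarith, ?_⟩
  intro x' hx' t ht
  obtain ⟨x, hx, hxx⟩ := near_mem hy' hx'
  have h2 := h1 x hx t ht
  have h3 := pr_norm_le κ (x' - x)
  have h4 : ‖pr κ x - p - t • (q - p)‖ ≤ ‖pr κ x' - p - t • (q - p)‖ + ‖pr κ (x' - x)‖ := by
    have e1 : pr κ x - p - t • (q - p) = (pr κ x' - p - t • (q - p)) - pr κ (x' - x) := by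
      rw [map_sub]
      abel
    rw [e1]
    exact norm_sub_le _ _
  linarith

theorem Mg_closed (κ : Fin 4 → Ix g) (r : ℝ) (t : R4) :
    IsClosed {y : Zs g | ∀ x ∈ (y.1 : Set (V g)), r ≤ ‖pr κ x - t‖} := by
  rw [← isOpen_compl_iff, isOpen_iff_mem_nhds]
  intro y hy
  have hy' : ∃ x ∈ (y.1 : Set (V g)), ‖pr κ x - t‖ < r := by
    by_contra hcon
    push Not at hcon
    exact hy hcon
  obtain ⟨x, hx, hxr⟩ := hy'
  have hη : 0 < r - ‖pr κ x - t‖ := by linarith
  filter_upwards [(near_isOpen y (r - ‖pr κ x - t‖)).mem_nhds (by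
    change edist y.1 y.1 < _
    rw [edist_self]
    exact ENNReal.ofReal_pos.2 hη)] with y' hy' hcon
  have hy2 : edist y.1 y'.1 < ENNReal.ofReal (r - ‖pr κ x - t‖) := by
    rw [edist_comm]
    exact hy'
  obtain ⟨x', hx', hxx⟩ := near_mem hy2 hx
  have h2 := hcon x' hx'
  have h3 := pr_norm_le κ (x - x')
  have h4 : ‖pr κ x' - t‖ ≤ ‖pr κ x - t‖ + ‖pr κ (x - x')‖ := by
    have e1 : pr κ x' - t = (pr κ x - t) - pr κ (x - x') := by
      rw [map_sub]
      abel
    rw [e1]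
    exact norm_sub_le _ _
  linarith

end Pool.Agent.CT
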