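import Pool.Agent.CT.CycBasic

/-!
# CT-PIECEGEO : the projection of a cycle is closed, and cones over it are small

PLAN. `piece_cpt`: every `z ∈ U` has `γ` with `χ (γ z) ≠ 0` (`χ_sum`), so `P.carrier =
{F z + lat n | z ∈ tsupport χ}`.
`pr_closed`: so `pr κ '' Z` is the sum of the compact set `⋃_k (pr κ ∘ F_k) '' tsupport χ_k` and of the
closed (discrete) subgroup `{zv m}` (`pr_lat`, `hκ`): closed (`IsCompact.add_isClosed`...). If the segment
`[p, q]` is disjoint from `pr κ '' Z`, then it has positive distance (compact and closed).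
`cone_small`: `pr κ '' Z = ⋃_k ⋃_n (f_k (U_k) + zv m)`. For `t : R4` the set `C t` of all `c` such that the
segment `[t, c]` meets `pr κ '' Z` at a point `≠ t` is contained in the countable union of the images
of the maps `(z, s) ↦ t + s • (f_k z + zv m - t)`, `z ∈ U_k`, `s : ℝ` (`c = t + (1/s') (x - t)` if
`x = t + s' (c - t)`, `s' ≠ 0`), which are smooth on the open subset `U_k × ℝ` of the 3-dimensional
space `ℂ × ℝ`; so `dimH (C t) ≤ 3 < 4` (cover `U_k` by countably many balls; `dimH_image_le...`,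
`ContDiffOn.dimH_image_le`, `dimH_iUnion`). If `t, t' ∉ pr κ '' Z` then some `c ∉ C t ∪ C t'`
(`dense_compl_of_dimH_lt_finrank`). Then the segments `[t, c]`, `[c, t']` are disjoint from
`pr κ '' Z`. Similarly `pr κ '' Z ≠ univ`.
-/

set_option autoImplicit false

noncomputable section

namespace Pool.Agent.CT

variable {g : ℕ} {J : V g →L[ℝ] V g}

theorem piece_cpt (P : Piece J) (x : V g) (hx : x ∈ P.carrier) :
    ∃ z ∈ tsupport P.χ, ∃ n : Ix g → ℤ, x = P.F z + lat n := by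
  obtain ⟨z, hz, n, rfl⟩ := hx
  have h1 : ∃ γ, P.χ (P.act γ z) ≠ 0 := by
    by_contra hcon
    push Not at hcon
    have h2 := P.χ_sum z hz
    rw [finsum_eq_zero_of_forall_eq_zero hcon] at h2
    exact zero_ne_one h2
  obtain ⟨γ, hγ⟩ := h1
  refine ⟨P.act γ z, subset_tsupport _ hγ, n - P.ρ γ, ?_⟩
  rw [P.F_per γ z hz]
  funext i
  simp only [Pi.add_apply, lat, Pi.sub_apply]
  push_cast
  ring

private theorem pg_pr (κ : Fin 4 → Ix g) (x : V g) (a : Fin 4) : pr κ x a = x (κ a) := rfl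

private theorem pg_lat (κ : Fin 4 → Ix g) (x : V g) (n : Ix g → ℤ) :
    pr κ (x + lat n) = pr κ x + zv (n ∘ κ) := by
  funext a
  rfl

private theorem pg_ext (κ : Fin 4 → Ix g) (hκ : Function.Injective κ) (m : Fin 4 → ℤ) :
    ∃ n : Ix g → ℤ, n ∘ κ = m :=
  ⟨Function.extend κ m 0, Function.extend_comp hκ m 0⟩

private theorem pg_closed : IsClosed (Set.range zv) := by
  have h : Set.range zv = Set.univ.pi fun _ : Fin 4 => Set.range ((↑) : ℤ → ℝ) := by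
    ext x
    constructor
    · rintro ⟨m, rfl⟩ a _
      exact ⟨m a, rfl⟩
    · intro hx
      choose m hm using fun a => hx a (Set.mem_univ a)
      exact ⟨m, funext hm⟩
  rw [h]
  exact isClosed_set_pi fun _ _ => Int.isClosedEmbedding_coe_real.isClosed_range

open scoped Pointwise in
theorem pr_closed (y : Zs g) (hy : IsCyc y) (κ : Fin 4 → Ix g) (hκ : Function.Injective κ) :
    IsClosed (pr κ '' (y.1 : Set (V g))) := by
  obtain ⟨J, m, P, hZ, -⟩ := hy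
  have h : pr κ '' (y.1 : Set (V g)) =
      ⋃ k : Fin m, ((fun z => pr κ ((P k).F z)) '' tsupport (P k).χ + Set.range zv) := by
    ext t
    constructor
    · rintro ⟨x, hx, rfl⟩
      rw [hZ] at hx
      obtain ⟨k, hk⟩ := Set.mem_iUnion.1 hx
      obtain ⟨z, hz, n, rfl⟩ := piece_cpt (P k) x hk
      refine Set.mem_iUnion.2 ⟨k, ?_⟩
      rw [pg_lat]
      exact Set.add_mem_add ⟨z, hz, rfl⟩ ⟨n ∘ κ, rfl⟩
    · intro ht
      obtain ⟨k, hk⟩ := Set.mem_iUnion.1 ht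
      obtain ⟨_, ⟨z, hz, rfl⟩, _, ⟨m', rfl⟩, rfl⟩ := hk
      obtain ⟨n, rfl⟩ := pg_ext κ hκ m'
      refine ⟨(P k).F z + lat n, ?_, pg_lat κ _ n⟩
      rw [hZ]
      exact Set.mem_iUnion.2 ⟨k, z, (P k).χ_sub hz, n, rfl⟩
  rw [h]
  refine isClosed_iUnion_of_finite fun k => pg_closed.add_left_of_isCompact ?_
  refine (P k).χ_cpt.image_of_continuousOn ?_
  exact (pr κ).continuous.comp_continuousOn ((P k).F_smooth.continuousOn.mono (P k).χ_sub)

theorem Mg_of_disj (y : Zs g) (hy : IsCyc y) (κ : Fin 4 → Ix g) (hκ : Function.Injective κ)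
    (p q : R4) (h : ∀ t ∈ Set.Icc (0 : ℝ) 1, p + t • (q - p) ∉ pr κ '' (y.1 : Set (V g))) :
    ∃ ε > 0, Mg κ (y.1 : Set (V g)) ε p q := by
  have hA := pr_closed y hy κ hκ
  have hS : IsCompact ((fun t : ℝ => p + t • (q - p)) '' Set.Icc (0 : ℝ) 1) :=
    isCompact_Icc.image (by fun_prop)
  have hd : Disjoint ((fun t : ℝ => p + t • (q - p)) '' Set.Icc (0 : ℝ) 1)
      (pr κ '' (y.1 : Set (V g))) := by
    rw [Set.disjoint_left]
    rintro _ ⟨t, ht, rfl⟩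
    exact h t ht
  obtain ⟨r, hr, h1⟩ := Metric.exists_pos_forall_lt_edist hS hA hd
  have hr' : (0 : ℝ) < r := by exact_mod_cast hr
  refine ⟨r / 2, by positivity, r, by linarith, fun x hx t ht => ?_⟩
  have h2 := h1 _ ⟨t, ht, rfl⟩ _ ⟨x, hx, rfl⟩
  have h3 : ((r : ℝ)) < dist (p + t • (q - p)) (pr κ x) := by
    rw [edist_dist] at h2
    have h4 : (r : ENNReal) = ENNReal.ofReal (r : ℝ) := (ENNReal.ofReal_coe_nnreal).symm
    rw [h4] at h2
    exact (ENNReal.ofReal_lt_ofReal_iff_of_nonneg r.2).1 h2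
  rw [dist_comm, dist_eq_norm] at h3
  rw [sub_sub]
  exact h3.le

/-- the cone with vertex `t` over the projection of the cycle -/
private def pgC {m : ℕ} (P : Fin m → Piece J) (κ : Fin 4 → Ix g) (t : R4) : Set R4 :=
  ⋃ k : Fin m, ⋃ n : Fin 4 → ℤ,
    (fun w : ℂ × ℝ => t + w.2 • (pr κ ((P k).F w.1) + zv n - t)) '' ((P k).U ×ˢ Set.univ)

private theorem pgC_dim {m : ℕ} (P : Fin m → Piece J) (κ : Fin 4 → Ix g) (t : R4) :
    dimH (pgC P κ t) ≤ 3 := by
  unfold pgC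
  rw [dimH_iUnion]
  refine iSup_le fun k => ?_
  rw [dimH_iUnion]
  refine iSup_le fun n => ?_
  have hF : ContDiffOn ℝ 1 (P k).F (P k).U := (P k).F_smooth.of_le (by exact_mod_cast le_top)
  have h1 : dimH ((fun w : ℂ × ℝ => t + w.2 • (pr κ ((P k).F w.1) + zv n - t)) ''
      ((P k).U ×ˢ Set.univ)) ≤ dimH ((P k).U ×ˢ (Set.univ : Set ℝ)) := by
    refine dimH_image_le_of_locally_lipschitzOn fun w hw => ?_
    have h2 : ContDiffAt ℝ 1 (P k).F w.1 := hF.contDiffAt ((P k).isOpen.mem_nhds hw.1)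
    have h3 : ContDiffAt ℝ 1 (fun w : ℂ × ℝ => (P k).F w.1) w := h2.comp w contDiffAt_fst
    have h4 : ContDiffAt ℝ 1 (fun w : ℂ × ℝ => pr κ ((P k).F w.1)) w :=
      (pr κ).contDiff.contDiffAt.comp w h3
    have h5 : ContDiffAt ℝ 1 (fun w : ℂ × ℝ => t + w.2 • (pr κ ((P k).F w.1) + zv n - t)) w :=
      contDiffAt_const.add (contDiffAt_snd.smul ((h4.add contDiffAt_const).sub contDiffAt_const))
    obtain ⟨C, u, hu, hC⟩ := h5.exists_lipschitzOnWith
    exact ⟨C, u, mem_nhdsWithin_of_mem_nhds hu, hC⟩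
  refine h1.trans ((dimH_mono (Set.subset_univ _)).trans ?_)
  rw [Real.dimH_univ_eq_finrank, Module.finrank_prod, Complex.finrank_real_complex,
    Module.finrank_self]
  norm_num

private theorem pgC_mem {m : ℕ} {P : Fin m → Piece J} {κ : Fin 4 → Ix g} {Z : Set (V g)}
    (hZ : Z = ⋃ k, (P k).carrier) {t c : R4} {x : R4} (hx : x ∈ pr κ '' Z) (s : ℝ)
    (hc : c = t + s • (x - t)) : c ∈ pgC P κ t := by
  obtain ⟨v, hv, rfl⟩ := hx
  rw [hZ] at hv
  obtain ⟨k, z, hz, n, rfl⟩ := Set.mem_iUnion.1 hv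
  refine Set.mem_iUnion.2 ⟨k, Set.mem_iUnion.2 ⟨n ∘ κ, (z, s), ⟨hz, Set.mem_univ _⟩, ?_⟩⟩
  rw [hc, pg_lat]

private theorem pgC_seg {m : ℕ} {P : Fin m → Piece J} {κ : Fin 4 → Ix g} {Z : Set (V g)}
    (hZ : Z = ⋃ k, (P k).carrier) {t c : R4} (ht : t ∉ pr κ '' Z) (hc : c ∉ pgC P κ t) (s : ℝ) :
    t + s • (c - t) ∉ pr κ '' Z := by
  intro h
  by_cases hs : s = 0
  · rw [hs, zero_smul, add_zero] at h
    exact ht h
  · refine hc (pgC_mem hZ h s⁻¹ ?_)
    rw [add_sub_cancel_left, smul_smul, inv_mul_cancel₀ hs, one_smul, add_sub_cancel]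

private theorem pgC_ex {m : ℕ} (P : Fin m → Piece J) (κ : Fin 4 → Ix g) (t t' : R4) :
    ∃ c : R4, c ∉ pgC P κ t ∧ c ∉ pgC P κ t' := by
  have h1 : dimH (pgC P κ t ∪ pgC P κ t') < (Module.finrank ℝ R4 : ENNReal) := by
    rw [dimH_union]
    refine lt_of_le_of_lt (max_le (pgC_dim P κ t) (pgC_dim P κ t')) ?_
    rw [Module.finrank_fin_fun]
    norm_num
  obtain ⟨c, hc⟩ := (dense_compl_of_dimH_lt_finrank h1).nonempty
  exact ⟨c, fun h => hc (Or.inl h), fun h => hc (Or.inr h)⟩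

theorem exists_pt (y : Zs g) (hy : IsCyc y) (κ : Fin 4 → Ix g) (hκ : Function.Injective κ) :
    ∃ t : R4, ∃ ε > 0, Mg κ (y.1 : Set (V g)) ε t t := by
  obtain ⟨J, m, P, hZ, hS⟩ := id hy
  obtain ⟨c, hc, -⟩ := pgC_ex P κ 0 0
  refine ⟨c, Mg_of_disj y hy κ hκ c c fun t _ h => ?_⟩
  rw [sub_self, smul_zero, add_zero] at h
  exact hc (pgC_mem hZ h 1 (by simp))

private theorem Mg_le {κ : Fin 4 → Ix g} {Z : Set (V g)} {ε ε' : ℝ} {p q : R4} (h : Mg κ Z ε p q)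
    (hε : ε' ≤ ε) : Mg κ Z ε' p q := by
  obtain ⟨δ, hδ, h1⟩ := h
  exact ⟨δ, lt_of_le_of_lt hε hδ, h1⟩

theorem exists_path (y : Zs g) (hy : IsCyc y) (κ : Fin 4 → Ix g) (hκ : Function.Injective κ)
    (t t' : R4) (ht : t ∉ pr κ '' (y.1 : Set (V g))) (ht' : t' ∉ pr κ '' (y.1 : Set (V g))) :
    ∃ c : R4, ∃ ε > 0, Mg κ (y.1 : Set (V g)) ε t c ∧ Mg κ (y.1 : Set (V g)) ε c t' := by
  obtain ⟨J, m, P, hZ, hS⟩ := id hy
  obtain ⟨c, hc, hc'⟩ := pgC_ex P κ t t'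
  obtain ⟨ε1, hε1, h1⟩ := Mg_of_disj y hy κ hκ t c fun s _ => pgC_seg hZ ht hc s
  obtain ⟨ε2, hε2, h2⟩ := Mg_of_disj y hy κ hκ c t' fun s _ => by
    have h3 : c + s • (t' - c) = t' + (1 - s) • (c - t') := by
      rw [sub_smul, one_smul, smul_sub, smul_sub]
      abel
    rw [h3]
    exact pgC_seg hZ ht' hc' (1 - s)
  exact ⟨c, min ε1 ε2, lt_min hε1 hε2, Mg_le h1 (min_le_left _ _), Mg_le h2 (min_le_right _ _)⟩

end Pool.Agent.CT
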