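import Pool.Agent.CT.NDefs
import Pool.Agent.CT.Cub

/-!
# Project CT (MP_45233e_ag): flat tori, stars of elliptic curves, homologies of currents

Definitions only.
-/

set_option autoImplicit false

noncomputable section

open scoped BigOperators ContDiff

namespace Pool.Agent.CT

variable {g : ℕ}

/-- the basis vectors of `V g` -/
abbrev eV (a : Ix g) : V g := Pi.single a 1

/-- the current of the flat torus `ℝ x + ℝ y + t` (`x, y` lattice vectors) -/
def fT (x y t : V g) (i j : Ix g) (a : V g → ℝ) : ℝ :=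
  wed2 x y i j * ∫ s in Set.Icc (0 : ℝ × ℝ) 1, a (s.1 • x + s.2 • y + t)

/-- the flat torus `ℝ x + ℝ y + t`, as a periodic set -/
def fZ (x y t : V g) : Set (V g) :=
  {v | ∃ (s : ℝ × ℝ) (n : Ix g → ℤ), v = s.1 • x + s.2 • y + t + lat n}

/-- two-parameter families of stars of elliptic curves -/
structure Star (g : ℕ) where
  e : Ix g → Ix g → ℤ
  symp : SympBasis e
  h : Bool → Fin g → Ix g → ℤ
  conn : ∀ b : ℝ × ℝ, IsConnected (toTor '' ⋃ c : Fin g,
    fZ (lat (e (c, false))) (lat (e (c, true))) (b.1 • lat (h false c) + b.2 • lat (h true c)))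

namespace Star

/-- translation of the component `c` -/
def t (s : Star g) (b : ℝ × ℝ) (c : Fin g) : V g := b.1 • lat (s.h false c) + b.2 • lat (s.h true c)

/-- the union of the components -/
def car (s : Star g) (b : ℝ × ℝ) : Set (V g) :=
  ⋃ c : Fin g, fZ (lat (s.e (c, false))) (lat (s.e (c, true))) (s.t b c)

/-- the current -/
def cur (s : Star g) (b : ℝ × ℝ) (i j : Ix g) (a : V g → ℝ) : ℝ :=
  ∑ c : Fin g, fT (lat (s.e (c, false))) (lat (s.e (c, true))) (s.t b c) i j a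

/-- the increments of the trivector `ξ` -/
def w (s : Star g) (k : Bool) (i j l : Ix g) : ℝ :=
  ∑ c : Fin g, wed3 (lat (s.h k c)) (lat (s.e (c, false))) (lat (s.e (c, true))) i j l

/-- the connection form -/
def a (s : Star g) (κ : Fin 4 → Ix g) (ρ : R4 → ℝ) (k : Bool) (τ : R4) (b : ℝ × ℝ) : ℝ :=
  ∑ c : Fin g, PP κ (fT (lat (s.e (c, false))) (lat (s.e (c, true))) (s.t b c))
    (pr κ (lat (s.h k c))) τ (EE ρ 0 τ)

/-- the curvature -/
def F (s : Star g) (κ : Fin 4 → Ix g) (ρ : R4 → ℝ) (b : ℝ × ℝ) : ℝ :=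
  - ∑ c : Fin g, PP κ (fT (lat (s.e (c, false))) (lat (s.e (c, true))) (s.t b c))
    (pr κ (lat (s.h false c))) (pr κ (lat (s.h true c))) ρ

/-- the local lift of the cocycle `h i j` on a star family -/
def psi (s : Star g) (κ : Fin 4 → Ix g) (ρ : R4 → ℝ) (τ p τ' : R4) (b : ℝ × ℝ) : ℝ :=
  ∑ c : Fin g, (NN κ ρ (fT (lat (s.e (c, false))) (lat (s.e (c, true))) (s.t b c)) τ p +
    NN κ ρ (fT (lat (s.e (c, false))) (lat (s.e (c, true))) (s.t b c)) p τ')

/-- the value of the cocycle on the family -/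
def val (s : Star g) (κ : Fin 4 → Ix g) : ℝ :=
  ∑ c : Fin g, dt (pr κ (lat (s.h false c))) (pr κ (lat (s.h true c)))
    (pr κ (lat (s.e (c, false)))) (pr κ (lat (s.e (c, true))))

end Star

/-- the family `Q` of cycles is the star family `s` -/
def IsFam (s : Star g) (Q : ℝ × ℝ → Zs g) : Prop :=
  (∀ b, ((Q b).1 : Set (V g)) = s.car b) ∧ ∀ b i j (a : Per g), (Q b).2 i j a = s.cur b i j a.1

/-- the currents `S` and `S'` are homologous by a smooth integral 3-chain with volume `ξ` -/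
def Hm (S S' : Ix g → Ix g → (V g → ℝ) → ℝ) (ξ : Ix g → Ix g → Ix g → ℝ) : Prop :=
  ∃ G : Chain3 g, Bounds G S S' ∧ ∀ i j k, ξ i j k = G.int i j k (fun _ => 1)

/-- the current swept by the path `γ` in the direction `v` -/
def fP (γ : ℝ → V g) (v : V g) (i j : Ix g) (a : V g → ℝ) : ℝ :=
  ∫ s in (0 : ℝ)..1, ∫ t in (0 : ℝ)..1, a (γ s + t • v) * wed2 (deriv γ s) v i j

/-- the lattice `Λ³ H` -/
def Lam (g : ℕ) : AddSubgroup (Ix g → Ix g → Ix g → ℝ) :=
  AddSubgroup.closure {ξ | ∃ a b c : Ix g → ℤ, ξ = wed3 (lat a) (lat b) (lat c)}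

/-- the trivector `v ∧ ω` -/
def wom (v : V g) (i j k : Ix g) : ℝ :=
  ∑ c : Fin g, wed3 v (eV (c, false)) (eV (c, true)) i j k

/-- translation of a closed set -/
def trZ (v : V g) (Z : TopologicalSpace.Closeds (V g)) : TopologicalSpace.Closeds (V g) :=
  ⟨(fun x => x + v) '' (Z : Set (V g)), (Homeomorph.addRight v).isClosedMap _ Z.isClosed⟩

/-- translation of a function -/
def trP (v : V g) (a : Per g) : Per g :=
  ⟨fun x => a.1 (x + v), a.2.1.comp (continuous_add_const v), fun n x => by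
    show a.1 (x + lat n + v) = a.1 (x + v)
    rw [add_right_comm]; exact a.2.2 n _⟩

/-- translation of a point of the ambient space -/
def trA (v : V g) (p : Amb g) : Amb g :=
  (p.1, trZ v p.2.1, fun i j a => p.2.2.1 i j (trP v a), fun i j k => p.2.2.2 i j k + wom v i j k)

/-- contraction with the symplectic form -/
def ctr (ξ : Ix g → Ix g → Ix g → ℝ) : V g := fun k => ∑ i : Fin g, ξ (i, false) (i, true) k

/-- the circle cocycle `c` on `K` is given by the smoothed intersection numbers -/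
structure IsNC (κ : Fin 4 → Ix g) (K : Set (Zs g)) (c : CC K) (t : c.ι → R4) (ε : ℝ)
    (ρ : R4 → ℝ) : Prop where
  pos : 0 < ε
  bump : Bump ε ρ
  mg : ∀ i (y : K), y ∈ c.N i → Mg κ (y.1.1 : Set (V g)) ε (t i) (t i)
  path : ∀ i j (y : K), y ∈ c.N i → y ∈ c.N j → ∃ p, Mg κ (y.1.1 : Set (V g)) ε (t i) p ∧
    Mg κ (y.1.1 : Set (V g)) ε p (t j)
  eq : ∀ i j (y : K) p, y ∈ c.N i → y ∈ c.N j → Mg κ (y.1.1 : Set (V g)) ε (t i) p →
    Mg κ (y.1.1 : Set (V g)) ε p (t j) →
    c.h i j y = ((NN κ ρ y.1.cur (t i) p + NN κ ρ y.1.cur p (t j) : ℝ) : AddCircle (1 : ℝ))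

/-- the four coordinates `x_1, y_1, x_2, x_3` -/
def kap (hg : 3 ≤ g) : Fin 4 → Ix g :=
  ![(⟨0, by omega⟩, false), (⟨0, by omega⟩, true), (⟨1, by omega⟩, false),
    (⟨2, by omega⟩, false)]

end Pool.Agent.CT
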