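import Pool.Agent.CT.Integ
import Pool.Agent.CT.PieceGeo
import Pool.Agent.CT.MgOpen
import Pool.Agent.CT.SDefs

/-!
# CT-EXCC : the circle cocycle on a compact set of cycles

PLAN. (1) For every `y ∈ K` choose by `exists_pt` a point `t` and `r > 0` with `Mg κ y r t t`; the sets
`{y' | Mg κ y' r t t}` are open (`Mg_open`); finitely many pairs `(t_i, r_i)`, `i : Fin n`, cover `K`.
`N i = {y : K | Mg κ y r_i t_i t_i}`.
(2) `C_i = {y ∈ K | ∀ x ∈ y, r_i ≤ ‖pr κ x - t_i‖}` is compact (`Mg_closed`) and contains `N i`. For all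
`i, j` there is `ε > 0` such that every `y ∈ C_i ∩ C_j` has `c` with `Mg κ y ε t_i c` and `Mg κ y ε c t_j`:
`IsCompact.induction_on` with `exists_path` (the points `t_i`, `t_j` are not in `pr κ '' y`), `Mg_open`,
`Mg_mono`. Let `ε` be the minimum over all `i, j` and of the `r_i`. Choose `ρ` by `exists_bump`.
(3) `h i j y = ((NN κ ρ y.cur t_i c + NN κ ρ y.cur c t_j : ℝ) : AddCircle 1)` for a chosen `c` as in (2) if
there is one, `0` otherwise. Independence of `c`: for another `c'` apply `integrality` to the closed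
polygon `t_i, c, t_j, c', t_i` (`n = 4`): the sum of the four numbers is an integer; and
`NN κ ρ S q p = - NN κ ρ S p q` (`PP_swap` and `GG ρ q p = GG ρ p q`, symmetry of `tri`; here also
`Mg κ Z ε q p` follows from `Mg κ Z ε p q`). Cocycle condition: the closed polygon
`t_i, c_ij, t_j, c_jk, t_k, c_ik, t_i`. Continuity at `y0 ∈ N i ∩ N j`: the point `c` of `y0` is valid for
all `y` near `y0` (`Mg_open`), and `NN_cont`.
-/

set_option autoImplicit false

noncomputable section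

namespace Pool.Agent.CT

variable {g : ℕ}

open Filter Topology

private theorem exists_min_pos {α : Type*} [Finite α] (f : α → ℝ) (hf : ∀ a, 0 < f a) :
    ∃ ε > 0, ∀ a, ε ≤ f a := by
  rcases isEmpty_or_nonempty α with h | h
  · exact ⟨1, one_pos, fun a => h.elim a⟩
  · obtain ⟨a, ha⟩ := Finite.exists_min f
    exact ⟨f a, hf a, ha⟩

private theorem Mg_symm' {κ : Fin 4 → Ix g} {Z : Set (V g)} {ε : ℝ} {p q : R4}
    (h : Mg κ Z ε p q) : Mg κ Z ε q p := by
  obtain ⟨δ, hδ, h1⟩ := h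
  refine ⟨δ, hδ, fun x hx t ht => ?_⟩
  have h2 := h1 x hx (1 - t) ⟨by linarith [ht.2], by linarith [ht.1]⟩
  have h3 : pr κ x - p - (1 - t) • (q - p) = pr κ x - q - t • (p - q) := by
    module
  rwa [h3] at h2

/-- uniform margins for the paths -/
private theorem unif_path (κ : Fin 4 → Ix g) (hκ : Function.Injective κ) (K : Set (Zs g))
    (hK : IsCompact K) (hc : ∀ y ∈ K, IsCyc y) (ri rj : ℝ) (hri : 0 < ri) (hrj : 0 < rj)
    (ti tj : R4) :
    ∃ ε > 0, ∀ y ∈ K, Mg κ (y.1 : Set (V g)) ri ti ti → Mg κ (y.1 : Set (V g)) rj tj tj →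
      ∃ p, Mg κ (y.1 : Set (V g)) ε ti p ∧ Mg κ (y.1 : Set (V g)) ε p tj := by
  set C : Set (Zs g) := K ∩ {y : Zs g | ∀ x ∈ (y.1 : Set (V g)), ri ≤ ‖pr κ x - ti‖} ∩
    {y : Zs g | ∀ x ∈ (y.1 : Set (V g)), rj ≤ ‖pr κ x - tj‖} with hC
  have hCc : IsCompact C := (hK.inter_right (Mg_closed κ ri ti)).inter_right (Mg_closed κ rj tj)
  have key : ∃ ε > 0, ∀ y ∈ C, ∃ p, Mg κ (y.1 : Set (V g)) ε ti p ∧
      Mg κ (y.1 : Set (V g)) ε p tj := by
    refine hCc.induction_on (p := fun s => ∃ ε > 0, ∀ y ∈ s, ∃ p, Mg κ (y.1 : Set (V g)) ε ti p ∧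
      Mg κ (y.1 : Set (V g)) ε p tj) ⟨1, one_pos, fun y hy => hy.elim⟩ ?_ ?_ ?_
    · rintro s s' hss ⟨ε, h0, h⟩
      exact ⟨ε, h0, fun y hy => h y (hss hy)⟩
    · rintro s s' ⟨ε, h0, h⟩ ⟨ε', h0', h'⟩
      refine ⟨min ε ε', lt_min h0 h0', ?_⟩
      rintro y (hy | hy)
      · obtain ⟨p, h1, h2⟩ := h y hy
        exact ⟨p, Mg_mono κ _ _ _ (min_le_left _ _) _ _ h1, Mg_mono κ _ _ _ (min_le_left _ _) _ _ h2⟩
      · obtain ⟨p, h1, h2⟩ := h' y hy
        exact ⟨p, Mg_mono κ _ _ _ (min_le_right _ _) _ _ h1,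
          Mg_mono κ _ _ _ (min_le_right _ _) _ _ h2⟩
    · rintro y ⟨⟨hyK, hyi⟩, hyj⟩
      have hti : ti ∉ pr κ '' (y.1 : Set (V g)) := by
        rintro ⟨x, hx, rfl⟩
        have := hyi x hx
        rw [sub_self, norm_zero] at this
        linarith
      have htj : tj ∉ pr κ '' (y.1 : Set (V g)) := by
        rintro ⟨x, hx, rfl⟩
        have := hyj x hx
        rw [sub_self, norm_zero] at this
        linarith
      obtain ⟨p, ε, h0, h1, h2⟩ := exists_path y (hc y hyK) κ hκ ti tj hti htj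
      refine ⟨{y' : Zs g | Mg κ (y'.1 : Set (V g)) ε ti p} ∩
        {y' : Zs g | Mg κ (y'.1 : Set (V g)) ε p tj},
        mem_nhdsWithin_of_mem_nhds (((Mg_open κ ε ti p).inter (Mg_open κ ε p tj)).mem_nhds
          ⟨h1, h2⟩), ε, h0, ?_⟩
      rintro y' ⟨h3, h4⟩
      exact ⟨p, h3, h4⟩
  obtain ⟨ε, h0, h⟩ := key
  refine ⟨ε, h0, fun y hy h1 h2 => h y ⟨⟨hy, ?_⟩, ?_⟩⟩
  · intro x hx
    obtain ⟨δ, hδ, h3⟩ := h1
    have := h3 x hx 0 ⟨le_rfl, zero_le_one⟩
    rw [zero_smul, sub_zero] at this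
    linarith
  · intro x hx
    obtain ⟨δ, hδ, h3⟩ := h2
    have := h3 x hx 0 ⟨le_rfl, zero_le_one⟩
    rw [zero_smul, sub_zero] at this
    linarith

section poly

variable {y : Zs g} {κ : Fin 4 → Ix g} {ε : ℝ} {ρ : R4 → ℝ}

/-- the class modulo one of the intersection number -/
private def nu (κ : Fin 4 → Ix g) (ρ : R4 → ℝ) (y : Zs g) (a b : R4) : AddCircle (1 : ℝ) :=
  ((NN κ ρ y.cur a b : ℝ) : AddCircle (1 : ℝ))

private theorem coe_int (m : ℤ) : (((m : ℝ) : ℝ) : AddCircle (1 : ℝ)) = 0 := by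
  rw [AddCircle.coe_eq_zero_iff]
  exact ⟨m, by simp⟩

private theorem poly2 (hy : IsCyc y) (hκ : Function.Injective κ) (hε : 0 < ε) (hρ : Bump ε ρ)
    {a b : R4} (h1 : Mg κ (y.1 : Set (V g)) ε a b) : nu κ ρ y a b + nu κ ρ y b a = 0 := by
  obtain ⟨m, hm⟩ := integrality y hy κ hκ ε hε ρ hρ 2 (fun k => if k = 1 then b else a)
    (by simp) (by
      intro k hk
      interval_cases k
      · simpa using h1
      · simpa using Mg_symm' h1)
  simp only [Finset.sum_range_succ, Finset.sum_range_zero] at hm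
  unfold nu
  rw [← AddCircle.coe_add]
  simp at hm
  rw [hm]
  exact coe_int m

private theorem poly4 (hy : IsCyc y) (hκ : Function.Injective κ) (hε : 0 < ε) (hρ : Bump ε ρ)
    {a b c d : R4} (h1 : Mg κ (y.1 : Set (V g)) ε a b) (h2 : Mg κ (y.1 : Set (V g)) ε b c)
    (h3 : Mg κ (y.1 : Set (V g)) ε c d) (h4 : Mg κ (y.1 : Set (V g)) ε d a) :
    nu κ ρ y a b + nu κ ρ y b c + nu κ ρ y c d + nu κ ρ y d a = 0 := by
  obtain ⟨m, hm⟩ := integrality y hy κ hκ ε hε ρ hρ 4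
    (fun k => if k = 1 then b else if k = 2 then c else if k = 3 then d else a)
    (by simp) (by
      intro k hk
      interval_cases k
      · simpa using h1
      · simpa using h2
      · simpa using h3
      · simpa using h4)
  simp only [Finset.sum_range_succ, Finset.sum_range_zero] at hm
  unfold nu
  rw [← AddCircle.coe_add, ← AddCircle.coe_add, ← AddCircle.coe_add]
  simp at hm
  rw [hm]
  exact coe_int m

private theorem poly6 (hy : IsCyc y) (hκ : Function.Injective κ) (hε : 0 < ε) (hρ : Bump ε ρ)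
    {a b c d e f : R4} (h1 : Mg κ (y.1 : Set (V g)) ε a b) (h2 : Mg κ (y.1 : Set (V g)) ε b c)
    (h3 : Mg κ (y.1 : Set (V g)) ε c d) (h4 : Mg κ (y.1 : Set (V g)) ε d e)
    (h5 : Mg κ (y.1 : Set (V g)) ε e f) (h6 : Mg κ (y.1 : Set (V g)) ε f a) :
    nu κ ρ y a b + nu κ ρ y b c + nu κ ρ y c d + nu κ ρ y d e + nu κ ρ y e f + nu κ ρ y f a = 0 := by
  obtain ⟨m, hm⟩ := integrality y hy κ hκ ε hε ρ hρ 6
    (fun k => if k = 1 then b else if k = 2 then c else if k = 3 then d else if k = 4 then e else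
      if k = 5 then f else a)
    (by simp) (by
      intro k hk
      interval_cases k
      · simpa using h1
      · simpa using h2
      · simpa using h3
      · simpa using h4
      · simpa using h5
      · simpa using h6)
  simp only [Finset.sum_range_succ, Finset.sum_range_zero] at hm
  unfold nu
  rw [← AddCircle.coe_add, ← AddCircle.coe_add, ← AddCircle.coe_add, ← AddCircle.coe_add,
    ← AddCircle.coe_add]
  simp at hm
  rw [hm]
  exact coe_int m

private theorem indep (hy : IsCyc y) (hκ : Function.Injective κ) (hε : 0 < ε) (hρ : Bump ε ρ)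
    {a b c d : R4} (h1 : Mg κ (y.1 : Set (V g)) ε a b) (h2 : Mg κ (y.1 : Set (V g)) ε b c)
    (h3 : Mg κ (y.1 : Set (V g)) ε a d) (h4 : Mg κ (y.1 : Set (V g)) ε d c) :
    nu κ ρ y a b + nu κ ρ y b c = nu κ ρ y a d + nu κ ρ y d c := by
  have e1 := poly4 hy hκ hε hρ h1 h2 (Mg_symm' h4) (Mg_symm' h3)
  have e2 := poly2 hy hκ hε hρ h3
  have e3 := poly2 hy hκ hε hρ h4
  have e4 : nu κ ρ y d a = - nu κ ρ y a d := by
    rw [eq_neg_iff_add_eq_zero, add_comm]
    exact e2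
  have e5 : nu κ ρ y c d = - nu κ ρ y d c := by
    rw [eq_neg_iff_add_eq_zero, add_comm]
    exact e3
  rw [e4, e5] at e1
  rw [← sub_eq_zero, ← e1]
  abel

end poly

/-- the class of the broken path -/
private def hh (κ : Fin 4 → Ix g) (ρ : R4 → ℝ) (ε : ℝ) (a c : R4) (y : Zs g) :
    AddCircle (1 : ℝ) :=
  letI := Classical.propDecidable
  if h : ∃ p, Mg κ (y.1 : Set (V g)) ε a p ∧ Mg κ (y.1 : Set (V g)) ε p c then
    nu κ ρ y a h.choose + nu κ ρ y h.choose c else 0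

private theorem hh_eq {κ : Fin 4 → Ix g} (hκ : Function.Injective κ) {ρ : R4 → ℝ} {ε : ℝ}
    (hε : 0 < ε) (hρ : Bump ε ρ) {a c p : R4} {y : Zs g} (hy : IsCyc y)
    (h1 : Mg κ (y.1 : Set (V g)) ε a p) (h2 : Mg κ (y.1 : Set (V g)) ε p c) :
    hh κ ρ ε a c y = nu κ ρ y a p + nu κ ρ y p c := by
  have h : ∃ p, Mg κ (y.1 : Set (V g)) ε a p ∧ Mg κ (y.1 : Set (V g)) ε p c := ⟨p, h1, h2⟩
  unfold hh
  rw [dif_pos h]
  exact indep hy hκ hε hρ h.choose_spec.1 h.choose_spec.2 h1 h2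

theorem exists_CC (κ : Fin 4 → Ix g) (hκ : Function.Injective κ) (K : Set (Zs g))
    (hK : IsCompact K) (hc : ∀ y ∈ K, IsCyc y) :
    ∃ (c : CC K) (t : c.ι → R4) (ε : ℝ) (ρ : R4 → ℝ), IsNC κ K c t ε ρ := by
  classical
  have hpt : ∀ y : Zs g, ∃ t : R4, ∃ r : ℝ, 0 < r ∧ (y ∈ K → Mg κ (y.1 : Set (V g)) r t t) := by
    intro y
    by_cases hy : y ∈ K
    · obtain ⟨t, r, h0, h1⟩ := exists_pt y (hc y hy) κ hκ
      exact ⟨t, r, h0, fun _ => h1⟩
    · exact ⟨0, 1, one_pos, fun h => absurd h hy⟩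
  choose tt rr hr0 hr using hpt
  obtain ⟨T, hTK, hcov⟩ := hK.elim_nhds_subcover
    (fun y => {y' : Zs g | Mg κ (y'.1 : Set (V g)) (rr y) (tt y) (tt y)})
    (fun y hy => (Mg_open κ (rr y) (tt y) (tt y)).mem_nhds (hr y hy))
  have hun := fun ij : {x // x ∈ T} × {x // x ∈ T} =>
    unif_path κ hκ K hK hc (rr ij.1.1) (rr ij.2.1) (hr0 _) (hr0 _) (tt ij.1.1) (tt ij.2.1)
  choose ee hee0 hee using hun
  obtain ⟨e1, he1, he1'⟩ := exists_min_pos ee hee0
  obtain ⟨e2, he2, he2'⟩ := exists_min_pos (fun i : {x // x ∈ T} => rr i.1) (fun i => hr0 _)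
  set ε : ℝ := min e1 e2 with hε
  have hε0 : 0 < ε := lt_min he1 he2
  obtain ⟨ρ, hρ⟩ := exists_bump ε hε0
  set t : {x // x ∈ T} → R4 := fun i => tt i.1 with ht
  set N : {x // x ∈ T} → Set K := fun i =>
    {y : K | Mg κ (y.1.1 : Set (V g)) (rr i.1) (tt i.1) (tt i.1)} with hN
  have hmg : ∀ i (y : K), y ∈ N i → Mg κ (y.1.1 : Set (V g)) ε (t i) (t i) := fun i y hy =>
    Mg_mono κ _ _ _ ((min_le_right _ _).trans (he2' i)) _ _ hy
  have hpath : ∀ i j (y : K), y ∈ N i → y ∈ N j → ∃ p, Mg κ (y.1.1 : Set (V g)) ε (t i) p ∧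
      Mg κ (y.1.1 : Set (V g)) ε p (t j) := by
    intro i j y hi hj
    obtain ⟨p, h1, h2⟩ := hee (i, j) y.1 y.2 hi hj
    have hle : ε ≤ ee (i, j) := (min_le_left _ _).trans (he1' _)
    exact ⟨p, Mg_mono κ _ _ _ hle _ _ h1, Mg_mono κ _ _ _ hle _ _ h2⟩
  have hnu : ∀ a b : R4, Continuous (fun y : K => nu κ ρ y.1 a b) := by
    intro a b
    unfold nu
    exact (AddCircle.continuous_mk' (1 : ℝ)).comp ((NN_cont κ ρ a b).comp continuous_subtype_val)
  let c : CC K :=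
    { ι := {x // x ∈ T}
      N := N
      op := fun i => (Mg_open κ (rr i.1) (tt i.1) (tt i.1)).preimage continuous_subtype_val
      cov := by
        intro y
        have h1 := hcov y.2
        simp only [Set.mem_iUnion] at h1
        obtain ⟨x, hx, h2⟩ := h1
        exact ⟨⟨x, hx⟩, h2⟩
      h := fun i j y => hh κ ρ ε (t i) (t j) y.1
      cont := by
        rintro i j y0 ⟨hi, hj⟩
        obtain ⟨p, h1, h2⟩ := hpath i j y0 hi hj
        have hev : (fun y : K => nu κ ρ y.1 (t i) p + nu κ ρ y.1 p (t j)) =ᶠ[𝓝 y0]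
            fun y : K => hh κ ρ ε (t i) (t j) y.1 := by
          have h3 : ∀ᶠ y : K in 𝓝 y0, y ∈ {y : K | Mg κ (y.1.1 : Set (V g)) ε (t i) p} :=
            ((Mg_open κ ε (t i) p).preimage continuous_subtype_val).mem_nhds h1
          have h4 : ∀ᶠ y : K in 𝓝 y0, y ∈ {y : K | Mg κ (y.1.1 : Set (V g)) ε p (t j)} :=
            ((Mg_open κ ε p (t j)).preimage continuous_subtype_val).mem_nhds h2
          filter_upwards [h3, h4] with y h5 h6
          exact (hh_eq hκ hε0 hρ (hc y.1 y.2) h5 h6).symm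
        exact ((((hnu (t i) p).add (hnu p (t j))).continuousAt).congr hev).continuousWithinAt
      coc := by
        intro i j k y hi hj hk
        obtain ⟨p, h1, h2⟩ := hpath i j y hi hj
        obtain ⟨q, h3, h4⟩ := hpath j k y hj hk
        obtain ⟨r, h5, h6⟩ := hpath i k y hi hk
        have hy := hc y.1 y.2
        rw [hh_eq hκ hε0 hρ hy h1 h2, hh_eq hκ hε0 hρ hy h3 h4, hh_eq hκ hε0 hρ hy h5 h6]
        have e1 := poly6 hy hκ hε0 hρ h1 h2 h3 h4 (Mg_symm' h6) (Mg_symm' h5)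
        have e2 := poly2 hy hκ hε0 hρ h5
        have e3 := poly2 hy hκ hε0 hρ h6
        have e4 : nu κ ρ y.1 r (t i) = - nu κ ρ y.1 (t i) r := by
          rw [eq_neg_iff_add_eq_zero, add_comm]
          exact e2
        have e5 : nu κ ρ y.1 (t k) r = - nu κ ρ y.1 r (t k) := by
          rw [eq_neg_iff_add_eq_zero, add_comm]
          exact e3
        rw [e4, e5] at e1
        rw [← sub_eq_zero, ← e1]
        abel }
  refine ⟨c, t, ε, ρ, hε0, hρ, hmg, hpath, ?_⟩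
  intro i j y p _ _ h1 h2
  show hh κ ρ ε (t i) (t j) y.1 = _
  rw [hh_eq hκ hε0 hρ (hc y.1 y.2) h1 h2, AddCircle.coe_add]
  rfl

end Pool.Agent.CT
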