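import Pool.Agent.CT.StarCurve
import Pool.Agent.CT.ChainStar
import Pool.Agent.CT.Act

/-!
# CT-STARFAM : star families in `Xt g`

PLAN. `J` from `exists_J s.e s.symp`. For `b : ℝ × ℝ` the point is
`(J, ⟨s.car b, star_closed⟩, fun i j a => s.cur b i j a.1, ξ0 + b.1 • s.w false + b.2 • s.w true)` with `ξ0` from
`chain_star`; it is a point (`IsPt`) by `star_curve` (`s.conn b`) and `chain_star` (for `t c = s.t b c`,
`wed3` is linear in the first vector; the currents `C.cur` and `Σ_c fT` agree on continuous periodic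
functions, `Bounds` only uses smooth periodic functions).
Continuity in `b`: the closed set: the Hausdorff distance of `s.car b` and `s.car b'` is at most
`max_c ‖s.t b c - s.t b' c‖` (topology of `Closeds (V g)`: `EMetric`/uniform structure of the Hausdorff
distance, `hausdorffEdist_le_of_mem_edist`..). The current: for fixed `i j` and `a : Per g` the function
`b ↦ wed2 .. * ∫ s in Icc 0 1, a (s.1 • x + s.2 • y + s.t b c)` is continuous
(`continuous_parametric_integral_of_continuous` on the compact square). `ξ` is affine in `b`.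
`star_sq`: the periodicity of the family: `s.car (b + e_l) = s.car b` (the translations differ by lattice
vectors), the currents agree (periodic test functions), `ξ` changes by `s.w`.
`star_w_mem`: `s.w k ∈ Lam g`.
-/

set_option autoImplicit false

noncomputable section

open scoped ContDiff

namespace Pool.Agent.CT

variable {g : ℕ}

theorem star_w_mem (s : Star g) (k : Bool) : s.w k ∈ Lam g := by
  have h : s.w k = ∑ c : Fin g,
      wed3 (lat (s.h k c)) (lat (s.e (c, false))) (lat (s.e (c, true))) := by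
    funext i j l
    simp only [Finset.sum_apply]
    rfl
  rw [h]
  apply AddSubgroup.sum_mem
  intro c _
  exact AddSubgroup.subset_closure ⟨_, _, _, rfl⟩

private theorem fZ_shift (x y t t' : V g) (v : V g) (hv : v ∈ fZ x y t) :
    v + (t' - t) ∈ fZ x y t' := by
  obtain ⟨s, n, rfl⟩ := hv
  exact ⟨s, n, by abel⟩

private def carT (e : Ix g → Ix g → ℤ) (he : SympBasis e) (T : Fin g → V g) :
    TopologicalSpace.Closeds (V g) :=
  ⟨⋃ c : Fin g, fZ (lat (e (c, false))) (lat (e (c, true))) (T c), star_closed e he T⟩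

private theorem carT_half (e : Ix g → Ix g → ℤ) (T T' : Fin g → V g) (x : V g)
    (hx : x ∈ ⋃ c : Fin g, fZ (lat (e (c, false))) (lat (e (c, true))) (T c)) :
    ∃ y ∈ ⋃ c : Fin g, fZ (lat (e (c, false))) (lat (e (c, true))) (T' c),
      edist x y ≤ edist T T' := by
  obtain ⟨c, hc⟩ := Set.mem_iUnion.mp hx
  refine ⟨x + (T' c - T c), Set.mem_iUnion.mpr ⟨c, fZ_shift _ _ _ _ _ hc⟩, ?_⟩
  have h1 : edist x (x + (T' c - T c)) = edist (T c) (T' c) := by
    rw [edist_comm, edist_eq_enorm_sub, add_sub_cancel_left, edist_comm, edist_eq_enorm_sub]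
  rw [h1]
  exact edist_le_pi_edist T T' c

private theorem carT_cont (e : Ix g → Ix g → ℤ) (he : SympBasis e) :
    Continuous (carT e he) := by
  have h : LipschitzWith 1 (carT e he) := by
    intro T T'
    rw [ENNReal.coe_one, one_mul, TopologicalSpace.Closeds.edist_eq]
    apply Metric.hausdorffEDist_le_of_mem_edist
    · intro x hx
      exact carT_half e T T' x hx
    · intro x hx
      obtain ⟨y, hy, hxy⟩ := carT_half e T' T x hx
      exact ⟨y, hy, by rwa [edist_comm T T']⟩
  exact h.continuous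

private theorem t_cont (s : Star g) : Continuous (fun b : ℝ × ℝ => s.t b) := by
  unfold Star.t
  fun_prop

private theorem fT_cont (x y : V g) (T : ℝ × ℝ → V g) (hT : Continuous T) (i j : Ix g)
    (a : V g → ℝ) (ha : Continuous a) : Continuous fun b => fT x y (T b) i j a := by
  unfold fT
  apply Continuous.mul continuous_const
  apply continuous_parametric_integral_of_continuous _ isCompact_Icc
  unfold Function.uncurry
  fun_prop

private theorem wed3_lin (u u' v w : V g) (r r' : ℝ) (i j k : Ix g) :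
    wed3 (r • u + r' • u') v w i j k = r * wed3 u v w i j k + r' * wed3 u' v w i j k := by
  unfold wed3
  simp only [Matrix.det_fin_three, Matrix.of_apply, Matrix.cons_val', Matrix.cons_val_zero,
    Matrix.cons_val_one, Matrix.cons_val, Pi.add_apply, Pi.smul_apply, smul_eq_mul]
  ring

private theorem sum_wed3 (s : Star g) (b : ℝ × ℝ) (i j k : Ix g) :
    ∑ c : Fin g, wed3 (s.t b c) (lat (s.e (c, false))) (lat (s.e (c, true))) i j k =
      b.1 * s.w false i j k + b.2 * s.w true i j k := by
  unfold Star.t Star.w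
  rw [Finset.mul_sum, Finset.mul_sum, ← Finset.sum_add_distrib]
  exact Finset.sum_congr rfl fun c _ => wed3_lin _ _ _ _ _ _ _ _ _

theorem star_family (s : Star g) : ∃ Q : C(ℝ × ℝ, Xt g), IsFam s (fun b => cyc (Q b)) ∧
    (∀ b, (Q b).1.1 = (Q 0).1.1) ∧
    ∀ b i j k, (Q b).1.2.2.2 i j k =
      (Q 0).1.2.2.2 i j k + b.1 * s.w false i j k + b.2 * s.w true i j k := by
  obtain ⟨J, hJ, hJe⟩ := exists_J s.e s.symp
  obtain ⟨ξ0, hξ⟩ := chain_star s.e s.symp
  let p : ℝ × ℝ → Amb g := fun b => (J, carT s.e s.symp (s.t b),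
    (fun i j (a : Per g) => s.cur b i j a.1),
    fun i j k => ξ0 i j k + (b.1 * s.w false i j k + b.2 * s.w true i j k))
  have hp : ∀ b, IsPt (p b) := by
    intro b
    obtain ⟨C, hC, hcur⟩ := star_curve s.e s.symp J hJ hJe (s.t b) (s.conn b)
    obtain ⟨G, hG, hG1⟩ := hξ (s.t b)
    refine ⟨hJ, C, hC.symm, ?_, G, ?_, ?_⟩
    · intro i j a
      exact (hcur i j a.1 a.2.1 a.2.2).symm
    · intro a ha ha' i j
      rw [hcur i j a ha.continuous ha']
      exact hG a ha ha' i j
    · intro i j k
      rw [← hG1 i j k]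
      show ξ0 i j k + (b.1 * s.w false i j k + b.2 * s.w true i j k) = ξ0 i j k + ∑ c : Fin g,
        wed3 (s.t b c) (lat (s.e (c, false))) (lat (s.e (c, true))) i j k
      rw [sum_wed3]
  have hc : Continuous p := by
    refine continuous_const.prodMk (((carT_cont s.e s.symp).comp (t_cont s)).prodMk
      (Continuous.prodMk ?_ ?_))
    · apply continuous_pi; intro i
      apply continuous_pi; intro j
      apply continuous_pi; intro a
      apply continuous_finsetSum
      intro c _
      exact fT_cont _ _ (fun b => s.t b c) ((continuous_apply c).comp (t_cont s)) i j a.1 a.2.1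
    · fun_prop
  refine ⟨⟨fun b => ⟨p b, hp b⟩, hc.subtype_mk _⟩, ⟨fun b => rfl, fun b i j a => rfl⟩,
    fun b => rfl, ?_⟩
  intro b i j k
  show ξ0 i j k + (b.1 * s.w false i j k + b.2 * s.w true i j k) =
    ξ0 i j k + ((0 : ℝ × ℝ).1 * s.w false i j k + (0 : ℝ × ℝ).2 * s.w true i j k) +
      b.1 * s.w false i j k + b.2 * s.w true i j k
  simp only [Prod.fst_zero, Prod.snd_zero]
  ring

private theorem lat_neg (n : Ix g → ℤ) : lat (-n) = -lat n := by
  funext i
  simp [lat]

private theorem lat_add (m n : Ix g → ℤ) : lat (m + n) = lat m + lat n := by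
  funext i
  simp [lat]

private theorem fZ_sub (x y t : V g) (n : Ix g → ℤ) : fZ x y (t + lat n) ⊆ fZ x y t := by
  rintro v ⟨s, m, rfl⟩
  refine ⟨s, n + m, ?_⟩
  rw [lat_add]
  abel

private theorem fZ_lat (x y t : V g) (n : Ix g → ℤ) : fZ x y (t + lat n) = fZ x y t := by
  apply Set.Subset.antisymm (fZ_sub _ _ _ _)
  have h := fZ_sub x y (t + lat n) (-n)
  rwa [lat_neg, add_neg_cancel_right] at h

private theorem fT_lat (x y t : V g) (n : Ix g → ℤ) (i j : Ix g) (a : V g → ℝ) (ha : IsPer a) :
    fT x y (t + lat n) i j a = fT x y t i j a := by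
  unfold fT
  congr 1
  congr 1
  funext s
  rw [← add_assoc, ha]

private theorem car_shift (s : Star g) (b b' : ℝ × ℝ) (n : Fin g → Ix g → ℤ)
    (h : ∀ c, s.t b c = s.t b' c + lat (n c)) : s.car b = s.car b' := by
  unfold Star.car
  exact Set.iUnion_congr fun c => by rw [h c, fZ_lat]

private theorem cur_shift (s : Star g) (b b' : ℝ × ℝ) (n : Fin g → Ix g → ℤ)
    (h : ∀ c, s.t b c = s.t b' c + lat (n c)) (i j : Ix g) (a : Per g) :
    s.cur b i j a.1 = s.cur b' i j a.1 := by
  unfold Star.cur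
  exact Finset.sum_congr rfl fun c _ => by rw [h c, fT_lat _ _ _ _ _ _ _ a.2.2]

private theorem pt_shift (s : Star g) (Q : C(ℝ × ℝ, Xt g)) (hQ : IsFam s (fun b => cyc (Q b)))
    (hJ : ∀ b, (Q b).1.1 = (Q 0).1.1)
    (hξ : ∀ b i j k, (Q b).1.2.2.2 i j k =
      (Q 0).1.2.2.2 i j k + b.1 * s.w false i j k + b.2 * s.w true i j k)
    (b b' : ℝ × ℝ) (n : Fin g → Ix g → ℤ) (h : ∀ c, s.t b c = s.t b' c + lat (n c))
    (w : Lam g) (hw : ∀ i j k, (b.1 - b'.1) * s.w false i j k + (b.2 - b'.2) * s.w true i j k =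
      w.1 i j k) : Q b = w +ᵥ Q b' := by
  apply Subtype.ext
  rw [vadd_def]
  have e1 : (Q b).1.1 = (Q b').1.1 := (hJ b).trans (hJ b').symm
  have e2 : (Q b).1.2.1 = (Q b').1.2.1 := by
    apply TopologicalSpace.Closeds.ext
    have h1 := hQ.1 b
    have h2 := hQ.1 b'
    exact h1.trans ((car_shift s b b' n h).trans h2.symm)
  have e3 : (Q b).1.2.2.1 = (Q b').1.2.2.1 := by
    funext i j a
    have h1 := hQ.2 b i j a
    have h2 := hQ.2 b' i j a
    exact h1.trans ((cur_shift s b b' n h i j a).trans h2.symm)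
  have e4 : (Q b).1.2.2.2 = w.1 + (Q b').1.2.2.2 := by
    funext i j k
    rw [Pi.add_apply, Pi.add_apply, Pi.add_apply, hξ b, hξ b', ← hw]
    ring
  exact Prod.ext e1 (Prod.ext e2 (Prod.ext e3 e4))

/-- star families are periodic up to the action of `Lam g` -/
theorem star_sq (s : Star g) : ∃ Q : C(ℝ × ℝ, Xt g), IsFam s (fun b => cyc (Q b)) ∧
    (∀ y, Q (1, y) = (⟨s.w false, star_w_mem s false⟩ : Lam g) +ᵥ Q (0, y)) ∧
    ∀ x, Q (x, 1) = (⟨s.w true, star_w_mem s true⟩ : Lam g) +ᵥ Q (x, 0) := by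
  obtain ⟨Q, hQ, hJ, hξ⟩ := star_family s
  refine ⟨Q, hQ, fun y => ?_, fun x => ?_⟩
  · apply pt_shift s Q hQ hJ hξ (1, y) (0, y) (fun c => s.h false c)
    · intro c
      simp only [Star.t, one_smul, zero_smul, zero_add]
      abel
    · intro i j k
      simp
  · apply pt_shift s Q hQ hJ hξ (x, 1) (x, 0) (fun c => s.h true c)
    · intro c
      simp only [Star.t, one_smul, zero_smul, add_zero]
    · intro i j k
      simp

end Pool.Agent.CT
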