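import Pool.Agent.CT.LocalF
import Pool.Agent.CT.StarFam
import Pool.Agent.CT.Bar.Main

/-!
# CT-EXFORM : the alternating form on `Λ³ H`

PLAN. Apply `CTB.bar_main` with `L = Lam g`, `X = Xt g`, `Y = {y : Zs g // IsCyc y}`,
`π p = ⟨cyc p, isCyc_cyc p⟩` (`cyc_cont`; invariant: `cyc_vadd`).
For every `s : Star g` choose `Q s : C(ℝ × ℝ, Xt g)` by `star_sq`; `S = {sqr (Q s)}`. For a square in `S` choose
an index `s'` with `sqr (Q s') = square`, and let `v, w, c` be `s'.w false`, `s'.w true`, `s'.val κ`.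
(`CTB.Sq X = C(I × I, X) = C(Sq, X)` definitionally.)
`hK`: for compact `K ⊆ Y` let `K' ⊆ Zs g` be its image (compact, all points `IsCyc`), `f'` from `local_f κ hκ K'`.
For `Q : C(Sq, Y)` put `f Q = f' (Q as a map to K')` if all values of `Q` are in `K`, and `0` otherwise.
`CocycleOn K f`: cubes: `Coc.bd` (`bdry`, `CTB.bdVal` are the same expressions, faces `fA, fB, fC` ↔ `faceX,
faceY, faceZ`, `en true = 1`, `en false = 0`); degenerate squares: `Coc.deg` for squares which do not
depend on `t`, and `Coc.swap` + `Coc.deg` for squares which do not depend on `s`. Values: a star square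
`sqr (Q s)` over `K`: the family `b ↦ cyc (Q s b)` takes values in `K'` for all `b : ℝ × ℝ` because it is periodic
(`IsFam`: `s.car` and `s.cur` (on `Per g`) are periodic under `b ↦ b + e_l`, so `cyc (Q s b)` depends only on the
fractional parts of `b`), so it gives `Q' : C(ℝ × ℝ, K')` and `f' (sqr Q') = s.val κ`.
Finally: for `s : Star g` the square `sqr (Q s)` is in `S` with chosen index `s'`; the form has the value
`s'.val κ` on `(s'.w false, s'.w true)`. `s'.w = s.w` since `sqr (Q s) = sqr (Q s')` and the action is free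
(compare the `ξ` components of `Q (1, 0) = w + Q (0, 0)`); `s'.val κ = s.val κ`: apply `local_f` to the compact
image of the square (both values are `f (same square)`).
-/

set_option autoImplicit false

noncomputable section

namespace Pool.Agent.CT

variable {g : ℕ}

private theorem xf_fZ_lat (x y t : V g) (n : Ix g → ℤ) : fZ x y (t + lat n) = fZ x y t := by
  ext v
  constructor
  · rintro ⟨s, m, rfl⟩
    refine ⟨s, n + m, ?_⟩
    funext i
    simp only [lat, Pi.add_apply, Pi.smul_apply, smul_eq_mul]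
    push_cast
    ring
  · rintro ⟨s, m, rfl⟩
    refine ⟨s, m - n, ?_⟩
    funext i
    simp only [lat, Pi.add_apply, Pi.sub_apply, Pi.smul_apply, smul_eq_mul]
    push_cast
    ring

private theorem xf_fT_lat (x y t : V g) (n : Ix g → ℤ) (i j : Ix g) (a : V g → ℝ) (ha : IsPer a) :
    fT x y (t + lat n) i j a = fT x y t i j a := by
  unfold fT
  congr 1
  refine MeasureTheory.integral_congr_ae (Filter.Eventually.of_forall fun s => ?_)
  show a (s.1 • x + s.2 • y + (t + lat n)) = a (s.1 • x + s.2 • y + t)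
  rw [← add_assoc, ha]

private theorem xf_t (s : Star g) (b : ℝ × ℝ) (n m : ℤ) (c : Fin g) :
    s.t (b.1 + n, b.2 + m) c = s.t b c + lat (n • s.h false c + m • s.h true c) := by
  funext i
  simp only [Star.t, lat, Pi.add_apply, Pi.smul_apply, smul_eq_mul, zsmul_eq_mul]
  push_cast
  simp only [Pi.mul_apply, Pi.intCast_apply, Int.cast_mul]
  push_cast
  ring

/-- star families are periodic -/
private theorem xf_per (s : Star g) (Q : ℝ × ℝ → Zs g) (hQ : IsFam s Q) (b : ℝ × ℝ) (n m : ℤ) :
    Q (b.1 + n, b.2 + m) = Q b := by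
  refine Prod.ext ?_ ?_
  · apply TopologicalSpace.Closeds.ext
    rw [hQ.1, hQ.1]
    unfold Star.car
    refine Set.iUnion_congr fun c => ?_
    rw [xf_t, xf_fZ_lat]
  · funext i j a
    rw [hQ.2, hQ.2]
    unfold Star.cur
    refine Finset.sum_congr rfl fun c _ => ?_
    rw [xf_t, xf_fT_lat _ _ _ _ _ _ _ a.2.2]

/-- if the square of a star family is over `K` then the whole family is over `K` -/
private theorem xf_fam (s : Star g) (Q : C(ℝ × ℝ, Xt g)) (hQ : IsFam s (fun b => cyc (Q b)))
    (K : Set (Zs g)) (hK : ∀ p : Sq, cyc (sqr Q p) ∈ K) :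
    ∃ Q' : C(ℝ × ℝ, K), ∀ b, (Q' b : Zs g) = cyc (Q b) := by
  have h : ∀ b, cyc (Q b) ∈ K := by
    intro b
    have h1 := xf_per s (fun b => cyc (Q b)) hQ (Int.fract b.1, Int.fract b.2) ⌊b.1⌋ ⌊b.2⌋
    simp only [Int.fract_add_floor] at h1
    rw [h1]
    exact hK (⟨Int.fract b.1, Int.fract_nonneg _, (Int.fract_lt_one _).le⟩,
      ⟨Int.fract b.2, Int.fract_nonneg _, (Int.fract_lt_one _).le⟩)
  exact ⟨⟨fun b => ⟨cyc (Q b), h b⟩, (cyc_cont.comp Q.continuous).subtype_mk _⟩, fun b => rfl⟩

/-- the space of cycles -/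
private abbrev XY (g : ℕ) : Type := {y : Zs g // IsCyc y}

/-- maps over `K` as maps to the image of `K` -/
private def xl {T : Type*} [TopologicalSpace T] (K : Set (XY g)) (R : C(T, XY g))
    (h : ∀ p, R p ∈ K) : C(T, (Subtype.val '' K : Set (Zs g))) :=
  ⟨fun p => ⟨(R p).1, ⟨R p, h p, rfl⟩⟩, (continuous_subtype_val.comp R.continuous).subtype_mk _⟩

open Classical in
/-- the cochain -/
private def xf (K : Set (XY g)) (f' : C(Sq, (Subtype.val '' K : Set (Zs g))) → ℝ)
    (R : C(Sq, XY g)) : ℝ := if h : ∀ p, R p ∈ K then f' (xl K R h) else 0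

private theorem xf_pos (K : Set (XY g)) (f' : C(Sq, (Subtype.val '' K : Set (Zs g))) → ℝ)
    (R : C(Sq, XY g)) (h : ∀ p, R p ∈ K) : xf K f' R = f' (xl K R h) := by
  unfold xf
  rw [dif_pos h]

private theorem xf_coc (K : Set (XY g)) (f' : C(Sq, (Subtype.val '' K : Set (Zs g))) → ℝ)
    (hf : Coc f') : CTB.CocycleOn K (xf K f') := by
  refine ⟨fun R hR hd => ?_, fun C hC => ?_⟩
  · rw [xf_pos K f' R hR]
    rcases hd with hd | hd
    · have h1 : xl K R hR = dg ⟨fun s => xl K R hR (s, 0), by fun_prop⟩ := by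
        ext1 p
        apply Subtype.ext
        have h0 : R p = R (p.1, 0) := hd p.1 p.2 0
        show (R p).1 = (R (p.1, 0)).1
        rw [h0]
      rw [h1]
      exact hf.deg _
    · have h1 : (xl K R hR).comp sw = dg ⟨fun s => xl K R hR (0, s), by fun_prop⟩ := by
        ext1 p
        apply Subtype.ext
        have h0 : R (p.2, p.1) = R (0, p.1) := hd p.2 0 p.1
        show (R (p.2, p.1)).1 = (R (0, p.1)).1
        rw [h0]
      have h2 := hf.swap (xl K R hR)
      rw [h1, hf.deg] at h2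
      linarith
  · have h1 := hf.bd (xl K C hC)
    unfold bdry at h1
    unfold CTB.bdVal
    rw [xf_pos K f' (CTB.faceX 1 C) fun p => hC _, xf_pos K f' (CTB.faceX 0 C) fun p => hC _,
      xf_pos K f' (CTB.faceY 1 C) fun p => hC _, xf_pos K f' (CTB.faceY 0 C) fun p => hC _,
      xf_pos K f' (CTB.faceZ 1 C) fun p => hC _, xf_pos K f' (CTB.faceZ 0 C) fun p => hC _]
    exact h1

theorem exists_form (hX : CTB.NConn 2 (Xt g)) (κ : Fin 4 → Ix g) (hκ : Function.Injective κ) :
    ∃ J : Lam g →+ Lam g →+ ℝ, (∀ u, J u u = 0) ∧ ∀ s : Star g,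
      J ⟨s.w false, star_w_mem s false⟩ ⟨s.w true, star_w_mem s true⟩ = s.val κ := by
  classical
  choose Q hQf hQ1 hQ2 using fun s : Star g => star_sq s
  set π : C(Xt g, XY g) := ⟨fun p => ⟨cyc p, isCyc_cyc p⟩, cyc_cont.subtype_mk _⟩ with hπ
  -- values on star families
  have hval : ∀ (K : Set (Zs g)) (f : C(Sq, K) → ℝ),
      (∀ (s : Star g) (Q : C(ℝ × ℝ, K)), IsFam s (fun b => (Q b : Zs g)) → f (sqr Q) = s.val κ) →
      ∀ (s : Star g) (R : C(Sq, K)), (∀ p, (R p : Zs g) = cyc (sqr (Q s) p)) → f R = s.val κ := by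
    intro K f hf s R hR
    obtain ⟨Q', hQ'⟩ := xf_fam s (Q s) (hQf s) K fun p => by rw [← hR p]; exact (R p).2
    have h1 : R = sqr Q' := by
      ext1 p
      apply Subtype.ext
      rw [hR p]
      exact (hQ' _).symm
    rw [h1]
    apply hf
    have h2 : (fun b => (Q' b : Zs g)) = fun b => cyc (Q s b) := funext hQ'
    rw [h2]
    exact hQf s
  have hvaleq : ∀ s s' : Star g, sqr (Q s) = sqr (Q s') → s.val κ = s'.val κ := by
    intro s s' h
    have hc : Continuous fun p : Sq => cyc (sqr (Q s) p) := cyc_cont.comp (sqr (Q s)).continuous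
    obtain ⟨f, -, hf⟩ := local_f κ hκ (Set.range fun p : Sq => cyc (sqr (Q s) p))
      (isCompact_range hc) (by rintro y ⟨p, rfl⟩; exact isCyc_cyc _)
    set R : C(Sq, (Set.range fun p : Sq => cyc (sqr (Q s) p) : Set (Zs g))) :=
      ⟨fun p => ⟨cyc (sqr (Q s) p), ⟨p, rfl⟩⟩, hc.subtype_mk _⟩ with hR
    rw [← hval _ f hf s R fun p => rfl, hval _ f hf s' R fun p => by rw [← h]; rfl]
  have hweq : ∀ s s' : Star g, sqr (Q s) = sqr (Q s') → ∀ k, s.w k = s'.w k := by
    intro s s' h k
    have h00 : Q s (0, 0) = Q s' (0, 0) := by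
      have := congrArg (fun R : C(Sq, Xt g) => R (0, 0)) h
      simpa [sqr] using this
    cases k with
    | false =>
      have h10 : Q s (1, 0) = Q s' (1, 0) := by
        have := congrArg (fun R : C(Sq, Xt g) => R (1, 0)) h
        simpa [sqr] using this
      rw [hQ1, hQ1, h00] at h10
      have h2 := congrArg (fun p : Xt g => p.1.2.2.2) h10
      simp only [vadd_def] at h2
      exact add_right_cancel h2
    | true =>
      have h10 : Q s (0, 1) = Q s' (0, 1) := by
        have := congrArg (fun R : C(Sq, Xt g) => R (0, 1)) h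
        simpa [sqr] using this
      rw [hQ2, hQ2, h00] at h10
      have h2 := congrArg (fun p : Xt g => p.1.2.2.2) h10
      simp only [vadd_def] at h2
      exact add_right_cancel h2
  have hmain := CTB.bar_main (L := Lam g) hX π (fun w x => Subtype.ext (cyc_vadd w x))
    (Set.range fun s => sqr (Q s))
    (fun R => if h : ∃ s, sqr (Q s) = R then ⟨h.choose.w false, star_w_mem _ false⟩ else 0)
    (fun R => if h : ∃ s, sqr (Q s) = R then ⟨h.choose.w true, star_w_mem _ true⟩ else 0)
    (by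
      rintro R ⟨s, hs⟩
      have h : ∃ s, sqr (Q s) = R := ⟨s, hs⟩
      simp only [dif_pos h]
      have h1 := h.choose_spec
      constructor
      · intro t
        rw [← congrArg (fun R : C(Sq, Xt g) => R (1, t)) h1,
          ← congrArg (fun R : C(Sq, Xt g) => R (0, t)) h1]
        have h2 := hQ1 h.choose (t : ℝ)
        simpa [sqr] using h2
      · intro t
        rw [← congrArg (fun R : C(Sq, Xt g) => R (t, 1)) h1,
          ← congrArg (fun R : C(Sq, Xt g) => R (t, 0)) h1]
        have h2 := hQ2 h.choose (t : ℝ)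
        simpa [sqr] using h2)
    (fun R => if h : ∃ s, sqr (Q s) = R then h.choose.val κ else 0)
    (by
      intro K hK
      obtain ⟨f', hf', hfv⟩ := local_f κ hκ (Subtype.val '' K) (hK.image continuous_subtype_val)
        (by rintro y ⟨z, _, rfl⟩; exact z.2)
      refine ⟨xf K f', xf_coc K f' hf', ?_⟩
      rintro R ⟨s, hs⟩ hRK
      have h : ∃ s, sqr (Q s) = R := ⟨s, hs⟩
      rw [dif_pos h, xf_pos K f' (π.comp R) hRK]
      refine hval _ f' hfv h.choose _ fun p => ?_
      show (π (R p)).1 = _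
      rw [h.choose_spec]
      rfl)
  obtain ⟨J, hJ, hJ'⟩ := hmain
  refine ⟨J, hJ, fun s => ?_⟩
  have h : ∃ s', sqr (Q s') = sqr (Q s) := ⟨s, rfl⟩
  have h1 := hJ' (sqr (Q s)) ⟨s, rfl⟩
  simp only [dif_pos h] at h1
  have h2 := hvaleq _ _ h.choose_spec
  have h3 : (⟨h.choose.w false, star_w_mem _ false⟩ : Lam g) = ⟨s.w false, star_w_mem s false⟩ :=
    Subtype.ext (hweq _ _ h.choose_spec false)
  have h4 : (⟨h.choose.w true, star_w_mem _ true⟩ : Lam g) = ⟨s.w true, star_w_mem s true⟩ :=
    Subtype.ext (hweq _ _ h.choose_spec true)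
  rw [h2, h3, h4] at h1
  exact h1

end Pool.Agent.CT
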