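import Pool.Agent.CT.SDefs

/-!
# CT-FT : the currents of flat tori

PLAN. `fT_cur`: `add`, `smul`, `anti`, `van` are immediate (`continuity ⇒ integrable on the compact
square`; the points `s.1 • x + s.2 • y + t` are in `fZ x y t`). `closed`:
`Σ_i wed2 x y i j * ∫ pd a i (...) = y_j ∫∫ ∂_x a - x_j ∫∫ ∂_y a`, `∂_x a = fderiv a · (lat x)`, and
`∫_0^1 ∂_x a (s x + s' y + t) ds = a (x + s' y + t) - a (s' y + t) = 0` (periodicity), same for `y`;
`Set.Icc (0 : ℝ × ℝ) 1 = Icc 0 1 ×ˢ Icc 0 1`, `setIntegral_prod`.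
`PP_fT`: `Σ_{b,c} (1/2) dt p q (ev b) (ev c) * wed2 x y (κ b) (κ c) = dt p q (pr κ x) (pr κ y)`
(multilinearity of the determinant; `Matrix.det_succ_row_zero`, `Fin.sum_univ_four`, `ring`, or
expansion of `dt` by linearity).
`PP_fT_deriv`: differentiation under the integral over the compact square of the smooth function
`f (pr κ (s.1 • x + s.2 • y + t))` in `t`. `PP_fT_smooth`: smooth dependence on `t`.
-/

set_option autoImplicit false

noncomputable section

open scoped ContDiff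

namespace Pool.Agent.CT

variable {g : ℕ}

open MeasureTheory

private theorem lat_add' (m n : Ix g → ℤ) : (lat m : V g) + lat n = lat (m + n) := by
  funext i
  simp [lat]

private theorem cont_intOn {X : Type*} [TopologicalSpace X] [MeasurableSpace X] [OpensMeasurableSpace X]
    [SecondCountableTopology X] {μ : Measure X} [IsFiniteMeasureOnCompacts μ]
    {K : Set X} (hK : IsCompact K) (hKm : MeasurableSet K) {f : X → ℝ} (hf : Continuous f) :
    IntegrableOn f K μ := by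
  obtain ⟨C, hC⟩ := hK.exists_bound_of_continuousOn hf.continuousOn
  have : IsFiniteMeasure (μ.restrict K) := ⟨by
    rw [Measure.restrict_apply_univ]
    exact hK.measure_lt_top⟩
  exact Integrable.of_bound hf.aestronglyMeasurable C
    ((ae_restrict_iff' hKm).2 (Filter.Eventually.of_forall fun x hx => hC x hx))

private theorem sq_int {F : ℝ × ℝ → ℝ} (hF : Continuous F) :
    IntegrableOn F (Set.Icc (0 : ℝ × ℝ) 1) :=
  cont_intOn isCompact_Icc measurableSet_Icc hF

private theorem pt_cont (x y t : V g) : Continuous fun s : ℝ × ℝ => s.1 • x + s.2 • y + t := by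
  fun_prop

theorem fZ_per (x y t : V g) : ∀ v ∈ fZ x y t, ∀ n : Ix g → ℤ, v + lat n ∈ fZ x y t := by
  rintro v ⟨s, m, rfl⟩ n
  exact ⟨s, m + n, by rw [← lat_add', add_assoc]⟩

private theorem int_sq {F : ℝ × ℝ → ℝ} (hF : Continuous F) :
    ∫ s in Set.Icc (0 : ℝ × ℝ) 1, F s = ∫ x in (0 : ℝ)..1, ∫ y in (0 : ℝ)..1, F (x, y) := by
  have h0 : Set.Icc (0 : ℝ × ℝ) 1 = Set.Icc (0 : ℝ) 1 ×ˢ Set.Icc (0 : ℝ) 1 := by
    rw [Set.Icc_prod_eq]
    rfl
  rw [h0, intervalIntegral.integral_of_le zero_le_one, ← integral_Icc_eq_integral_Ioc]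
  have h1 := setIntegral_prod (μ := volume) (ν := volume) F (s := Set.Icc (0 : ℝ) 1)
    (t := Set.Icc (0 : ℝ) 1)
    (cont_intOn (isCompact_Icc.prod isCompact_Icc) (measurableSet_Icc.prod measurableSet_Icc) hF)
  have h2 : (volume : Measure (ℝ × ℝ)) = (volume : Measure ℝ).prod volume := rfl
  rw [h2, h1]
  refine integral_congr_ae (Filter.Eventually.of_forall fun x => ?_)
  show ∫ y in Set.Icc (0 : ℝ) 1, F (x, y) = ∫ y in (0 : ℝ)..1, F (x, y)
  rw [intervalIntegral.integral_of_le zero_le_one, ← integral_Icc_eq_integral_Ioc]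

private theorem int_sq' {F : ℝ × ℝ → ℝ} (hF : Continuous F) :
    ∫ s in Set.Icc (0 : ℝ × ℝ) 1, F s = ∫ y in (0 : ℝ)..1, ∫ x in (0 : ℝ)..1, F (x, y) := by
  rw [int_sq hF]
  simp only [intervalIntegral.integral_of_le (zero_le_one (α := ℝ))]
  refine integral_integral_swap (f := fun x y => F (x, y)) ?_
  rw [Measure.prod_restrict]
  refine IntegrableOn.mono_set (t := Set.Icc (0 : ℝ) 1 ×ˢ Set.Icc (0 : ℝ) 1) ?_
    (Set.prod_mono Set.Ioc_subset_Icc_self Set.Ioc_subset_Icc_self)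
  exact cont_intOn (isCompact_Icc.prod isCompact_Icc) (measurableSet_Icc.prod measurableSet_Icc) hF

/-- the fundamental theorem of calculus for periodic functions -/
private theorem ftc_per {a : V g → ℝ} (ha : ContDiff ℝ ∞ a) (hp : IsPer a) (x : Ix g → ℤ)
    (w : V g) : ∫ s in (0 : ℝ)..1, fderiv ℝ a (s • lat x + w) (lat x) = 0 := by
  have h1 : ∀ s : ℝ, HasDerivAt (fun s : ℝ => a (s • lat x + w))
      (fderiv ℝ a (s • lat x + w) (lat x)) s := by
    intro s
    have h2 : HasDerivAt (fun s : ℝ => s • (lat x : V g) + w) ((1 : ℝ) • lat x) s :=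
      ((hasDerivAt_id s).smul_const _).add_const _
    rw [one_smul] at h2
    have h3 : HasFDerivAt a (fderiv ℝ a (s • lat x + w)) (s • lat x + w) :=
      (ha.differentiable (by simp) _).hasFDerivAt
    exact h3.comp_hasDerivAt s h2
  rw [intervalIntegral.integral_eq_sub_of_hasDerivAt (fun s _ => h1 s)]
  · rw [one_smul, zero_smul, zero_add, add_comm (lat x) w, hp, sub_self]
  · apply Continuous.intervalIntegrable
    exact (((ha.continuous_fderiv (by simp)).comp (by fun_prop)).clm_apply continuous_const)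

theorem fT_cur (x y : Ix g → ℤ) (t : V g) :
    Cur (fZ (lat x) (lat y) t) (fT (lat x) (lat y) t) := by
  have hpt := pt_cont (lat x) (lat y) t
  refine ⟨?_, ?_, ?_, ?_, ?_⟩
  · intro i j a b ha _ hb _
    unfold fT
    rw [← mul_add]
    congr 1
    exact integral_add (sq_int (ha.comp hpt)) (sq_int (hb.comp hpt))
  · intro i j r a _ _
    unfold fT
    rw [integral_const_mul]
    ring
  · intro i j a _ _
    unfold fT wed2
    ring
  · intro i j a _ _ h0
    unfold fT
    have h1 : ∫ s in Set.Icc (0 : ℝ × ℝ) 1, a (s.1 • lat x + s.2 • lat y + t) = 0 := by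
      refine integral_eq_zero_of_ae (Filter.Eventually.of_forall fun s => ?_)
      refine h0 _ ⟨s, 0, ?_⟩
      have h2 : (lat (0 : Ix g → ℤ) : V g) = 0 := by
        funext i
        simp [lat]
      rw [h2, add_zero]
    rw [h1, mul_zero]
  · intro j a ha hp
    have hfd : Continuous (fderiv ℝ a) := ha.continuous_fderiv (by simp)
    have hpd : ∀ i, Continuous fun s : ℝ × ℝ => pd a i (s.1 • lat x + s.2 • lat y + t) := fun i =>
      (hfd.comp hpt).clm_apply continuous_const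
    have hsum : ∀ v w : V g, ∑ i, w i * pd a i v = fderiv ℝ a v w := by
      intro v w
      have hw : w = ∑ i, w i • (Pi.single i 1 : V g) := by
        funext k
        rw [Finset.sum_apply, Finset.sum_eq_single k]
        · simp
        · intro b _ hb
          simp [hb.symm]
        · intro h
          exact absurd (Finset.mem_univ _) h
      conv_rhs => rw [hw]
      rw [map_sum]
      refine Finset.sum_congr rfl fun i _ => ?_
      rw [map_smul, smul_eq_mul]
      rfl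
    have hI : ∀ w : V g, ∑ i, w i * ∫ s in Set.Icc (0 : ℝ × ℝ) 1,
        pd a i (s.1 • lat x + s.2 • lat y + t) =
        ∫ s in Set.Icc (0 : ℝ × ℝ) 1, fderiv ℝ a (s.1 • lat x + s.2 • lat y + t) w := by
      intro w
      have h1 : ∀ s : ℝ × ℝ, fderiv ℝ a (s.1 • lat x + s.2 • lat y + t) w =
          ∑ i, w i * pd a i (s.1 • lat x + s.2 • lat y + t) := fun s => (hsum _ w).symm
      rw [integral_congr_ae (Filter.Eventually.of_forall h1), integral_finsetSum]
      · exact Finset.sum_congr rfl fun i _ => (integral_const_mul _ _).symm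
      · exact fun i _ => (sq_int (hpd i)).const_mul _
    have hX : ∫ s in Set.Icc (0 : ℝ × ℝ) 1, fderiv ℝ a (s.1 • lat x + s.2 • lat y + t) (lat x) = 0 := by
      rw [int_sq' (F := fun s => fderiv ℝ a (s.1 • lat x + s.2 • lat y + t) (lat x))
        ((hfd.comp hpt).clm_apply continuous_const)]
      have h1 : ∀ s' : ℝ, ∫ s in (0 : ℝ)..1, fderiv ℝ a (s • lat x + s' • lat y + t) (lat x) = 0 := by
        intro s'
        refine Eq.trans ?_ (ftc_per ha hp x (s' • lat y + t))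
        simp only [add_assoc]
      rw [intervalIntegral.integral_congr (g := fun _ => (0 : ℝ)) fun s' _ => h1 s']
      simp
    have hY : ∫ s in Set.Icc (0 : ℝ × ℝ) 1, fderiv ℝ a (s.1 • lat x + s.2 • lat y + t) (lat y) = 0 := by
      rw [int_sq (F := fun s => fderiv ℝ a (s.1 • lat x + s.2 • lat y + t) (lat y))
        ((hfd.comp hpt).clm_apply continuous_const)]
      have h1 : ∀ s : ℝ, ∫ s' in (0 : ℝ)..1, fderiv ℝ a (s • lat x + s' • lat y + t) (lat y) = 0 := by
        intro s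
        refine Eq.trans ?_ (ftc_per ha hp y (s • lat x + t))
        refine intervalIntegral.integral_congr fun s' _ => ?_
        show fderiv ℝ a (s • lat x + s' • lat y + t) (lat y) =
          fderiv ℝ a (s' • lat y + (s • lat x + t)) (lat y)
        congr 2
        abel
      rw [intervalIntegral.integral_congr (g := fun _ => (0 : ℝ)) fun s' _ => h1 s']
      simp
    have h2 : ∑ i, fT (lat x) (lat y) t i j (pd a i) =
        lat y j * (∑ i, lat x i * ∫ s in Set.Icc (0 : ℝ × ℝ) 1,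
          pd a i (s.1 • lat x + s.2 • lat y + t)) -
        lat x j * (∑ i, lat y i * ∫ s in Set.Icc (0 : ℝ × ℝ) 1,
          pd a i (s.1 • lat x + s.2 • lat y + t)) := by
      rw [Finset.mul_sum, Finset.mul_sum, ← Finset.sum_sub_distrib]
      refine Finset.sum_congr rfl fun i _ => ?_
      unfold fT wed2
      ring
    rw [h2, hI, hI, hX, hY]
    ring

theorem fT_per (x y t : V g) (n : Ix g → ℤ) (i j : Ix g) (a : V g → ℝ) (ha : IsPer a) :
    fT x y (t + lat n) i j a = fT x y t i j a := by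
  unfold fT
  congr 1
  refine integral_congr_ae (Filter.Eventually.of_forall fun s => ?_)
  show a (s.1 • x + s.2 • y + (t + lat n)) = a (s.1 • x + s.2 • y + t)
  rw [← add_assoc, ha]

private theorem dt_eq (p q u v : R4) : dt p q u v =
    (p 0 * q 1 - p 1 * q 0) * (u 2 * v 3 - u 3 * v 2) -
    (p 0 * q 2 - p 2 * q 0) * (u 1 * v 3 - u 3 * v 1) +
    (p 0 * q 3 - p 3 * q 0) * (u 1 * v 2 - u 2 * v 1) +
    (p 1 * q 2 - p 2 * q 1) * (u 0 * v 3 - u 3 * v 0) -
    (p 1 * q 3 - p 3 * q 1) * (u 0 * v 2 - u 2 * v 0) +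
    (p 2 * q 3 - p 3 * q 2) * (u 0 * v 1 - u 1 * v 0) := by
  unfold dt
  simp [Matrix.det_succ_row_zero, Fin.sum_univ_succ, Fin.succAbove, Matrix.of_apply]
  ring

private theorem dt_sum (p q u v : R4) :
    (1 / 2) * ∑ b : Fin 4, ∑ c : Fin 4, dt p q (ev b) (ev c) * (u b * v c - u c * v b) =
      dt p q u v := by
  simp only [dt_eq, Fin.sum_univ_four]
  simp [ev]
  ring

theorem PP_fT (κ : Fin 4 → Ix g) (x y t : V g) (p q : R4) (f : R4 → ℝ) :
    PP κ (fT x y t) p q f = dt p q (pr κ x) (pr κ y) *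
      ∫ s in Set.Icc (0 : ℝ × ℝ) 1, f (pr κ (s.1 • x + s.2 • y + t)) := by
  rw [← dt_sum]
  unfold PP
  rw [mul_assoc, Finset.sum_mul]
  congr 1
  refine Finset.sum_congr rfl fun b _ => ?_
  rw [Finset.sum_mul]
  refine Finset.sum_congr rfl fun c _ => ?_
  unfold fT
  rw [mul_assoc]
  rfl

/-! ### smooth dependence on the translation -/

section mean

variable {α : Type} [TopologicalSpace α] [SecondCountableTopology α] [MeasurableSpace α]
  [OpensMeasurableSpace α]

private def MM {F : Type} [NormedAddCommGroup F] [NormedSpace ℝ F] (μ : Measure α) (φ : α → R4)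
    (f : R4 → F) (x : R4) : F := ∫ s, f (x - φ s) ∂μ

private theorem MM_meas {F : Type} [NormedAddCommGroup F] [NormedSpace ℝ F] (μ : Measure α)
    {φ : α → R4} (hφ : Continuous φ) {f : R4 → F} (hf : Continuous f) (x : R4) :
    AEStronglyMeasurable (fun s => f (x - φ s)) μ :=
  (hf.comp (continuous_const.sub hφ)).aestronglyMeasurable

private theorem MM_bound {F : Type} [NormedAddCommGroup F] (μ : Measure α)
    {φ : α → R4} {R : ℝ} (hR : ∀ᵐ s ∂μ, ‖φ s‖ ≤ R) {f : R4 → F}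
    (hf : Continuous f) (x₀ : R4) :
    ∃ C : ℝ, ∀ᵐ s ∂μ, ∀ x ∈ Metric.ball x₀ 1, ‖f (x - φ s)‖ ≤ C := by
  obtain ⟨C, hC⟩ := (isCompact_closedBall (0 : R4) (‖x₀‖ + 1 + R)).exists_bound_of_continuousOn
    hf.continuousOn
  refine ⟨C, hR.mono fun s hs x hx => hC _ ?_⟩
  rw [mem_closedBall_zero_iff]
  have h1 : ‖x‖ ≤ ‖x₀‖ + 1 := by
    have h2 : ‖x - x₀‖ < 1 := mem_ball_iff_norm.1 hx
    have h3 : ‖x‖ ≤ ‖x₀‖ + ‖x - x₀‖ := by
      calc ‖x‖ = ‖x₀ + (x - x₀)‖ := by congr 1; abel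
        _ ≤ _ := norm_add_le _ _
    linarith
  exact (norm_sub_le _ _).trans (by linarith)

private theorem MM_int {F : Type} [NormedAddCommGroup F] [NormedSpace ℝ F] (μ : Measure α)
    [IsFiniteMeasure μ] {φ : α → R4} (hφ : Continuous φ) {R : ℝ} (hR : ∀ᵐ s ∂μ, ‖φ s‖ ≤ R)
    {f : R4 → F} (hf : Continuous f) (x : R4) : Integrable (fun s => f (x - φ s)) μ := by
  obtain ⟨C, hC⟩ := MM_bound μ hR hf x
  exact Integrable.of_bound (MM_meas μ hφ hf x) C
    (hC.mono fun s hs => hs x (Metric.mem_ball_self one_pos))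

private theorem MM_cont {F : Type} [NormedAddCommGroup F] [NormedSpace ℝ F] (μ : Measure α)
    [IsFiniteMeasure μ] {φ : α → R4} (hφ : Continuous φ) {R : ℝ} (hR : ∀ᵐ s ∂μ, ‖φ s‖ ≤ R)
    {f : R4 → F} (hf : Continuous f) : Continuous (MM μ φ f) := by
  rw [continuous_iff_continuousAt]
  intro x₀
  obtain ⟨C, hC⟩ := MM_bound μ hR hf x₀
  unfold MM
  refine continuousAt_of_dominated (bound := fun _ => C)
    (Filter.Eventually.of_forall fun x => MM_meas μ hφ hf x) ?_ (integrable_const C)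
    (Filter.Eventually.of_forall fun s => ?_)
  · filter_upwards [Metric.ball_mem_nhds x₀ one_pos] with x hx
    exact hC.mono fun s hs => hs x hx
  · exact (hf.comp (continuous_id.sub continuous_const)).continuousAt

private theorem MM_fderiv {F : Type} [NormedAddCommGroup F] [NormedSpace ℝ F] (μ : Measure α)
    [IsFiniteMeasure μ] {φ : α → R4} (hφ : Continuous φ) {R : ℝ} (hR : ∀ᵐ s ∂μ, ‖φ s‖ ≤ R)
    {f : R4 → F} (hf : ContDiff ℝ 1 f) (x₀ : R4) :
    HasFDerivAt (MM μ φ f) (MM μ φ (fderiv ℝ f) x₀) x₀ := by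
  have hf' : Continuous (fderiv ℝ f) := hf.continuous_fderiv one_ne_zero
  obtain ⟨C, hC⟩ := MM_bound μ hR hf' x₀
  unfold MM
  refine hasFDerivAt_integral_of_dominated_of_fderiv_le (s := Metric.ball x₀ 1)
    (bound := fun _ => C) (F' := fun x s => fderiv ℝ f (x - φ s))
    (Metric.ball_mem_nhds x₀ one_pos)
    (Filter.Eventually.of_forall fun x => MM_meas μ hφ hf.continuous x)
    (MM_int μ hφ hR hf.continuous x₀) (MM_meas μ hφ hf' x₀) hC (integrable_const C) ?_
  refine Filter.Eventually.of_forall fun s x _ => ?_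
  have h1 : HasFDerivAt f (fderiv ℝ f (x - φ s)) (x - φ s) :=
    (hf.differentiable one_ne_zero _).hasFDerivAt
  have h2 : HasFDerivAt (fun y : R4 => y - φ s) (ContinuousLinearMap.id ℝ R4) x :=
    (hasFDerivAt_id x).sub_const (φ s)
  exact h1.comp x h2

private theorem MM_contDiff (μ : Measure α)
    [IsFiniteMeasure μ] {φ : α → R4} (hφ : Continuous φ) {R : ℝ} (hR : ∀ᵐ s ∂μ, ‖φ s‖ ≤ R)
    (n : ℕ) : ∀ {F : Type} [NormedAddCommGroup F] [NormedSpace ℝ F] (f : R4 → F),
      ContDiff ℝ n f → ContDiff ℝ n (MM μ φ f) := by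
  induction n with
  | zero =>
    intro F _ _ f hf
    have h0 : ((0 : ℕ) : WithTop ℕ∞) = 0 := rfl
    rw [h0, contDiff_zero] at hf ⊢
    exact MM_cont μ hφ hR hf
  | succ n ih =>
    intro F _ _ f hf
    have hn : ((n + 1 : ℕ) : WithTop ℕ∞) = (n : WithTop ℕ∞) + 1 := by push_cast; rfl
    have hf1 : ContDiff ℝ 1 f := hf.of_le (by
      rw [hn]
      exact le_add_self)
    rw [hn, contDiff_succ_iff_fderiv] at hf ⊢
    have hd := MM_fderiv μ hφ hR hf1
    refine ⟨fun x => (hd x).differentiableAt, fun h => absurd h (by simp), ?_⟩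
    have hfd : fderiv ℝ (MM μ φ f) = MM μ φ (fderiv ℝ f) := funext fun x => (hd x).fderiv
    rw [hfd]
    exact ih _ hf.2.2

private theorem MM_smooth (μ : Measure α)
    [IsFiniteMeasure μ] {φ : α → R4} (hφ : Continuous φ) {R : ℝ} (hR : ∀ᵐ s ∂μ, ‖φ s‖ ≤ R)
    {f : R4 → ℝ} (hf : ContDiff ℝ ∞ f) : ContDiff ℝ ∞ (MM μ φ f) := by
  rw [contDiff_infty] at hf ⊢
  exact fun n => MM_contDiff μ hφ hR n f (hf n)

private theorem dr_MM (μ : Measure α)
    [IsFiniteMeasure μ] {φ : α → R4} (hφ : Continuous φ) {R : ℝ} (hR : ∀ᵐ s ∂μ, ‖φ s‖ ≤ R)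
    {f : R4 → ℝ} (hf : ContDiff ℝ ∞ f) (h : R4) : dr (MM μ φ f) h = MM μ φ (dr f h) := by
  have hf1 : ContDiff ℝ 1 f := hf.of_le (by exact_mod_cast le_top)
  funext x
  show fderiv ℝ (MM μ φ f) x h = ∫ s, fderiv ℝ f (x - φ s) h ∂μ
  rw [(MM_fderiv μ hφ hR hf1 x).fderiv]
  exact ContinuousLinearMap.integral_apply
    (MM_int μ hφ hR (hf1.continuous_fderiv one_ne_zero) x) h

end mean

private abbrev mI : Measure (ℝ × ℝ) := (volume : Measure (ℝ × ℝ)).restrict (Set.Icc (0 : ℝ × ℝ) 1)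

private theorem fi_cont (p q : R4) : Continuous (fun s : ℝ × ℝ => -(s.1 • p + s.2 • q)) := by
  fun_prop

private theorem fi_bd (p q : R4) : ∀ᵐ s ∂mI, ‖-(s.1 • p + s.2 • q)‖ ≤ ‖p‖ + ‖q‖ := by
  refine (ae_restrict_iff' measurableSet_Icc).2 (Filter.Eventually.of_forall fun s hs => ?_)
  obtain ⟨⟨h1, h2⟩, ⟨h3, h4⟩⟩ := hs
  simp only [Prod.fst_zero, Prod.snd_zero, Prod.fst_one, Prod.snd_one] at h1 h2 h3 h4
  rw [norm_neg]
  refine (norm_add_le _ _).trans (add_le_add ?_ ?_)
  · rw [norm_smul, Real.norm_eq_abs, abs_of_nonneg h1]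
    exact mul_le_of_le_one_left (norm_nonneg _) h3
  · rw [norm_smul, Real.norm_eq_abs, abs_of_nonneg h2]
    exact mul_le_of_le_one_left (norm_nonneg _) h4

private theorem fin_Icc : IsFiniteMeasure mI := ⟨by
  rw [Measure.restrict_apply_univ]
  exact isCompact_Icc.measure_lt_top⟩

private theorem PP_MM (κ : Fin 4 → Ix g) (x y : V g) (p q : R4) (f : R4 → ℝ) :
    (fun t : V g => PP κ (fT x y t) p q f) =
      fun t => dt p q (pr κ x) (pr κ y) *
        MM mI (fun s : ℝ × ℝ => -(s.1 • pr κ x + s.2 • pr κ y)) f (pr κ t) := by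
  funext t
  rw [PP_fT]
  congr 1
  unfold MM
  refine integral_congr_ae (Filter.Eventually.of_forall fun s => ?_)
  show f (pr κ (s.1 • x + s.2 • y + t)) = f (pr κ t - -(s.1 • pr κ x + s.2 • pr κ y))
  rw [map_add, map_add, map_smul, map_smul, sub_neg_eq_add, add_comm (pr κ t)]

theorem PP_fT_smooth (κ : Fin 4 → Ix g) (x y : V g) (p q : R4) (f : R4 → ℝ)
    (hf : ContDiff ℝ ∞ f) : ContDiff ℝ ∞ (fun t : V g => PP κ (fT x y t) p q f) := by
  have := fin_Icc
  rw [PP_MM]
  exact contDiff_const.mul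
    ((MM_smooth mI (fi_cont _ _) (fi_bd (pr κ x) (pr κ y)) hf).comp (pr κ).contDiff)

theorem PP_fT_deriv (κ : Fin 4 → Ix g) (x y : V g) (p q : R4) (f : R4 → ℝ)
    (hf : ContDiff ℝ ∞ f) (t h : V g) :
    fderiv ℝ (fun t : V g => PP κ (fT x y t) p q f) t h =
      PP κ (fT x y t) p q (dr f (pr κ h)) := by
  have := fin_Icc
  have hf1 : ContDiff ℝ 1 f := hf.of_le (by exact_mod_cast le_top)
  have e := congrFun (PP_MM κ x y p q (dr f (pr κ h))) t
  rw [PP_MM, e, ← dr_MM mI (fi_cont _ _) (fi_bd (pr κ x) (pr κ y)) hf (pr κ h)]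
  have h0 := MM_fderiv mI (fi_cont (pr κ x) (pr κ y)) (fi_bd (pr κ x) (pr κ y)) hf1 (pr κ t)
  have h1 := (h0.comp t (pr κ).hasFDerivAt).const_mul (dt p q (pr κ x) (pr κ y))
  have h2 := h1.fderiv
  have h3 : fderiv ℝ (fun t : V g => dt p q (pr κ x) (pr κ y) *
      MM mI (fun s : ℝ × ℝ => -(s.1 • pr κ x + s.2 • pr κ y)) f (pr κ t)) t =
      dt p q (pr κ x) (pr κ y) •
        (MM mI (fun s : ℝ × ℝ => -(s.1 • pr κ x + s.2 • pr κ y)) (fderiv ℝ f) (pr κ t)).comp
          (pr κ) := h2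
  rw [h3]
  show dt p q (pr κ x) (pr κ y) *
    (MM mI (fun s : ℝ × ℝ => -(s.1 • pr κ x + s.2 • pr κ y)) (fderiv ℝ f) (pr κ t)) (pr κ h) = _
  congr 1
  unfold dr
  rw [h0.fderiv]

end Pool.Agent.CT
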