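import Pool.Agent.CT.CycBasic

/-!
# CT-MASS : locally uniform bound for the mass of the currents

PLAN. For `J` with `IsCplx J` and `v : V g`: `om v (J v) ≥ c(J) ‖v‖²` with `c(J) > 0`, and the constant can be
chosen uniformly for `J` near a given `J0`: `c0 = min` of the continuous function `om v (J0 v)` on the unit
sphere (compact), `|om v ((J - J0) v)| ≤ C ‖J - J0‖ ‖v‖²`, so `om v (J v) ≥ (c0 / 2) ‖v‖²` for
`‖J - J0‖ ≤ c0 / (2 C)`. Also `|wed2 v (J v) i j| ≤ 2 ‖J‖ ‖v‖²`. Hence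
`|wed2 v (J v) i j| ≤ M * om v (J v)` for all `v`, `i`, `j` with `M = 4 (‖J0‖ + 1) / c0`.
For a piece `P` for `J`: `fderiv F z I = J (fderiv F z 1)` on `U` (`F_hol` with `w = 1`), so
`|P.cur i j a| ≤ ∫ χ |a (F z)| |wed2 F_x F_y i j| ≤ r M ∫ χ * om F_x F_y`, and
`om F_x F_y = Σ_i wed2 F_x F_y (i, false) (i, true)`, so `∫ χ om F_x F_y = Σ_i P.cur (i, false) (i, true) 1`.
For a `CTCurve` summing `cls` over the blocks: `Σ_k Σ_i (P k).cur (i, false) (i, true) 1 =
Σ_c Σ_i wed2 x_c y_c (i, false) (i, true) = Σ_c om x_c y_c = g`. So the bound `M * g * r` holds.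
(Integrability: the integrands are continuous with compact support in `tsupport χ`.)
The topology of `Xt g` is induced from `Amb g`; `p ↦ p.1.1` is continuous.
-/

set_option autoImplicit false

noncomputable section

open MeasureTheory Filter
open scoped Topology ContDiff

namespace Pool.Agent.CT

variable {g : ℕ}

private theorem cont_cut' {U : Set ℂ} (hU : IsOpen U) {χ G : ℂ → ℝ}
    (hχ : Continuous χ) (hs : tsupport χ ⊆ U) (hG : ContinuousOn G U) :
    Continuous (fun z => χ z * G z) := by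
  rw [continuous_iff_continuousAt]
  intro z
  by_cases hz : z ∈ tsupport χ
  · exact hχ.continuousAt.mul (hG.continuousAt (hU.mem_nhds (hs hz)))
  · have h1 : (fun z => χ z * G z) =ᶠ[𝓝 z] fun _ => 0 := by
      have h2 := notMem_tsupport_iff_eventuallyEq.1 hz
      filter_upwards [h2] with w hw
      simp [hw]
    exact continuousAt_const.congr h1.symm

private theorem cur_int' {J : V g →L[ℝ] V g} (P : Piece J) {a : V g → ℝ} (ha : Continuous a)
    (i j : Ix g) :
    Integrable (fun z : ℂ => P.χ z * a (P.F z) *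
      wed2 (fderiv ℝ P.F z 1) (fderiv ℝ P.F z Complex.I) i j) := by
  have hF : ContinuousOn P.F P.U := P.F_smooth.continuousOn
  have hdF : ContinuousOn (fun z => fderiv ℝ P.F z) P.U :=
    P.F_smooth.continuousOn_fderiv_of_isOpen P.isOpen (by simp)
  have hd : ∀ (v : ℂ) (k : Ix g), ContinuousOn (fun z => fderiv ℝ P.F z v k) P.U := fun v k =>
    (continuous_apply k).comp_continuousOn (hdF.clm_apply continuousOn_const)
  have hG : ContinuousOn (fun z => a (P.F z) *
      wed2 (fderiv ℝ P.F z 1) (fderiv ℝ P.F z Complex.I) i j) P.U := by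
    unfold wed2
    exact (ha.comp_continuousOn hF).mul (((hd _ _).mul (hd _ _)).sub ((hd _ _).mul (hd _ _)))
  have hc := cont_cut' P.isOpen P.χ_smooth.continuous P.χ_sub hG
  have hcs : HasCompactSupport (fun z => P.χ z * (a (P.F z) *
      wed2 (fderiv ℝ P.F z 1) (fderiv ℝ P.F z Complex.I) i j)) := P.χ_cpt.mul_right
  have h1 : Integrable (fun z => P.χ z * (a (P.F z) *
      wed2 (fderiv ℝ P.F z 1) (fderiv ℝ P.F z Complex.I) i j)) volume :=
    hc.integrable_of_hasCompactSupport hcs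
  refine h1.congr (Eventually.of_forall fun z => ?_)
  show P.χ z * (a (P.F z) * wed2 (fderiv ℝ P.F z 1) (fderiv ℝ P.F z Complex.I) i j) =
    P.χ z * a (P.F z) * wed2 (fderiv ℝ P.F z 1) (fderiv ℝ P.F z Complex.I) i j
  ring

private theorem om_eq (v w : V g) : om v w = ∑ i : Fin g, wed2 v w (i, false) (i, true) := rfl

private theorem wed2_le (v w : V g) (i j : Ix g) : |wed2 v w i j| ≤ 2 * ‖v‖ * ‖w‖ := by
  unfold wed2
  have h1 : ∀ k, |v k| ≤ ‖v‖ := fun k => norm_le_pi_norm v k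
  have h2 : ∀ k, |w k| ≤ ‖w‖ := fun k => norm_le_pi_norm w k
  calc |v i * w j - v j * w i| ≤ |v i * w j| + |v j * w i| := abs_sub _ _
    _ = |v i| * |w j| + |v j| * |w i| := by rw [abs_mul, abs_mul]
    _ ≤ ‖v‖ * ‖w‖ + ‖v‖ * ‖w‖ := add_le_add
        (mul_le_mul (h1 _) (h2 _) (abs_nonneg _) (norm_nonneg _))
        (mul_le_mul (h1 _) (h2 _) (abs_nonneg _) (norm_nonneg _))
    _ = 2 * ‖v‖ * ‖w‖ := by ring

private theorem om_le (v w : V g) : |om v w| ≤ (g : ℝ) * (2 * ‖v‖ * ‖w‖) := by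
  rw [om_eq]
  refine (Finset.abs_sum_le_sum_abs _ _).trans ?_
  refine (Finset.sum_le_sum fun i _ => wed2_le v w (i, false) (i, true)).trans ?_
  simp

private theorem om_add (v w w' : V g) : om v (w + w') = om v w + om v w' := by
  unfold om
  rw [← Finset.sum_add_distrib]
  refine Finset.sum_congr rfl fun i _ => ?_
  simp only [Pi.add_apply]
  ring

private theorem om_smul (r s : ℝ) (v w : V g) : om (r • v) (s • w) = r * s * om v w := by
  unfold om
  rw [Finset.mul_sum]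
  refine Finset.sum_congr rfl fun i _ => ?_
  simp only [Pi.smul_apply, smul_eq_mul]
  ring

private theorem om_pos {J : V g →L[ℝ] V g} (hJ : IsCplx J) :
    ∃ c > 0, ∀ v : V g, c * ‖v‖ ^ 2 ≤ om v (J v) := by
  have hcont : Continuous (fun v : V g => om v (J v)) := by
    unfold om
    fun_prop
  rcases (Metric.sphere (0 : V g) 1).eq_empty_or_nonempty with he | hne
  · refine ⟨1, one_pos, fun v => ?_⟩
    by_cases hv : v = 0
    · subst hv
      simp [om]
    · exfalso
      have h1 : (‖v‖⁻¹ • v) ∈ Metric.sphere (0 : V g) 1 := by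
        rw [mem_sphere_zero_iff_norm, norm_smul, norm_inv, norm_norm,
          inv_mul_cancel₀ (norm_ne_zero_iff.2 hv)]
      rw [he] at h1
      exact h1
  · obtain ⟨v0, hv0, hmin⟩ := (isCompact_sphere (0 : V g) 1).exists_isMinOn hne hcont.continuousOn
    have hv0' : v0 ≠ 0 := by
      rintro rfl
      simp at hv0
    refine ⟨om v0 (J v0), hJ.pos v0 hv0', fun v => ?_⟩
    by_cases hv : v = 0
    · subst hv
      simp [om]
    · have hn : ‖v‖ ≠ 0 := norm_ne_zero_iff.2 hv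
      have h1 : (‖v‖⁻¹ • v) ∈ Metric.sphere (0 : V g) 1 := by
        rw [mem_sphere_zero_iff_norm, norm_smul, norm_inv, norm_norm, inv_mul_cancel₀ hn]
      have h2 : om v0 (J v0) ≤ om (‖v‖⁻¹ • v) (J (‖v‖⁻¹ • v)) := hmin h1
      rw [map_smul, om_smul] at h2
      have h3 : om v (J v) = ‖v‖ ^ 2 * (‖v‖⁻¹ * ‖v‖⁻¹ * om v (J v)) := by
        field_simp
      rw [h3, mul_comm]
      exact mul_le_mul_of_nonneg_left h2 (by positivity)

private theorem piece_mass {J : V g →L[ℝ] V g} (P : Piece J) {M1 : ℝ}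
    (hM : ∀ (v : V g) i j, |wed2 v (J v) i j| ≤ M1 * om v (J v)) (i j : Ix g) (a : V g → ℝ)
    {r : ℝ} (hr : ∀ x, |a x| ≤ r) :
    |P.cur i j a| ≤ r * M1 * ∑ i : Fin g, P.cur (i, false) (i, true) (fun _ => 1) := by
  have hint : ∀ i : Fin g, Integrable (fun z : ℂ => P.χ z * 1 *
      wed2 (fderiv ℝ P.F z 1) (fderiv ℝ P.F z Complex.I) (i, false) (i, true)) := fun i =>
    cur_int' P (a := fun _ => 1) continuous_const (i, false) (i, true)
  have hsum : r * M1 * ∑ i : Fin g, P.cur (i, false) (i, true) (fun _ => 1) =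
      ∫ z : ℂ, r * M1 * (P.χ z * om (fderiv ℝ P.F z 1) (fderiv ℝ P.F z Complex.I)) := by
    rw [integral_const_mul]
    congr 1
    unfold Piece.cur
    rw [← integral_finsetSum _ fun i _ => hint i]
    congr 1
    funext z
    rw [om_eq, Finset.mul_sum]
    refine Finset.sum_congr rfl fun i _ => ?_
    ring
  rw [hsum]
  unfold Piece.cur
  rw [← Real.norm_eq_abs]
  refine norm_integral_le_of_norm_le ?_ (Eventually.of_forall fun z => ?_)
  · have h1 : Integrable (fun z : ℂ => ∑ i : Fin g, P.χ z * 1 *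
      wed2 (fderiv ℝ P.F z 1) (fderiv ℝ P.F z Complex.I) (i, false) (i, true)) :=
      integrable_finsetSum _ fun i _ => hint i
    refine (h1.const_mul (r * M1)).congr (Eventually.of_forall fun z => ?_)
    show r * M1 * _ = r * M1 * _
    congr 1
    rw [om_eq, Finset.mul_sum]
    refine Finset.sum_congr rfl fun i _ => ?_
    ring
  · rw [Real.norm_eq_abs]
    by_cases hz : z ∈ P.U
    · have h1 : fderiv ℝ P.F z Complex.I = J (fderiv ℝ P.F z 1) := by
        have := P.F_hol z hz 1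
        rwa [mul_one] at this
      rw [h1, abs_mul, abs_mul, abs_of_nonneg (P.χ_nonneg z)]
      have h2 := hM (fderiv ℝ P.F z 1) i j
      have h3 := hr (P.F z)
      have hr0 : 0 ≤ r := (abs_nonneg _).trans h3
      calc P.χ z * |a (P.F z)| * |wed2 (fderiv ℝ P.F z 1) (J (fderiv ℝ P.F z 1)) i j|
          ≤ P.χ z * r * (M1 * om (fderiv ℝ P.F z 1) (J (fderiv ℝ P.F z 1))) :=
            mul_le_mul (mul_le_mul_of_nonneg_left h3 (P.χ_nonneg z)) h2 (abs_nonneg _)
              (mul_nonneg (P.χ_nonneg z) hr0)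
        _ = r * M1 * (P.χ z * om (fderiv ℝ P.F z 1) (J (fderiv ℝ P.F z 1))) := by ring
    · have h2 : P.χ z = 0 := by
        by_contra h3
        exact hz (P.χ_sub (subset_tsupport _ h3))
      rw [h2]
      simp

theorem mass (p0 : Xt g) : ∃ M : ℝ, ∀ᶠ p : Xt g in 𝓝 p0, ∀ i j (a : Per g) (r : ℝ),
    (∀ x, |a.1 x| ≤ r) → |p.1.2.2.1 i j a| ≤ M * r := by
  obtain ⟨c, hc, hc1⟩ := om_pos p0.2.1
  set J0 := p0.1.1 with hJ0
  set K0 : ℝ := ∑ c : Fin g, om (lat (Pi.single (c, false) 1) : V g) (lat (Pi.single (c, true) 1))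
    with hK0
  set M1 : ℝ := 4 * (‖J0‖ + 1) / c with hM1
  set η : ℝ := min 1 (c / (2 * (2 * g + 1))) with hη
  have hη0 : 0 < η := lt_min one_pos (by positivity)
  refine ⟨M1 * K0, ?_⟩
  have hcontJ : Continuous (fun p : Xt g => p.1.1) := continuous_fst.comp continuous_subtype_val
  have hev : ∀ᶠ p : Xt g in 𝓝 p0, ‖p.1.1 - J0‖ < η := by
    have h1 : Tendsto (fun p : Xt g => ‖p.1.1 - J0‖) (𝓝 p0) (𝓝 ‖p0.1.1 - J0‖) :=
      ((hcontJ.sub continuous_const).norm).tendsto p0
    rw [hJ0, sub_self, norm_zero] at h1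
    exact h1.eventually (gt_mem_nhds hη0)
  filter_upwards [hev] with p hp i j a r hr
  obtain ⟨J, hJ⟩ : ∃ J, J = p.1.1 := ⟨_, rfl⟩
  obtain ⟨-, C, -, hcur, -⟩ := p.2
  rw [← hJ] at hp
  have hJn : ‖J‖ ≤ ‖J0‖ + 1 := by
    calc ‖J‖ = ‖J0 + (J - J0)‖ := by rw [add_sub_cancel]
      _ ≤ ‖J0‖ + ‖J - J0‖ := norm_add_le _ _
      _ ≤ ‖J0‖ + 1 := by linarith [hp.le.trans (min_le_left _ _)]
  have hpos : ∀ v : V g, c / 2 * ‖v‖ ^ 2 ≤ om v (J v) := by
    intro v
    have h1 : J v = J0 v + (J - J0) v := by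
      simp
    rw [h1, om_add]
    have h2 := hc1 v
    have h3 := om_le v ((J - J0) v)
    have h4 : ‖(J - J0) v‖ ≤ η * ‖v‖ :=
      ((J - J0).le_opNorm v).trans (mul_le_mul_of_nonneg_right hp.le (norm_nonneg _))
    have h5 : (g : ℝ) * (2 * ‖v‖ * ‖(J - J0) v‖) ≤ c / 2 * ‖v‖ ^ 2 := by
      have h6 : η ≤ c / (2 * (2 * g + 1)) := min_le_right _ _
      have h7 : (2 * (g : ℝ)) * η ≤ c / 2 := by
        have h8 : (0 : ℝ) ≤ 2 * g := by positivity
        calc (2 * (g : ℝ)) * η ≤ (2 * g) * (c / (2 * (2 * g + 1))) :=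
              mul_le_mul_of_nonneg_left h6 h8
          _ ≤ (2 * g + 1) * (c / (2 * (2 * g + 1))) := by
              apply mul_le_mul_of_nonneg_right (by linarith) (by positivity)
          _ = c / 2 := by
              field_simp
      calc (g : ℝ) * (2 * ‖v‖ * ‖(J - J0) v‖) ≤ (g : ℝ) * (2 * ‖v‖ * (η * ‖v‖)) := by
            apply mul_le_mul_of_nonneg_left _ (Nat.cast_nonneg _)
            exact mul_le_mul_of_nonneg_left h4 (by positivity)
        _ = (2 * (g : ℝ)) * η * ‖v‖ ^ 2 := by ring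
        _ ≤ c / 2 * ‖v‖ ^ 2 := mul_le_mul_of_nonneg_right h7 (by positivity)
    have h9 := (abs_le.1 (h3.trans h5)).1
    linarith
  have hM : ∀ (v : V g) i j, |wed2 v (J v) i j| ≤ M1 * om v (J v) := by
    intro v i j
    have h1 := wed2_le v (J v) i j
    have h2 : ‖J v‖ ≤ (‖J0‖ + 1) * ‖v‖ :=
      (J.le_opNorm v).trans (mul_le_mul_of_nonneg_right hJn (norm_nonneg _))
    calc |wed2 v (J v) i j| ≤ 2 * ‖v‖ * ‖J v‖ := h1
      _ ≤ 2 * ‖v‖ * ((‖J0‖ + 1) * ‖v‖) := mul_le_mul_of_nonneg_left h2 (by positivity)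
      _ = M1 * (c / 2 * ‖v‖ ^ 2) := by
          rw [hM1]
          field_simp
          ring
      _ ≤ M1 * om v (J v) := mul_le_mul_of_nonneg_left (hpos v) (by positivity)
  rw [hcur]
  unfold CTCurve.cur
  have hr0 : ∀ k, |(C.P k).cur i j a.1| ≤
      r * M1 * ∑ i : Fin g, (C.P k).cur (i, false) (i, true) (fun _ => 1) := fun k =>
    piece_mass (C.P k) (hJ ▸ hM) i j a.1 hr
  have htot : ∑ k, ∑ i : Fin g, (C.P k).cur (i, false) (i, true) (fun _ => 1) = K0 := by
    simp only [C.cls]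
    rw [Finset.sum_comm]
    simp only [Finset.sum_comm (s := (Finset.univ : Finset (Fin C.m)))]
    rw [hK0, Finset.sum_comm]
    refine Finset.sum_congr rfl fun c _ => ?_
    rw [← C.symp (c, false) (c, true), om_eq]
    refine Finset.sum_congr rfl fun i _ => ?_
    simp
  calc |∑ k, (C.P k).cur i j a.1| ≤ ∑ k, |(C.P k).cur i j a.1| := Finset.abs_sum_le_sum_abs _ _
    _ ≤ ∑ k, r * M1 * ∑ i : Fin g, (C.P k).cur (i, false) (i, true) (fun _ => 1) :=
        Finset.sum_le_sum fun k _ => hr0 k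
    _ = M1 * K0 * r := by
        rw [← Finset.mul_sum, htot]
        ring

theorem cur_sub (p : Xt g) (i j : Ix g) (a b c : Per g) (h : ∀ x, c.1 x = a.1 x - b.1 x) :
    p.1.2.2.1 i j c = p.1.2.2.1 i j a - p.1.2.2.1 i j b := by
  obtain ⟨-, C, -, hcur, -⟩ := p.2
  rw [hcur, hcur, hcur]
  unfold CTCurve.cur
  rw [← Finset.sum_sub_distrib]
  refine Finset.sum_congr rfl fun k _ => ?_
  have h1 := (piece_cur (C.P k)).add i j b.1 c.1 b.2.1 b.2.2 c.2.1 c.2.2
  have h2 : (fun x => b.1 x + c.1 x) = a.1 := by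
    funext x
    rw [h]
    ring
  rw [h2] at h1
  linarith

end Pool.Agent.CT
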