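import Pool.Agent.CT.Trans
import Pool.Agent.CT.Mass

/-!
# CT-HOMEO : `Xt g` is homeomorphic to `X g × V g`

PLAN. `tr_cont`: `(v, p) ↦ trA v p` is continuous `V g × Xt g → Amb g`. Components: `J`: clear. Closed set:
`trZ v Z`: the Hausdorff distance of `Z + v` and `Z' + v'` is at most that of `Z` and `Z'` plus `‖v - v'‖`
(topology of `Closeds (V g)` given by `EMetric.hausdorffEdist`, instance `instEMetricSpace`). Current: for fixed
`i j a`: `|S_p (trP v a) - S_{p0} (trP v0 a)| ≤ |S_p (trP v a - trP v0 a)| + |S_p (trP v0 a) - S_{p0} (trP v0 a)|`; the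
first term is `≤ M * sup |a (x + v) - a (x + v0)|` (`mass`, `cur_sub`; `a` is uniformly continuous: continuous and
periodic), the second is small by the weak topology. `ξ + wom v`: clear (`wom` is linear, continuous).
`exists_homeo`: `p ↦ (trA (-v) p, v)` with `v = (1 / (g - 1)) • ctr ξ`; inverse `(q, v) ↦ trA v q`. `ctr` is linear, and
`ctr (ξ - wom v) = ctr ξ - (g - 1) v = 0` (`ctr_wom`), `ctr (ξ + wom v) = (g - 1) v` for `ctr ξ = 0`; `trA_isPt`, `trA_add`,
`trA_zero`. Note that `X g` is `{p : Amb g // IsPt p ∧ ∀ k, Σ_i p.2.2.2 (i, false) (i, true) k = 0}`.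
-/

set_option autoImplicit false

noncomputable section

open scoped Topology

namespace Pool.Agent.CT

variable {g : ℕ}

private theorem per_unif (a : V g → ℝ) (hc : Continuous a) (hp : IsPer a) : UniformContinuous a := by
  rw [Metric.uniformContinuous_iff]
  intro ε hε
  have hK : IsCompact (Metric.closedBall (0 : V g) 3) := isCompact_closedBall 0 3
  have h1 := hK.uniformContinuousOn_of_continuous hc.continuousOn
  rw [Metric.uniformContinuousOn_iff] at h1
  obtain ⟨δ, hδ, h2⟩ := h1 ε hε
  refine ⟨min δ 1, lt_min hδ one_pos, ?_⟩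
  intro x y hxy
  set n : Ix g → ℤ := fun i => ⌊x i⌋ with hn
  have hx : a x = a (x - lat n) := by
    have h3 := hp n (x - lat n)
    rw [sub_add_cancel] at h3
    exact h3
  have hy : a y = a (y - lat n) := by
    have h3 := hp n (y - lat n)
    rw [sub_add_cancel] at h3
    exact h3
  have hx1 : ‖x - lat n‖ ≤ 1 := by
    rw [pi_norm_le_iff_of_nonneg zero_le_one]
    intro i
    have h4 : (x - lat n) i = x i - (⌊x i⌋ : ℝ) := rfl
    rw [h4, Real.norm_eq_abs, abs_le]
    constructor
    · linarith [Int.floor_le (x i)]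
    · linarith [Int.lt_floor_add_one (x i)]
  have hd : dist (x - lat n) (y - lat n) = dist x y := by
    rw [dist_eq_norm, dist_eq_norm, sub_sub_sub_cancel_right]
  have hy1 : ‖y - lat n‖ ≤ 2 := by
    have h5 : ‖y - lat n‖ ≤ ‖x - lat n‖ + dist (x - lat n) (y - lat n) := by
      rw [dist_eq_norm]
      have h6 : y - lat n = (x - lat n) - ((x - lat n) - (y - lat n)) := by abel
      calc ‖y - lat n‖ = ‖(x - lat n) - ((x - lat n) - (y - lat n))‖ := by rw [← h6]
        _ ≤ _ := norm_sub_le _ _
    rw [hd] at h5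
    have h7 : dist x y < 1 := lt_of_lt_of_le hxy (min_le_right _ _)
    linarith
  rw [hx, hy]
  refine h2 _ ?_ _ ?_ ?_
  · rw [mem_closedBall_zero_iff]; linarith
  · rw [mem_closedBall_zero_iff]; linarith
  · rw [hd]; exact lt_of_lt_of_le hxy (min_le_left _ _)

private theorem trZ_cont : Continuous (fun q : V g × TopologicalSpace.Closeds (V g) => trZ q.1 q.2) := by
  have h : LipschitzWith 2 (fun q : V g × TopologicalSpace.Closeds (V g) => trZ q.1 q.2) := by
    rintro ⟨v, Z⟩ ⟨v', Z'⟩
    have h0 : edist (trZ v Z) (trZ v' Z') =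
        Metric.hausdorffEDist ((fun x => x + v) '' (Z : Set (V g))) ((fun x => x + v') '' (Z' : Set (V g))) := rfl
    have h1 : Metric.hausdorffEDist ((fun x => x + v) '' (Z : Set (V g)))
        ((fun x => x + v') '' (Z : Set (V g))) ≤ edist v v' := by
      apply Metric.hausdorffEDist_le_of_mem_edist
      · rintro _ ⟨x, hx, rfl⟩
        exact ⟨x + v', ⟨x, hx, rfl⟩, by rw [edist_add_left]⟩
      · rintro _ ⟨x, hx, rfl⟩
        exact ⟨x + v, ⟨x, hx, rfl⟩, by rw [edist_add_left, edist_comm]⟩
    have h2 : Metric.hausdorffEDist ((fun x => x + v') '' (Z : Set (V g)))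
        ((fun x => x + v') '' (Z' : Set (V g))) = edist Z Z' := by
      have hi : Isometry (fun x : V g => x + v') := (IsometryEquiv.addRight v').isometry
      exact Metric.hausdorffEDist_image hi
    have h3 : edist Z Z' ≤ edist (v, Z) (v', Z') := by
      rw [Prod.edist_eq]; exact le_max_right _ _
    have h4 : edist v v' ≤ edist (v, Z) (v', Z') := by
      rw [Prod.edist_eq]; exact le_max_left _ _
    show edist (trZ v Z) (trZ v' Z') ≤ _
    rw [h0]
    refine (Metric.hausdorffEDist_triangle (t := (fun x => x + v') '' (Z : Set (V g)))).trans ?_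
    rw [h2]
    refine (add_le_add h1 le_rfl).trans ((add_le_add h4 h3).trans ?_)
    rw [← two_mul]
    exact le_of_eq rfl
  exact h.continuous

private theorem ctr_cont : Continuous (ctr : (Ix g → Ix g → Ix g → ℝ) → V g) := by
  unfold ctr
  fun_prop

private theorem ctr_add (ξ η : Ix g → Ix g → Ix g → ℝ) :
    ctr (fun i j k => ξ i j k + η i j k) = ctr ξ + ctr η := by
  funext k
  simp [ctr, Finset.sum_add_distrib]

theorem tr_cont : Continuous (fun q : V g × Xt g => trA q.1 q.2.1) := by
  refine Continuous.prodMk ?_ (Continuous.prodMk ?_ (Continuous.prodMk ?_ ?_))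
  · exact continuous_fst.comp (continuous_subtype_val.comp continuous_snd)
  · have h1 : Continuous (fun q : V g × Xt g => (q.1, q.2.1.2.1)) :=
      continuous_fst.prodMk (continuous_fst.comp (continuous_snd.comp (continuous_subtype_val.comp continuous_snd)))
    exact trZ_cont.comp h1
  · refine continuous_pi fun i => continuous_pi fun j => continuous_pi fun a => ?_
    rw [continuous_iff_continuousAt]
    intro q0
    rw [ContinuousAt, Metric.tendsto_nhds]
    intro ε hε
    obtain ⟨M, hM⟩ := mass q0.2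
    have hM' : ∀ᶠ q : V g × Xt g in 𝓝 q0, ∀ i j (a : Per g) (r : ℝ),
        (∀ x, |a.1 x| ≤ r) → |q.2.1.2.2.1 i j a| ≤ M * r :=
      (continuous_snd.tendsto q0).eventually hM
    have hr : 0 < ε / (2 * (|M| + 1)) := by positivity
    have h2 : ∀ᶠ q : V g × Xt g in 𝓝 q0, ∀ x, |a.1 (x + q.1) - a.1 (x + q0.1)| ≤ ε / (2 * (|M| + 1)) := by
      have hu := per_unif a.1 a.2.1 a.2.2
      rw [Metric.uniformContinuous_iff] at hu
      obtain ⟨δ, hδ, h3⟩ := hu _ hr
      have h4 : ∀ᶠ q : V g × Xt g in 𝓝 q0, dist q.1 q0.1 < δ :=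
        (continuous_fst.tendsto q0).eventually (Metric.ball_mem_nhds _ hδ)
      filter_upwards [h4] with q hq x
      have h5 : dist (x + q.1) (x + q0.1) < δ := by rw [dist_add_left]; exact hq
      have h6 := h3 h5
      rw [Real.dist_eq] at h6
      exact h6.le
    have h3 : ∀ᶠ q : V g × Xt g in 𝓝 q0,
        dist (q.2.1.2.2.1 i j (trP q0.1 a)) (q0.2.1.2.2.1 i j (trP q0.1 a)) < ε / 2 := by
      have hc : Continuous (fun q : V g × Xt g => q.2.1.2.2.1 i j (trP q0.1 a)) := by
        have h7 : Continuous (fun q : V g × Xt g => q.2.1.2.2.1) :=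
          continuous_fst.comp (continuous_snd.comp (continuous_snd.comp (continuous_subtype_val.comp continuous_snd)))
        exact (continuous_apply (trP q0.1 a)).comp ((continuous_apply j).comp ((continuous_apply i).comp h7))
      exact (hc.tendsto q0).eventually (Metric.ball_mem_nhds _ (half_pos hε))
    filter_upwards [hM', h2, h3] with q e1 e2 e3
    set c : Per g := ⟨fun x => (trP q.1 a).1 x - (trP q0.1 a).1 x,
      (trP q.1 a).2.1.sub (trP q0.1 a).2.1, fun n x => by
        show (trP q.1 a).1 (x + lat n) - (trP q0.1 a).1 (x + lat n) = _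
        rw [(trP q.1 a).2.2 n x, (trP q0.1 a).2.2 n x]⟩ with hc
    have e4 := cur_sub q.2 i j (trP q.1 a) (trP q0.1 a) c (fun x => rfl)
    have e5 : |q.2.1.2.2.1 i j c| ≤ M * (ε / (2 * (|M| + 1))) := e1 i j c _ (fun x => e2 x)
    have e6 : M * (ε / (2 * (|M| + 1))) ≤ ε / 2 := by
      have h8 : M ≤ |M| + 1 := (le_abs_self M).trans (by linarith)
      have h9 : (0 : ℝ) < |M| + 1 := by positivity
      calc M * (ε / (2 * (|M| + 1))) ≤ (|M| + 1) * (ε / (2 * (|M| + 1))) :=
            mul_le_mul_of_nonneg_right h8 hr.le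
        _ = ε / 2 := by field_simp
    rw [e4] at e5
    rw [Real.dist_eq] at e3 ⊢
    show |q.2.1.2.2.1 i j (trP q.1 a) - q0.2.1.2.2.1 i j (trP q0.1 a)| < ε
    calc |q.2.1.2.2.1 i j (trP q.1 a) - q0.2.1.2.2.1 i j (trP q0.1 a)|
        ≤ |q.2.1.2.2.1 i j (trP q.1 a) - q.2.1.2.2.1 i j (trP q0.1 a)| +
          |q.2.1.2.2.1 i j (trP q0.1 a) - q0.2.1.2.2.1 i j (trP q0.1 a)| := abs_sub_le _ _ _
      _ < ε := by linarith
  · refine continuous_pi fun i => continuous_pi fun j => continuous_pi fun k => ?_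
    have h1 : Continuous (fun q : V g × Xt g => q.2.1.2.2.2 i j k) := by
      have h7 : Continuous (fun q : V g × Xt g => q.2.1.2.2.2) :=
        continuous_snd.comp (continuous_snd.comp (continuous_snd.comp (continuous_subtype_val.comp continuous_snd)))
      exact (continuous_apply k).comp ((continuous_apply j).comp ((continuous_apply i).comp h7))
    have h2 : Continuous (fun v : V g => wom v i j k) := by
      unfold wom wed3
      simp only [Matrix.det_fin_three, Matrix.of_apply, Matrix.cons_val', Matrix.cons_val_zero,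
        Matrix.cons_val_one, Matrix.cons_val]
      fun_prop
    exact h1.add (h2.comp continuous_fst)

private theorem ctr_tr (v : V g) (p : Amb g) : ctr (trA v p).2.2.2 = ctr p.2.2.2 + ((g : ℝ) - 1) • v := by
  have h1 : (trA v p).2.2.2 = fun i j k => p.2.2.2 i j k + wom v i j k := rfl
  rw [h1, ctr_add, ctr_wom]

theorem exists_homeo (hg : 2 ≤ g) : Nonempty (Xt g ≃ₜ X g × V g) := by
  have hg1 : (0 : ℝ) < (g : ℝ) - 1 := by
    have : (2 : ℝ) ≤ (g : ℝ) := by exact_mod_cast hg
    linarith
  set vv : Xt g → V g := fun p => ((g : ℝ) - 1)⁻¹ • ctr p.1.2.2.2 with hvv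
  have hvc : Continuous vv := by
    have h1 : Continuous (fun p : Xt g => p.1.2.2.2) :=
      continuous_snd.comp (continuous_snd.comp (continuous_snd.comp continuous_subtype_val))
    have h2 : Continuous (fun p : Xt g => ctr p.1.2.2.2) := ctr_cont.comp h1
    exact h2.const_smul (((g : ℝ) - 1)⁻¹)
  have hz : ∀ p : Xt g, ∀ k, ∑ i : Fin g, (trA (-(vv p)) p.1).2.2.2 (i, false) (i, true) k = 0 := by
    intro p k
    have h1 : ctr (trA (-(vv p)) p.1).2.2.2 = 0 := by
      rw [ctr_tr, hvv]
      simp only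
      rw [smul_neg, smul_smul, mul_inv_cancel₀ hg1.ne', one_smul, add_neg_cancel]
    exact congrFun h1 k
  refine ⟨{
    toFun := fun p => (⟨trA (-(vv p)) p.1, trA_isPt _ _ p.2, hz p⟩, vv p)
    invFun := fun q => ⟨trA q.2 q.1.1, trA_isPt _ _ q.1.2.1⟩
    left_inv := ?_
    right_inv := ?_
    continuous_toFun := ?_
    continuous_invFun := ?_ }⟩
  · intro p
    apply Subtype.ext
    show trA (vv p) (trA (-(vv p)) p.1) = p.1
    rw [trA_add, add_neg_cancel, trA_zero]
  · rintro ⟨q, v⟩
    have h1 : vv ⟨trA v q.1, trA_isPt _ _ q.2.1⟩ = v := by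
      rw [hvv]
      simp only
      rw [ctr_tr]
      have h2 : ctr q.1.2.2.2 = 0 := funext fun k => q.2.2 k
      rw [h2, zero_add, smul_smul, inv_mul_cancel₀ hg1.ne', one_smul]
    refine Prod.ext ?_ h1
    apply Subtype.ext
    show trA (-(vv ⟨trA v q.1, trA_isPt _ _ q.2.1⟩)) (trA v q.1) = q.1
    rw [h1, trA_add, neg_add_cancel, trA_zero]
  · refine Continuous.prodMk ?_ hvc
    refine Continuous.subtype_mk ?_ _
    exact tr_cont.comp (hvc.neg.prodMk continuous_id)
  · refine Continuous.subtype_mk ?_ _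
    have h1 : Continuous (fun q : X g × V g => ((q.2, ⟨q.1.1, q.1.2.1⟩) : V g × Xt g)) :=
      continuous_snd.prodMk ((continuous_subtype_val.comp continuous_fst).subtype_mk _)
    exact tr_cont.comp h1

end Pool.Agent.CT
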