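import Pool.Agent.CT.NBall
import Pool.Agent.CT.Bar.Defs
import Pool.Agent.CT.Defs

/-!
# CT-NEUC : literal 2-connectedness (Mathlib's homotopy groups) gives extension of maps

PLAN. `ext_sphere`: `E = EuclideanSpace ℝ (Fin (k + 2))` and `E' = (Fin (k + 1) → ℝ) × ℝ` have the same
dimension; choose a linear homeomorphism `L : E ≃L[ℝ] E'` (`ContinuousLinearEquiv.ofFinrankEq`). The convex
bodies `closedBall 0 1 ⊆ E` and `L⁻¹ {‖p.1‖ + |p.2| ≤ 1}` are convex, bounded, with nonempty interior, so by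
`exists_homeomorph_image_eq` (Mathlib/Analysis/Convex/GaugeRescale.lean) there is a homeomorphism of `E` which
maps the closed ball to the second body and the sphere (frontier) to its frontier `L⁻¹ {= 1}`
(or `exists_homeomorph_image_interior_closure_frontier_eq_unitBall` for the second body). Frontier of
`{p | ‖p.1‖ + |p.2| ≤ 1}` is `{= 1}` (continuous function; scaling `p ↦ (1 ± ε) p`). Transport `ext_of_pi`.
`ext_zero`: `HomotopyGroup.pi0EquivZerothHomotopy` : `ZerothHomotopy Y` is a subsingleton, so any two points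
are `Joined` (`Quotient.exact`); the sphere of `EuclideanSpace ℝ (Fin 1)` has the two points `±1`, the
ball is `[-1, 1]`.
`nconn_euc`: assembly, `NConn 2 Y` (Defs.lean) gives `CTB.NConn 2 Y` (Bar/Defs.lean).
-/

set_option autoImplicit false

noncomputable section

open Metric

namespace Pool.Agent.CT

/-! ## the norm `‖v‖ + |h|` -/

private def nN {k : ℕ} (p : (Fin (k + 1) → ℝ) × ℝ) : ℝ := ‖p.1‖ + |p.2|

private lemma nN_cont {k : ℕ} : Continuous (nN (k := k)) :=
  (continuous_norm.comp continuous_fst).add (continuous_abs.comp continuous_snd)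

private lemma nN_nonneg {k : ℕ} (p : (Fin (k + 1) → ℝ) × ℝ) : 0 ≤ nN p := by
  unfold nN
  positivity

private lemma nN_smul {k : ℕ} (c : ℝ) (p : (Fin (k + 1) → ℝ) × ℝ) : nN (c • p) = |c| * nN p := by
  unfold nN
  rw [Prod.smul_fst, Prod.smul_snd, norm_smul, smul_eq_mul, abs_mul, Real.norm_eq_abs]
  ring

private lemma norm_le_nN {k : ℕ} (p : (Fin (k + 1) → ℝ) × ℝ) : ‖p‖ ≤ nN p := by
  unfold nN
  rw [Prod.norm_def]
  refine max_le ?_ ?_
  · linarith [abs_nonneg p.2]
  · rw [Real.norm_eq_abs]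
    linarith [norm_nonneg p.1]

private lemma nN_pos {k : ℕ} {p : (Fin (k + 1) → ℝ) × ℝ} (h : p ≠ 0) : 0 < nN p :=
  lt_of_lt_of_le (norm_pos_iff.2 h) (norm_le_nN p)

private lemma nN_zero {k : ℕ} : nN (0 : (Fin (k + 1) → ℝ) × ℝ) = 0 := by
  simp [nN]

section radial

variable {E : Type} [NormedAddCommGroup E] [NormedSpace ℝ E] {k : ℕ}
  (L : E ≃L[ℝ] ((Fin (k + 1) → ℝ) × ℝ))

/-- the radial map -/
private def rad (x : E) : (Fin (k + 1) → ℝ) × ℝ := (‖x‖ / nN (L x)) • L x

/-- the inverse of the radial map -/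
private def rdi (p : (Fin (k + 1) → ℝ) × ℝ) : E := (nN p / ‖L.symm p‖) • L.symm p

private lemma nN_rad (x : E) : nN (rad L x) = ‖x‖ := by
  unfold rad
  rw [nN_smul]
  by_cases hx : x = 0
  · rw [hx, norm_zero, map_zero, nN_zero, mul_zero]
  · have h1 : 0 < nN (L x) := nN_pos fun h => hx (by simpa using h)
    rw [abs_of_nonneg (by positivity), div_mul_cancel₀ _ h1.ne']

private lemma norm_rdi (p : (Fin (k + 1) → ℝ) × ℝ) : ‖rdi L p‖ = nN p := by
  unfold rdi
  rw [norm_smul]
  by_cases hp : p = 0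
  · rw [hp, nN_zero, map_zero, norm_zero, mul_zero]
  · have h1 : 0 < ‖L.symm p‖ := norm_pos_iff.2 fun h => hp (by simpa using h)
    have h2 := nN_nonneg p
    rw [Real.norm_eq_abs, abs_of_nonneg (by positivity), div_mul_cancel₀ _ h1.ne']

private lemma rdi_rad {x : E} (hx : ‖x‖ = 1) : rdi L (rad L x) = x := by
  have hx0 : x ≠ 0 := by
    intro h
    rw [h, norm_zero] at hx
    exact zero_ne_one hx
  have h1 : 0 < nN (L x) := nN_pos fun h => hx0 (by simpa using h)
  unfold rdi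
  rw [nN_rad, hx]
  unfold rad
  rw [map_smul, L.symm_apply_apply, norm_smul, hx, Real.norm_eq_abs, abs_of_pos (by positivity),
    smul_smul, mul_one]
  rw [div_mul_cancel₀ _ (by positivity), one_smul]

private lemma rad_cont : Continuous (rad L) := by
  rw [continuous_iff_continuousAt]
  intro x
  by_cases hx : x = 0
  · subst hx
    have h0 : rad L 0 = 0 := by
      unfold rad
      rw [map_zero, smul_zero]
    rw [ContinuousAt, h0, tendsto_zero_iff_norm_tendsto_zero]
    refine squeeze_zero (fun _ => norm_nonneg _) (fun y => norm_le_nN _) ?_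
    simp only [nN_rad]
    exact tendsto_norm_zero
  · have h1 : nN (L x) ≠ 0 := (nN_pos fun h => hx (by simpa using h)).ne'
    have h2 : ContinuousAt (fun x => ‖x‖ / nN (L x)) x :=
      continuous_norm.continuousAt.div (nN_cont.comp L.continuous).continuousAt h1
    exact h2.smul L.continuous.continuousAt

private lemma rdi_cont {S : Set ((Fin (k + 1) → ℝ) × ℝ)} (hS : ∀ p ∈ S, nN p = 1) :
    ContinuousOn (rdi L) S := by
  intro p hp
  have hp0 : p ≠ 0 := by
    intro h
    have := hS p hp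
    rw [h, nN_zero] at this
    exact zero_ne_one this
  have h1 : ‖L.symm p‖ ≠ 0 := norm_ne_zero_iff.2 fun h => hp0 (by simpa using h)
  have h2 : ContinuousAt (fun p => nN p / ‖L.symm p‖) p :=
    nN_cont.continuousAt.div (continuous_norm.comp L.symm.continuous).continuousAt h1
  exact (h2.smul L.symm.continuous.continuousAt).continuousWithinAt

end radial

theorem ext_sphere {Y : Type} [TopologicalSpace Y] (k : ℕ)
    (h : ∀ y : Y, Subsingleton (HomotopyGroup.Pi (k + 1) Y y))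
    (f : C(sphere (0 : EuclideanSpace ℝ (Fin (k + 2))) 1, Y)) :
    ∃ F : C(closedBall (0 : EuclideanSpace ℝ (Fin (k + 2))) 1, Y),
      ∀ x : sphere (0 : EuclideanSpace ℝ (Fin (k + 2))) 1,
        F ⟨x, sphere_subset_closedBall x.2⟩ = f x := by
  classical
  have hdim : Module.finrank ℝ (EuclideanSpace ℝ (Fin (k + 2))) =
      Module.finrank ℝ ((Fin (k + 1) → ℝ) × ℝ) := by
    simp
  let L : EuclideanSpace ℝ (Fin (k + 2)) ≃L[ℝ] ((Fin (k + 1) → ℝ) × ℝ) :=
    ContinuousLinearEquiv.ofFinrankEq hdim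
  have hx0 : EuclideanSpace.single (0 : Fin (k + 2)) (1 : ℝ) ∈
      sphere (0 : EuclideanSpace ℝ (Fin (k + 2))) 1 := by
    rw [mem_sphere_zero_iff_norm, EuclideanSpace.norm_single, norm_one]
  let f' : (Fin (k + 1) → ℝ) × ℝ → Y := fun p =>
    if hp : rdi L p ∈ sphere (0 : EuclideanSpace ℝ (Fin (k + 2))) 1 then f ⟨rdi L p, hp⟩
    else f ⟨_, hx0⟩
  have hmem : ∀ p : (Fin (k + 1) → ℝ) × ℝ, ‖p.1‖ + |p.2| = 1 →
      rdi L p ∈ sphere (0 : EuclideanSpace ℝ (Fin (k + 2))) 1 := by
    intro p hp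
    rw [mem_sphere_zero_iff_norm, norm_rdi]
    exact hp
  have hf' : ContinuousOn f' {p | ‖p.1‖ + |p.2| = 1} := by
    rw [continuousOn_iff_continuous_restrict]
    have h1 : Continuous fun p : {p : (Fin (k + 1) → ℝ) × ℝ | ‖p.1‖ + |p.2| = 1} =>
        (⟨rdi L p.1, hmem p.1 p.2⟩ : sphere (0 : EuclideanSpace ℝ (Fin (k + 2))) 1) := by
      refine Continuous.subtype_mk ?_ _
      exact continuousOn_iff_continuous_restrict.1
        (rdi_cont L (S := {p | ‖p.1‖ + |p.2| = 1}) fun p hp => hp)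
    refine (f.continuous.comp h1).congr fun p => ?_
    show f ⟨rdi L p.1, hmem p.1 p.2⟩ = f' p.1
    simp only [f', dif_pos (hmem p.1 p.2)]
  obtain ⟨F, hF, hFf⟩ := ext_of_pi k h f' hf'
  refine ⟨⟨fun x => F (rad L x.1), ?_⟩, fun x => ?_⟩
  · refine hF.comp_continuous ((rad_cont L).comp continuous_subtype_val) fun x => ?_
    show nN (rad L x.1) ≤ 1
    rw [nN_rad]
    exact mem_closedBall_zero_iff.1 x.2
  · have hx1 : ‖(x : EuclideanSpace ℝ (Fin (k + 2)))‖ = 1 := mem_sphere_zero_iff_norm.1 x.2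
    have h1 : ‖(rad L x.1).1‖ + |(rad L x.1).2| = 1 := by
      show nN (rad L x.1) = 1
      rw [nN_rad, hx1]
    show F (rad L x.1) = f x
    rw [hFf _ h1]
    have h2 : rdi L (rad L x.1) ∈ sphere (0 : EuclideanSpace ℝ (Fin (k + 2))) 1 := hmem _ h1
    show (if hp : rdi L (rad L x.1) ∈ sphere (0 : EuclideanSpace ℝ (Fin (k + 2))) 1 then
      f ⟨rdi L (rad L x.1), hp⟩ else f ⟨_, hx0⟩) = f x
    rw [dif_pos h2]
    congr 1
    exact Subtype.ext (rdi_rad L hx1)

theorem ext_zero {Y : Type} [TopologicalSpace Y] (hne : Nonempty Y)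
    (h : ∀ y : Y, Subsingleton (HomotopyGroup.Pi 0 Y y))
    (f : C(sphere (0 : EuclideanSpace ℝ (Fin 1)) 1, Y)) :
    ∃ F : C(closedBall (0 : EuclideanSpace ℝ (Fin 1)) 1, Y),
      ∀ x : sphere (0 : EuclideanSpace ℝ (Fin 1)) 1,
        F ⟨x, sphere_subset_closedBall x.2⟩ = f x := by
  have hn : ∀ x : EuclideanSpace ℝ (Fin 1), ‖x‖ = |x 0| := by
    intro x
    rw [EuclideanSpace.norm_eq, Fin.sum_univ_one, Real.sqrt_sq (norm_nonneg _), Real.norm_eq_abs]
  have hm : ∀ c : ℝ, |c| = 1 → EuclideanSpace.single (0 : Fin 1) c ∈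
      sphere (0 : EuclideanSpace ℝ (Fin 1)) 1 := by
    intro c hc
    rw [mem_sphere_zero_iff_norm, EuclideanSpace.norm_single, Real.norm_eq_abs, hc]
  have hext : ∀ (x : EuclideanSpace ℝ (Fin 1)) (c : ℝ), x 0 = c →
      x = EuclideanSpace.single (0 : Fin 1) c := by
    intro x c hc
    ext i
    rw [Subsingleton.elim i 0, hc]
    simp
  obtain ⟨y0⟩ := hne
  have hs : Subsingleton (ZerothHomotopy Y) := by
    have := h y0
    exact (HomotopyGroup.pi0EquivZerothHomotopy (X := Y) (x := y0)).symm.subsingleton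
  have hj : Joined (f ⟨_, hm (-1) (by norm_num)⟩) (f ⟨_, hm 1 (by norm_num)⟩) :=
    Quotient.exact (Subsingleton.elim (α := ZerothHomotopy Y) (Quotient.mk _ _) (Quotient.mk _ _))
  obtain ⟨γ⟩ := hj
  refine ⟨⟨fun x => γ.extend ((x.1 0 + 1) / 2), ?_⟩, fun x => ?_⟩
  · refine γ.continuous_extend.comp ?_
    have h1 : Continuous fun x : closedBall (0 : EuclideanSpace ℝ (Fin 1)) 1 => x.1 0 :=
      (EuclideanSpace.proj (𝕜 := ℝ) (0 : Fin 1)).continuous.comp continuous_subtype_val
    exact (h1.add continuous_const).div_const _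
  · show γ.extend ((x.1 0 + 1) / 2) = f x
    have hx := mem_sphere_zero_iff_norm.1 x.2
    rw [hn] at hx
    rcases (abs_eq (by norm_num : (0 : ℝ) ≤ 1)).1 hx with h1 | h1
    · rw [h1]
      norm_num
      congr 1
      exact Subtype.ext (hext _ _ h1).symm
    · rw [h1]
      norm_num
      congr 1
      exact Subtype.ext (hext _ _ h1).symm

theorem nconn_euc {Y : Type} [TopologicalSpace Y] (h : NConn 2 Y) : CTB.NConn 2 Y := by
  refine ⟨h.1, fun k hk f => ?_⟩
  match k, hk, f with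
  | 0, _, f => exact ext_zero h.1 (h.2 0 (by norm_num)) f
  | 1, _, f => exact ext_sphere 0 (h.2 1 (by norm_num)) f
  | 2, _, f => exact ext_sphere 1 (h.2 2 (by norm_num)) f
  | k + 3, hk, f => omega

end Pool.Agent.CT
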