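import Pool.Agent.CT.Bar.Defs
import Pool.Agent.CT.Defs

/-!
# CT-NPROD : products with a vector space and homeomorphisms

PLAN. A map `f : sphere → X × V g` has two components; the first extends by the hypothesis, the second
by Tietze's theorem (`ContinuousMap.exists_restrict_eq` / `ContinuousMap.exists_extension` for the closed
embedding of the sphere into the closed ball; `V g = Ix g → ℝ` has `TietzeExtension`) or by the formula
`x ↦ ‖x‖ • f (x / ‖x‖)`. Homeomorphisms: compose.
-/

set_option autoImplicit false

noncomputable section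

open Metric

namespace Pool.Agent.CT

theorem nconn_prod {X : Type} [TopologicalSpace X] (n g : ℕ) (h : CTB.NConn n X) :
    CTB.NConn n (X × V g) := by
  obtain ⟨⟨x0⟩, h⟩ := h
  refine ⟨⟨(x0, 0)⟩, ?_⟩
  intro k hk f
  obtain ⟨g1, hg1⟩ := h k hk (ContinuousMap.fst.comp f)
  let S := sphere (0 : EuclideanSpace ℝ (Fin (k + 1))) 1
  let B := closedBall (0 : EuclideanSpace ℝ (Fin (k + 1))) 1
  let i : S → B := fun x => ⟨x, sphere_subset_closedBall x.2⟩
  have hi : Topology.IsClosedEmbedding i := by
    refine Topology.IsClosedEmbedding.of_continuous_injective_isClosedMap ?_ ?_ ?_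
    · exact Continuous.subtype_mk continuous_subtype_val _
    · intro x y hxy
      have := congrArg (fun z : B => (z : EuclideanSpace ℝ (Fin (k + 1)))) hxy
      exact Subtype.ext this
    · have hc : Continuous i := Continuous.subtype_mk continuous_subtype_val _
      exact hc.isClosedMap
  obtain ⟨g2, hg2⟩ := ContinuousMap.exists_extension (Y := V g) hi
    ((ContinuousMap.snd : C(X × V g, V g)).comp f)
  refine ⟨g1.prodMk g2, ?_⟩
  intro x
  apply Prod.ext
  · exact hg1 x
  · have := congrArg (fun F : C(S, V g) => F x) hg2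
    exact this

theorem nconn_homeo {X Y : Type} [TopologicalSpace X] [TopologicalSpace Y] (n : ℕ) (e : X ≃ₜ Y)
    (h : CTB.NConn n X) : CTB.NConn n Y := by
  obtain ⟨⟨x0⟩, h⟩ := h
  refine ⟨⟨e x0⟩, ?_⟩
  intro k hk f
  obtain ⟨g, hg⟩ := h k hk ((e.symm : C(Y, X)).comp f)
  refine ⟨(e : C(X, Y)).comp g, ?_⟩
  intro x
  have := hg x
  change e (g _) = f x
  rw [this]
  exact e.apply_symm_apply (f x)

end Pool.Agent.CT
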