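import Pool.Agent.CT.ConnR
import Pool.Agent.CT.Alg

/-!
# CT-NOFORM : there is no such form for `g ≥ 3`

PLAN. `alg_main` (Alg.lean) with `i0, i1, i2 = 0, 1, 2 : Fin g`, `H = Ix g → ℤ`, `M = Lam g`,
`om n m = Σ_i (n (i, false) * m (i, true) - n (i, true) * m (i, false)) : ℤ` (its cast is `om (lat n) (lat m)`),
`e c = Pi.single (c, false) 1`, `f c = Pi.single (c, true) 1`,
`W u v w = ⟨wed3 (lat u) (lat v) (lat w), subset_closure ..⟩` (additive in each variable, alternating:
`Matrix.det` properties or `Matrix.det_fin_three` and `ring`),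
`th u v w z = dt (pr κ (lat u)) (pr κ (lat v)) (pr κ (lat w)) (pr κ (lat z))`, `κ = kap hg`
(`hth`: the 4×4 matrix is the identity; `hth0`: the last row is `0`... `th (e 0) (f 0) (e 1) (f 1)`).
For `x, y : Fin g → H` with `SympB om x y` put `E (c, false) = x c`, `E (c, true) = y c`: `SympBasis E`.
R1: `star_R1 E`: `s.w false = wed3 (x c0) (x c1) (y c1)` (a sum with one nonzero term, `wed3 0 _ _ = 0`),
`s.w true = wed3 (y c0) (x c1) (y c1)`, `s.val κ = dt (x c0) (y c0) (x c1) (y c1)`. R3: `star_R3 E`:
`s.w false = wed3 (x c0) (x c1) (y c1) + wed3 (x c0) (x c2) (y c2)`, `s.w true = wed3 (x c1) (x c2) (y c2)`,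
`s.val κ = dt (x c0) (x c1) (x c2) (y c2)` (for `c = c1` the second vector is `0`).
-/

set_option autoImplicit false

noncomputable section

namespace Pool.Agent.CT

variable {g : ℕ}

private def mk2 {A B C : Type*} [AddCommGroup A] [AddCommGroup B] [AddCommGroup C] (f : A → B → C)
    (h1 : ∀ a a' b, f (a + a') b = f a b + f a' b) (h2 : ∀ a b b', f a (b + b') = f a b + f a b') :
    A →+ B →+ C :=
  AddMonoidHom.mk' (fun a => AddMonoidHom.mk' (f a) (h2 a)) (by
    intro a a'
    ext b
    exact h1 a a' b)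

private def mk3 {A B C D : Type*} [AddCommGroup A] [AddCommGroup B] [AddCommGroup C]
    [AddCommGroup D] (f : A → B → C → D)
    (h1 : ∀ a a' b c, f (a + a') b c = f a b c + f a' b c)
    (h2 : ∀ a b b' c, f a (b + b') c = f a b c + f a b' c)
    (h3 : ∀ a b c c', f a b (c + c') = f a b c + f a b c') : A →+ B →+ C →+ D :=
  AddMonoidHom.mk' (fun a => mk2 (f a) (h2 a) (h3 a)) (by
    intro a a'
    ext b c
    exact h1 a a' b c)

private def mk4 {A B C D E : Type*} [AddCommGroup A] [AddCommGroup B] [AddCommGroup C]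
    [AddCommGroup D] [AddCommGroup E] (f : A → B → C → D → E)
    (h1 : ∀ a a' b c d, f (a + a') b c d = f a b c d + f a' b c d)
    (h2 : ∀ a b b' c d, f a (b + b') c d = f a b c d + f a b' c d)
    (h3 : ∀ a b c c' d, f a b (c + c') d = f a b c d + f a b c' d)
    (h4 : ∀ a b c d d', f a b c (d + d') = f a b c d + f a b c d') : A →+ B →+ C →+ D →+ E :=
  AddMonoidHom.mk' (fun a => mk3 (f a) (h2 a) (h3 a) (h4 a)) (by
    intro a a'
    ext b c d
    exact h1 a a' b c d)

private theorem lat_add' (n m : Ix g → ℤ) : lat (n + m) = lat n + lat m := by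
  funext i
  simp [lat]

private theorem lat_zero' : lat (0 : Ix g → ℤ) = 0 := by
  funext i
  simp [lat]

private theorem wed3_add1 (u u' v w : V g) : wed3 (u + u') v w = wed3 u v w + wed3 u' v w := by
  funext i j k
  simp only [wed3, Matrix.det_fin_three, Pi.add_apply]
  simp
  ring

private theorem wed3_add2 (u v v' w : V g) : wed3 u (v + v') w = wed3 u v w + wed3 u v' w := by
  funext i j k
  simp only [wed3, Matrix.det_fin_three, Pi.add_apply]
  simp
  ring

private theorem wed3_add3 (u v w w' : V g) : wed3 u v (w + w') = wed3 u v w + wed3 u v w' := by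
  funext i j k
  simp only [wed3, Matrix.det_fin_three, Pi.add_apply]
  simp
  ring

private theorem wed3_alt1 (u w : V g) : wed3 u u w = 0 := by
  funext i j k
  simp only [wed3, Matrix.det_fin_three, Pi.zero_apply]
  simp
  ring

private theorem wed3_alt2 (u w : V g) : wed3 u w w = 0 := by
  funext i j k
  simp only [wed3, Matrix.det_fin_three, Pi.zero_apply]
  simp
  ring

private theorem wed3_alt3 (u w : V g) : wed3 u w u = 0 := by
  funext i j k
  simp only [wed3, Matrix.det_fin_three, Pi.zero_apply]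
  simp
  ring

private theorem wed3_zero (v w : V g) : wed3 0 v w = 0 := by
  funext i j k
  simp only [wed3, Matrix.det_fin_three, Pi.zero_apply]
  simp

private theorem dt_expand (p q u v : R4) : dt p q u v =
    p 0 * (q 1 * (u 2 * v 3 - u 3 * v 2) - q 2 * (u 1 * v 3 - u 3 * v 1)
      + q 3 * (u 1 * v 2 - u 2 * v 1))
    - p 1 * (q 0 * (u 2 * v 3 - u 3 * v 2) - q 2 * (u 0 * v 3 - u 3 * v 0)
      + q 3 * (u 0 * v 2 - u 2 * v 0))
    + p 2 * (q 0 * (u 1 * v 3 - u 3 * v 1) - q 1 * (u 0 * v 3 - u 3 * v 0)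
      + q 3 * (u 0 * v 1 - u 1 * v 0))
    - p 3 * (q 0 * (u 1 * v 2 - u 2 * v 1) - q 1 * (u 0 * v 2 - u 2 * v 0)
      + q 2 * (u 0 * v 1 - u 1 * v 0)) := by
  unfold dt
  rw [Matrix.det_succ_row_zero]
  simp only [Fin.sum_univ_four, Matrix.det_fin_three]
  simp [Matrix.submatrix, Fin.succAbove, Fin.lt_def]
  ring

private theorem dt_add1 (p p' q u v : R4) : dt (p + p') q u v = dt p q u v + dt p' q u v := by
  simp only [dt_expand, Pi.add_apply]
  ring

private theorem dt_add2 (p q q' u v : R4) : dt p (q + q') u v = dt p q u v + dt p q' u v := by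
  simp only [dt_expand, Pi.add_apply]
  ring

private theorem dt_add3 (p q u u' v : R4) : dt p q (u + u') v = dt p q u v + dt p q u' v := by
  simp only [dt_expand, Pi.add_apply]
  ring

private theorem dt_add4 (p q u v v' : R4) : dt p q u (v + v') = dt p q u v + dt p q u v' := by
  simp only [dt_expand, Pi.add_apply]
  ring

private theorem dt_alt1 (u v w : R4) : dt u u v w = 0 := by
  simp only [dt_expand]
  ring

private theorem dt_alt2 (u v w : R4) : dt u v v w = 0 := by
  simp only [dt_expand]
  ring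

private theorem dt_alt3 (u v w : R4) : dt u v w w = 0 := by
  simp only [dt_expand]
  ring

private theorem dt_zero1 (u v w : R4) : dt 0 u v w = 0 := by
  simp only [dt_expand, Pi.zero_apply]
  ring

private theorem dt_zero2 (u v w : R4) : dt u 0 v w = 0 := by
  simp only [dt_expand, Pi.zero_apply]
  ring

/-- the symplectic form on the lattice -/
private def omZ : (Ix g → ℤ) →+ (Ix g → ℤ) →+ ℤ :=
  mk2 (fun n m => ∑ i : Fin g, (n (i, false) * m (i, true) - n (i, true) * m (i, false)))
    (by
      intro a a' b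
      rw [← Finset.sum_add_distrib]
      refine Finset.sum_congr rfl fun i _ => ?_
      simp only [Pi.add_apply]
      ring)
    (by
      intro a b b'
      rw [← Finset.sum_add_distrib]
      refine Finset.sum_congr rfl fun i _ => ?_
      simp only [Pi.add_apply]
      ring)

private theorem omZ_apply (n m : Ix g → ℤ) : omZ n m =
    ∑ i : Fin g, (n (i, false) * m (i, true) - n (i, true) * m (i, false)) := rfl

private theorem omZ_cast (n m : Ix g → ℤ) : om (lat n) (lat m) = ((omZ n m : ℤ) : ℝ) := by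
  rw [omZ_apply, om]
  push_cast
  rfl

private theorem omZ_alt (n : Ix g → ℤ) : omZ n n = 0 := by
  rw [omZ_apply]
  refine Finset.sum_eq_zero fun i _ => ?_
  ring

private theorem omZ_swap (n m : Ix g → ℤ) : omZ n m = - omZ m n := by
  rw [omZ_apply, omZ_apply, ← Finset.sum_neg_distrib]
  refine Finset.sum_congr rfl fun i _ => ?_
  ring

private theorem std_symp : SympB (omZ : (Ix g → ℤ) →+ (Ix g → ℤ) →+ ℤ)
    (fun c => Pi.single (c, false) 1) (fun c => Pi.single (c, true) 1) := by
  refine ⟨fun i j => ?_, fun i j => ?_, fun i j => ?_⟩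
  · rw [omZ_apply]
    simp [Pi.single_apply, eq_comm]
  · rw [omZ_apply]
    simp [Pi.single_apply]
  · rw [omZ_apply]
    simp [Pi.single_apply]

/-- the basis with pairs `x c, y c` -/
private def EE' (x y : Fin g → Ix g → ℤ) : Ix g → Ix g → ℤ := fun a => if a.2 then y a.1 else x a.1

private theorem EE_symp {x y : Fin g → Ix g → ℤ} (h : SympB omZ x y) : SympBasis (EE' x y) := by
  intro a b
  rw [omZ_cast, omZ_cast]
  congr 1
  have h0 := std_symp (g := g)
  obtain ⟨i, s⟩ := a
  obtain ⟨j, t⟩ := b
  cases s <;> cases t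
  · exact (h.2.1 i j).trans (h0.2.1 i j).symm
  · exact (h.1 i j).trans (h0.1 i j).symm
  · change omZ (y i) (x j) = omZ (Pi.single (i, true) 1) (Pi.single (j, false) 1)
    rw [omZ_swap, omZ_swap (Pi.single (i, true) 1)]
    congr 1
    exact (h.1 j i).trans (h0.1 j i).symm
  · exact (h.2.2 i j).trans (h0.2.2 i j).symm

/-- the trivector -/
private def WW : (Ix g → ℤ) →+ (Ix g → ℤ) →+ (Ix g → ℤ) →+ Lam g :=
  mk3 (fun u v w => ⟨wed3 (lat u) (lat v) (lat w), AddSubgroup.subset_closure ⟨u, v, w, rfl⟩⟩)
    (by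
      intro a a' b c
      ext1
      change wed3 (lat (a + a')) _ _ = wed3 (lat a) _ _ + wed3 (lat a') _ _
      rw [lat_add', wed3_add1])
    (by
      intro a b b' c
      ext1
      change wed3 _ (lat (b + b')) _ = wed3 _ (lat b) _ + wed3 _ (lat b') _
      rw [lat_add', wed3_add2])
    (by
      intro a b c c'
      ext1
      change wed3 _ _ (lat (c + c')) = wed3 _ _ (lat c) + wed3 _ _ (lat c')
      rw [lat_add', wed3_add3])

private theorem WW_val (u v w : Ix g → ℤ) :
    (WW u v w).1 = wed3 (lat u) (lat v) (lat w) := rfl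

/-- the 4-form -/
private def tt (κ : Fin 4 → Ix g) :
    (Ix g → ℤ) →+ (Ix g → ℤ) →+ (Ix g → ℤ) →+ (Ix g → ℤ) →+ ℝ :=
  mk4 (fun u v w z => dt (pr κ (lat u)) (pr κ (lat v)) (pr κ (lat w)) (pr κ (lat z)))
    (by
      intro a a' b c d
      rw [lat_add', map_add, dt_add1])
    (by
      intro a b b' c d
      rw [lat_add', map_add, dt_add2])
    (by
      intro a b c c' d
      rw [lat_add', map_add, dt_add3])
    (by
      intro a b c d d'
      rw [lat_add', map_add, dt_add4])

private theorem tt_apply (κ : Fin 4 → Ix g) (u v w z : Ix g → ℤ) : tt κ u v w z =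
    dt (pr κ (lat u)) (pr κ (lat v)) (pr κ (lat w)) (pr κ (lat z)) := rfl

private theorem pr_lat (κ : Fin 4 → Ix g) (n : Ix g → ℤ) (a : Fin 4) :
    pr κ (lat n) a = (n (κ a) : ℝ) := rfl

theorem kap_inj (hg : 3 ≤ g) : Function.Injective (kap hg) := by
  intro a b h
  fin_cases a <;> fin_cases b <;> simp [kap] at h ⊢

theorem no_form (hg : 3 ≤ g) (J : Lam g →+ Lam g →+ ℝ) (hJ : ∀ u, J u u = 0)
    (h : ∀ (s : Star g) (a b : Lam g), a.1 = s.w false → b.1 = s.w true →
      J a b = s.val (kap hg)) : False := by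
  refine alg_main (g := g) ⟨0, by omega⟩ ⟨1, by omega⟩ ⟨2, by omega⟩ (by simp) (by simp) (by simp)
    omZ omZ_alt (fun c => Pi.single (c, false) 1) (fun c => Pi.single (c, true) 1) std_symp WW
    ?_ ?_ ?_ (tt (kap hg)) ?_ ?_ ?_ ?_ ?_ J hJ ?_ ?_
  · intro u v
    ext1
    rw [WW_val, wed3_alt1]
    rfl
  · intro u v
    ext1
    rw [WW_val, wed3_alt2]
    rfl
  · intro u v
    ext1
    rw [WW_val, wed3_alt3]
    rfl
  · intro u v w
    rw [tt_apply, dt_alt1]
  · intro u v w
    rw [tt_apply, dt_alt2]
  · intro u v w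
    rw [tt_apply, dt_alt3]
  · rw [tt_apply, dt_expand]
    simp [pr_lat, kap, Pi.single_apply]
  · rw [tt_apply, dt_expand]
    simp [pr_lat, kap, Pi.single_apply]
  · intro x y hxy c0 c1 hc
    obtain ⟨s, he, hf, ht⟩ := star_R1 (EE' x y) (EE_symp hxy) c0 c1 hc
    have h1 := h s (WW (x c0) (x c1) (y c1)) (WW (y c0) (x c1) (y c1)) ?_ ?_
    · rw [h1, tt_apply]
      unfold Star.val
      rw [Finset.sum_eq_single c1]
      · rw [hf, ht, he, if_pos rfl, if_pos rfl]
        rfl
      · intro c _ hne
        rw [hf, if_neg hne, lat_zero', map_zero, dt_zero1]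
      · intro hn
        exact absurd (Finset.mem_univ _) hn
    · rw [WW_val]
      funext i j l
      unfold Star.w
      rw [Finset.sum_eq_single c1]
      · rw [hf, he, if_pos rfl]
        rfl
      · intro c _ hne
        rw [hf, if_neg hne, lat_zero', wed3_zero]
        rfl
      · intro hn
        exact absurd (Finset.mem_univ _) hn
    · rw [WW_val]
      funext i j l
      unfold Star.w
      rw [Finset.sum_eq_single c1]
      · rw [ht, he, if_pos rfl]
        rfl
      · intro c _ hne
        rw [ht, if_neg hne, lat_zero', wed3_zero]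
        rfl
      · intro hn
        exact absurd (Finset.mem_univ _) hn
  · intro x y hxy c0 c1 c2 h01 h02 h12
    obtain ⟨s, he, hf, ht⟩ := star_R3 (EE' x y) (EE_symp hxy) c0 c1 c2 h01 h02 h12
    have h1 := h s (WW (x c0) (x c1) (y c1) + WW (x c0) (x c2) (y c2)) (WW (x c1) (x c2) (y c2)) ?_ ?_
    · rw [h1, tt_apply]
      unfold Star.val
      rw [Finset.sum_eq_single c2]
      · rw [hf, ht, he, if_pos (Or.inr rfl), if_pos rfl]
        rfl
      · intro c _ hne
        rw [ht, if_neg hne, lat_zero', map_zero, dt_zero2]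
      · intro hn
        exact absurd (Finset.mem_univ _) hn
    · rw [AddSubgroup.coe_add, WW_val, WW_val]
      funext i j l
      unfold Star.w
      rw [Fintype.sum_eq_add c1 c2 h12]
      · rw [hf, hf, he, if_pos (Or.inl rfl), if_pos (Or.inr rfl)]
        rfl
      · intro c hne
        rw [hf, if_neg (by
          intro hh
          rcases hh with hh | hh
          · exact hne.1 hh
          · exact hne.2 hh), lat_zero', wed3_zero]
        rfl
    · rw [WW_val]
      funext i j l
      unfold Star.w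
      rw [Finset.sum_eq_single c2]
      · rw [ht, he, if_pos rfl]
        rfl
      · intro c _ hne
        rw [ht, if_neg hne, lat_zero', wed3_zero]
        rfl
      · intro hn
        exact absurd (Finset.mem_univ _) hn

end Pool.Agent.CT
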