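import Pool.Agent.CT.ExForm
import Pool.Agent.CT.NoForm
import Pool.Agent.CT.NEuc
import Pool.Agent.CT.NProd
import Pool.Agent.CT.Homeo

/-!
# CT: final assembly
-/

set_option autoImplicit false

noncomputable section

namespace Pool.Agent.CT

variable {g : ℕ}

theorem not_nconn (hg : 3 ≤ g) : ¬ NConn 2 (X g) := by
  intro h
  obtain ⟨e⟩ := exists_homeo (g := g) (by omega)
  have h1 : CTB.NConn 2 (Xt g) := nconn_homeo 2 e.symm (nconn_prod 2 g (nconn_euc h))
  obtain ⟨J, hJ, hs⟩ := exists_form h1 (kap hg) (kap_inj hg)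
  refine no_form hg J hJ fun s a b ha hb => ?_
  have ha' : a = ⟨s.w false, star_w_mem s false⟩ := Subtype.ext ha
  have hb' : b = ⟨s.w true, star_w_mem s true⟩ := Subtype.ext hb
  rw [ha', hb', hs]

theorem nconn_mono {Y : Type} [TopologicalSpace Y] {m n : ℤ} (h : m ≤ n) (hn : NConn n Y) :
    NConn m Y := ⟨hn.1, fun k hk y => hn.2 k (hk.trans h) y⟩

end Pool.Agent.CT
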