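import Pool.Agent.CT.Perio

/-!
# CT-INTMAT : integral of a periodic function along a linear map with integer matrix

PLAN. If the determinant is `0` there is nothing to prove. Otherwise `a, b, c, d` (as vectors `zv a`, ...)
are a basis of `ℝ⁴`. Let `M z = z 0 • zv a + z 1 • zv b + z 2 • zv c + z 3 • zv d` (or on
`(ℝ × ℝ) × (ℝ × ℝ)`), `A v = ∫∫ ρ (M z + v) dz` over the period. For `w : ℝ⁴`, `A (M w) = A 0`:
`z ↦ ρ (M z)` is periodic in every coordinate (`M` has integer columns), so translating `z` by `w` does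
not change the integral over a period (in each variable: `Function.Periodic.intervalIntegral_add_eq`,
or `int_trans`). `M` is onto, so `A v = A 0` for all `v`; averaging over `v ∈ Icc 0 1` and Fubini:
`A 0 = ∫_v A v = ∫_z ∫_v ρ (v + M z) dv dz = ∫_z (∫ ρ) dz = ∫ ρ` (`int_trans`).
-/

set_option autoImplicit false

noncomputable section

open MeasureTheory

namespace Pool.Agent.CT

private theorem cont_intOn {X : Type*} [TopologicalSpace X] [MeasurableSpace X] [OpensMeasurableSpace X]
    [SecondCountableTopology X] {μ : Measure X} [IsFiniteMeasureOnCompacts μ]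
    {K : Set X} (hK : IsCompact K) (hKm : MeasurableSet K) {f : X → ℝ} (hf : Continuous f) :
    IntegrableOn f K μ := by
  obtain ⟨C, hC⟩ := hK.exists_bound_of_continuousOn hf.continuousOn
  have : IsFiniteMeasure (μ.restrict K) := ⟨by
    rw [Measure.restrict_apply_univ]
    exact hK.measure_lt_top⟩
  exact Integrable.of_bound hf.aestronglyMeasurable C
    ((ae_restrict_iff' hKm).2 (Filter.Eventually.of_forall fun x hx => hC x hx))

private theorem int_sq {F : ℝ × ℝ → ℝ} (hF : Continuous F) :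
    ∫ s in Set.Icc (0 : ℝ × ℝ) 1, F s = ∫ x in (0 : ℝ)..1, ∫ y in (0 : ℝ)..1, F (x, y) := by
  have h0 : Set.Icc (0 : ℝ × ℝ) 1 = Set.Icc (0 : ℝ) 1 ×ˢ Set.Icc (0 : ℝ) 1 := by
    rw [Set.Icc_prod_eq]
    rfl
  rw [h0, intervalIntegral.integral_of_le zero_le_one, ← integral_Icc_eq_integral_Ioc]
  have h1 := setIntegral_prod (μ := volume) (ν := volume) F (s := Set.Icc (0 : ℝ) 1)
    (t := Set.Icc (0 : ℝ) 1)
    (cont_intOn (isCompact_Icc.prod isCompact_Icc) (measurableSet_Icc.prod measurableSet_Icc) hF)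
  have h2 : (volume : Measure (ℝ × ℝ)) = (volume : Measure ℝ).prod volume := rfl
  rw [h2, h1]
  refine integral_congr_ae (Filter.Eventually.of_forall fun x => ?_)
  show ∫ y in Set.Icc (0 : ℝ) 1, F (x, y) = ∫ y in (0 : ℝ)..1, F (x, y)
  rw [intervalIntegral.integral_of_le zero_le_one, ← integral_Icc_eq_integral_Ioc]

private theorem per_shift {f : ℝ → ℝ} (hf : Function.Periodic f 1) (w : ℝ) :
    ∫ x in (0 : ℝ)..1, f (x + w) = ∫ x in (0 : ℝ)..1, f x := by
  rw [intervalIntegral.integral_comp_add_right f w, zero_add, add_comm 1 w]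
  have h := hf.intervalIntegral_add_eq w 0
  rw [zero_add] at h
  exact h

private theorem sq_shift {F : ℝ × ℝ → ℝ} (hF : Continuous F)
    (h1 : ∀ x y, F (x + 1, y) = F (x, y)) (h2 : ∀ x y, F (x, y + 1) = F (x, y)) (w : ℝ × ℝ) :
    ∫ s in Set.Icc (0 : ℝ × ℝ) 1, F (s + w) = ∫ s in Set.Icc (0 : ℝ × ℝ) 1, F s := by
  rw [int_sq hF, int_sq (F := fun s => F (s + w)) (hF.comp (continuous_add_const w))]
  have h3 : ∀ x : ℝ, ∫ y in (0 : ℝ)..1, F ((x, y) + w) = ∫ y in (0 : ℝ)..1, F (x + w.1, y) := by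
    intro x
    exact per_shift (f := fun y => F (x + w.1, y)) (fun y => h2 _ _) w.2
  rw [intervalIntegral.integral_congr fun x _ => h3 x]
  refine per_shift (f := fun x => ∫ y in (0 : ℝ)..1, F (x, y)) (fun x => ?_) w.1
  exact intervalIntegral.integral_congr fun y _ => h1 x y

private theorem zv_add' (m k : Fin 4 → ℤ) : zv (m + k) = zv m + zv k := by
  funext i
  simp [zv]

theorem int_mat (ρ : R4 → ℝ) (hρ : Continuous ρ) (hper : Per4 ρ) (a b c d : Fin 4 → ℤ) :
    dt (zv a) (zv b) (zv c) (zv d) * ∫ β in Set.Icc (0 : ℝ × ℝ) 1,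
      ∫ s in Set.Icc (0 : ℝ × ℝ) 1, ρ (β.1 • zv a + β.2 • zv b + s.1 • zv c + s.2 • zv d) =
    dt (zv a) (zv b) (zv c) (zv d) * ∫ x in Set.Icc (0 : R4) 1, ρ x := by
  by_cases hdt : dt (zv a) (zv b) (zv c) (zv d) = 0
  · rw [hdt, zero_mul, zero_mul]
  congr 1
  -- the two-parameter linear maps
  set M : ℝ × ℝ → ℝ × ℝ → R4 := fun β s =>
    β.1 • zv a + β.2 • zv b + s.1 • zv c + s.2 • zv d with hM
  have hMc : Continuous (fun q : (ℝ × ℝ) × (ℝ × ℝ) => M q.1 q.2) := by
    rw [hM]
    fun_prop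
  set B : R4 → ℝ := fun v => ∫ β in Set.Icc (0 : ℝ × ℝ) 1, ∫ s in Set.Icc (0 : ℝ × ℝ) 1,
    ρ (M β s + v) with hB
  have hinner : ∀ v, Continuous fun β : ℝ × ℝ => ∫ s in Set.Icc (0 : ℝ × ℝ) 1, ρ (M β s + v) := by
    intro v
    refine continuous_parametric_integral_of_continuous
      (f := fun (β : ℝ × ℝ) (s : ℝ × ℝ) => ρ (M β s + v)) ?_ isCompact_Icc
    exact hρ.comp (hMc.add continuous_const)
  -- invariance
  have hinv : ∀ (v : R4) (w w' : ℝ × ℝ), B (M w w' + v) = B v := by
    intro v w w'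
    have e1 : ∀ β s, M β s + (M w w' + v) = M (β + w) (s + w') + v := by
      intro β s
      rw [hM]
      simp only [Prod.fst_add, Prod.snd_add, add_smul]
      abel
    show ∫ β in Set.Icc (0 : ℝ × ℝ) 1, ∫ s in Set.Icc (0 : ℝ × ℝ) 1,
      ρ (M β s + (M w w' + v)) = _
    have e2 : ∀ β : ℝ × ℝ, ∫ s in Set.Icc (0 : ℝ × ℝ) 1, ρ (M β s + (M w w' + v)) =
        ∫ s in Set.Icc (0 : ℝ × ℝ) 1, ρ (M (β + w) s + v) := by
      intro β
      simp only [e1]
      refine sq_shift (F := fun s => ρ (M (β + w) s + v)) ?_ ?_ ?_ w'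
      · exact hρ.comp ((hMc.comp (continuous_const.prodMk continuous_id)).add continuous_const)
      · intro x y
        show ρ (M (β + w) (x + 1, y) + v) = ρ (M (β + w) (x, y) + v)
        rw [← hper c (M (β + w) (x, y) + v)]
        congr 1
        rw [hM]
        simp only [add_smul, one_smul]
        abel
      · intro x y
        show ρ (M (β + w) (x, y + 1) + v) = ρ (M (β + w) (x, y) + v)
        rw [← hper d (M (β + w) (x, y) + v)]
        congr 1
        rw [hM]
        simp only [add_smul, one_smul]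
        abel
    rw [integral_congr_ae (Filter.Eventually.of_forall e2)]
    refine sq_shift (F := fun β => ∫ s in Set.Icc (0 : ℝ × ℝ) 1, ρ (M β s + v)) (hinner v) ?_ ?_ w
    · intro x y
      refine integral_congr_ae (Filter.Eventually.of_forall fun s => ?_)
      show ρ (M (x + 1, y) s + v) = ρ (M (x, y) s + v)
      rw [← hper a (M (x, y) s + v)]
      congr 1
      rw [hM]
      simp only [add_smul, one_smul]
      abel
    · intro x y
      refine integral_congr_ae (Filter.Eventually.of_forall fun s => ?_)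
      show ρ (M (x, y + 1) s + v) = ρ (M (x, y) s + v)
      rw [← hper b (M (x, y) s + v)]
      congr 1
      rw [hM]
      simp only [add_smul, one_smul]
      abel
  -- the map is onto
  have hsurj : ∀ v : R4, ∃ w w' : ℝ × ℝ, v = M w w' := by
    intro v
    set A : Matrix (Fin 4) (Fin 4) ℝ := Matrix.of ![zv a, zv b, zv c, zv d] with hA
    have hu : IsUnit A.det := isUnit_iff_ne_zero.2 hdt
    set y : R4 := Matrix.vecMul v A⁻¹ with hy
    have h1 : Matrix.vecMul y A = v := by
      rw [hy, Matrix.vecMul_vecMul, Matrix.nonsing_inv_mul A hu, Matrix.vecMul_one]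
    refine ⟨(y 0, y 1), (y 2, y 3), ?_⟩
    rw [← h1, hM]
    funext i
    simp only [Matrix.vecMul, dotProduct, Fin.sum_univ_four, Pi.add_apply, Pi.smul_apply,
      smul_eq_mul]
    rfl
  have hconst : ∀ v : R4, B v = B 0 := by
    intro v
    obtain ⟨w, w', hw⟩ := hsurj v
    rw [hw]
    have h := hinv 0 w w'
    rwa [add_zero] at h
  -- average over `v`
  have hvol : (volume : Measure R4) (Set.Icc (0 : R4) 1) = 1 := by
    rw [Real.volume_Icc_pi]
    simp
  have hfin : IsFiniteMeasure ((volume : Measure R4).restrict (Set.Icc (0 : R4) 1)) := ⟨by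
    rw [Measure.restrict_apply_univ, hvol]
    exact ENNReal.one_lt_top⟩
  have hfin2 : IsFiniteMeasure ((volume : Measure (ℝ × ℝ)).restrict (Set.Icc (0 : ℝ × ℝ) 1)) := ⟨by
    rw [Measure.restrict_apply_univ]
    exact isCompact_Icc.measure_lt_top⟩
  have hvol2 : (volume : Measure (ℝ × ℝ)).real (Set.Icc (0 : ℝ × ℝ) 1) = 1 := by
    have h := int_sq (F := fun _ => (1 : ℝ)) continuous_const
    simpa using h
  have hvolr : (volume : Measure R4).real (Set.Icc (0 : R4) 1) = 1 := by
    rw [Measure.real, hvol, ENNReal.toReal_one]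
  have h1 : B 0 = ∫ v in Set.Icc (0 : R4) 1, B v := by
    rw [integral_congr_ae (Filter.Eventually.of_forall hconst), integral_const]
    rw [measureReal_restrict_apply_univ, hvolr, one_smul]
  have hswap : ∀ (f : R4 → ℝ × ℝ → ℝ), Continuous (Function.uncurry f) →
      (∃ C, ∀ v y, ‖f v y‖ ≤ C) →
      ∫ v in Set.Icc (0 : R4) 1, ∫ y in Set.Icc (0 : ℝ × ℝ) 1, f v y =
      ∫ y in Set.Icc (0 : ℝ × ℝ) 1, ∫ v in Set.Icc (0 : R4) 1, f v y := by
    rintro f hf ⟨C, hC⟩
    apply integral_integral_swap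
    exact Integrable.of_bound hf.aestronglyMeasurable C
      (Filter.Eventually.of_forall fun q => hC q.1 q.2)
  obtain ⟨C, hC⟩ : ∃ C, ∀ x, ‖ρ x‖ ≤ C := by
    obtain ⟨C, hC⟩ := (isCompact_Icc (a := (0 : R4)) (b := 1)).exists_bound_of_continuousOn
      hρ.continuousOn
    refine ⟨C, fun x => ?_⟩
    have h2 : ρ x = ρ (fun i => Int.fract (x i)) := by
      rw [← hper (fun i => ⌊x i⌋) (fun i => Int.fract (x i))]
      congr 1
      funext i
      show x i = Int.fract (x i) + (⌊x i⌋ : ℝ)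
      rw [Int.fract]
      ring
    rw [h2]
    exact hC _ ⟨fun i => Int.fract_nonneg _, fun i => (Int.fract_lt_one _).le⟩
  have h2 : ∫ v in Set.Icc (0 : R4) 1, B v = ∫ x in Set.Icc (0 : R4) 1, ρ x := by
    have e1 : ∫ v in Set.Icc (0 : R4) 1, B v = ∫ β in Set.Icc (0 : ℝ × ℝ) 1,
        ∫ v in Set.Icc (0 : R4) 1, ∫ s in Set.Icc (0 : ℝ × ℝ) 1, ρ (M β s + v) := by
      refine hswap (fun v β => ∫ s in Set.Icc (0 : ℝ × ℝ) 1, ρ (M β s + v)) ?_ ?_
      · refine continuous_parametric_integral_of_continuous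
          (f := fun (q : R4 × (ℝ × ℝ)) (s : ℝ × ℝ) => ρ (M q.2 s + q.1)) ?_ isCompact_Icc
        have e4 : Continuous (fun q : (R4 × (ℝ × ℝ)) × (ℝ × ℝ) => M q.1.2 q.2) :=
          hMc.comp ((continuous_snd.comp continuous_fst).prodMk continuous_snd)
        exact hρ.comp (e4.add (continuous_fst.comp continuous_fst))
      · refine ⟨C, fun v β => ?_⟩
        have h3 := norm_setIntegral_le_of_norm_le_const (μ := (volume : Measure (ℝ × ℝ)))
          (s := Set.Icc (0 : ℝ × ℝ) 1) (f := fun s => ρ (M β s + v)) (C := C)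
          isCompact_Icc.measure_lt_top (fun s _ => hC _)
        rw [hvol2, mul_one] at h3
        exact h3
    rw [e1]
    have e2 : ∀ β : ℝ × ℝ, ∫ v in Set.Icc (0 : R4) 1, ∫ s in Set.Icc (0 : ℝ × ℝ) 1,
        ρ (M β s + v) = ∫ x in Set.Icc (0 : R4) 1, ρ x := by
      intro β
      rw [hswap (fun v s => ρ (M β s + v)) (by
        have e4 : Continuous (fun q : R4 × (ℝ × ℝ) => M β q.2) :=
          hMc.comp (continuous_const.prodMk continuous_snd)
        exact hρ.comp (e4.add continuous_fst)) ⟨C, fun v s => hC _⟩]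
      have e3 : ∀ s : ℝ × ℝ, ∫ v in Set.Icc (0 : R4) 1, ρ (M β s + v) =
          ∫ x in Set.Icc (0 : R4) 1, ρ x := by
        intro s
        have h4 := int_trans ρ hper (cont_intOn isCompact_Icc measurableSet_Icc hρ) (M β s)
        rw [← h4]
        exact integral_congr_ae (Filter.Eventually.of_forall fun v => by
          show ρ (M β s + v) = ρ (v + M β s)
          rw [add_comm])
      rw [integral_congr_ae (Filter.Eventually.of_forall e3), integral_const,
        measureReal_restrict_apply_univ, hvol2, one_smul]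
    rw [integral_congr_ae (Filter.Eventually.of_forall e2), integral_const,
      measureReal_restrict_apply_univ, hvol2, one_smul]
  have h3 : B 0 = ∫ β in Set.Icc (0 : ℝ × ℝ) 1, ∫ s in Set.Icc (0 : ℝ × ℝ) 1, ρ (M β s) := by
    rw [hB]
    simp only [add_zero]
  rw [← h2, ← h1, h3]

end Pool.Agent.CT
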