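import Pool.Agent.CT.Perio

/-!
# CT-MOLL : an integer valued function with vanishing derivative near the lattice

PLAN. Put `L f = ∫_{Icc 0 1} f n` for continuous periodic `f`. (0) We may assume `δ ≤ 1/2`?  (not needed
if the translation argument is used directly.)
(1) Translation: let `f` be smooth periodic with `Supp4 r f`, `r < δ`; for `‖v‖ < δ - r` the function
`s ↦ L (f (· - s v))` has derivative `- L (dr (f (· - s v)) v) = 0` for `s ∈ [0, 1]`
(`Supp4 δ (f (· - s v))`; differentiation under the integral), so `L (f (· - v)) = L f`.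
(2) For `0 < η < δ` let `φ_η` be a smooth periodic function with `Supp4 η φ_η`, `φ_η ≥ 0`, integral 1
over a period (periodisation of a bump function, `η < 1/2`). For `η < δ - ε`:
`L ρ = ∫_v φ_η (v) L (ρ (· - v)) dv` (only `v` near the lattice matter, and `L (ρ (· - v))` is periodic
in `v`) `= L (ρ * φ_η) = ∫_v ρ (v) L (φ_η (· - v)) dv = ∫_v ρ (v) c_η dv = c_η`, where
`c_η = L (φ_η (· - v))` for all `v` with `‖v‖ < δ - η` (by (1); all `v` in the support of `ρ`, up to the
lattice, satisfy `‖v‖ < ε < δ - η`).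
(3) `c_η = ∫ φ_η (x - v) n (x) dx → n (v)` as `η → 0` for almost every `v` (Lebesgue points:
`ContDiffBump.ae_convolution_tendsto_right_of_locallyIntegrable`, or Besicovitch/Vitali
`ae_tendsto_average`); choose one such `v` with `‖v‖ < ε/2`: `L ρ = c_η` is a constant (for small `η`),
hence `L ρ = n v`.
(Alternative: choose `φ_η` as the (smooth) periodisation of Mathlib's `ContDiffBump`; work on the
ball `Metric.ball 0 δ` with functions of compact support and unfold by `int_unfold`.)
-/

set_option autoImplicit false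

noncomputable section

open MeasureTheory
open scoped ContDiff

namespace Pool.Agent.CT

private def rd (x : R4) : Fin 4 → ℤ := fun a => round (x a)

private def perz (g : R4 → ℝ) (x : R4) : ℝ := g (x - zv (rd x))

private theorem zv_add (m m' : Fin 4 → ℤ) : zv (m + m') = zv m + zv m' := by
  funext a
  simp [zv]

private theorem zv_zero : zv 0 = 0 := by
  funext a
  simp [zv]

private theorem rd_add (x : R4) (m : Fin 4 → ℤ) : rd (x + zv m) = rd x + m := by
  funext a
  exact round_add_intCast (x a) (m a)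

private theorem perz_per (g : R4 → ℝ) : Per4 (perz g) := by
  intro m x
  unfold perz
  rw [rd_add, zv_add]
  congr 1
  abel

private theorem coord_le (x : R4) (m : Fin 4 → ℤ) (a : Fin 4) : |x a - m a| ≤ ‖x - zv m‖ :=
  norm_le_pi_norm (x - zv m) a

private theorem rd_eq {x : R4} {m : Fin 4 → ℤ} (h : ‖x - zv m‖ < 1 / 2) : rd x = m := by
  funext a
  have h1 := (coord_le x m a).trans_lt h
  rw [abs_lt] at h1
  exact round_eq_iff.2 ⟨by linarith [h1.1], by linarith [h1.2]⟩

private theorem far' {x : R4} {r : ℝ} (hr : r < 1 / 2) (a : Fin 4) (ha : ∀ k : ℤ, 1 / 2 ≤ |x a - k|) :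
    ∀ᶠ y in nhds x, r < ‖y - zv (rd y)‖ := by
  filter_upwards [Metric.ball_mem_nhds x (show 0 < 1 / 2 - r by linarith)] with y hy
  rw [Metric.mem_ball, dist_eq_norm] at hy
  have h1 : |y a - x a| ≤ ‖y - x‖ := norm_le_pi_norm (y - x) a
  have h2 := ha (rd y a)
  have h3 : |x a - (rd y a : ℝ)| ≤ |y a - x a| + |y a - rd y a| := by
    have e : x a - (rd y a : ℝ) = -(y a - x a) + (y a - rd y a) := by ring
    rw [e]
    refine (abs_add_le _ _).trans ?_
    rw [abs_neg]
  have h4 := coord_le y (rd y) a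
  linarith

private theorem far {x : R4} {r : ℝ} (hr : r < 1 / 2) (h : ¬ ‖x - zv (rd x)‖ < 1 / 2) :
    ∀ᶠ y in nhds x, r < ‖y - zv (rd y)‖ := by
  have h1 : ∃ a, 1 / 2 ≤ |x a - rd x a| := by
    by_contra hc
    push Not at hc
    apply h
    rw [pi_norm_lt_iff (by norm_num)]
    intro a
    exact hc a
  obtain ⟨a, ha⟩ := h1
  exact far' hr a fun k => ha.trans (round_le (x a) k)

private theorem perz_smooth {g : R4 → ℝ} (hg : ContDiff ℝ ∞ g) {r : ℝ} (hr : r < 1 / 2)
    (hg0 : ∀ x, r < ‖x‖ → g x = 0) : ContDiff ℝ ∞ (perz g) := by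
  rw [contDiff_iff_contDiffAt]
  intro x
  by_cases h : ‖x - zv (rd x)‖ < 1 / 2
  · have h1 : perz g =ᶠ[nhds x] fun y => g (y - zv (rd x)) := by
      have h2 : ∀ᶠ y in nhds x, ‖y - zv (rd x)‖ < 1 / 2 := by
        have h3 : Continuous fun y : R4 => ‖y - zv (rd x)‖ := by fun_prop
        exact h3.continuousAt.eventually_lt continuousAt_const h
      filter_upwards [h2] with y hy
      unfold perz
      rw [rd_eq hy]
    have h3 : ContDiff ℝ ∞ fun y => g (y - zv (rd x)) := hg.comp (contDiff_id.sub contDiff_const)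
    exact h3.contDiffAt.congr_of_eventuallyEq h1
  · have h1 : perz g =ᶠ[nhds x] fun _ => 0 := by
      filter_upwards [far hr h] with y hy
      exact hg0 _ hy
    exact contDiffAt_const.congr_of_eventuallyEq h1

private theorem half_int {t : ℝ} (h : |t| = 1 / 2) (k : ℤ) : 1 / 2 ≤ |t - k| := by
  rcases abs_eq (by norm_num : (0 : ℝ) ≤ 1 / 2) |>.1 h with h1 | h1
  · rcases le_or_gt k 0 with hk | hk
    · have : (k : ℝ) ≤ 0 := by exact_mod_cast hk
      exact le_trans (by linarith) (le_abs_self _)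
    · have h2 : (1 : ℤ) ≤ k := hk
      have : (1 : ℝ) ≤ k := by exact_mod_cast h2
      exact le_trans (by linarith) (neg_le_abs _)
  · rcases le_or_gt 0 k with hk | hk
    · have : (0 : ℝ) ≤ k := by exact_mod_cast hk
      exact le_trans (by linarith) (neg_le_abs _)
    · have h2 : k ≤ -1 := by omega
      have : (k : ℝ) ≤ -1 := by exact_mod_cast h2
      exact le_trans (by linarith) (le_abs_self _)

/-- near the points of the closed ball of radius `1/2` -/
private theorem perz_near {g : R4 → ℝ} {r : ℝ} (hr : r < 1 / 2)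
    (hg0 : ∀ x, r < ‖x‖ → g x = 0) {x : R4} (hx : ‖x‖ ≤ 1 / 2) : perz g =ᶠ[nhds x] g := by
  rcases hx.lt_or_eq with h | h
  · have h2 : ∀ᶠ y in nhds x, ‖y‖ < 1 / 2 :=
      continuous_norm.continuousAt.eventually_lt continuousAt_const h
    filter_upwards [h2] with y hy
    unfold perz
    have h3 : rd y = 0 := by
      apply rd_eq
      rw [zv_zero, sub_zero]
      exact hy
    rw [h3, zv_zero, sub_zero]
  · have h1 : ∃ a, |x a| = 1 / 2 := by
      by_contra hc
      push Not at hc
      have h2 : ‖x‖ < 1 / 2 := by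
        rw [pi_norm_lt_iff (by norm_num)]
        intro a
        refine lt_of_le_of_ne ?_ (hc a)
        rw [← h]
        exact norm_le_pi_norm x a
      linarith
    obtain ⟨a, ha⟩ := h1
    have h2 := far' hr a (half_int ha)
    have h3 : ∀ᶠ y in nhds x, r < ‖y‖ := by
      have h4 : r < ‖x‖ := by rw [h]; exact hr
      exact continuousAt_const.eventually_lt continuous_norm.continuousAt h4
    filter_upwards [h2, h3] with y hy hy'
    unfold perz
    rw [hg0 _ hy, hg0 _ hy']

section integr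

variable {n : R4 → ℤ}

private theorem cube_int (hper : ∀ (m : Fin 4 → ℤ) x, n (x + zv m) = n x)
    (hint : IntegrableOn (fun v => (n v : ℝ)) (Set.Icc 0 1)) (m : Fin 4 → ℤ) :
    IntegrableOn (fun v => (n v : ℝ)) (Set.Icc (zv m) (zv m + 1)) := by
  have h1 := (measurePreserving_add_right (volume : Measure R4) (zv m)).integrableOn_comp_preimage
    (MeasurableEquiv.addRight (zv m)).measurableEmbedding (f := fun v => (n v : ℝ))
    (s := Set.Icc (zv m) (zv m + 1))
  rw [← h1]
  have h2 : (fun x => x + zv m) ⁻¹' Set.Icc (zv m) (zv m + 1) = Set.Icc 0 1 := by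
    ext y
    simp only [Set.mem_preimage, Set.mem_Icc, le_add_iff_nonneg_left]
    rw [add_comm (zv m) 1, add_le_add_iff_right]
  rw [h2]
  have h3 : (fun v => (n v : ℝ)) ∘ (fun x => x + zv m) = fun v => (n v : ℝ) := by
    funext y
    show ((n (y + zv m) : ℤ) : ℝ) = n y
    rw [hper]
  rw [h3]
  exact hint

private theorem loc_int (hper : ∀ (m : Fin 4 → ℤ) x, n (x + zv m) = n x)
    (hint : IntegrableOn (fun v => (n v : ℝ)) (Set.Icc 0 1)) :
    LocallyIntegrable (fun v => (n v : ℝ)) := by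
  intro x
  set m0 : Fin 4 → ℤ := fun a => ⌊x a⌋ with hm0
  refine ⟨⋃ m ∈ Set.Icc (m0 - 1) (m0 + 1), Set.Icc (zv m) (zv m + 1), ?_, ?_⟩
  · refine Filter.mem_of_superset (Metric.ball_mem_nhds x (show (0 : ℝ) < 1 / 2 by norm_num)) ?_
    intro y hy
    rw [Metric.mem_ball, dist_eq_norm] at hy
    have hc : ∀ a, |y a - x a| < 1 / 2 := fun a => (norm_le_pi_norm (y - x) a).trans_lt hy
    rw [Set.mem_iUnion₂]
    refine ⟨fun a => ⌊y a⌋, ⟨?_, ?_⟩, ⟨?_, ?_⟩⟩
    · intro a
      show ⌊x a⌋ - 1 ≤ ⌊y a⌋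
      rw [Int.le_floor]
      have h1 := abs_lt.1 (hc a)
      have h2 := Int.floor_le (x a)
      push_cast
      linarith [h1.1]
    · intro a
      show ⌊y a⌋ ≤ ⌊x a⌋ + 1
      have h1 := abs_lt.1 (hc a)
      have h2 := Int.lt_floor_add_one (x a)
      have h3 : ⌊y a⌋ < ⌊x a⌋ + 2 := by
        rw [Int.floor_lt]
        push_cast
        linarith [h1.2]
      omega
    · intro a
      exact Int.floor_le (y a)
    · intro a
      exact (Int.lt_floor_add_one (y a)).le
  · rw [integrableOn_finite_biUnion (Set.finite_Icc _ _)]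
    intro m _
    exact cube_int hper hint m

private theorem mul_int (hper : ∀ (m : Fin 4 → ℤ) x, n (x + zv m) = n x)
    (hint : IntegrableOn (fun v => (n v : ℝ)) (Set.Icc 0 1)) {f : R4 → ℝ} (hf : Continuous f)
    {K : Set R4} (hK : IsCompact K) : IntegrableOn (fun x => f x * n x) K :=
  ((loc_int hper hint).integrableOn_isCompact hK).continuousOn_mul hf.continuousOn hK

private theorem shift_int (hper : ∀ (m : Fin 4 → ℤ) x, n (x + zv m) = n x)
    (hint : IntegrableOn (fun v => (n v : ℝ)) (Set.Icc 0 1)) {f : R4 → ℝ} (hf : Continuous f) (p : R4) :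
    IntegrableOn (fun x => f (x + p) * n (x + p)) (Set.Icc 0 1) := by
  have h1 := (measurePreserving_add_right (volume : Measure R4) p).integrableOn_comp_preimage
    (MeasurableEquiv.addRight p).measurableEmbedding (f := fun x => f x * n x)
    (s := (fun x => x + p) '' Set.Icc 0 1)
  have h2 : (fun x => x + p) ⁻¹' ((fun x => x + p) '' Set.Icc (0 : R4) 1) = Set.Icc 0 1 :=
    Set.preimage_image_eq _ (add_left_injective p)
  rw [h2] at h1
  exact h1.2 (mul_int hper hint hf (isCompact_Icc.image (continuous_id.add continuous_const)))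

end integr

private theorem fderiv_shift (f : R4 → ℝ) (p x : R4) :
    fderiv ℝ (fun y => f (y + p)) x = fderiv ℝ f (x + p) := fderiv_comp_add_right p

private theorem dr_cont {f : R4 → ℝ} (hf : ContDiff ℝ ∞ f) (v : R4) : Continuous (dr f v) := by
  have h := hf.continuous_fderiv (by simp)
  exact h.clm_apply continuous_const

private theorem test_zero {n : R4 → ℤ} (hper : ∀ (m : Fin 4 → ℤ) x, n (x + zv m) = n x)
    (hint : IntegrableOn (fun v => (n v : ℝ)) (Set.Icc 0 1)) {δ : ℝ}
    (hn : ∀ f : R4 → ℝ, ContDiff ℝ ∞ f → Per4 f → Supp4 δ f → ∀ v,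
      ∫ x in Set.Icc 0 1, dr f v x * n x = 0) {g : R4 → ℝ} (hg : ContDiff ℝ ∞ g) {r : ℝ} {p : R4}
    (hr : r < 1 / 2) (hg0 : ∀ x, r < ‖x - p‖ → g x = 0) (hp : ‖p‖ + r < δ) (v : R4) :
    ∫ x, dr g v x * n x = 0 := by
  set g0 : R4 → ℝ := fun x => g (x + p) with hg0'
  have hg0s : ContDiff ℝ ∞ g0 := hg.comp (contDiff_id.add contDiff_const)
  have hg0z : ∀ x, r < ‖x‖ → g0 x = 0 := by
    intro x hx
    apply hg0
    rw [add_sub_cancel_right]
    exact hx
  set f0 : R4 → ℝ := perz g0 with hf0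
  have hf0s : ContDiff ℝ ∞ f0 := perz_smooth hg0s hr hg0z
  set f : R4 → ℝ := fun x => f0 (x + -p) with hf
  have hfs : ContDiff ℝ ∞ f := hf0s.comp (contDiff_id.add contDiff_const)
  have hfper : Per4 f := by
    intro m x
    show f0 (x + zv m + -p) = f0 (x + -p)
    have e : x + zv m + -p = x + -p + zv m := by abel
    rw [e]
    exact perz_per g0 m (x + -p)
  have hfsupp : Supp4 δ f := by
    intro x hx
    refine ⟨rd (x + -p), ?_⟩
    have h1 : ¬ r < ‖x + -p - zv (rd (x + -p))‖ := fun h => hx (hg0z _ h)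
    push Not at h1
    have e : x - zv (rd (x + -p)) = (x + -p - zv (rd (x + -p))) + p := by abel
    rw [e]
    exact (norm_add_le _ _).trans_lt (by linarith)
  have h0 := hn f hfs hfper hfsupp v
  have hdper : ∀ (m : Fin 4 → ℤ) x, dr f v (x + zv m) = dr f v x := by
    intro m x
    have e : (fun y => f (y + zv m)) = f := funext fun y => hfper m y
    show fderiv ℝ f (x + zv m) v = fderiv ℝ f x v
    rw [← fderiv_shift f (zv m) x, e]
  have hFper : Per4 (fun x => dr f v x * n x) := by
    intro m x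
    show dr f v (x + zv m) * n (x + zv m) = dr f v x * n x
    rw [hdper, hper]
  have hdc := dr_cont hfs v
  have h1 := int_trans (fun x => dr f v x * n x) hFper (mul_int hper hint hdc isCompact_Icc) p
  have hGper : Per4 (fun x => dr f v (x + p) * n (x + p)) := by
    intro m x
    have e : x + zv m + p = x + p + zv m := by abel
    show dr f v (x + zv m + p) * n (x + zv m + p) = dr f v (x + p) * n (x + p)
    rw [e, hdper, hper]
  have h2 := int_unfold (fun x => dr f v (x + p) * n (x + p)) hGper (shift_int hper hint hdc p)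
  rw [h1, h0] at h2
  -- replace f by g
  have hder : ∀ x, ‖x‖ ≤ 1 / 2 → dr f v (x + p) = dr g v (x + p) := by
    intro x hx
    have e1 : fderiv ℝ f (x + p) = fderiv ℝ f0 x := by
      rw [hf, fderiv_shift f0 (-p) (x + p)]
      congr 1
      abel
    have e2 : fderiv ℝ f0 x = fderiv ℝ g0 x := (perz_near hr hg0z hx).fderiv_eq
    have e3 : fderiv ℝ g0 x = fderiv ℝ g (x + p) := fderiv_shift g p x
    show fderiv ℝ f (x + p) v = fderiv ℝ g (x + p) v
    rw [e1, e2, e3]
  have h3 : ∫ x in Metric.closedBall (0 : R4) (1 / 2), dr f v (x + p) * n (x + p) =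
      ∫ x in Metric.closedBall (0 : R4) (1 / 2), dr g v (x + p) * n (x + p) := by
    apply setIntegral_congr_fun Metric.isClosed_closedBall.measurableSet
    intro x hx
    rw [mem_closedBall_zero_iff] at hx
    show dr f v (x + p) * n (x + p) = dr g v (x + p) * n (x + p)
    rw [hder x hx]
  have h4 : ∫ x in Metric.closedBall (0 : R4) (1 / 2), dr g v (x + p) * n (x + p) =
      ∫ x, dr g v (x + p) * n (x + p) := by
    apply setIntegral_eq_integral_of_forall_compl_eq_zero
    intro x hx
    rw [mem_closedBall_zero_iff] at hx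
    push Not at hx
    have e1 : fderiv ℝ g (x + p) = fderiv ℝ g0 x := (fderiv_shift g p x).symm
    have e2 : g0 =ᶠ[nhds x] fun _ => 0 := by
      have h5 : ∀ᶠ y in nhds x, r < ‖y‖ :=
        continuousAt_const.eventually_lt continuous_norm.continuousAt (hr.trans hx)
      filter_upwards [h5] with y hy
      exact hg0z y hy
    show fderiv ℝ g (x + p) v * n (x + p) = 0
    rw [e1, e2.fderiv_eq]
    simp
  have h5 : ∫ x, dr g v (x + p) * n (x + p) = ∫ x, dr g v x * n x :=
    integral_add_right_eq_self (fun x => dr g v x * (n x : ℝ)) p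
  rw [← h5, ← h4, ← h3, ← h2]

private theorem conv_const {n : R4 → ℤ} (hper : ∀ (m : Fin 4 → ℤ) x, n (x + zv m) = n x)
    (hint : IntegrableOn (fun v => (n v : ℝ)) (Set.Icc 0 1)) {δ : ℝ}
    (hn : ∀ f : R4 → ℝ, ContDiff ℝ ∞ f → Per4 f → Supp4 δ f → ∀ v,
      ∫ x in Set.Icc 0 1, dr f v x * n x = 0) {ψ : R4 → ℝ} (hψ : ContDiff ℝ ∞ ψ) {r ε : ℝ}
    (hr : r < 1 / 2) (hψ0 : ∀ x, r < ‖x‖ → ψ x = 0) (hε : ε + r < δ) {x y : R4} (hx : ‖x‖ < ε)
    (hy : ‖y‖ < ε) :
    convolution ψ (fun v => (n v : ℝ)) (ContinuousLinearMap.lsmul ℝ ℝ) volume x =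
      convolution ψ (fun v => (n v : ℝ)) (ContinuousLinearMap.lsmul ℝ ℝ) volume y := by
  have hloc := loc_int hper hint
  have hcs : HasCompactSupport ψ := by
    apply HasCompactSupport.intro (isCompact_closedBall (0 : R4) r)
    intro z hz
    rw [mem_closedBall_zero_iff] at hz
    push Not at hz
    exact hψ0 z hz
  have hC1 : ContDiff ℝ 1 ψ := hψ.of_le (by exact_mod_cast le_top)
  have hD := fun z => hcs.hasFDerivAt_convolution_left (ContinuousLinearMap.lsmul ℝ ℝ) hC1 hloc z
  have hzero : ∀ z ∈ Metric.ball (0 : R4) ε, fderiv ℝ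
      (convolution ψ (fun v => (n v : ℝ)) (ContinuousLinearMap.lsmul ℝ ℝ) volume) z = 0 := by
    intro z hz
    rw [mem_ball_zero_iff] at hz
    rw [(hD z).fderiv]
    ext v
    have hci : ConvolutionExistsAt (fderiv ℝ ψ) (fun v => (n v : ℝ)) z
        (ContinuousLinearMap.precompL R4 (ContinuousLinearMap.lsmul ℝ ℝ : ℝ →L[ℝ] ℝ →L[ℝ] ℝ))
        volume :=
      HasCompactSupport.convolutionExists_left _ (hcs.fderiv ℝ)
        (hC1.continuous_fderiv (by norm_num)) hloc z
    unfold ConvolutionExistsAt at hci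
    rw [convolution_def, ContinuousLinearMap.integral_apply hci v]
    have e1 : ∀ t, ((ContinuousLinearMap.precompL R4
        (ContinuousLinearMap.lsmul ℝ ℝ : ℝ →L[ℝ] ℝ →L[ℝ] ℝ)) (fderiv ℝ ψ t)
        (n (z - t) : ℝ)) v = fderiv ℝ ψ t v * n (z - t) := fun t => rfl
    simp only [e1]
    have e2 : ∫ t, fderiv ℝ ψ t v * n (z - t) = ∫ t, fderiv ℝ ψ (z - t) v * n (z - (z - t)) :=
      (integral_sub_left_eq_self (fun t => fderiv ℝ ψ t v * (n (z - t) : ℝ)) volume z).symm
    rw [e2]
    set g : R4 → ℝ := fun t => ψ (z - t) with hg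
    have hgs : ContDiff ℝ ∞ g := hψ.comp (contDiff_const.sub contDiff_id)
    have hgd : ∀ t, dr g v t = -fderiv ℝ ψ (z - t) v := by
      intro t
      have h1 : HasFDerivAt (fun t : R4 => z - t) (-ContinuousLinearMap.id ℝ R4) t :=
        (hasFDerivAt_id t).const_sub z
      have h2 : HasFDerivAt ψ (fderiv ℝ ψ (z - t)) (z - t) :=
        ((hC1.differentiable (by norm_num)) (z - t)).hasFDerivAt
      have h3 := (h2.comp t h1).fderiv
      show fderiv ℝ g t v = -fderiv ℝ ψ (z - t) v
      have h4 : fderiv ℝ g t = (fderiv ℝ ψ (z - t)).comp (-ContinuousLinearMap.id ℝ R4) := h3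
      rw [h4]
      simp
    have h6 := test_zero hper hint hn hgs (p := z) hr (by
      intro t ht
      apply hψ0
      rw [norm_sub_rev]
      exact ht) (by linarith) v
    simp only [hgd] at h6
    have h7 : ∀ t, fderiv ℝ ψ (z - t) v * (n (z - (z - t)) : ℝ) = fderiv ℝ ψ (z - t) v * n t := by
      intro t
      rw [sub_sub_cancel]
    simp only [h7]
    have h8 : ∫ t, -fderiv ℝ ψ (z - t) v * (n t : ℝ) = -∫ t, fderiv ℝ ψ (z - t) v * (n t : ℝ) := by
      rw [← integral_neg]
      congr 1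
      funext t
      ring
    rw [h8] at h6
    have h9 : ∫ t, fderiv ℝ ψ (z - t) v * (n t : ℝ) = 0 := by linarith
    rw [h9]
    rfl
  have hdiff : DifferentiableOn ℝ
      (convolution ψ (fun v => (n v : ℝ)) (ContinuousLinearMap.lsmul ℝ ℝ) volume)
      (Metric.ball (0 : R4) ε) := fun z _ => (hD z).differentiableAt.differentiableWithinAt
  refine (convex_ball (0 : R4) ε).is_const_of_fderivWithin_eq_zero hdiff ?_
    (mem_ball_zero_iff.2 hx) (mem_ball_zero_iff.2 hy)
  intro z hz
  rw [fderivWithin_of_isOpen Metric.isOpen_ball hz]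
  exact hzero z hz

private theorem ae_const {n : R4 → ℤ} (hper : ∀ (m : Fin 4 → ℤ) x, n (x + zv m) = n x)
    (hint : IntegrableOn (fun v => (n v : ℝ)) (Set.Icc 0 1)) {ε δ : ℝ} (hε : 0 < ε) (hεδ : ε < δ)
    (hn : ∀ f : R4 → ℝ, ContDiff ℝ ∞ f → Per4 f → Supp4 δ f → ∀ v,
      ∫ x in Set.Icc 0 1, dr f v x * n x = 0) :
    ∃ c : ℤ, ∀ᵐ x : R4, ‖x‖ < ε → n x = c := by
  have hpos : ∀ i : ℕ, (0 : ℝ) < 1 / ((i : ℝ) + 4) := fun i => by positivity
  let φ : ℕ → ContDiffBump (0 : R4) := fun i =>
    ⟨1 / ((i : ℝ) + 4) / 2, 1 / ((i : ℝ) + 4), by have := hpos i; positivity, by have := hpos i; linarith⟩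
  have hlim : Filter.Tendsto (fun i : ℕ => 1 / ((i : ℝ) + 4)) Filter.atTop (nhds 0) := by
    apply Filter.Tendsto.div_atTop tendsto_const_nhds
    exact Filter.tendsto_atTop_add_const_right _ _ tendsto_natCast_atTop_atTop
  have hconv := ContDiffBump.ae_convolution_tendsto_right_of_locallyIntegrable (φ := φ) (K := 2)
    (l := Filter.atTop) (μ := (volume : Measure R4)) hlim
    (Filter.Eventually.of_forall fun i => by
      show 1 / ((i : ℝ) + 4) ≤ 2 * (1 / ((i : ℝ) + 4) / 2)
      linarith) (loc_int hper hint)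
  -- a good point in the ball
  have hex : ∃ x0 : R4, ‖x0‖ < ε ∧ Filter.Tendsto (fun i => convolution ((φ i).normed volume)
      (fun v => (n v : ℝ)) (ContinuousLinearMap.lsmul ℝ ℝ) volume x0) Filter.atTop
      (nhds (n x0 : ℝ)) := by
    by_contra hc
    push Not at hc
    have h1 : ∀ᵐ x : R4, x ∉ Metric.ball (0 : R4) ε := by
      filter_upwards [hconv] with x hx hxb
      rw [mem_ball_zero_iff] at hxb
      exact hc x hxb hx
    have h2 : volume (Metric.ball (0 : R4) ε) = 0 := by
      have h3 := measure_eq_zero_iff_ae_notMem.2 h1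
      exact h3
    exact (Metric.measure_ball_pos volume (0 : R4) hε).ne' h2
  obtain ⟨x0, hx0, hx0c⟩ := hex
  refine ⟨n x0, ?_⟩
  filter_upwards [hconv] with x hx hxε
  have hev : ∀ᶠ i in Filter.atTop, convolution ((φ i).normed volume) (fun v => (n v : ℝ))
      (ContinuousLinearMap.lsmul ℝ ℝ) volume x = convolution ((φ i).normed volume)
      (fun v => (n v : ℝ)) (ContinuousLinearMap.lsmul ℝ ℝ) volume x0 := by
    filter_upwards [hlim.eventually (gt_mem_nhds (show (0 : ℝ) < δ - ε by linarith))] with i hi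
    refine conv_const hper hint hn (φ i).contDiff_normed (r := 1 / ((i : ℝ) + 4)) ?_ ?_
      (by linarith) hxε hx0
    · have h4 : (0 : ℝ) ≤ i := Nat.cast_nonneg i
      rw [div_lt_div_iff₀ (by positivity) (by norm_num)]
      linarith
    · intro z hz
      by_contra hne
      have h5 : z ∈ Function.support ((φ i).normed volume) := hne
      rw [(φ i).support_normed_eq] at h5
      rw [mem_ball_zero_iff] at h5
      have h6 : (φ i).rOut = 1 / ((i : ℝ) + 4) := rfl
      rw [h6] at h5
      linarith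
  have h7 : (n x : ℝ) = n x0 := tendsto_nhds_unique (hx.congr' hev) hx0c
  exact_mod_cast h7

theorem moll (n : R4 → ℤ) (hper : ∀ (m : Fin 4 → ℤ) x, n (x + zv m) = n x)
    (hint : IntegrableOn (fun v => (n v : ℝ)) (Set.Icc 0 1)) (ε δ : ℝ) (hε : 0 < ε) (hεδ : ε < δ)
    (hn : ∀ f : R4 → ℝ, ContDiff ℝ ∞ f → Per4 f → Supp4 δ f → ∀ v,
      ∫ x in Set.Icc 0 1, dr f v x * n x = 0) (ρ : R4 → ℝ) (hρ : Bump ε ρ) :
    ∃ m : ℤ, ∫ x in Set.Icc 0 1, ρ x * n x = m := by
  obtain ⟨c, hc⟩ := ae_const hper hint hε hεδ hn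
  refine ⟨c, ?_⟩
  have h1 : ∀ᵐ x : R4, ∀ m : Fin 4 → ℤ, ‖x - zv m‖ < ε → n (x - zv m) = c := by
    rw [ae_all_iff]
    intro m
    have h2 : Measure.QuasiMeasurePreserving (fun x : R4 => x - zv m) volume volume :=
      (measurePreserving_sub_right (volume : Measure R4) (zv m)).quasiMeasurePreserving
    exact h2.ae hc
  have h3 : ∀ᵐ x : R4, ρ x * n x = ρ x * c := by
    filter_upwards [h1] with x hx
    by_cases h : ρ x = 0
    · rw [h, zero_mul, zero_mul]
    · obtain ⟨m, hm⟩ := hρ.supp x h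
      have h4 := hx m hm
      have h5 := hper m (x - zv m)
      rw [sub_add_cancel] at h5
      rw [h5, h4]
  have h6 : ∫ x in Set.Icc (0 : R4) 1, ρ x * n x = ∫ x in Set.Icc (0 : R4) 1, ρ x * c :=
    integral_congr_ae (ae_restrict_of_ae h3)
  rw [h6, integral_mul_const, hρ.int, one_mul]

theorem exists_bump (ε : ℝ) (hε : 0 < ε) : ∃ ρ, Bump ε ρ := by
  set r : ℝ := min (ε / 2) (1 / 4) with hr
  have hr0 : 0 < r := by positivity
  have hrε : r < ε := lt_of_le_of_lt (min_le_left _ _) (by linarith)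
  have hr2 : r < 1 / 2 := lt_of_le_of_lt (min_le_right _ _) (by norm_num)
  let φ : ContDiffBump (0 : R4) := ⟨r / 2, r, by positivity, by linarith⟩
  set g : R4 → ℝ := φ.normed volume with hg
  have hg0 : ∀ x, r < ‖x‖ → g x = 0 := by
    intro z hz
    by_contra hne
    have h5 : z ∈ Function.support (φ.normed volume) := hne
    rw [φ.support_normed_eq, mem_ball_zero_iff] at h5
    have h6 : φ.rOut = r := rfl
    rw [h6] at h5
    linarith
  have hgs : ContDiff ℝ ∞ g := φ.contDiff_normed
  refine ⟨perz g, perz_smooth hgs hr2 hg0, perz_per g, ?_, ?_⟩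
  · intro x hx
    refine ⟨rd x, ?_⟩
    by_contra h
    push Not at h
    exact hx (hg0 _ (lt_of_lt_of_le hrε h))
  · have hc : Continuous (perz g) := (perz_smooth hgs hr2 hg0).continuous
    rw [int_unfold (perz g) (perz_per g) (hc.continuousOn.integrableOn_compact isCompact_Icc)]
    have h1 : ∫ x in Metric.closedBall (0 : R4) (1 / 2), perz g x =
        ∫ x in Metric.closedBall (0 : R4) (1 / 2), g x := by
      apply setIntegral_congr_fun Metric.isClosed_closedBall.measurableSet
      intro x hx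
      rw [mem_closedBall_zero_iff] at hx
      exact (perz_near hr2 hg0 hx).eq_of_nhds
    rw [h1, setIntegral_eq_integral_of_forall_compl_eq_zero]
    · exact φ.integral_normed
    · intro x hx
      rw [mem_closedBall_zero_iff] at hx
      push Not at hx
      exact hg0 x (hr2.trans hx)

end Pool.Agent.CT
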