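import Pool.Agent.CT.NDefs

/-!
# CT-PPID : the exchange identity for pairings with closed currents

PLAN. (1) Five vectors in `ℝ⁴`: for a linear functional `ℓ`,
`ℓ v * dt p q b c = ℓ p * dt v q b c - ℓ q * dt v p b c + ℓ b * dt v p q c - ℓ c * dt v p q b`
(expand: both sides are polynomials in the coordinates, `Matrix.det_succ_row_zero`, `Fin.sum_univ_four`,
`ring`; write `ℓ x = Σ ℓ (e_a) x_a`).
(2) `PP_exch`: apply (1) with `ℓ = fderiv ℝ f (pr κ x)`, `b = ev b`, `c = ev c`, multiply by `1/2`, apply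
`S (κ b) (κ c)` and sum over `b, c`. The last two terms give, by antisymmetry of `S`,
`Σ_c dt v p q (ev c) * Σ_b S (κ b) (κ c) (fun x => dr f (ev b) (pr κ x))`, and the inner sum is
`Σ_i S i (κ c) (pd (f ∘ pr κ) i) = 0` (`hS.closed`): `pd (f ∘ pr κ) i = Σ_b if κ b = i then
(dr f (ev b)) ∘ pr κ else 0`.
-/

set_option autoImplicit false

noncomputable section

open scoped ContDiff

namespace Pool.Agent.CT

variable {g : ℕ} {Z : Set (V g)} {S : Ix g → Ix g → (V g → ℝ) → ℝ}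

private theorem dt_eq (p q u v : R4) : dt p q u v =
    p 0 * (q 1 * (u 2 * v 3 - u 3 * v 2) - q 2 * (u 1 * v 3 - u 3 * v 1) +
      q 3 * (u 1 * v 2 - u 2 * v 1)) -
    p 1 * (q 0 * (u 2 * v 3 - u 3 * v 2) - q 2 * (u 0 * v 3 - u 3 * v 0) +
      q 3 * (u 0 * v 2 - u 2 * v 0)) +
    p 2 * (q 0 * (u 1 * v 3 - u 3 * v 1) - q 1 * (u 0 * v 3 - u 3 * v 0) +
      q 3 * (u 0 * v 1 - u 1 * v 0)) -
    p 3 * (q 0 * (u 1 * v 2 - u 2 * v 1) - q 1 * (u 0 * v 2 - u 2 * v 0) +
      q 2 * (u 0 * v 1 - u 1 * v 0)) := by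
  unfold dt
  simp [Matrix.det_succ_row_zero, Fin.sum_univ_succ, Fin.succAbove]
  ring

private theorem clm_sum (ℓ : R4 →L[ℝ] ℝ) (x : R4) : ℓ x = ∑ a, x a * ℓ (ev a) := by
  have h : x = ∑ a, x a • ev a := by
    ext b
    simp [Finset.sum_apply, Pi.single_apply]
  conv_lhs => rw [h]
  rw [map_sum]
  refine Finset.sum_congr rfl fun a _ => ?_
  rw [map_smul, smul_eq_mul]

theorem dt_exch (ℓ : R4 →L[ℝ] ℝ) (v p q b c : R4) :
    ℓ v * dt p q b c = ℓ p * dt v q b c - ℓ q * dt v p b c + ℓ b * dt v p q c -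
      ℓ c * dt v p q b := by
  rw [clm_sum ℓ v, clm_sum ℓ p, clm_sum ℓ q, clm_sum ℓ b, clm_sum ℓ c]
  simp only [dt_eq, Fin.sum_univ_four]
  ring

theorem per_pr (κ : Fin 4 → Ix g) (f : R4 → ℝ) (hper : Per4 f) :
    IsPer (fun x : V g => f (pr κ x)) := by
  intro n v
  have h : pr κ (v + lat n) = pr κ v + zv (fun a => n (κ a)) := by
    rw [map_add]
    rfl
  change f (pr κ (v + lat n)) = f (pr κ v)
  rw [h, hper]

private theorem per_dr {f : R4 → ℝ} (hper : Per4 f) (v : R4) : Per4 (dr f v) := by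
  intro m x
  have h1 : (fun y => f (y + zv m)) = f := funext fun y => hper m y
  have h2 := fderiv_comp_add_right (𝕜 := ℝ) (f := f) (x := x) (zv m)
  rw [h1] at h2
  change fderiv ℝ f (x + zv m) v = fderiv ℝ f x v
  rw [← h2]

private theorem cont_dr {f : R4 → ℝ} (hf : ContDiff ℝ ∞ f) (v : R4) : Continuous (dr f v) :=
  (hf.continuous_fderiv (by simp)).clm_apply continuous_const

private theorem S_zero (hS : Cur Z S) (i j : Ix g) : S i j (fun _ => 0) = 0 :=
  hS.van i j _ continuous_const (fun _ _ => rfl) (fun _ _ => rfl)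

private theorem S_lin (hS : Cur Z S) (κ : Fin 4 → Ix g) (f : R4 → ℝ)
    (hf : ContDiff ℝ ∞ f) (hper : Per4 f) (w : R4) (i j : Ix g) :
    S i j (fun x => dr f w (pr κ x)) = ∑ a, w a * S i j (fun x => dr f (ev a) (pr κ x)) := by
  have hc : ∀ a, Continuous fun x : V g => w a * dr f (ev a) (pr κ x) := fun a =>
    continuous_const.mul ((cont_dr hf _).comp (pr κ).continuous)
  have hc' : ∀ a, Continuous fun x : V g => dr f (ev a) (pr κ x) := fun a =>
    (cont_dr hf _).comp (pr κ).continuous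
  have hp' : ∀ a, IsPer fun x : V g => dr f (ev a) (pr κ x) := fun a =>
    per_pr κ _ (per_dr hper _)
  have hp : ∀ a, IsPer fun x : V g => w a * dr f (ev a) (pr κ x) := fun a n v => by
    change w a * _ = w a * _
    rw [show dr f (ev a) (pr κ (v + lat n)) = dr f (ev a) (pr κ v) from hp' a n v]
  have h1 : (fun x : V g => dr f w (pr κ x)) = fun x =>
      ((w 0 * dr f (ev 0) (pr κ x) + w 1 * dr f (ev 1) (pr κ x)) + w 2 * dr f (ev 2) (pr κ x)) +
        w 3 * dr f (ev 3) (pr κ x) := by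
    funext x
    have := clm_sum (fderiv ℝ f (pr κ x)) w
    rw [Fin.sum_univ_four] at this
    exact this
  have hadd : ∀ a b : V g → ℝ, IsPer a → IsPer b → IsPer (fun x => a x + b x) := by
    intro a b ha hb n v
    change a _ + b _ = a _ + b _
    rw [ha, hb]
  have e1 := hS.add i j (fun x => (w 0 * dr f (ev 0) (pr κ x) + w 1 * dr f (ev 1) (pr κ x)) +
      w 2 * dr f (ev 2) (pr κ x)) (fun x => w 3 * dr f (ev 3) (pr κ x))
      (((hc 0).add (hc 1)).add (hc 2)) (hadd _ _ (hadd _ _ (hp 0) (hp 1)) (hp 2)) (hc 3) (hp 3)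
  have e2 := hS.add i j (fun x => w 0 * dr f (ev 0) (pr κ x) + w 1 * dr f (ev 1) (pr κ x))
      (fun x => w 2 * dr f (ev 2) (pr κ x))
      ((hc 0).add (hc 1)) (hadd _ _ (hp 0) (hp 1)) (hc 2) (hp 2)
  have e3 := hS.add i j (fun x => w 0 * dr f (ev 0) (pr κ x))
      (fun x => w 1 * dr f (ev 1) (pr κ x)) (hc 0) (hp 0) (hc 1) (hp 1)
  rw [h1, e1, e2, e3,
    hS.smul _ _ _ _ (hc' 0) (hp' 0), hS.smul _ _ _ _ (hc' 1) (hp' 1),
    hS.smul _ _ _ _ (hc' 2) (hp' 2), hS.smul _ _ _ _ (hc' 3) (hp' 3), Fin.sum_univ_four]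

private theorem S_closed (hS : Cur Z S) (κ : Fin 4 → Ix g) (hκ : Function.Injective κ) (f : R4 → ℝ)
    (hf : ContDiff ℝ ∞ f) (hper : Per4 f) (j : Ix g) :
    ∑ b, S (κ b) j (fun x => dr f (ev b) (pr κ x)) = 0 := by
  have h1 := hS.closed j (fun x => f (pr κ x)) (hf.comp (pr κ).contDiff) (per_pr κ f hper)
  have hpd : ∀ i, pd (fun x : V g => f (pr κ x)) i =
      fun x => fderiv ℝ f (pr κ x) (pr κ (Pi.single i 1)) := by
    intro i
    funext x
    unfold pd
    have h2 : HasFDerivAt (fun x : V g => f (pr κ x)) ((fderiv ℝ f (pr κ x)).comp (pr κ)) x :=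
      ((hf.differentiable (by simp)) (pr κ x)).hasFDerivAt.comp x (pr κ).hasFDerivAt
    rw [h2.fderiv]
    rfl
  rw [← h1]
  refine Fintype.sum_of_injective κ hκ _ _ ?_ ?_
  · intro i hi
    have h3 : pr κ (Pi.single i 1) = (0 : R4) := by
      ext a
      change (Pi.single i (1 : ℝ) : V g) (κ a) = 0
      rw [Pi.single_apply, if_neg]
      intro h
      exact hi ⟨a, h⟩
    rw [hpd i, h3]
    simp only [map_zero]
    exact S_zero hS _ _
  · intro b
    have h3 : pr κ (Pi.single (κ b) 1) = ev b := by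
      ext a
      change (Pi.single (κ b) (1 : ℝ) : V g) (κ a) = (Pi.single b (1 : ℝ) : R4) a
      rw [Pi.single_apply, Pi.single_apply]
      simp only [hκ.eq_iff]
    rw [hpd (κ b), h3]
    rfl

theorem PP_exch (hS : Cur Z S) (κ : Fin 4 → Ix g) (hκ : Function.Injective κ) (f : R4 → ℝ)
    (hf : ContDiff ℝ ∞ f) (hper : Per4 f) (v p q : R4) :
    PP κ S p q (dr f v) = PP κ S v q (dr f p) - PP κ S v p (dr f q) := by
  set T : Fin 4 → Fin 4 → Fin 4 → ℝ := fun a b c =>
    S (κ b) (κ c) (fun x => dr f (ev a) (pr κ x)) with hT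
  have hlin : ∀ (w : R4) (b c : Fin 4), S (κ b) (κ c) (fun x => dr f w (pr κ x)) =
      ∑ a, w a * T a b c := fun w b c => S_lin hS κ f hf hper w (κ b) (κ c)
  have hanti : ∀ a b c, T a c b = - T a b c := fun a b c =>
    hS.anti _ _ _ ((cont_dr hf _).comp (pr κ).continuous) (per_pr κ _ (per_dr hper _))
  have hcl : ∀ c, ∑ b, T b b c = 0 := fun c => S_closed hS κ hκ f hf hper (κ c)
  have hkey : ∀ a b c : Fin 4, v a * dt p q (ev b) (ev c) = p a * dt v q (ev b) (ev c) -
      q a * dt v p (ev b) (ev c) + (ev b : R4) a * dt v p q (ev c) -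
      (ev c : R4) a * dt v p q (ev b) := fun a b c =>
    dt_exch (ContinuousLinearMap.proj a) v p q (ev b) (ev c)
  have hsum : ∀ w r s : R4, PP κ S r s (dr f w) =
      (1 / 2) * ∑ b : Fin 4, ∑ c : Fin 4, ∑ a : Fin 4, (w a * dt r s (ev b) (ev c)) * T a b c := by
    intro w r s
    unfold PP
    congr 1
    refine Finset.sum_congr rfl fun b _ => Finset.sum_congr rfl fun c _ => ?_
    rw [hlin, Finset.mul_sum]
    refine Finset.sum_congr rfl fun a _ => ?_
    ring
  rw [hsum, hsum, hsum, ← mul_sub, ← Finset.sum_sub_distrib]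
  congr 1
  have h4 : ∑ b : Fin 4, ∑ c : Fin 4, ∑ a : Fin 4, (v a * dt p q (ev b) (ev c)) * T a b c =
      ∑ b : Fin 4, (∑ c : Fin 4, ∑ a : Fin 4, (p a * dt v q (ev b) (ev c)) * T a b c -
        ∑ c : Fin 4, ∑ a : Fin 4, (q a * dt v p (ev b) (ev c)) * T a b c) +
      (∑ b : Fin 4, ∑ c : Fin 4, dt v p q (ev c) * T b b c -
        ∑ b : Fin 4, ∑ c : Fin 4, dt v p q (ev b) * T c b c) := by
    rw [← Finset.sum_sub_distrib, ← Finset.sum_add_distrib]
    refine Finset.sum_congr rfl fun b _ => ?_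
    rw [← Finset.sum_sub_distrib, ← Finset.sum_sub_distrib, ← Finset.sum_add_distrib]
    refine Finset.sum_congr rfl fun c _ => ?_
    have h5 : ∑ a : Fin 4, (v a * dt p q (ev b) (ev c)) * T a b c =
        ∑ a : Fin 4, (p a * dt v q (ev b) (ev c)) * T a b c -
        ∑ a : Fin 4, (q a * dt v p (ev b) (ev c)) * T a b c +
        (∑ a : Fin 4, (ev b : R4) a * (dt v p q (ev c) * T a b c) -
        ∑ a : Fin 4, (ev c : R4) a * (dt v p q (ev b) * T a b c)) := by
      rw [← Finset.sum_sub_distrib, ← Finset.sum_sub_distrib, ← Finset.sum_add_distrib]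
      refine Finset.sum_congr rfl fun a _ => ?_
      rw [hkey a b c]
      ring
    rw [h5]
    congr 1
    have h6 : ∀ (d : Fin 4) (F : Fin 4 → ℝ), ∑ a : Fin 4, (ev d : R4) a * F a = F d := by
      intro d F
      simp [Pi.single_apply]
    rw [h6 b (fun a => dt v p q (ev c) * T a b c), h6 c (fun a => dt v p q (ev b) * T a b c)]
  rw [h4]
  have h7 : ∑ b : Fin 4, ∑ c : Fin 4, dt v p q (ev c) * T b b c = 0 := by
    rw [Finset.sum_comm]
    refine Finset.sum_eq_zero fun c _ => ?_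
    rw [← Finset.mul_sum, hcl, mul_zero]
  have h8 : ∑ b : Fin 4, ∑ c : Fin 4, dt v p q (ev b) * T c b c = 0 := by
    refine Finset.sum_eq_zero fun b _ => ?_
    rw [← Finset.mul_sum]
    have h9 : ∑ c : Fin 4, T c b c = 0 := by
      have h10 := hcl b
      have h11 : ∑ c : Fin 4, T c b c = - ∑ c : Fin 4, T c c b := by
        rw [← Finset.sum_neg_distrib]
        refine Finset.sum_congr rfl fun c _ => ?_
        rw [hanti c c b]
      rw [h11, h10, neg_zero]
    rw [h9, mul_zero]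
  rw [h7, h8]
  ring

theorem PP_add (hS : Cur Z S) (κ : Fin 4 → Ix g) (f f' : R4 → ℝ) (hf : Continuous f)
    (hper : Per4 f) (hf' : Continuous f') (hper' : Per4 f') (p q : R4) :
    PP κ S p q (fun x => f x + f' x) = PP κ S p q f + PP κ S p q f' := by
  unfold PP
  rw [← mul_add, ← Finset.sum_add_distrib]
  congr 1
  refine Finset.sum_congr rfl fun b _ => ?_
  rw [← Finset.sum_add_distrib]
  refine Finset.sum_congr rfl fun c _ => ?_
  rw [hS.add _ _ (fun x => f (pr κ x)) (fun x => f' (pr κ x)) (hf.comp (pr κ).continuous)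
    (per_pr κ f hper) (hf'.comp (pr κ).continuous) (per_pr κ f' hper'), mul_add]

theorem PP_sub (hS : Cur Z S) (κ : Fin 4 → Ix g) (f f' : R4 → ℝ) (hf : Continuous f)
    (hper : Per4 f) (hf' : Continuous f') (hper' : Per4 f') (p q : R4) :
    PP κ S p q (fun x => f x - f' x) = PP κ S p q f - PP κ S p q f' := by
  have h := PP_add hS κ (fun x => f x - f' x) f' (hf.sub hf')
    (fun m x => by change f _ - f' _ = f _ - f' _; rw [hper, hper']) hf' hper' p q
  simp only [sub_add_cancel] at h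
  rw [h]
  ring

theorem PP_van (hS : Cur Z S) (κ : Fin 4 → Ix g) (f : R4 → ℝ) (hf : Continuous f)
    (hper : Per4 f) (h0 : ∀ x ∈ Z, f (pr κ x) = 0) (p q : R4) : PP κ S p q f = 0 := by
  unfold PP
  rw [Finset.sum_eq_zero, mul_zero]
  intro b _
  refine Finset.sum_eq_zero fun c _ => ?_
  rw [hS.van _ _ (fun x => f (pr κ x)) (hf.comp (pr κ).continuous) (per_pr κ f hper) h0, mul_zero]

theorem PP_lin_right (κ : Fin 4 → Ix g) (f : R4 → ℝ) (p q q' : R4) :
    PP κ S p (q - q') f = PP κ S p q f - PP κ S p q' f := by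
  unfold PP
  rw [← mul_sub, ← Finset.sum_sub_distrib]
  congr 1
  refine Finset.sum_congr rfl fun b _ => ?_
  rw [← Finset.sum_sub_distrib]
  refine Finset.sum_congr rfl fun c _ => ?_
  rw [← sub_mul]
  congr 1
  simp only [dt_eq, Pi.sub_apply]
  ring

theorem PP_swap (κ : Fin 4 → Ix g) (f : R4 → ℝ) (p q : R4) :
    PP κ S p q f = - PP κ S q p f := by
  unfold PP
  rw [← mul_neg, ← Finset.sum_neg_distrib]
  congr 1
  refine Finset.sum_congr rfl fun b _ => ?_
  rw [← Finset.sum_neg_distrib]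
  refine Finset.sum_congr rfl fun c _ => ?_
  rw [← neg_mul]
  congr 1
  simp only [dt_eq]
  ring

theorem pr_lat (κ : Fin 4 → Ix g) (hκ : Function.Injective κ) (m : Fin 4 → ℤ) :
    ∃ n : Ix g → ℤ, pr κ (lat n) = zv m := by
  refine ⟨Function.extend κ m 0, ?_⟩
  ext a
  change ((Function.extend κ m 0 (κ a) : ℤ) : ℝ) = (m a : ℝ)
  rw [hκ.extend_apply]

end Pool.Agent.CT
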