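import Pool.Agent.CT.Calc
import Pool.Agent.CT.PPid

/-!
# CT-STOKES : variation of the smoothed intersection number

PLAN. `NN_deriv`: `NN κ (dr ρ v) S p q = PP κ S p q (GG (dr ρ v) p q) = PP κ S p q (dr (GG ρ p q) v)`
(`dr_GG`), by `PP_exch` it is `PP κ S v q (dr G p) - PP κ S v p (dr G q)`, `G = GG ρ p q`, and
`dr_GG_left`, `dr_GG_right`, `PP_sub`, `PP_lin_right` give
`PP κ S v q (EE ρ 0 q) - PP κ S v p (EE ρ 0 p) - PP κ S v (q - p) (EE ρ p q)`; if the segment `[p, q]` has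
distance `≥ δ` to `pr Z` and `ρ` is supported in the `δ`-neighbourhood of the lattice, then
`EE ρ p q (pr κ x) = 0` for `x ∈ Z` (for `m : Fin 4 → ℤ` apply the margin to `x - lat n ∈ Z` with
`pr κ (lat n) = zv m`, `pr_lat`), so the last term vanishes (`PP_van`).
`stokes`: telescoping sum over the closed polygon.
`curv`: `PP κ S h' t (dr E h) - PP κ S h t (dr E h') = - PP κ S h h' (dr E t)` for `E = EE ρ 0 t` by
`PP_exch` (with `v = t`, `p = h`, `q = h'`) and `PP_swap`; `dr_EE_self`; `ρ (pr κ x - t) = 0` for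
`x ∈ Z`.
-/

set_option autoImplicit false

noncomputable section

open scoped ContDiff

namespace Pool.Agent.CT

variable {g : ℕ} {Z : Set (V g)} {S : Ix g → Ix g → (V g → ℝ) → ℝ}

/-- functions supported near the lattice vanish on the projection of `Z` if there is a margin -/
private theorem supp_zero (hZ : ∀ x ∈ Z, ∀ n : Ix g → ℤ, x + lat n ∈ Z)
    (κ : Fin 4 → Ix g) (hκ : Function.Injective κ) (ρ : R4 → ℝ) (δ : ℝ) (hsupp : Supp4 δ ρ)
    (c : R4) (hM : ∀ x ∈ Z, δ ≤ ‖pr κ x - c‖) (x : V g) (hx : x ∈ Z) : ρ (pr κ x - c) = 0 := by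
  by_contra h0
  obtain ⟨m, hm⟩ := hsupp _ h0
  obtain ⟨n, hn⟩ := pr_lat κ hκ m
  have h1 := hM (x + lat (-n)) (hZ x hx (-n))
  have h2 : (lat (-n) : V g) = - lat n := by
    funext i
    simp [lat]
  rw [h2, map_add, map_neg, hn] at h1
  have h3 : pr κ x + -zv m - c = pr κ x - c - zv m := by abel
  rw [h3] at h1
  exact absurd hm (not_lt.2 h1)

private theorem NN_deriv_aux (hS : Cur Z S) (κ : Fin 4 → Ix g) (hκ : Function.Injective κ)
    (ρ : R4 → ℝ) (hρ : ContDiff ℝ ∞ ρ) (hper : Per4 ρ) (p q v : R4) :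
    NN κ (dr ρ v) S p q = PP κ S v q (EE ρ 0 q) - PP κ S v p (EE ρ 0 p) -
      PP κ S v (q - p) (EE ρ p q) := by
  have hG := GG_smooth hρ p q
  have hE : ∀ a b, Continuous (EE ρ a b) := fun a b => (EE_smooth hρ a b).continuous
  have hEp : ∀ a b, Per4 (EE ρ a b) := fun a b => EE_per hper a b
  have e1 : dr (GG ρ p q) p = fun x => EE ρ 0 q x - EE ρ p q x := by
    funext x
    exact dr_GG_left hρ p q x
  have e2 : dr (GG ρ p q) q = fun x => EE ρ 0 p x - EE ρ p q x := by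
    funext x
    exact dr_GG_right hρ p q x
  rw [NN, ← dr_GG hρ, PP_exch hS κ hκ _ hG (GG_per hper p q) v p q, e1, e2,
    PP_sub hS κ _ _ (hE _ _) (hEp _ _) (hE _ _) (hEp _ _),
    PP_sub hS κ _ _ (hE _ _) (hEp _ _) (hE _ _) (hEp _ _), PP_lin_right]
  ring

theorem NN_deriv (hS : Cur Z S) (hZ : ∀ x ∈ Z, ∀ n : Ix g → ℤ, x + lat n ∈ Z)
    (κ : Fin 4 → Ix g) (hκ : Function.Injective κ) (ρ : R4 → ℝ) (hρ : ContDiff ℝ ∞ ρ)
    (hper : Per4 ρ) (δ : ℝ) (hsupp : Supp4 δ ρ) (p q v : R4)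
    (hM : ∀ x ∈ Z, ∀ t ∈ Set.Icc (0 : ℝ) 1, δ ≤ ‖pr κ x - p - t • (q - p)‖) :
    NN κ (dr ρ v) S p q = PP κ S v q (EE ρ 0 q) - PP κ S v p (EE ρ 0 p) := by
  have h0 : ∀ x ∈ Z, EE ρ p q (pr κ x) = 0 := by
    intro x hx
    unfold EE
    rw [intervalIntegral.integral_congr (g := fun _ => (0 : ℝ))]
    · simp
    · intro t ht
      rw [Set.uIcc_of_le zero_le_one] at ht
      have h1 := supp_zero hZ κ hκ ρ δ hsupp (p + t • (q - p)) (fun y hy => by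
        have := hM y hy t ht
        rwa [sub_sub] at this) x hx
      simp only
      rw [sub_sub]
      exact h1
  rw [NN_deriv_aux hS κ hκ ρ hρ hper p q v,
    PP_van hS κ _ (EE_smooth hρ p q).continuous (EE_per hper p q) h0, sub_zero]

theorem NN_deriv' (hS : Cur Z S) (κ : Fin 4 → Ix g) (hκ : Function.Injective κ) (ρ : R4 → ℝ)
    (hρ : ContDiff ℝ ∞ ρ) (hper : Per4 ρ) (p q v : R4) :
    NN κ (dr ρ v) S p q = PP κ S v q (EE ρ 0 q) - PP κ S v p (EE ρ 0 p) -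
      PP κ S v (q - p) (EE ρ p q) :=
  NN_deriv_aux hS κ hκ ρ hρ hper p q v

theorem stokes (hS : Cur Z S) (hZ : ∀ x ∈ Z, ∀ n : Ix g → ℤ, x + lat n ∈ Z)
    (κ : Fin 4 → Ix g) (hκ : Function.Injective κ) (ρ : R4 → ℝ) (hρ : ContDiff ℝ ∞ ρ)
    (hper : Per4 ρ) (δ : ℝ) (hsupp : Supp4 δ ρ) (n : ℕ) (p : ℕ → R4) (hp : p n = p 0)
    (hM : ∀ k < n, ∀ x ∈ Z, ∀ t ∈ Set.Icc (0 : ℝ) 1,
      δ ≤ ‖pr κ x - p k - t • (p (k + 1) - p k)‖) (v : R4) :
    ∑ k ∈ Finset.range n, NN κ (dr ρ v) S (p k) (p (k + 1)) = 0 := by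
  have h1 : ∀ k ∈ Finset.range n, NN κ (dr ρ v) S (p k) (p (k + 1)) =
      PP κ S v (p (k + 1)) (EE ρ 0 (p (k + 1))) - PP κ S v (p k) (EE ρ 0 (p k)) := fun k hk =>
    NN_deriv hS hZ κ hκ ρ hρ hper δ hsupp (p k) (p (k + 1)) v (hM k (Finset.mem_range.1 hk))
  rw [Finset.sum_congr rfl h1,
    Finset.sum_range_sub (fun k => PP κ S v (p k) (EE ρ 0 (p k))) n, hp, sub_self]

theorem curv (hS : Cur Z S) (hZ : ∀ x ∈ Z, ∀ n : Ix g → ℤ, x + lat n ∈ Z)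
    (κ : Fin 4 → Ix g) (hκ : Function.Injective κ) (ρ : R4 → ℝ) (hρ : ContDiff ℝ ∞ ρ)
    (hper : Per4 ρ) (δ : ℝ) (hsupp : Supp4 δ ρ) (t h h' : R4)
    (hM : ∀ x ∈ Z, δ ≤ ‖pr κ x - t‖) :
    PP κ S h' t (dr (EE ρ 0 t) h) - PP κ S h t (dr (EE ρ 0 t) h') = - PP κ S h h' ρ := by
  have h1 := PP_exch hS κ hκ (EE ρ 0 t) (EE_smooth hρ 0 t) (EE_per hper 0 t) t h h'
  have e1 : dr (EE ρ 0 t) t = fun x => ρ x - ρ (x - t) := by
    funext x
    exact dr_EE_self hρ t x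
  have hc : Continuous fun x : R4 => ρ (x - t) :=
    hρ.continuous.comp (continuous_id.sub continuous_const)
  have hp : Per4 fun x : R4 => ρ (x - t) := by
    intro m x
    show ρ (x + zv m - t) = ρ (x - t)
    rw [add_sub_right_comm, hper]
  have h2 : PP κ S h h' (fun x => ρ (x - t)) = 0 :=
    PP_van hS κ _ hc hp (fun x hx => supp_zero hZ κ hκ ρ δ hsupp t hM x hx) h h'
  rw [e1, PP_sub hS κ _ _ hρ.continuous hper hc hp, h2, sub_zero, PP_swap κ _ t h',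
    PP_swap κ _ t h] at h1
  rw [h1]
  ring

end Pool.Agent.CT
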