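import Pool.Agent.CT.PieceDeg
import Pool.Agent.CT.Moll
import Pool.Agent.CT.Stokes
import Pool.Agent.CT.CycBasic

/-!
# CT-INTEG : integrality of the smoothed intersection number with a closed polygon

PLAN. Let `y.cur = Σ_l (P l).cur` (on continuous periodic functions). By `piece_deg` for every `l` and
every `k < n` there is `N l k`; put `N = Σ_l Σ_k N l k`, so that
`Σ_k NN κ f y.cur (p k) (p (k+1)) = ∫_{Icc 0 1} f N` for all continuous periodic `f`. Let `δ > ε` be the
minimum of the margins of the finitely many edges (`Mg`; if `n = 0` the sum is `0`). By `stokes`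
(`cyc_cur`, `cyc_per`), `∫ (dr f v) N = 0` for smooth periodic `f` with `Supp4 δ f`. `moll` gives the
claim.
-/

set_option autoImplicit false

noncomputable section

open scoped ContDiff

namespace Pool.Agent.CT

variable {g : ℕ}

theorem integrality (y : Zs g) (hy : IsCyc y) (κ : Fin 4 → Ix g) (hκ : Function.Injective κ)
    (ε : ℝ) (hε : 0 < ε) (ρ : R4 → ℝ) (hρ : Bump ε ρ) (n : ℕ) (p : ℕ → R4) (hp : p n = p 0)
    (hM : ∀ k < n, Mg κ (y.1 : Set (V g)) ε (p k) (p (k + 1))) :
    ∃ m : ℤ, ∑ k ∈ Finset.range n, NN κ ρ y.cur (p k) (p (k + 1)) = m := by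
  classical
  -- the integer valued function
  have hcur := cyc_cur y hy
  have hper := cyc_per y hy
  obtain ⟨J, r, P, hcar, hPc⟩ := hy
  choose N hN1 hN2 hN3 using fun l : Fin r => fun k : ℕ => piece_deg (P l) κ (p k) (p (k + 1))
  let Nt : R4 → ℤ := fun v => ∑ l : Fin r, ∑ k ∈ Finset.range n, N l k v
  have hNt1 : ∀ (m : Fin 4 → ℤ) x, Nt (x + zv m) = Nt x := by
    intro m x
    simp only [Nt, hN1]
  have hNtc : ∀ v, (Nt v : ℝ) = ∑ l : Fin r, ∑ k ∈ Finset.range n, (N l k v : ℝ) := by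
    intro v
    simp only [Nt]
    push_cast
    rfl
  have hNt2 : MeasureTheory.IntegrableOn (fun v => (Nt v : ℝ)) (Set.Icc 0 1) := by
    simp only [hNtc]
    exact MeasureTheory.integrable_finsetSum _ fun l _ =>
      MeasureTheory.integrable_finsetSum _ fun k _ => hN2 l k
  have hsum : ∀ f : R4 → ℝ, Continuous f → Per4 f →
      ∑ k ∈ Finset.range n, NN κ f y.cur (p k) (p (k + 1)) =
        ∫ v in Set.Icc 0 1, f v * Nt v := by
    intro f hf hfp
    have e1 : ∀ k, NN κ f y.cur (p k) (p (k + 1)) =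
        ∑ l : Fin r, NN κ f (P l).cur (p k) (p (k + 1)) := by
      intro k
      have hG := GG_per' κ f hf hfp (p k) (p (k + 1))
      have e2 : ∀ i j, y.cur i j (fun x => GG f (p k) (p (k + 1)) (pr κ x)) =
          ∑ l : Fin r, (P l).cur i j (fun x => GG f (p k) (p (k + 1)) (pr κ x)) := by
        intro i j
        rw [Zs.cur, hPc, toPer_coe _ hG.1 hG.2]
      simp only [NN, PP, e2]
      rw [← Finset.mul_sum]
      congr 1
      rw [Finset.sum_comm (s := (Finset.univ : Finset (Fin r)))]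
      refine Finset.sum_congr rfl fun b _ => ?_
      rw [Finset.sum_comm (s := (Finset.univ : Finset (Fin r)))]
      refine Finset.sum_congr rfl fun c _ => ?_
      rw [Finset.mul_sum]
    have hi : ∀ l k, MeasureTheory.IntegrableOn (fun v => f v * (N l k v : ℝ)) (Set.Icc 0 1) :=
      fun l k => (hN2 l k).continuousOn_mul hf.continuousOn isCompact_Icc
    have e3 : ∫ v in Set.Icc 0 1, f v * Nt v =
        ∑ l : Fin r, ∑ k ∈ Finset.range n, ∫ v in Set.Icc 0 1, f v * (N l k v : ℝ) := by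
      have e4 : ∀ v, f v * (Nt v : ℝ) = ∑ l : Fin r, ∑ k ∈ Finset.range n, f v * (N l k v : ℝ) := by
        intro v
        rw [hNtc, Finset.mul_sum]
        refine Finset.sum_congr rfl fun l _ => ?_
        rw [Finset.mul_sum]
      simp only [e4]
      rw [MeasureTheory.integral_finsetSum _ fun l _ =>
        MeasureTheory.integrable_finsetSum _ fun k _ => hi l k]
      refine Finset.sum_congr rfl fun l _ => ?_
      rw [MeasureTheory.integral_finsetSum _ fun k _ => hi l k]
    rw [e3, Finset.sum_comm]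
    refine Finset.sum_congr rfl fun k _ => ?_
    rw [e1 k]
    exact Finset.sum_congr rfl fun l _ => hN3 l k f hf hfp
  -- a common margin
  obtain ⟨δ, hδ, hM'⟩ : ∃ δ > ε, ∀ k < n, ∀ x ∈ (y.1 : Set (V g)), ∀ t ∈ Set.Icc (0 : ℝ) 1,
      δ ≤ ‖pr κ x - p k - t • (p (k + 1) - p k)‖ := by
    clear hN1 hN2 hN3 Nt hNt1 hNtc hNt2 hsum hp
    induction n with
    | zero => exact ⟨ε + 1, by linarith, fun k hk => absurd hk (Nat.not_lt_zero k)⟩
    | succ n ih =>
      obtain ⟨δ, hδ, h1⟩ := ih fun k hk => hM k (by omega)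
      obtain ⟨δ', hδ', h2⟩ := hM n (Nat.lt_succ_self n)
      refine ⟨min δ δ', lt_min hδ hδ', fun k hk x hx t ht => ?_⟩
      rcases Nat.lt_succ_iff_lt_or_eq.1 hk with h | h
      · exact (min_le_left _ _).trans (h1 k h x hx t ht)
      · subst h
        exact (min_le_right _ _).trans (h2 x hx t ht)
  have hmoll : ∀ f : R4 → ℝ, ContDiff ℝ ∞ f → Per4 f → Supp4 δ f → ∀ v,
      ∫ x in Set.Icc 0 1, dr f v x * Nt x = 0 := by
    intro f hf hfp hfs v
    have hdc : Continuous (dr f v) := (dr_smooth hf v).continuous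
    have hdp : Per4 (dr f v) := dr_per hfp v
    rw [← hsum _ hdc hdp]
    exact stokes hcur hper κ hκ f hf hfp δ hfs n p hp hM' v
  obtain ⟨m, hm⟩ := moll Nt hNt1 hNt2 ε δ hε hδ hmoll ρ hρ
  exact ⟨m, by rw [hsum ρ hρ.smooth.continuous hρ.per, hm]⟩

end Pool.Agent.CT
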