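import Pool.Agent.CT.StarEval
import Pool.Agent.CT.ExCC
import Pool.Agent.CT.CCoc

/-!
# CT-LOCALF : the cocycle on a compact set of cycles

PLAN. `exists_CC`, `exists_coc`, `star_eval`.
-/

set_option autoImplicit false

noncomputable section

namespace Pool.Agent.CT

variable {g : ℕ}

theorem local_f (κ : Fin 4 → Ix g) (hκ : Function.Injective κ) (K : Set (Zs g))
    (hK : IsCompact K) (hc : ∀ y ∈ K, IsCyc y) :
    ∃ f : C(Sq, K) → ℝ, Coc f ∧ ∀ (s : Star g) (Q : C(ℝ × ℝ, K)),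
      IsFam s (fun b => (Q b : Zs g)) → f (sqr Q) = s.val κ := by
  obtain ⟨c, t, ε, ρ, h⟩ := exists_CC κ hκ K hK hc
  obtain ⟨f, hf, hv⟩ := exists_coc c
  refine ⟨f, hf, fun s Q hQ => ?_⟩
  obtain ⟨u, d1, d2, hT, he⟩ := star_eval s κ hκ K c t ε ρ h Q hQ
  rw [hv _ u d1 d2 hT, he]

end Pool.Agent.CT
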