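import Mathlib

/-!
# CT-NBALL : vanishing homotopy groups and extension of maps

`D = {(x, h) | ‖x‖ + |h| ≤ 1}` (sup norm on `x : Fin (k + 1) → ℝ`), `S` its boundary.
PLAN. `q : (Fin (k + 1) → unitInterval) → (Fin (k + 1) → ℝ) × ℝ`, `q x = (c r • X, 1 - 2 r)` with
`X = 2 x - 1 ∈ [-1, 1]^{k+1}`, `r = ‖X‖ ∈ [0, 1]`, `c r = min 2 ((2 - 2 r) / max r (1/2))` (continuous; `c r = 2`
for `r ≤ 1/2`, `c r = (2 - 2 r) / r` for `r ≥ 1/2`). `‖c r • X‖ = 1 - |1 - 2 r|`, so `q x ∈ S`; `q` is continuous,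
onto `S` (for `(v, h) ∈ S`, `h = 1 - 2 r`, `v ≠ 0`: `X = (r / ‖v‖) • v`; `v = 0`, `h = 1`: `X = 0`; `v = 0`, `h = -1`: any
boundary point, e.g. `x = 0`), `q x = (0, -1)` on `Cube.boundary (Fin (k + 1))` (`r = 1`), and if
`q x = q x'` then `x = x'` or both `x, x'` are in the boundary.
`f ∘ q` is a `GenLoop (Fin (k + 1)) (f (0, -1))`. Since `HomotopyGroup.Pi (k + 1) Y y` is a subsingleton, it is
homotopic rel boundary to the constant loop (`Quotient.exact`): a continuous map
`H : unitInterval × (Fin (k + 1) → unitInterval) → Y` with `H (0, x) = f (q x)`, `H (1, x) = f (0, -1)` and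
`H (t, x) = f (0, -1)` for `x` in the boundary.
`Π (t, x) = (1 - t) • q x` is a continuous surjection of the compact space onto `D` (a T2 space), hence a
quotient map (`IsQuotientMap.of_surjective_continuous`.. / `Continuous.isClosedMap` then
`IsClosedMap.isQuotientMap`), and `H` is constant on the fibres of `Π`: if `(1 - t) • q x = (1 - t') • q x'` then
`1 - t = 1 - t'` (apply `‖·‖ + |·|`), and `q x = q x'` if `t < 1`. So `H = F ∘ Π` with `F` continuous on `D`
(`IsQuotientMap.lift`); extend `F` arbitrarily outside `D`. `F (q x) = H (0, x) = f (q x)`.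
-/

set_option autoImplicit false

noncomputable section

namespace Pool.Agent.CT

open Set Topology

section nball

variable {k : ℕ}

/-- centred coordinates -/
private def nbX (x : Fin (k + 1) → unitInterval) : Fin (k + 1) → ℝ := fun i => 2 * (x i : ℝ) - 1

private def nbc (r : ℝ) : ℝ := min 2 ((2 - 2 * r) / max r (1 / 2))

private def nbq (x : Fin (k + 1) → unitInterval) : (Fin (k + 1) → ℝ) × ℝ :=
  (nbc ‖nbX x‖ • nbX x, 1 - 2 * ‖nbX x‖)

private theorem nbX_norm_le (x : Fin (k + 1) → unitInterval) : ‖nbX x‖ ≤ 1 := by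
  rw [pi_norm_le_iff_of_nonneg zero_le_one]
  intro i
  have h1 := (x i).2.1
  have h2 := (x i).2.2
  rw [Real.norm_eq_abs, abs_le]
  constructor
  · change -1 ≤ 2 * (x i : ℝ) - 1
    linarith
  · change 2 * (x i : ℝ) - 1 ≤ 1
    linarith

private theorem nbc_mul {r : ℝ} (_h0 : 0 ≤ r) (_h1 : r ≤ 1) : nbc r * r = 1 - |1 - 2 * r| := by
  rcases le_total r (1 / 2) with h | h
  · have h2 : nbc r = 2 := by
      rw [nbc, max_eq_right h, min_eq_left]
      rw [le_div_iff₀ (by norm_num)]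
      linarith
    rw [h2, abs_of_nonneg (by linarith)]
    ring
  · have hr : 0 < r := by linarith
    have h2 : nbc r = (2 - 2 * r) / r := by
      rw [nbc, max_eq_left h, min_eq_right]
      rw [div_le_iff₀ hr]
      linarith
    rw [h2, abs_of_nonpos (by linarith), div_mul_cancel₀ _ hr.ne']
    ring

private theorem nbc_nonneg {r : ℝ} (h1 : r ≤ 1) : 0 ≤ nbc r := by
  refine le_min (by norm_num) (div_nonneg (by linarith) ?_)
  exact le_trans (by norm_num) (le_max_right r (1 / 2))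

private theorem nbc_pos {r : ℝ} (h1 : r < 1) : 0 < nbc r := by
  refine lt_min (by norm_num) (div_pos (by linarith) ?_)
  exact lt_of_lt_of_le (by norm_num) (le_max_right r (1 / 2))

private theorem nbq_mem (x : Fin (k + 1) → unitInterval) : ‖(nbq x).1‖ + |(nbq x).2| = 1 := by
  have h1 : ‖(nbq x).1‖ = 1 - |1 - 2 * ‖nbX x‖| := by
    change ‖nbc ‖nbX x‖ • nbX x‖ = _
    rw [norm_smul, Real.norm_eq_abs, abs_of_nonneg (nbc_nonneg (nbX_norm_le x)),
      nbc_mul (norm_nonneg _) (nbX_norm_le x)]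
  rw [h1]
  change 1 - |1 - 2 * ‖nbX x‖| + |1 - 2 * ‖nbX x‖| = 1
  ring

private theorem nbX_cont : Continuous (nbX : (Fin (k + 1) → unitInterval) → Fin (k + 1) → ℝ) := by
  refine continuous_pi fun i => ?_
  change Continuous fun x : Fin (k + 1) → unitInterval => 2 * (x i : ℝ) - 1
  fun_prop

private theorem nbc_cont : Continuous nbc := by
  refine continuous_const.min ((continuous_const.sub (continuous_const.mul continuous_id)).div
    (continuous_id.max continuous_const) fun r => ?_)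
  exact (lt_of_lt_of_le (by norm_num : (0 : ℝ) < 1 / 2) (le_max_right r (1 / 2))).ne'

private theorem nbq_cont : Continuous (nbq : (Fin (k + 1) → unitInterval) → _) := by
  have h1 : Continuous fun x : Fin (k + 1) → unitInterval => ‖nbX x‖ := nbX_cont.norm
  exact ((nbc_cont.comp h1).smul nbX_cont).prodMk (continuous_const.sub (continuous_const.mul h1))

private theorem nb_bdry {x : Fin (k + 1) → unitInterval} :
    x ∈ Cube.boundary (Fin (k + 1)) ↔ ‖nbX x‖ = 1 := by
  constructor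
  · rintro ⟨i, hi⟩
    refine le_antisymm (nbX_norm_le x) ?_
    have h1 : ‖nbX x i‖ = 1 := by
      rcases hi with hi | hi
      · change ‖2 * (x i : ℝ) - 1‖ = 1
        rw [hi]
        norm_num
      · change ‖2 * (x i : ℝ) - 1‖ = 1
        rw [hi]
        norm_num
    rw [← h1]
    exact norm_le_pi_norm _ i
  · intro h
    by_contra hx
    have h1 : ‖nbX x‖ < 1 := by
      rw [pi_norm_lt_iff one_pos]
      intro i
      have h2 := (x i).2.1
      have h3 := (x i).2.2
      have h4 : (x i : ℝ) ≠ 0 := fun h5 => hx ⟨i, Or.inl (Subtype.ext h5)⟩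
      have h5 : (x i : ℝ) ≠ 1 := fun h6 => hx ⟨i, Or.inr (Subtype.ext h6)⟩
      have h6 : 0 < (x i : ℝ) := lt_of_le_of_ne h2 (Ne.symm h4)
      have h7 : (x i : ℝ) < 1 := lt_of_le_of_ne h3 h5
      rw [Real.norm_eq_abs, abs_lt]
      constructor
      · change -1 < 2 * (x i : ℝ) - 1
        linarith
      · change 2 * (x i : ℝ) - 1 < 1
        linarith
    exact absurd h h1.ne

private theorem nbq_bdry {x : Fin (k + 1) → unitInterval} (h : ‖nbX x‖ = 1) :
    nbq x = ((0 : Fin (k + 1) → ℝ), (-1 : ℝ)) := by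
  rw [nbq, h]
  have h1 : nbc 1 = 0 := by
    rw [nbc]
    norm_num
  rw [h1, zero_smul]
  norm_num

private theorem nbq_inj {x x' : Fin (k + 1) → unitInterval} (h : nbq x = nbq x') :
    x = x' ∨ (‖nbX x‖ = 1 ∧ ‖nbX x'‖ = 1) := by
  have h1 : ‖nbX x‖ = ‖nbX x'‖ := by
    have h2 := congrArg Prod.snd h
    change 1 - 2 * ‖nbX x‖ = 1 - 2 * ‖nbX x'‖ at h2
    linarith
  rcases eq_or_lt_of_le (nbX_norm_le x) with h3 | h3
  · exact Or.inr ⟨h3, h1 ▸ h3⟩
  · left
    have h4 := congrArg Prod.fst h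
    change nbc ‖nbX x‖ • nbX x = nbc ‖nbX x'‖ • nbX x' at h4
    rw [← h1] at h4
    have h5 : nbX x = nbX x' := smul_right_injective _ (nbc_pos h3).ne' h4
    funext i
    have h6 := congrFun h5 i
    change 2 * (x i : ℝ) - 1 = 2 * (x' i : ℝ) - 1 at h6
    exact Subtype.ext (by linarith)

private theorem nbq_surj {p : (Fin (k + 1) → ℝ) × ℝ} (hp : ‖p.1‖ + |p.2| = 1) :
    ∃ x : Fin (k + 1) → unitInterval, nbq x = p := by
  obtain ⟨v, h⟩ := p
  simp only at hp
  have hv : 0 ≤ ‖v‖ := norm_nonneg v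
  have hh : |h| ≤ 1 := by linarith
  obtain ⟨hh1, hh2⟩ := abs_le.1 hh
  have hr0 : 0 ≤ (1 - h) / 2 := by linarith
  have hr1 : (1 - h) / 2 ≤ 1 := by linarith
  -- the centred point
  obtain ⟨X, hX, hXv⟩ : ∃ X : Fin (k + 1) → ℝ, ‖X‖ = (1 - h) / 2 ∧
      nbc ((1 - h) / 2) • X = v := by
    rcases eq_or_ne v 0 with rfl | hv0
    · refine ⟨fun _ => (1 - h) / 2, ?_, ?_⟩
      · rw [pi_norm_const, Real.norm_eq_abs, abs_of_nonneg hr0]
      · rw [norm_zero, zero_add] at hp
        have h1 := nbc_mul hr0 hr1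
        have h2 : 1 - 2 * ((1 - h) / 2) = h := by ring
        rw [h2, hp, sub_self] at h1
        funext i
        simpa using h1
    · have hvp : 0 < ‖v‖ := norm_pos_iff.2 hv0
      refine ⟨((1 - h) / 2 / ‖v‖) • v, ?_, ?_⟩
      · rw [norm_smul, Real.norm_eq_abs, abs_of_nonneg (by positivity), div_mul_cancel₀ _ hvp.ne']
      · rw [smul_smul, mul_div_assoc', nbc_mul hr0 hr1]
        have h2 : 1 - 2 * ((1 - h) / 2) = h := by ring
        rw [h2]
        have h3 : 1 - |h| = ‖v‖ := by linarith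
        rw [h3, div_self hvp.ne', one_smul]
  have hXi : ∀ i, |X i| ≤ 1 := fun i => by
    rw [← Real.norm_eq_abs]
    exact (norm_le_pi_norm X i).trans (hX.trans_le hr1)
  refine ⟨fun i => ⟨(X i + 1) / 2, ?_, ?_⟩, ?_⟩
  · linarith [(abs_le.1 (hXi i)).1]
  · linarith [(abs_le.1 (hXi i)).2]
  · have h1 : nbX (fun i => (⟨(X i + 1) / 2, by linarith [(abs_le.1 (hXi i)).1],
        by linarith [(abs_le.1 (hXi i)).2]⟩ : unitInterval)) = X := by
      funext i
      change 2 * ((X i + 1) / 2) - 1 = X i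
      ring
    rw [nbq, h1, hX, hXv]
    refine Prod.ext rfl ?_
    change 1 - 2 * ((1 - h) / 2) = h
    ring

/-- the convex body -/
private abbrev nbD (k : ℕ) : Set ((Fin (k + 1) → ℝ) × ℝ) := {p | ‖p.1‖ + |p.2| ≤ 1}

private theorem nb_size (t : unitInterval) (x : Fin (k + 1) → unitInterval) :
    ‖((1 - (t : ℝ)) • nbq x).1‖ + |((1 - (t : ℝ)) • nbq x).2| = 1 - t := by
  have h1 : 0 ≤ 1 - (t : ℝ) := by linarith [t.2.2]
  have h2 := nbq_mem x
  change ‖(1 - (t : ℝ)) • (nbq x).1‖ + |(1 - (t : ℝ)) * (nbq x).2| = 1 - t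
  rw [norm_smul, abs_mul, Real.norm_eq_abs, abs_of_nonneg h1, ← mul_add, h2, mul_one]

private def nbPi : C(unitInterval × (Fin (k + 1) → unitInterval), nbD k) where
  toFun := fun p => ⟨(1 - (p.1 : ℝ)) • nbq p.2, by
    have h1 := nb_size p.1 p.2
    have h2 := p.1.2.1
    exact h1.le.trans (by linarith)⟩
  continuous_toFun := by
    refine Continuous.subtype_mk ?_ _
    exact (continuous_const.sub (continuous_subtype_val.comp continuous_fst)).smul
      (nbq_cont.comp continuous_snd)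

private theorem nbPi_surj : Function.Surjective (nbPi : C(_, nbD k)) := by
  rintro ⟨p, hp⟩
  have hp' : ‖p.1‖ + |p.2| ≤ 1 := hp
  have h0 : 0 ≤ ‖p.1‖ + |p.2| := by positivity
  rcases eq_or_lt_of_le h0 with h1 | h1
  · refine ⟨(⟨1, by simp⟩, fun _ => ⟨0, by simp⟩), Subtype.ext ?_⟩
    change (1 - (1 : ℝ)) • nbq _ = p
    rw [sub_self, zero_smul]
    have h2 : ‖p.1‖ = 0 := by
      have := norm_nonneg p.1
      have := abs_nonneg p.2
      linarith
    have h3 : |p.2| = 0 := by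
      have := norm_nonneg p.1
      have := abs_nonneg p.2
      linarith
    exact (Prod.ext (norm_eq_zero.1 h2) (abs_eq_zero.1 h3)).symm
  · set s : ℝ := ‖p.1‖ + |p.2| with hs
    have h2 : ‖(s⁻¹ • p).1‖ + |(s⁻¹ • p).2| = 1 := by
      change ‖s⁻¹ • p.1‖ + |s⁻¹ * p.2| = 1
      rw [norm_smul, abs_mul, Real.norm_eq_abs, abs_of_pos (inv_pos.2 h1), ← mul_add, ← hs,
        inv_mul_cancel₀ h1.ne']
    obtain ⟨x, hx⟩ := nbq_surj h2
    refine ⟨(⟨1 - s, by linarith, by linarith⟩, x), Subtype.ext ?_⟩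
    change (1 - (1 - s)) • nbq x = p
    rw [hx, smul_smul]
    have h3 : (1 - (1 - s)) * s⁻¹ = 1 := by
      rw [sub_sub_cancel, mul_inv_cancel₀ h1.ne']
    rw [h3, one_smul]

end nball

theorem ext_of_pi {Y : Type} [TopologicalSpace Y] (k : ℕ)
    (h : ∀ y : Y, Subsingleton (HomotopyGroup.Pi (k + 1) Y y))
    (f : (Fin (k + 1) → ℝ) × ℝ → Y) (hf : ContinuousOn f {p | ‖p.1‖ + |p.2| = 1}) :
    ∃ F : (Fin (k + 1) → ℝ) × ℝ → Y, ContinuousOn F {p | ‖p.1‖ + |p.2| ≤ 1} ∧
      ∀ p, ‖p.1‖ + |p.2| = 1 → F p = f p := by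
  classical
  have hfq : Continuous (fun x : Fin (k + 1) → unitInterval => f (nbq x)) :=
    hf.comp_continuous nbq_cont fun x => nbq_mem x
  let g : GenLoop (Fin (k + 1)) Y (f (0, -1)) := ⟨⟨fun x => f (nbq x), hfq⟩, fun x hx => by
    change f (nbq x) = _
    rw [nbq_bdry (nb_bdry.1 hx)]⟩
  have h1 : GenLoop.Homotopic g GenLoop.const := by
    have h2 := h (f (0, -1))
    exact Quotient.exact (Subsingleton.elim (α := HomotopyGroup.Pi (k + 1) Y (f (0, -1)))
      (Quotient.mk _ g) (Quotient.mk _ GenLoop.const))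
  obtain ⟨H⟩ := h1
  have hH0 : ∀ x, H (0, x) = f (nbq x) := fun x => H.apply_zero x
  have hH1 : ∀ x, H (1, x) = f (0, -1) := fun x => H.apply_one x
  have hHb : ∀ t x, ‖nbX x‖ = 1 → H (t, x) = f (0, -1) := by
    intro t x hx
    rw [H.eq_fst t (nb_bdry.2 hx)]
    change f (nbq x) = _
    rw [nbq_bdry hx]
  have hq : IsQuotientMap (nbPi : C(_, nbD k)) :=
    (nbPi (k := k)).continuous.isClosedMap.isQuotientMap (nbPi (k := k)).continuous nbPi_surj
  have hfac : Function.FactorsThrough (H.toContinuousMap : unitInterval × (Fin (k + 1) → unitInterval) → Y)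
      (nbPi : C(_, nbD k)) := by
    rintro ⟨t, x⟩ ⟨t', x'⟩ hp
    have hp1 : (1 - (t : ℝ)) • nbq x = (1 - (t' : ℝ)) • nbq x' := congrArg Subtype.val hp
    have h2 : (1 - (t : ℝ)) = 1 - t' := by
      rw [← nb_size t x, ← nb_size t' x', hp1]
    have h3 : t = t' := Subtype.ext (by linarith)
    subst h3
    change H (t, x) = H (t, x')
    rcases eq_or_lt_of_le t.2.2 with h4 | h4
    · have h5 : t = 1 := Subtype.ext h4
      rw [h5, hH1, hH1]
    · have h5 : (1 - (t : ℝ)) ≠ 0 := by linarith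
      have h6 : nbq x = nbq x' := smul_right_injective _ h5 hp1
      rcases nbq_inj h6 with h7 | ⟨h7, h8⟩
      · rw [h7]
      · rw [hHb t x h7, hHb t x' h8]
  let Fl : C(nbD k, Y) := hq.lift H.toContinuousMap hfac
  have hFl : ∀ p, Fl (nbPi p) = H p := fun p =>
    congrFun (congrArg DFunLike.coe (hq.lift_comp H.toContinuousMap hfac)) p
  refine ⟨fun p => if hp : p ∈ nbD k then Fl ⟨p, hp⟩ else f p, ?_, ?_⟩
  · rw [continuousOn_iff_continuous_restrict]
    refine Fl.continuous.congr fun p => ?_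
    change Fl p = dite _ _ _
    rw [dif_pos p.2]
  · intro p hp
    obtain ⟨x, rfl⟩ := nbq_surj hp
    have hD : nbq x ∈ nbD k := hp.le
    change dite _ _ _ = _
    rw [dif_pos hD]
    have h2 : (⟨nbq x, hD⟩ : nbD k) = nbPi (0, x) := by
      apply Subtype.ext
      change nbq x = (1 - ((0 : unitInterval) : ℝ)) • nbq x
      simp
    rw [h2, hFl, hH0]

end Pool.Agent.CT
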