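import Pool.Agent.CT.Defs

/-!
# Project CT (MP_45233e_ag): smoothed intersection numbers of a cycle with a triangle in `ℝ⁴`

Definitions only.  `κ : Fin 4 → Ix g` selects four coordinates, `pr κ : V g → ℝ⁴`.
-/

set_option autoImplicit false

noncomputable section

open scoped BigOperators ContDiff

namespace Pool.Agent.CT

/-- `ℝ⁴` -/
abbrev R4 : Type := Fin 4 → ℝ

/-- integer vectors in `ℝ⁴` -/
def zv (m : Fin 4 → ℤ) : R4 := fun a => (m a : ℝ)

/-- the determinant of four vectors -/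
def dt (p q u v : R4) : ℝ := Matrix.det (Matrix.of ![p, q, u, v])

/-- the unit vectors -/
abbrev ev (a : Fin 4) : R4 := Pi.single a 1

/-- the standard triangle -/
def tri : Set (ℝ × ℝ) := {s | 0 ≤ s.1 ∧ 0 ≤ s.2 ∧ s.1 + s.2 ≤ 1}

/-- mean over the triangle `x - (0, p, q)` -/
def GG (ρ : R4 → ℝ) (p q x : R4) : ℝ := ∫ s in tri, ρ (x - s.1 • p - s.2 • q)

/-- mean over the segment `x - [p, q]` -/
def EE (ρ : R4 → ℝ) (p q x : R4) : ℝ := ∫ t in (0 : ℝ)..1, ρ (x - p - t • (q - p))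

/-- the derivative of `ρ` in the direction `h` -/
def dr (ρ : R4 → ℝ) (h : R4) : R4 → ℝ := fun x => fderiv ℝ ρ x h

/-- periodic functions on `ℝ⁴` -/
def Per4 (ρ : R4 → ℝ) : Prop := ∀ (m : Fin 4 → ℤ) (x : R4), ρ (x + zv m) = ρ x

/-- the support of `ρ` is in the `ε`-neighbourhood of the lattice -/
def Supp4 (ε : ℝ) (ρ : R4 → ℝ) : Prop := ∀ x, ρ x ≠ 0 → ∃ m : Fin 4 → ℤ, ‖x - zv m‖ < ε

/-- smooth periodic functions with support in the `ε`-neighbourhood of the lattice and integral 1 -/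
structure Bump (ε : ℝ) (ρ : R4 → ℝ) : Prop where
  smooth : ContDiff ℝ ∞ ρ
  per : Per4 ρ
  supp : Supp4 ε ρ
  int : ∫ x in Set.Icc (0 : R4) 1, ρ x = 1

variable {g : ℕ}

/-- the projection to `ℝ⁴` -/
def pr (κ : Fin 4 → Ix g) : V g →L[ℝ] R4 :=
  ContinuousLinearMap.pi fun a => ContinuousLinearMap.proj (κ a)

/-- margin: the distance of the segment `[p, q]` to the projection of `Z` is more than `ε` -/
def Mg (κ : Fin 4 → Ix g) (Z : Set (V g)) (ε : ℝ) (p q : R4) : Prop :=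
  ∃ δ > ε, ∀ x ∈ Z, ∀ t ∈ Set.Icc (0 : ℝ) 1, δ ≤ ‖pr κ x - p - t • (q - p)‖

/-- pairing of a 2-current on the torus with the 2-form `f (pr x) · det (p, q, ·, ·)` -/
def PP (κ : Fin 4 → Ix g) (S : Ix g → Ix g → (V g → ℝ) → ℝ) (p q : R4) (f : R4 → ℝ) : ℝ :=
  (1 / 2) * ∑ b : Fin 4, ∑ c : Fin 4, dt p q (ev b) (ev c) * S (κ b) (κ c) (fun x => f (pr κ x))

/-- smoothed intersection number with the triangle `(0, p, q)` -/
def NN (κ : Fin 4 → Ix g) (ρ : R4 → ℝ) (S : Ix g → Ix g → (V g → ℝ) → ℝ) (p q : R4) : ℝ :=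
  PP κ S p q (GG ρ p q)

/-- closed 2-currents on the torus, supported in `Z` -/
structure Cur (Z : Set (V g)) (S : Ix g → Ix g → (V g → ℝ) → ℝ) : Prop where
  add : ∀ i j (a b : V g → ℝ), Continuous a → IsPer a → Continuous b → IsPer b →
    S i j (fun x => a x + b x) = S i j a + S i j b
  smul : ∀ i j (r : ℝ) (a : V g → ℝ), Continuous a → IsPer a →
    S i j (fun x => r * a x) = r * S i j a
  anti : ∀ i j (a : V g → ℝ), Continuous a → IsPer a → S j i a = - S i j a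
  van : ∀ i j (a : V g → ℝ), Continuous a → IsPer a → (∀ x ∈ Z, a x = 0) → S i j a = 0
  closed : ∀ j (a : V g → ℝ), ContDiff ℝ ∞ a → IsPer a → ∑ i, S i j (pd a i) = 0

/-- functions as elements of `Per g` -/
def toPer (a : V g → ℝ) : Per g :=
  letI := Classical.propDecidable
  if h : Continuous a ∧ IsPer a then ⟨a, h⟩ else ⟨fun _ => 0, continuous_const, fun _ _ => rfl⟩

/-- closed sets and currents -/
abbrev Zs (g : ℕ) : Type := TopologicalSpace.Closeds (V g) × (Ix g → Ix g → Per g → ℝ)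

/-- the current of a point of `Zs g` as a function on functions -/
def Zs.cur (y : Zs g) (i j : Ix g) (a : V g → ℝ) : ℝ := y.2 i j (toPer a)

/-- holomorphic cycles: finite unions of compact Riemann surfaces -/
def IsCyc (y : Zs g) : Prop :=
  ∃ (J : V g →L[ℝ] V g) (m : ℕ) (P : Fin m → Piece J),
    (y.1 : Set (V g)) = ⋃ k, (P k).carrier ∧
    ∀ i j (a : Per g), y.2 i j a = ∑ k, (P k).cur i j a.1

/-- the cycle of a point of `Xt g` -/
def cyc (p : Xt g) : Zs g := (p.1.2.1, p.1.2.2.1)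

end Pool.Agent.CT
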