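import Pool.Agent.CT.NDefs

/-!
# CT-PERIO : periodisation of integrable integer valued functions on `ℝ⁴`

PLAN. Let `C = {x | ∀ a, 0 ≤ x a ∧ x a < 1}`; `ℝ⁴` is the disjoint union of the `C + zv m`
(`m = floor`), so `∫ f = Σ_m ∫_C f (x + zv m)` for integrable `f` (`ZSpan.isAddFundamentalDomain`
for `Pi.basisFun` and `IsAddFundamentalDomain.integral_eq_tsum`, or `integral_iUnion` with
translation invariance directly), and `Icc 0 1` differs from `C` by a null set
(`Measure.univ_pi_Ico_ae_eq_Icc`). `Σ_m ∫_C |n (x + zv m)| = ∫ |n| < ∞`, so for almost all `x ∈ C` the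
sum `Σ_m |n (x + zv m)|` of integers is finite, i.e. only finitely many terms are nonzero. Define
`N x = Σᶠ m, n (x + zv m)` (a `finsum`, equal to `0` if infinitely many terms are nonzero): it is
periodic. `∫ ρ n = Σ_m ∫_C ρ (x + zv m) n (x + zv m) = ∫_C ρ (x) N x`.
-/

set_option autoImplicit false

noncomputable section

open MeasureTheory

namespace Pool.Agent.CT

/-- half open unit box with corner `a` -/
private def box (a : R4) : Set R4 := Set.pi Set.univ fun i => Set.Ico (a i) (a i + 1)

private lemma box_meas (a : R4) : MeasurableSet (box a) :=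
  MeasurableSet.univ_pi fun _ => measurableSet_Ico

private lemma box_ae (a : R4) : box a =ᵐ[volume] Set.Icc a (fun i => a i + 1) :=
  Measure.univ_pi_Ico_ae_eq_Icc

private lemma box_ae0 : box (0 : R4) =ᵐ[volume] Set.Icc (0 : R4) 1 := by
  have h := box_ae 0
  have h2 : (fun i => (0 : R4) i + 1) = (1 : R4) := by
    funext i; simp
  rwa [h2] at h

private lemma zv_add (m k : Fin 4 → ℤ) : zv (m + k) = zv m + zv k := by
  funext i; simp [zv]

private lemma zv_neg (m : Fin 4 → ℤ) : zv (-m) = - zv m := by
  funext i; simp [zv]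

private lemma zv_zero : zv 0 = 0 := by
  funext i; simp [zv]

/-- each point has exactly one translate in the box -/
private lemma box_unique (a x : R4) : ∃! m : Fin 4 → ℤ, x + zv m ∈ box a := by
  have h : ∀ i, ∃! k : ℤ, x i + k • (1 : ℝ) ∈ Set.Ico (a i) (a i + 1) := fun i =>
    existsUnique_add_zsmul_mem_Ico one_pos (x i) (a i)
  choose k hk hk' using h
  refine ⟨k, ?_, ?_⟩
  · intro i _
    have := hk i
    simpa [zv] using this
  · intro m hm
    funext i
    apply hk' i
    have := hm i (Set.mem_univ i)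
    simpa [zv] using this

private lemma hasSum_box (a : R4) (f : R4 → ℝ) (hf : Integrable f) :
    HasSum (fun m : Fin 4 → ℤ => ∫ x in box a, f (x + zv m)) (∫ x, f x) := by
  set s : (Fin 4 → ℤ) → Set R4 := fun m => (fun x => x + zv (-m)) ⁻¹' box a with hs
  have hmeas : ∀ m, MeasurableSet (s m) := fun m =>
    (measurable_add_const (zv (-m))) (box_meas a)
  have hdis : Pairwise (Function.onFun Disjoint s) := by
    intro m k hmk
    rw [Function.onFun, Set.disjoint_left]
    intro x hx hx'
    apply hmk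
    have := (box_unique a x).unique hx hx'
    simpa using this
  have hun : (⋃ m, s m) = Set.univ := by
    rw [Set.eq_univ_iff_forall]
    intro x
    obtain ⟨m, hm, -⟩ := box_unique a x
    rw [Set.mem_iUnion]
    refine ⟨-m, ?_⟩
    simpa [hs] using hm
  have h := hasSum_integral_iUnion (μ := volume) (f := f) hmeas hdis (by
    rw [hun]; exact hf.integrableOn)
  rw [hun, setIntegral_univ] at h
  have he : (fun m : Fin 4 → ℤ => ∫ x in box a, f (x + zv m)) = fun m => ∫ x in s m, f x := by
    funext m
    have h1 := (measurePreserving_add_right (volume : Measure R4) (zv m)).setIntegral_preimage_emb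
      (MeasurableEquiv.addRight (zv m)).measurableEmbedding f (s m)
    have h2 : (fun x => x + zv m) ⁻¹' s m = box a := by
      ext x
      simp [hs, zv_neg]
    rw [h2] at h1
    exact h1
  rw [he]
  exact h

private lemma per_bdd (ρ : R4 → ℝ) (hc : Continuous ρ) (hp : Per4 ρ) : ∃ M, ∀ x, ‖ρ x‖ ≤ M := by
  obtain ⟨M, hM⟩ := (isCompact_Icc (a := (0 : R4)) (b := 1)).exists_bound_of_continuousOn
    hc.continuousOn
  refine ⟨M, fun x => ?_⟩
  obtain ⟨m, hm, -⟩ := box_unique 0 x
  rw [← hp m x]
  apply hM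
  constructor
  · intro i; exact (hm i (Set.mem_univ i)).1
  · intro i
    have := (hm i (Set.mem_univ i)).2.le
    simpa using this

theorem perio (n : R4 → ℤ) (hn : Integrable (fun v => (n v : ℝ))) :
    ∃ N : R4 → ℤ, (∀ (m : Fin 4 → ℤ) x, N (x + zv m) = N x) ∧
      IntegrableOn (fun v => (N v : ℝ)) (Set.Icc 0 1) ∧
      ∀ ρ : R4 → ℝ, Continuous ρ → Per4 ρ → ∫ v, ρ v * n v = ∫ v in Set.Icc 0 1, ρ v * N v := by
  classical
  set C : Set R4 := box 0 with hC
  have hintm : ∀ (f : R4 → ℝ), Integrable f → ∀ m : Fin 4 → ℤ,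
      Integrable (fun x => f (x + zv m)) (volume.restrict C) := fun f hf m =>
    (hf.comp_add_right (zv m)).integrableOn
  -- lintegral finiteness
  have hlin : ∫⁻ x in C, ∑' m : Fin 4 → ℤ, ‖(n (x + zv m) : ℝ)‖ₑ < ⊤ := by
    rw [lintegral_tsum (fun m => (hintm _ hn m).aestronglyMeasurable.enorm)]
    have h1 := hasSum_box 0 (fun v => ‖(n v : ℝ)‖) hn.norm
    have h2 : ∀ m : Fin 4 → ℤ, ∫⁻ x in C, ‖(n (x + zv m) : ℝ)‖ₑ
        = ENNReal.ofReal (∫ x in C, ‖(n (x + zv m) : ℝ)‖) := fun m =>
      (ofReal_integral_norm_eq_lintegral_enorm (hintm _ hn m)).symm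
    simp_rw [h2]
    rw [← ENNReal.ofReal_tsum_of_nonneg (fun m => integral_nonneg fun x => norm_nonneg _)
      h1.summable]
    exact ENNReal.ofReal_lt_top
  have hae : ∀ᵐ x ∂(volume.restrict C), Summable fun m : Fin 4 → ℤ => ‖(n (x + zv m) : ℝ)‖ := by
    have h1 := ae_lt_top' (AEMeasurable.tsum
      (fun m => (hintm _ hn m).aestronglyMeasurable.enorm)) hlin.ne
    filter_upwards [h1] with x hx
    have h2 : (∑' m : Fin 4 → ℤ, ((‖(n (x + zv m) : ℝ)‖₊ : NNReal) : ENNReal)) ≠ ⊤ := hx.ne
    rw [ENNReal.tsum_coe_ne_top_iff_summable] at h2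
    have h3 := NNReal.summable_coe.mpr h2
    simpa using h3
  have hfin : ∀ᵐ x ∂(volume.restrict C),
      (Function.support fun m : Fin 4 → ℤ => n (x + zv m)).Finite := by
    filter_upwards [hae] with x hx
    have h1 := hx.tendsto_cofinite_zero
    have h2 := h1.eventually (gt_mem_nhds (show (0 : ℝ) < 1 by norm_num))
    rw [Filter.eventually_cofinite] at h2
    refine h2.subset ?_
    intro m hm
    simp only [Set.mem_ofPred_eq, not_lt]
    rw [Function.mem_support] at hm
    have h3 : (1 : ℤ) ≤ |n (x + zv m)| := Int.one_le_abs hm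
    rw [Real.norm_eq_abs]
    exact_mod_cast h3
  set N : R4 → ℤ := fun x => ∑ᶠ m : Fin 4 → ℤ, n (x + zv m) with hN
  have hsum : ∀ᵐ x ∂(volume.restrict C), HasSum (fun m : Fin 4 → ℤ => (n (x + zv m) : ℝ))
      (N x : ℝ) := by
    filter_upwards [hfin] with x hx
    have h1 : (N x : ℝ) = ∑ m ∈ hx.toFinset, (n (x + zv m) : ℝ) := by
      rw [hN]
      simp only
      rw [finsum_eq_sum _ hx]
      push_cast
      rfl
    rw [h1]
    apply hasSum_sum_of_ne_finset_zero
    intro m hm
    have : n (x + zv m) = 0 := by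
      by_contra h
      exact hm (by simpa using h)
    simp [this]
  have hper : ∀ (m : Fin 4 → ℤ) x, N (x + zv m) = N x := by
    intro m x
    rw [hN]
    simp only
    rw [← finsum_comp_equiv (Equiv.addLeft m) (f := fun k => n (x + zv k))]
    apply finsum_congr
    intro k
    rw [Equiv.coe_addLeft, zv_add, add_assoc]
  have hmeasN : AEStronglyMeasurable (fun v => (N v : ℝ)) (volume.restrict C) := by
    refine aestronglyMeasurable_of_tendsto_ae
      (Filter.atTop : Filter (Finset (Fin 4 → ℤ)))
      (f := fun s x => ∑ m ∈ s, (n (x + zv m) : ℝ)) ?_ ?_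
    · intro s
      exact Finset.aestronglyMeasurable_fun_sum s (fun m _ => (hintm _ hn m).aestronglyMeasurable)
    · filter_upwards [hsum] with x hx
      exact hx
  have hNint : Integrable (fun v => (N v : ℝ)) (volume.restrict C) := by
    refine ⟨hmeasN, ?_⟩
    refine lt_of_le_of_lt ?_ hlin
    apply lintegral_mono_ae
    filter_upwards [hsum, hae] with x hx hx'
    rw [← hx.tsum_eq]
    exact enorm_tsum_le_tsum_enorm
  refine ⟨N, hper, ?_, ?_⟩
  · rw [IntegrableOn, ← Measure.restrict_congr_set box_ae0]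
    exact hNint
  · intro ρ hρ hρp
    obtain ⟨M, hM⟩ := per_bdd ρ hρ hρp
    have hprod : Integrable (fun v => ρ v * (n v : ℝ)) :=
      hn.bdd_mul hρ.aestronglyMeasurable (Filter.Eventually.of_forall hM)
    have h1 := hasSum_box 0 _ hprod
    have h2 := hasSum_box 0 _ hprod.norm
    rw [← h1.tsum_eq]
    rw [← Measure.restrict_congr_set box_ae0]
    have h3 := integral_tsum_of_summable_integral_norm
      (F := fun (m : Fin 4 → ℤ) x => ρ (x + zv m) * (n (x + zv m) : ℝ)) (μ := volume.restrict C)
      (fun m => hintm _ hprod m) h2.summable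
    rw [hC] at h3
    rw [h3]
    apply integral_congr_ae
    filter_upwards [hsum] with x hx
    have h4 : ∀ m : Fin 4 → ℤ, ρ (x + zv m) * (n (x + zv m) : ℝ) = ρ x * (n (x + zv m) : ℝ) :=
      fun m => by rw [hρp m x]
    simp_rw [h4]
    rw [tsum_mul_left, hx.tsum_eq]

/-- integer vectors as a subgroup -/
private def LZ : AddSubgroup R4 where
  carrier := Set.range zv
  zero_mem' := ⟨0, zv_zero⟩
  add_mem' := by
    rintro _ _ ⟨m, rfl⟩ ⟨k, rfl⟩
    exact ⟨m + k, zv_add m k⟩
  neg_mem' := by
    rintro _ ⟨m, rfl⟩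
    exact ⟨-m, zv_neg m⟩

private instance : Countable LZ := (Set.countable_range zv).to_subtype

private lemma box_fd (a : R4) : IsAddFundamentalDomain LZ (box a) (volume : Measure R4) := by
  refine IsAddFundamentalDomain.mk' (box_meas a).nullMeasurableSet fun x => ?_
  obtain ⟨m, hm, hu⟩ := box_unique a x
  refine ⟨⟨zv m, m, rfl⟩, ?_, ?_⟩
  · change zv m + x ∈ box a
    rw [add_comm]
    exact hm
  · rintro ⟨_, k, rfl⟩ hk
    have hk' : zv k + x ∈ box a := hk
    rw [add_comm] at hk'
    rw [hu k hk']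

private lemma box_indep (f : R4 → ℝ) (hf : Per4 f) (a b : R4) :
    ∫ x in box a, f x = ∫ x in box b, f x := by
  refine (box_fd a).setIntegral_eq (box_fd b) ?_
  rintro ⟨_, k, rfl⟩ x
  change f (zv k + x) = f x
  rw [add_comm]
  exact hf k x

/-- the integral over a period does not change under translations -/
theorem int_trans (f : R4 → ℝ) (hf : Per4 f) (hint : IntegrableOn f (Set.Icc 0 1)) (v : R4) :
    ∫ x in Set.Icc 0 1, f (x + v) = ∫ x in Set.Icc 0 1, f x := by
  rw [← Measure.restrict_congr_set box_ae0]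
  have h1 := (measurePreserving_add_right (volume : Measure R4) v).setIntegral_preimage_emb
    (MeasurableEquiv.addRight v).measurableEmbedding f (box v)
  have h2 : (fun x => x + v) ⁻¹' box v = box 0 := by
    ext x
    simp only [Set.mem_preimage, box, Set.mem_pi, Set.mem_univ, true_imp_iff, Set.mem_Ico,
      Pi.add_apply, Pi.zero_apply]
    refine forall_congr' fun i => ?_
    constructor
    · rintro ⟨h, h'⟩; constructor <;> linarith
    · rintro ⟨h, h'⟩; constructor <;> linarith
  rw [h2] at h1
  exact h1.trans (box_indep f hf v 0)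

/-- the integral over a period of a function supported in the `1/2`-neighbourhood of the lattice -/
theorem int_unfold (f : R4 → ℝ) (hf : Per4 f) (hint : IntegrableOn f (Set.Icc 0 1)) :
    ∫ x in Set.Icc 0 1, f x = ∫ x in Metric.closedBall (0 : R4) (1 / 2), f x := by
  rw [← Measure.restrict_congr_set box_ae0, box_indep f hf 0 (fun _ => -(1 / 2)),
    Measure.restrict_congr_set (box_ae (fun _ => -(1 / 2)))]
  congr 2
  ext x
  rw [closedBall_pi _ (by norm_num)]
  simp only [Set.mem_Icc, Pi.le_def, Set.mem_pi, Set.mem_univ, true_imp_iff,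
    Real.closedBall_eq_Icc, Pi.zero_apply]
  constructor
  · rintro ⟨h, h'⟩ i
    have h1 := h i
    have h2 := h' i
    constructor <;> linarith
  · intro h
    constructor
    · intro i
      have := (h i).1
      linarith
    · intro i
      have := (h i).2
      linarith

end Pool.Agent.CT
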