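import Pool.Agent.CT.Unfold

/-!
# CT-PIECECUR : the current of a piece is a closed current supported in its carrier

PLAN. `P.cur i j a = ∫ z, χ z * a (F z) * wed2 (F_x) (F_y) i j`, `F_x = fderiv ℝ F z 1`,
`F_y = fderiv ℝ F z I`; the integrand is continuous with compact support in `tsupport χ ⊆ U` (for
continuous `a`; extend by `0` outside `U`). `add`, `smul`, `anti`, `van` are immediate.
`closed`: fix `j`, `a` smooth periodic, `A = a ∘ F`, `b = F_j` (the `j`-th coordinate of `F`), on `U`:
`Σ_i pd a i (F z) * wed2 F_x F_y i j = A_x b_y - A_y b_x` (chain rule,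
`Σ_i pd a i (v) * w i = fderiv a v w`). So `Σ_i P.cur i j (pd a i) = ∫ χ (A_x b_y - A_y b_x)`, and
`χ (A_x b_y - A_y b_x) = (χ A b_y)_x - (χ A b_x)_y - A (χ_x b_y - χ_y b_x)` (`b_xy = b_yx`), the first
two terms integrate to `0` (compact support: `integral_fderiv_eq_zero`-type lemma, e.g.
`integral_eq_zero_of_hasDerivAt..`/`integral_bilinear_hasLineDerivAt_right_eq_neg_left_of_integrable` or Fubini).
It remains `∫ η = 0` for `η = A (χ_x b_y - χ_y b_x)` (compact support in `U`, continuous). By `unfold` it is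
enough that `Σ_γ η (γ z) ‖γ'(z)‖² = 0` for `z ∈ U`: with `β z (w) = A z * fderiv b z w` (a `Γ`-invariant
1-form: `A (γ z) = A z` by periodicity, `b (γ z) = b z + const`) and `χ_γ = χ ∘ act γ`, the chain
rule gives `η (γ z) ‖γ'(z)‖² = A z * ((χ_γ)_x b_y - (χ_γ)_y b_x)(z)` (for real linear maps `ℓ, m` on `ℂ` and
`c = γ'(z)`: `(ℓ ∘ c)(1) (m ∘ c)(I) - (ℓ ∘ c)(I) (m ∘ c)(1) = ‖c‖² (ℓ 1 * m I - ℓ I * m 1)`), and near `z`
only finitely many `χ_γ` are nonzero (`piece_finite`), with sum `1` (`χ_sum`), so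
`Σ_γ (χ_γ)_x = 0 = Σ_γ (χ_γ)_y`.
-/

set_option autoImplicit false

noncomputable section

open MeasureTheory Filter Topology
open scoped ContDiff

namespace Pool.Agent.CT

variable {g : ℕ} {J : V g →L[ℝ] V g}

private theorem contDiff_cut {n : ℕ∞ω} {U : Set ℂ} (hU : IsOpen U) {χ G : ℂ → ℝ}
    (hχ : ContDiff ℝ n χ) (hs : tsupport χ ⊆ U) (hG : ContDiffOn ℝ n G U) :
    ContDiff ℝ n (fun z => χ z * G z) := by
  rw [contDiff_iff_contDiffAt]
  intro z
  by_cases hz : z ∈ tsupport χ
  · exact hχ.contDiffAt.mul (hG.contDiffAt (hU.mem_nhds (hs hz)))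
  · have h1 : (fun z => χ z * G z) =ᶠ[𝓝 z] fun _ => 0 := by
      have h2 := notMem_tsupport_iff_eventuallyEq.1 hz
      filter_upwards [h2] with w hw
      simp [hw]
    exact contDiffAt_const.congr_of_eventuallyEq h1

private theorem cont_cut {U : Set ℂ} (hU : IsOpen U) {χ G : ℂ → ℝ}
    (hχ : Continuous χ) (hs : tsupport χ ⊆ U) (hG : ContinuousOn G U) :
    Continuous (fun z => χ z * G z) := by
  rw [← contDiff_zero (𝕜 := ℝ)]
  exact contDiff_cut hU (contDiff_zero.2 hχ) hs (contDiffOn_zero.2 hG)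

private theorem integral_fderiv_zero {φ : ℂ → ℝ} (hφ : ContDiff ℝ 1 φ) (hc : HasCompactSupport φ)
    (v : ℂ) : ∫ z, fderiv ℝ φ z v = 0 := by
  have hcf : Continuous (fun z => fderiv ℝ φ z v) :=
    (hφ.continuous_fderiv one_ne_zero).clm_apply continuous_const
  have hcs : HasCompactSupport (fun z => fderiv ℝ φ z v) :=
    (hc.fderiv (𝕜 := ℝ)).comp_left (g := fun L : ℂ →L[ℝ] ℝ => L v) (by simp)
  have h1 := integral_mul_fderiv_eq_neg_fderiv_mul_of_integrable (μ := (volume : Measure ℂ))
    (f := fun _ : ℂ => (1 : ℝ)) (g := φ) (v := v)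
    (by simp) (by simpa using hcf.integrable_of_hasCompactSupport hcs)
    (by simpa using hφ.continuous.integrable_of_hasCompactSupport hc)
    (fun x _ => differentiableAt_const _)
    (fun x _ => (hφ.differentiable one_ne_zero) x)
  simpa using h1

private theorem sum_pd (a : V g → ℝ) (x v : V g) : ∑ i, pd a i x * v i = fderiv ℝ a x v := by
  have h := (fderiv ℝ a x).toLinearMap.pi_apply_eq_sum_univ v
  have h2 : (fderiv ℝ a x) v = ∑ i, v i • (fderiv ℝ a x) (fun j => if i = j then 1 else 0) := h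
  rw [h2]
  refine Finset.sum_congr rfl fun i _ => ?_
  unfold pd
  rw [smul_eq_mul, mul_comm]
  congr 2
  funext j
  by_cases hij : i = j
  · subst hij
    simp
  · rw [if_neg hij, Pi.single_eq_of_ne (Ne.symm hij)]

private theorem conf_id (ℓ m : ℂ →L[ℝ] ℝ) (c : ℂ) :
    ℓ (c * 1) * m (c * Complex.I) - ℓ (c * Complex.I) * m (c * 1) =
      ‖c‖ ^ 2 * (ℓ 1 * m Complex.I - ℓ Complex.I * m 1) := by
  have e1 : c * 1 = c.re • (1 : ℂ) + c.im • Complex.I := by
    apply Complex.ext <;> simp
  have e2 : c * Complex.I = (-c.im) • (1 : ℂ) + c.re • Complex.I := by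
    apply Complex.ext <;> simp
  have e3 : ‖c‖ ^ 2 = c.re ^ 2 + c.im ^ 2 := by
    rw [← Complex.normSq_eq_norm_sq, Complex.normSq_apply]
    ring
  rw [e1, e2, e3]
  simp only [map_add, map_smul, smul_eq_mul]
  ring

private theorem cur_int (P : Piece J) {a : V g → ℝ} (ha : Continuous a) (i j : Ix g) :
    Integrable (fun z : ℂ => P.χ z * a (P.F z) *
      wed2 (fderiv ℝ P.F z 1) (fderiv ℝ P.F z Complex.I) i j) := by
  have hF : ContinuousOn P.F P.U := P.F_smooth.continuousOn
  have hdF : ContinuousOn (fun z => fderiv ℝ P.F z) P.U :=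
    P.F_smooth.continuousOn_fderiv_of_isOpen P.isOpen (by simp)
  have hd : ∀ (v : ℂ) (k : Ix g), ContinuousOn (fun z => fderiv ℝ P.F z v k) P.U := fun v k =>
    (continuous_apply k).comp_continuousOn (hdF.clm_apply continuousOn_const)
  have hG : ContinuousOn (fun z => a (P.F z) *
      wed2 (fderiv ℝ P.F z 1) (fderiv ℝ P.F z Complex.I) i j) P.U := by
    unfold wed2
    exact (ha.comp_continuousOn hF).mul (((hd _ _).mul (hd _ _)).sub ((hd _ _).mul (hd _ _)))
  have hc := cont_cut P.isOpen P.χ_smooth.continuous P.χ_sub hG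
  have hcs : HasCompactSupport (fun z => P.χ z * (a (P.F z) *
      wed2 (fderiv ℝ P.F z 1) (fderiv ℝ P.F z Complex.I) i j)) := P.χ_cpt.mul_right
  have h1 : Integrable (fun z => P.χ z * (a (P.F z) *
      wed2 (fderiv ℝ P.F z 1) (fderiv ℝ P.F z Complex.I) i j)) volume :=
    hc.integrable_of_hasCompactSupport hcs
  refine h1.congr (Eventually.of_forall fun z => ?_)
  show P.χ z * (a (P.F z) * wed2 (fderiv ℝ P.F z 1) (fderiv ℝ P.F z Complex.I) i j) =
    P.χ z * a (P.F z) * wed2 (fderiv ℝ P.F z 1) (fderiv ℝ P.F z Complex.I) i j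
  ring

/-- the sum of the translates of the cut off function is constant -/
private theorem sum_fderiv (P : Piece J) {z : ℂ} (hz : z ∈ P.U) :
    ∃ s : Finset P.Γ, (∀ γ ∉ s, fderiv ℝ (fun w => P.χ (P.act γ w)) z = 0) ∧
      ∑ γ ∈ s, fderiv ℝ (fun w => P.χ (P.act γ w)) z = 0 := by
  obtain ⟨W, hWo, hzW, hWU, hfin⟩ := piece_finite P (tsupport P.χ) P.χ_cpt P.χ_sub z hz
  have hout : ∀ γ ∉ hfin.toFinset, ∀ w ∈ W, P.χ (P.act γ w) = 0 := by
    intro γ hγ w hw
    by_contra h0
    apply hγ
    rw [Set.Finite.mem_toFinset]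
    exact ⟨w, hw, subset_tsupport _ h0⟩
  refine ⟨hfin.toFinset, ?_, ?_⟩
  · intro γ hγ
    have h1 : (fun w => P.χ (P.act γ w)) =ᶠ[𝓝 z] fun _ => (0 : ℝ) := by
      filter_upwards [hWo.mem_nhds hzW] with w hw
      exact hout γ hγ w hw
    rw [h1.fderiv_eq]
    simp
  · have hdiff : ∀ γ, DifferentiableAt ℝ (fun w => P.χ (P.act γ w)) z := by
      intro γ
      have h1 : DifferentiableAt ℝ (P.act γ) z :=
        ((P.hol γ).differentiableAt (P.isOpen.mem_nhds hz)).restrictScalars ℝ
      exact ((P.χ_smooth.differentiable (by simp)) (P.act γ z)).comp z h1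
    rw [← fderiv_fun_sum fun γ _ => hdiff γ]
    have h1 : (fun w => ∑ γ ∈ hfin.toFinset, P.χ (P.act γ w)) =ᶠ[𝓝 z] fun _ => (1 : ℝ) := by
      filter_upwards [hWo.mem_nhds hzW] with w hw
      rw [← P.χ_sum w (hWU hw)]
      symm
      apply finsum_eq_sum_of_support_subset
      intro γ hγ
      by_contra hγ'
      exact hγ (hout γ hγ' w hw)
    rw [h1.fderiv_eq]
    simp

/-- the form `η` and its translates -/
private theorem eta_trans (P : Piece J) {a : V g → ℝ} (hp : IsPer a) (j : Ix g)
    {z : ℂ} (hz : z ∈ P.U) (γ : P.Γ) :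
    (fderiv ℝ P.χ (P.act γ z) 1 * (a (P.F (P.act γ z)) *
        fderiv ℝ (fun w => P.F w j) (P.act γ z) Complex.I) -
      fderiv ℝ P.χ (P.act γ z) Complex.I * (a (P.F (P.act γ z)) *
        fderiv ℝ (fun w => P.F w j) (P.act γ z) 1)) * ‖deriv (P.act γ) z‖ ^ 2 =
    a (P.F z) * (fderiv ℝ (fun w => P.χ (P.act γ w)) z 1 *
        fderiv ℝ (fun w => P.F w j) z Complex.I -
      fderiv ℝ (fun w => P.χ (P.act γ w)) z Complex.I * fderiv ℝ (fun w => P.F w j) z 1) := by
  set c := deriv (P.act γ) z with hc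
  have hz' : P.act γ z ∈ P.U := P.maps γ z hz
  have hda : HasFDerivAt (P.act γ) ((ContinuousLinearMap.toSpanSingleton ℂ c).restrictScalars ℝ) z :=
    (((P.hol γ).differentiableAt (P.isOpen.mem_nhds hz)).hasDerivAt).hasFDerivAt.restrictScalars ℝ
  have hb : ∀ w ∈ P.U, DifferentiableAt ℝ (fun w => P.F w j) w := by
    intro w hw
    have h1 : DifferentiableAt ℝ P.F w :=
      (P.F_smooth.contDiffAt (P.isOpen.mem_nhds hw)).differentiableAt (by simp)
    exact differentiableAt_pi.1 h1 j
  have h1 : ∀ v : ℂ, fderiv ℝ (fun w => P.χ (P.act γ w)) z v = fderiv ℝ P.χ (P.act γ z) (c * v) := by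
    intro v
    have h2 := ((P.χ_smooth.differentiable (by simp)) (P.act γ z)).hasFDerivAt.comp z hda
    have h3 : HasFDerivAt (fun w => P.χ (P.act γ w)) _ z := h2
    rw [h3.fderiv]
    simp [mul_comm]
  have h4 : ∀ v : ℂ, fderiv ℝ (fun w => P.F w j) z v =
      fderiv ℝ (fun w => P.F w j) (P.act γ z) (c * v) := by
    intro v
    have h2 := (hb _ hz').hasFDerivAt.comp z hda
    have h3 : HasFDerivAt (fun w => P.F (P.act γ w) j) _ z := h2
    have h5 : (fun w => P.F (P.act γ w) j) =ᶠ[𝓝 z] fun w => P.F w j + lat (P.ρ γ) j := by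
      filter_upwards [P.isOpen.mem_nhds hz] with w hw
      rw [P.F_per γ w hw]
      rfl
    have h6 := h5.fderiv_eq (𝕜 := ℝ)
    rw [fderiv_add_const, h3.fderiv] at h6
    rw [← h6]
    simp [mul_comm]
  have h7 : a (P.F (P.act γ z)) = a (P.F z) := by
    rw [P.F_per γ z hz]
    exact hp _ _
  rw [h1, h1, h4, h4, h7]
  have h8 := conf_id (fderiv ℝ P.χ (P.act γ z)) (fderiv ℝ (fun w => P.F w j) (P.act γ z)) c
  linear_combination (- a (P.F z)) * h8

private theorem integral_eta (P : Piece J) {a : V g → ℝ} (ha : Continuous a) (hp : IsPer a)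
    (j : Ix g) :
    ∫ z, (fderiv ℝ P.χ z 1 * (a (P.F z) * fderiv ℝ (fun w => P.F w j) z Complex.I) -
      fderiv ℝ P.χ z Complex.I * (a (P.F z) * fderiv ℝ (fun w => P.F w j) z 1)) = 0 := by
  have hF : ContinuousOn P.F P.U := P.F_smooth.continuousOn
  have hbs : ContDiffOn ℝ ∞ (fun w => P.F w j) P.U := contDiffOn_pi.1 P.F_smooth j
  have hdb : ∀ v : ℂ, ContinuousOn (fun z => fderiv ℝ (fun w => P.F w j) z v) P.U := fun v =>
    (hbs.continuousOn_fderiv_of_isOpen P.isOpen (by simp)).clm_apply continuousOn_const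
  have hcχ : ∀ v : ℂ, Continuous (fun z => fderiv ℝ P.χ z v) := fun v =>
    (P.χ_smooth.continuous_fderiv (by simp)).clm_apply continuous_const
  have hts : ∀ v : ℂ, tsupport (fun z => fderiv ℝ P.χ z v) ⊆ tsupport P.χ := by
    intro v
    refine closure_minimal ?_ (isClosed_tsupport _)
    intro z hz
    apply support_fderiv_subset ℝ
    intro h0
    apply hz
    show fderiv ℝ P.χ z v = 0
    rw [h0]
    rfl
  have hcs : ∀ v : ℂ, HasCompactSupport (fun z => fderiv ℝ P.χ z v) := fun v =>
    P.χ_cpt.of_isClosed_subset (isClosed_tsupport _) (hts v)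
  have hη1 := cont_cut P.isOpen (hcχ 1) ((hts 1).trans P.χ_sub)
    ((ha.comp_continuousOn hF).mul (hdb Complex.I))
  have hη2 := cont_cut P.isOpen (hcχ Complex.I) ((hts Complex.I).trans P.χ_sub)
    ((ha.comp_continuousOn hF).mul (hdb 1))
  set η : ℂ → ℝ := fun z => fderiv ℝ P.χ z 1 * (a (P.F z) * fderiv ℝ (fun w => P.F w j) z Complex.I) -
      fderiv ℝ P.χ z Complex.I * (a (P.F z) * fderiv ℝ (fun w => P.F w j) z 1) with hη
  have hηc : Continuous η := hη1.sub hη2
  have hηt : tsupport η ⊆ tsupport P.χ := by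
    refine closure_minimal ?_ (isClosed_tsupport _)
    intro z hz
    by_contra h0
    apply hz
    have h1 : ∀ v, fderiv ℝ P.χ z v = 0 := fun v => by
      by_contra h2
      exact h0 (hts v (subset_tsupport _ h2))
    simp [hη, h1]
  have hηs : HasCompactSupport η := P.χ_cpt.of_isClosed_subset (isClosed_tsupport _) hηt
  obtain ⟨D, hDm, hDU, hD⟩ := unfold P
  rw [(hD η hηc hηs (hηt.trans P.χ_sub)).2]
  apply setIntegral_eq_zero_of_forall_eq_zero
  intro z hz
  obtain ⟨s, hs1, hs2⟩ := sum_fderiv P (hDU hz)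
  have h1 : ∀ γ, η (P.act γ z) * ‖deriv (P.act γ) z‖ ^ 2 =
      a (P.F z) * (fderiv ℝ (fun w => P.χ (P.act γ w)) z 1 *
        fderiv ℝ (fun w => P.F w j) z Complex.I -
      fderiv ℝ (fun w => P.χ (P.act γ w)) z Complex.I * fderiv ℝ (fun w => P.F w j) z 1) :=
    fun γ => eta_trans P hp j (hDU hz) γ
  rw [finsum_congr h1, finsum_eq_sum_of_support_subset (s := s)]
  · rw [← Finset.mul_sum, Finset.sum_sub_distrib, ← Finset.sum_mul, ← Finset.sum_mul]
    have h2 : ∀ v : ℂ, ∑ γ ∈ s, fderiv ℝ (fun w => P.χ (P.act γ w)) z v = 0 := by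
      intro v
      rw [← sum_apply, hs2]
      rfl
    rw [h2, h2]
    ring
  · intro γ hγ
    by_contra h2
    apply hγ
    show a (P.F z) * _ = 0
    rw [hs1 γ h2]
    simp

theorem piece_cur (P : Piece J) : Cur P.carrier P.cur := by
  have hF : ContinuousOn P.F P.U := P.F_smooth.continuousOn
  constructor
  · intro i j a b ha _ hb _
    unfold Piece.cur
    rw [← integral_add (cur_int P ha i j) (cur_int P hb i j)]
    congr 1
    funext z
    ring
  · intro i j r a _ _
    unfold Piece.cur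
    rw [← integral_const_mul]
    congr 1
    funext z
    ring
  · intro i j a _ _
    unfold Piece.cur
    rw [← integral_neg]
    congr 1
    funext z
    unfold wed2
    ring
  · intro i j a _ _ h0
    unfold Piece.cur
    have h1 : (fun z : ℂ => P.χ z * a (P.F z) *
        wed2 (fderiv ℝ P.F z 1) (fderiv ℝ P.F z Complex.I) i j) = fun _ => 0 := by
      funext z
      by_cases hz : z ∈ P.U
      · have h2 : a (P.F z) = 0 := h0 _ ⟨z, hz, 0, by
          have : lat (0 : Ix g → ℤ) = (0 : V g) := by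
            funext k
            simp [lat]
          rw [this, add_zero]⟩
        rw [h2]
        ring
      · have h2 : P.χ z = 0 := by
          by_contra h3
          exact hz (P.χ_sub (subset_tsupport _ h3))
        rw [h2]
        ring
    rw [h1]
    simp
  · intro j a ha hp
    set b : ℂ → ℝ := fun w => P.F w j with hb
    set A : ℂ → ℝ := fun w => a (P.F w) with hA
    have hbs : ContDiffOn ℝ ∞ b P.U := contDiffOn_pi.1 P.F_smooth j
    have hAs : ContDiffOn ℝ ∞ A P.U := ha.comp_contDiffOn P.F_smooth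
    have hdbs : ∀ v : ℂ, ContDiffOn ℝ ∞ (fun z => fderiv ℝ b z v) P.U := fun v =>
      (hbs.fderiv_of_isOpen P.isOpen (m := ∞) (by simp)).clm_apply contDiffOn_const
    set φ : ℂ → ℂ → ℝ := fun v z => P.χ z * (A z * fderiv ℝ b z v) with hφ
    have hφs : ∀ v, ContDiff ℝ ∞ (φ v) := fun v =>
      contDiff_cut P.isOpen P.χ_smooth P.χ_sub (hAs.mul (hdbs v))
    have hφc : ∀ v, HasCompactSupport (φ v) := fun v => P.χ_cpt.mul_right
    set η : ℂ → ℝ := fun z => fderiv ℝ P.χ z 1 * (A z * fderiv ℝ b z Complex.I) -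
      fderiv ℝ P.χ z Complex.I * (A z * fderiv ℝ b z 1) with hη
    have hηI : ∫ z, η z = 0 := integral_eta P ha.continuous hp j
    have hcd : ∀ v w, Continuous (fun z => fderiv ℝ (φ v) z w) := fun v w =>
      ((hφs v).continuous_fderiv (by simp)).clm_apply continuous_const
    have hid : ∀ v w, Integrable (fun z => fderiv ℝ (φ v) z w) volume := fun v w =>
      (hcd v w).integrable_of_hasCompactSupport
        (((hφc v).fderiv (𝕜 := ℝ)).comp_left (g := fun L : ℂ →L[ℝ] ℝ => L w) (by simp))
    -- the pointwise identity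
    have hpt : ∀ z, (∑ i, P.χ z * pd a i (P.F z) *
        wed2 (fderiv ℝ P.F z 1) (fderiv ℝ P.F z Complex.I) i j) =
        fderiv ℝ (φ Complex.I) z 1 - fderiv ℝ (φ 1) z Complex.I - η z := by
      intro z
      by_cases hz : z ∈ tsupport P.χ
      · have hzU := P.χ_sub hz
        have hn := P.isOpen.mem_nhds hzU
        have dF : DifferentiableAt ℝ P.F z :=
          (P.F_smooth.contDiffAt hn).differentiableAt (by simp)
        have dA : DifferentiableAt ℝ A z := (hAs.contDiffAt hn).differentiableAt (by simp)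
        have dχ : DifferentiableAt ℝ P.χ z := (P.χ_smooth.differentiable (by simp)) z
        have ddb : ∀ v, DifferentiableAt ℝ (fun z => fderiv ℝ b z v) z := fun v =>
          ((hdbs v).contDiffAt hn).differentiableAt (by simp)
        have d2 : DifferentiableAt ℝ (fderiv ℝ b) z :=
          ((hbs.fderiv_of_isOpen P.isOpen (m := ∞) (by simp)).contDiffAt hn).differentiableAt
            (by simp)
        have hsym : IsSymmSndFDerivAt ℝ b z :=
          (hbs.contDiffAt hn).isSymmSndFDerivAt (by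
            rw [minSmoothness_of_isRCLikeNormedField]
            norm_cast)
        have hdd : ∀ v w, fderiv ℝ (fun z => fderiv ℝ b z v) z w = fderiv ℝ (fderiv ℝ b) z w v := by
          intro v w
          have h1 : HasFDerivAt (fun z => fderiv ℝ b z v) _ z :=
            d2.hasFDerivAt.clm_apply (hasFDerivAt_const v z)
          rw [h1.fderiv]
          simp
        have hφd : ∀ v w, fderiv ℝ (φ v) z w = P.χ z * (A z * fderiv ℝ (fderiv ℝ b) z w v +
            fderiv ℝ b z v * fderiv ℝ A z w) + (A z * fderiv ℝ b z v) * fderiv ℝ P.χ z w := by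
          intro v w
          have h1 : HasFDerivAt (φ v) _ z :=
            dχ.hasFDerivAt.mul (dA.hasFDerivAt.mul (ddb v).hasFDerivAt)
          rw [h1.fderiv, ← hdd v w]
          simp only [add_apply, smul_apply, smul_eq_mul]
        have hAx : ∀ v, fderiv ℝ A z v = fderiv ℝ a (P.F z) (fderiv ℝ P.F z v) := by
          intro v
          have h1 : HasFDerivAt A _ z :=
            ((ha.differentiable (by simp)) (P.F z)).hasFDerivAt.comp z dF.hasFDerivAt
          rw [h1.fderiv]
          rfl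
        have hbx : ∀ v, fderiv ℝ b z v = fderiv ℝ P.F z v j := by
          intro v
          have h1 : HasFDerivAt b _ z := (hasFDerivAt_pi'.1 dF.hasFDerivAt) j
          rw [h1.fderiv]
          rfl
        have hsum : (∑ i, P.χ z * pd a i (P.F z) *
            wed2 (fderiv ℝ P.F z 1) (fderiv ℝ P.F z Complex.I) i j) =
            P.χ z * (fderiv ℝ A z 1 * fderiv ℝ b z Complex.I -
              fderiv ℝ A z Complex.I * fderiv ℝ b z 1) := by
          rw [hAx, hAx, hbx, hbx, ← sum_pd a (P.F z) (fderiv ℝ P.F z 1),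
            ← sum_pd a (P.F z) (fderiv ℝ P.F z Complex.I), Finset.sum_mul, Finset.sum_mul,
            ← Finset.sum_sub_distrib, Finset.mul_sum]
          refine Finset.sum_congr rfl fun i _ => ?_
          unfold wed2
          ring
        rw [hsum, hφd, hφd, hsym.eq 1 Complex.I]
        simp only [hη]
        ring
      · have h1 := notMem_tsupport_iff_eventuallyEq.1 hz
        have h2 : P.χ z = 0 := h1.eq_of_nhds
        have h3 : ∀ v, φ v =ᶠ[𝓝 z] fun _ => 0 := by
          intro v
          filter_upwards [h1] with w hw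
          simp [hφ, hw]
        have h4 : fderiv ℝ P.χ z = 0 := by
          rw [h1.fderiv_eq]
          simp
        rw [(h3 Complex.I).fderiv_eq, (h3 1).fderiv_eq]
        simp [hη, h2, h4]
    have hint : ∀ i, Integrable (fun z => P.χ z * pd a i (P.F z) *
        wed2 (fderiv ℝ P.F z 1) (fderiv ℝ P.F z Complex.I) i j) volume := fun i =>
      cur_int P ((ha.continuous_fderiv (by simp)).clm_apply continuous_const) i j
    have hηi : Integrable η volume := by
      have h1 := ((hid Complex.I 1).sub (hid 1 Complex.I)).sub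
        (integrable_finsetSum Finset.univ fun i _ => hint i)
      refine h1.congr (Eventually.of_forall fun z => ?_)
      have := hpt z
      simp only [Pi.sub_apply]
      linarith
    unfold Piece.cur
    rw [← integral_finsetSum _ fun i _ => hint i]
    rw [integral_congr_ae (Eventually.of_forall hpt)]
    have hs1 : Integrable (fun z => fderiv ℝ (φ Complex.I) z 1 - fderiv ℝ (φ 1) z Complex.I)
        volume := (hid _ _).sub (hid _ _)
    rw [integral_sub hs1 hηi, integral_sub (hid _ _) (hid _ _), hηI,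
      integral_fderiv_zero ((hφs _).of_le (by simp)) (hφc _),
      integral_fderiv_zero ((hφs _).of_le (by simp)) (hφc _)]
    ring

end Pool.Agent.CT
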