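import Pool.Agent.CT.PieceCur
import Pool.Agent.CT.Deg
import Pool.Agent.CT.Perio

/-!
# CT-PIECEDEG : smoothed intersection numbers of a piece are integrals of integer valued functions

PLAN. `f = pr κ ∘ F : U → ℝ⁴`. (1) algebra: `Σ_{b,c} (1/2) dt p q (ev b) (ev c) * wed2 u v (κ b) (κ c) =
dt p q (pr κ u) (pr κ v)`, hence
`NN κ ρ P.cur p q = ∫ z, χ z * GG ρ p q (f z) * dt p q (f_x) (f_y)`.
(2) `G z = GG ρ p q (f z) * dt p q (f_x z) (f_y z)` satisfies `G (γ z) ‖γ'(z)‖² = G z` on `U`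
(`f (γ z) = f z + integer vector`, `ρ` periodic, chain rule; for a real bilinear alternating form `B`
on `ℂ` and `c : ℂ`: `B (c 1) (c I) = ‖c‖² B 1 I`), so `unfold` (with `η = χ * G`, extended by `0`;
`χ_sum`) gives a fundamental domain `D` with `NN κ ρ P.cur p q = ∫ z in D, G z`, `G` integrable on
`D`. For the constant function `ρ = 1` this shows that `|dt p q f_x f_y|` is integrable on `D` (apply
`unfold` to `η = χ * |dt p q f_x f_y|`).
(3) Fubini: with `Φ (z, s, t) = f z - s p - t q`, `∫_D G = ∫_{D × tri} ρ (Φ) * dt p q f_x f_y`, and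
`dt p q f_x f_y = det (f_x, f_y, - p, - q)` is the determinant of the derivative of `Φ` with respect to
the coordinates `(x, y, s, t)`, `z = x + i y`. Transport to `R4` by the measure preserving
`w ↦ (w 0 + i w 1, w 2, w 3)`: `Ω = {w | w 0 + i w 1 ∈ U}`, `E = {w | w 0 + i w 1 ∈ D, (w 2, w 3) ∈ tri}`,
`Φ w = f (w 0 + i w 1) - w 2 • p - w 3 • q`. `deg` and `perio` (continuous periodic `ρ` is bounded).
-/

set_option autoImplicit false

noncomputable section

open MeasureTheory

namespace Pool.Agent.CT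

variable {g : ℕ} {J : V g →L[ℝ] V g}

private theorem dt_eq (p q x y : R4) : dt p q x y =
    (p 0 * q 1 - p 1 * q 0) * (x 2 * y 3 - x 3 * y 2) - (p 0 * q 2 - p 2 * q 0) * (x 1 * y 3 - x 3 * y 1)
    + (p 0 * q 3 - p 3 * q 0) * (x 1 * y 2 - x 2 * y 1) + (p 1 * q 2 - p 2 * q 1) * (x 0 * y 3 - x 3 * y 0)
    - (p 1 * q 3 - p 3 * q 1) * (x 0 * y 2 - x 2 * y 0) + (p 2 * q 3 - p 3 * q 2) * (x 0 * y 1 - x 1 * y 0) := by
  simp only [dt, Matrix.det_succ_row_zero, Fin.sum_univ_succ, Matrix.of_apply, Matrix.submatrix_apply]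
  simp [Fin.succAbove, Fin.lt_def]
  ring

private theorem dt_sum (p q x y : R4) :
    (1 / 2 : ℝ) * ∑ b : Fin 4, ∑ c : Fin 4, dt p q (ev b) (ev c) * (x b * y c - x c * y b) = dt p q x y := by
  simp only [dt_eq, Fin.sum_univ_four, ev, Pi.single_apply]
  simp
  ring

private theorem dt_cplx (p q x y : R4) (a b : ℝ) :
    dt p q (a • x + b • y) (a • y - b • x) = (a ^ 2 + b ^ 2) * dt p q x y := by
  simp only [dt_eq, Pi.add_apply, Pi.sub_apply, Pi.smul_apply, smul_eq_mul]
  ring

private theorem continuous_dt (p q : R4) : Continuous (fun w : R4 × R4 => dt p q w.1 w.2) := by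
  simp only [dt_eq]
  fun_prop

/-- the determinant of the pullback -/
private def Hh (P : Piece J) (κ : Fin 4 → Ix g) (p q : R4) (z : ℂ) : ℝ :=
  dt p q (pr κ (fderiv ℝ P.F z 1)) (pr κ (fderiv ℝ P.F z Complex.I))

private theorem cont_Hh (P : Piece J) (κ : Fin 4 → Ix g) (p q : R4) :
    ContinuousOn (Hh P κ p q) P.U := by
  have h : ContinuousOn (fun z => fderiv ℝ P.F z) P.U :=
    P.F_smooth.continuousOn_fderiv_of_isOpen P.isOpen (by norm_num)
  have h1 : ContinuousOn (fun z => pr κ (fderiv ℝ P.F z 1)) P.U :=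
    (pr κ).continuous.comp_continuousOn (h.clm_apply continuousOn_const)
  have h2 : ContinuousOn (fun z => pr κ (fderiv ℝ P.F z Complex.I)) P.U :=
    (pr κ).continuous.comp_continuousOn (h.clm_apply continuousOn_const)
  have h3 := (continuous_dt p q).comp_continuousOn (h1.prodMk h2)
  unfold Hh
  exact h3

private theorem diffF (P : Piece J) {z : ℂ} (hz : z ∈ P.U) : DifferentiableAt ℝ P.F z :=
  (P.F_smooth.contDiffAt (P.isOpen.mem_nhds hz)).differentiableAt (by norm_num)

private theorem Hh_inv (P : Piece J) (κ : Fin 4 → Ix g) (p q : R4) (γ : P.Γ) {z : ℂ} (hz : z ∈ P.U) :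
    Hh P κ p q (P.act γ z) * ‖deriv (P.act γ) z‖ ^ 2 = Hh P κ p q z := by
  have hγz := P.maps γ z hz
  have h1 : HasDerivAt (P.act γ) (deriv (P.act γ) z) z :=
    ((P.hol γ).differentiableAt (P.isOpen.mem_nhds hz)).hasDerivAt
  have h2 := h1.complexToReal_fderiv
  have h3 := (diffF P hγz).hasFDerivAt.comp z h2
  have h4 : (P.F ∘ P.act γ) =ᶠ[nhds z] fun w => P.F w + lat (P.ρ γ) := by
    filter_upwards [P.isOpen.mem_nhds hz] with w hw
    exact P.F_per γ w hw
  have h5 : HasFDerivAt (fun w => P.F w + lat (P.ρ γ)) (fderiv ℝ P.F z) z :=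
    (diffF P hz).hasFDerivAt.add_const _
  have h6 := h3.congr_of_eventuallyEq h4.symm
  have h7 := h6.unique h5
  set c := deriv (P.act γ) z with hc
  set ℓ := fderiv ℝ P.F (P.act γ z) with hℓ
  have e1 : fderiv ℝ P.F z 1 = c.re • ℓ 1 + c.im • ℓ Complex.I := by
    rw [← h7]
    have : (c • (1 : ℂ →L[ℝ] ℂ)) 1 = c.re • (1 : ℂ) + c.im • Complex.I := by
      simp [Complex.ext_iff]
    rw [ContinuousLinearMap.comp_apply, this, map_add, map_smul, map_smul]
  have e2 : fderiv ℝ P.F z Complex.I = c.re • ℓ Complex.I - c.im • ℓ 1 := by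
    rw [← h7]
    have : (c • (1 : ℂ →L[ℝ] ℂ)) Complex.I = c.re • Complex.I - c.im • (1 : ℂ) := by
      simp [Complex.ext_iff]
    rw [ContinuousLinearMap.comp_apply, this, map_sub, map_smul, map_smul]
  unfold Hh
  rw [e1, e2, map_add, map_sub, map_smul, map_smul, map_smul, map_smul, dt_cplx, Complex.sq_norm,
    Complex.normSq_apply]
  ring

/-- unfolding of a density -/
private theorem unf (P : Piece J) {D : Set ℂ} (hDU : D ⊆ P.U) (hDm : MeasurableSet D)
    (hD : ∀ η : ℂ → ℝ, Continuous η → HasCompactSupport η → tsupport η ⊆ P.U →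
      IntegrableOn (fun z => ∑ᶠ γ, η (P.act γ z) * ‖deriv (P.act γ) z‖ ^ 2) D ∧
      ∫ z, η z = ∫ z in D, ∑ᶠ γ, η (P.act γ z) * ‖deriv (P.act γ) z‖ ^ 2)
    (K : ℂ → ℝ) (hK : ContinuousOn K P.U)
    (hinv : ∀ γ, ∀ z ∈ P.U, K (P.act γ z) * ‖deriv (P.act γ) z‖ ^ 2 = K z) :
    IntegrableOn K D ∧ ∫ z, P.χ z * K z = ∫ z in D, K z := by
  have hcont : Continuous (fun z => P.χ z * K z) := by
    refine continuous_of_tsupport fun z hz => ?_
    have hzU : z ∈ P.U := P.χ_sub (tsupport_mul_subset_left hz)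
    exact P.χ_smooth.continuous.continuousAt.mul (hK.continuousAt (P.isOpen.mem_nhds hzU))
  have hcs : HasCompactSupport (fun z => P.χ z * K z) := P.χ_cpt.mul_right
  have hts : tsupport (fun z => P.χ z * K z) ⊆ P.U := tsupport_mul_subset_left.trans P.χ_sub
  obtain ⟨h1, h2⟩ := hD _ hcont hcs hts
  have e : ∀ z ∈ D, ∑ᶠ γ, P.χ (P.act γ z) * K (P.act γ z) * ‖deriv (P.act γ) z‖ ^ 2 = K z := by
    intro z hz
    have h3 : ∀ γ, P.χ (P.act γ z) * K (P.act γ z) * ‖deriv (P.act γ) z‖ ^ 2 =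
        P.χ (P.act γ z) * K z := by
      intro γ
      rw [mul_assoc, hinv γ z (hDU hz)]
    simp only [h3]
    rw [← finsum_mul, P.χ_sum z (hDU hz), one_mul]
  refine ⟨h1.congr_fun (fun z hz => e z hz) hDm, ?_⟩
  rw [h2]
  exact setIntegral_congr_fun hDm (fun z hz => e z hz)

private theorem isCompact_tri : IsCompact tri := by
  refine Metric.isCompact_of_isClosed_isBounded ?_ ?_
  · unfold tri
    have h1 : IsClosed {s : ℝ × ℝ | 0 ≤ s.1} := isClosed_le continuous_const continuous_fst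
    have h2 : IsClosed {s : ℝ × ℝ | 0 ≤ s.2} := isClosed_le continuous_const continuous_snd
    have h3 : IsClosed {s : ℝ × ℝ | s.1 + s.2 ≤ 1} :=
      isClosed_le (continuous_fst.add continuous_snd) continuous_const
    exact h1.inter (h2.inter h3)
  · refine (Metric.isBounded_Icc (0 : ℝ × ℝ) 1).subset ?_
    rintro ⟨s, t⟩ ⟨h1, h2, h3⟩
    simp only at h1 h2 h3
    refine ⟨⟨h1, h2⟩, ⟨?_, ?_⟩⟩
    · show s ≤ 1
      linarith
    · show t ≤ 1
      linarith

private theorem continuous_GG {ρ : R4 → ℝ} (hρ : Continuous ρ) (p q : R4) : Continuous (GG ρ p q) := by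
  unfold GG
  refine continuous_parametric_integral_of_continuous (f := fun (x : R4) (s : ℝ × ℝ) =>
    ρ (x - s.1 • p - s.2 • q)) ?_ isCompact_tri
  exact hρ.comp (by fun_prop)

private theorem GG_per {ρ : R4 → ℝ} (hρ : Per4 ρ) (p q : R4) : Per4 (GG ρ p q) := by
  intro m x
  unfold GG
  congr 1
  funext s
  have : x + zv m - s.1 • p - s.2 • q = (x - s.1 • p - s.2 • q) + zv m := by abel
  rw [this, hρ]

private theorem wed_pr (κ : Fin 4 → Ix g) (u v : V g) (b c : Fin 4) :
    wed2 u v (κ b) (κ c) = pr κ u b * pr κ v c - pr κ u c * pr κ v b := rfl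

/-- the smoothed intersection number as an integral over `U` -/
private theorem NN_eq (P : Piece J) (κ : Fin 4 → Ix g) (p q : R4) {ρ : R4 → ℝ} (hρ : Continuous ρ) :
    NN κ ρ P.cur p q = ∫ z, P.χ z * (GG ρ p q (pr κ (P.F z)) * Hh P κ p q z) := by
  have hder : ContinuousOn (fun z => fderiv ℝ P.F z) P.U :=
    P.F_smooth.continuousOn_fderiv_of_isOpen P.isOpen (by norm_num)
  have hi : ∀ b c : Fin 4, Integrable (fun z => P.χ z * GG ρ p q (pr κ (P.F z)) *
      wed2 (fderiv ℝ P.F z 1) (fderiv ℝ P.F z Complex.I) (κ b) (κ c)) := by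
    intro b c
    have hc : Continuous (fun z => P.χ z * GG ρ p q (pr κ (P.F z)) *
        wed2 (fderiv ℝ P.F z 1) (fderiv ℝ P.F z Complex.I) (κ b) (κ c)) := by
      simp only [mul_assoc]
      refine continuous_of_tsupport fun z hz => ?_
      have hzU : z ∈ P.U := P.χ_sub (tsupport_mul_subset_left hz)
      have hn := P.isOpen.mem_nhds hzU
      refine P.χ_smooth.continuous.continuousAt.mul (ContinuousAt.mul ?_ ?_)
      · exact ((continuous_GG hρ p q).comp (pr κ).continuous).continuousAt.comp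
          (P.F_smooth.continuousOn.continuousAt hn)
      · have hd1 : ContinuousAt (fun z => fderiv ℝ P.F z 1) z :=
          (hder.clm_apply continuousOn_const).continuousAt hn
        have hd2 : ContinuousAt (fun z => fderiv ℝ P.F z Complex.I) z :=
          (hder.clm_apply continuousOn_const).continuousAt hn
        have h1 : ∀ i, ContinuousAt (fun z => fderiv ℝ P.F z 1 i) z := fun i =>
          (continuous_apply i).continuousAt.comp hd1
        have h2 : ∀ i, ContinuousAt (fun z => fderiv ℝ P.F z Complex.I i) z := fun i =>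
          (continuous_apply i).continuousAt.comp hd2
        exact ((h1 _).mul (h2 _)).sub ((h1 _).mul (h2 _))
    refine hc.integrable_of_hasCompactSupport ?_
    exact (P.χ_cpt.mul_right).mul_right
  unfold NN PP Piece.cur
  have e1 : (1 / 2 : ℝ) * ∑ b : Fin 4, ∑ c : Fin 4, dt p q (ev b) (ev c) *
      ∫ z : ℂ, P.χ z * GG ρ p q (pr κ (P.F z)) *
        wed2 (fderiv ℝ P.F z 1) (fderiv ℝ P.F z Complex.I) (κ b) (κ c) =
      ∫ z : ℂ, (1 / 2 : ℝ) * ∑ b : Fin 4, ∑ c : Fin 4, dt p q (ev b) (ev c) *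
        (P.χ z * GG ρ p q (pr κ (P.F z)) *
        wed2 (fderiv ℝ P.F z 1) (fderiv ℝ P.F z Complex.I) (κ b) (κ c)) := by
    rw [integral_const_mul, integral_finsetSum _
      (fun b _ => integrable_finsetSum _ fun c _ => (hi b c).const_mul _)]
    congr 1
    refine Finset.sum_congr rfl fun b _ => ?_
    rw [integral_finsetSum _ (fun c _ => (hi b c).const_mul _)]
    refine Finset.sum_congr rfl fun c _ => ?_
    rw [integral_const_mul]
  rw [e1]
  refine integral_congr_ae (Filter.Eventually.of_forall fun z => ?_)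
  simp only
  rw [Hh, ← dt_sum, Finset.mul_sum, Finset.mul_sum, Finset.mul_sum, Finset.mul_sum]
  refine Finset.sum_congr rfl fun b _ => ?_
  rw [Finset.mul_sum, Finset.mul_sum, Finset.mul_sum, Finset.mul_sum]
  refine Finset.sum_congr rfl fun c _ => ?_
  rw [wed_pr]
  ring

/-! ### coordinates of `ℂ × ℝ²` -/

private def Th (w : ℂ × (ℝ × ℝ)) : R4 := ![w.1.re, w.1.im, w.2.1, w.2.2]

private theorem continuous_Th : Continuous Th := by
  refine continuous_pi fun i => ?_
  fin_cases i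
  · exact Complex.continuous_re.comp continuous_fst
  · exact Complex.continuous_im.comp continuous_fst
  · exact continuous_fst.comp continuous_snd
  · exact continuous_snd.comp continuous_snd

private theorem inj_Th : Function.Injective Th := by
  rintro ⟨z, s, t⟩ ⟨z', s', t'⟩ h
  have h0 : z.re = z'.re := congrFun h 0
  have h1 : z.im = z'.im := congrFun h 1
  have h2 : s = s' := congrFun h 2
  have h3 : t = t' := congrFun h 3
  rw [Complex.ext h0 h1, h2, h3]

private theorem mp_Th : MeasurePreserving Th volume volume := by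
  refine ⟨continuous_Th.measurable, ?_⟩
  rw [volume_pi]
  symm
  refine Measure.pi_eq fun s hs => ?_
  rw [Measure.map_apply continuous_Th.measurable (MeasurableSet.univ_pi hs)]
  have e : Th ⁻¹' (Set.univ.pi s) =
      (Complex.measurableEquivRealProd ⁻¹' (s 0 ×ˢ s 1)) ×ˢ (s 2 ×ˢ s 3) := by
    ext ⟨z, a, b⟩
    simp only [Set.mem_preimage, Set.mem_pi, Set.mem_univ, true_implies, Set.mem_prod]
    constructor
    · intro h
      exact ⟨⟨h 0, h 1⟩, ⟨h 2, h 3⟩⟩
    · rintro ⟨⟨h0, h1⟩, ⟨h2, h3⟩⟩ i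
      fin_cases i
      · exact h0
      · exact h1
      · exact h2
      · exact h3
  rw [e, Measure.volume_eq_prod, Measure.prod_prod,
    Complex.volume_preserving_equiv_real_prod.measure_preimage
      ((hs 0).prod (hs 1)).nullMeasurableSet,
    Measure.volume_eq_prod, Measure.prod_prod, Measure.prod_prod]
  rw [Fin.prod_univ_four]
  ring

/-- the first two coordinates as a complex number -/
private def Lz : R4 →L[ℝ] ℂ :=
  (ContinuousLinearMap.proj (R := ℝ) (φ := fun _ : Fin 4 => ℝ) 0).smulRight (1 : ℂ) +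
    (ContinuousLinearMap.proj (R := ℝ) (φ := fun _ : Fin 4 => ℝ) 1).smulRight Complex.I

private theorem Lz_Th (z : ℂ) (s : ℝ × ℝ) : Lz (Th (z, s)) = z := by
  have : Lz (Th (z, s)) = z.re • (1 : ℂ) + z.im • Complex.I := rfl
  rw [this]
  simp [Complex.ext_iff]

private theorem bdd_of_per {ρ : R4 → ℝ} (hc : Continuous ρ) (hp : Per4 ρ) : ∃ C, ∀ x, |ρ x| ≤ C := by
  obtain ⟨C, hC⟩ := (isCompact_Icc (a := (0 : R4)) (b := 1)).exists_bound_of_continuousOn
    hc.continuousOn
  refine ⟨C, fun x => ?_⟩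
  have h1 : x = (fun a => Int.fract (x a)) + zv (fun a => ⌊x a⌋) := by
    funext a
    simp only [Pi.add_apply, zv]
    exact (Int.fract_add_floor (x a)).symm
  rw [h1, hp]
  refine hC _ ⟨fun a => Int.fract_nonneg _, fun a => (Int.fract_lt_one _).le⟩

theorem piece_deg (P : Piece J) (κ : Fin 4 → Ix g) (p q : R4) :
    ∃ N : R4 → ℤ, (∀ (m : Fin 4 → ℤ) x, N (x + zv m) = N x) ∧
      IntegrableOn (fun v => (N v : ℝ)) (Set.Icc 0 1) ∧
      ∀ ρ : R4 → ℝ, Continuous ρ → Per4 ρ →
        NN κ ρ P.cur p q = ∫ v in Set.Icc 0 1, ρ v * N v := by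
  obtain ⟨D, hDm, hDU, hD⟩ := unfold P
  -- integrability of the determinant on `D`
  have hHabs := unf P hDU hDm hD (fun z => |Hh P κ p q z|) (cont_Hh P κ p q).abs (by
    intro γ z hz
    rw [← Hh_inv P κ p q γ hz, abs_mul, abs_of_nonneg (sq_nonneg ‖deriv (P.act γ) z‖)])
  have hHint : IntegrableOn (Hh P κ p q) D := by
    have h1 := hHabs.1
    refine (integrable_norm_iff ?_).1 ?_
    · exact ((cont_Hh P κ p q).mono hDU).aestronglyMeasurable hDm
    · exact h1
  -- the map
  set f : ℂ → R4 := fun z => pr κ (P.F z) with hf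
  set Φ : R4 → R4 := fun w => f (Lz w) - w 2 • p - w 3 • q with hΦ
  set Ω : Set R4 := Lz ⁻¹' P.U with hΩdef
  set E : Set R4 := {w | Lz w ∈ D ∧ (w 2, w 3) ∈ tri} with hEdef
  have hΩ : IsOpen Ω := P.isOpen.preimage Lz.continuous
  have hE : MeasurableSet E := by
    have h1 : MeasurableSet (Lz ⁻¹' D) := Lz.continuous.measurable hDm
    have h2 : MeasurableSet ((fun w : R4 => ((w 2, w 3) : ℝ × ℝ)) ⁻¹' tri) := by
      have hc : Continuous (fun w : R4 => ((w 2, w 3) : ℝ × ℝ)) := by fun_prop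
      exact hc.measurable isCompact_tri.isClosed.measurableSet
    exact h1.inter h2
  have hEΩ : E ⊆ Ω := fun w hw => hDU hw.1
  have hfs : ContDiffOn ℝ 1 f P.U := (pr κ).contDiff.comp_contDiffOn
    (P.F_smooth.of_le (by norm_num))
  have hΦs : ContDiffOn ℝ 1 Φ Ω := by
    have h1 : ContDiffOn ℝ 1 (fun w => f (Lz w)) Ω := hfs.comp Lz.contDiff.contDiffOn (fun w hw => hw)
    have h2 : ContDiff ℝ 1 (fun w : R4 => w 2 • p) := by fun_prop
    have h3 : ContDiff ℝ 1 (fun w : R4 => w 3 • q) := by fun_prop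
    exact (h1.sub h2.contDiffOn).sub h3.contDiffOn
  have hdet : ∀ w ∈ Ω, (fderiv ℝ Φ w).det = Hh P κ p q (Lz w) := by
    intro w hw
    have h1 : HasFDerivAt Φ ((((pr κ).comp (fderiv ℝ P.F (Lz w))).comp Lz) -
        (ContinuousLinearMap.proj (R := ℝ) (φ := fun _ : Fin 4 => ℝ) 2).smulRight p -
        (ContinuousLinearMap.proj (R := ℝ) (φ := fun _ : Fin 4 => ℝ) 3).smulRight q) w := by
      have h2 : HasFDerivAt (fun w => f (Lz w)) (((pr κ).comp (fderiv ℝ P.F (Lz w))).comp Lz) w :=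
        ((pr κ).hasFDerivAt.comp _ (diffF P hw).hasFDerivAt).comp w Lz.hasFDerivAt
      have h3 : HasFDerivAt (fun w : R4 => w 2 • p)
          ((ContinuousLinearMap.proj (R := ℝ) (φ := fun _ : Fin 4 => ℝ) 2).smulRight p) w :=
        ((ContinuousLinearMap.proj (R := ℝ) (φ := fun _ : Fin 4 => ℝ) 2).smulRight p).hasFDerivAt
      have h4 : HasFDerivAt (fun w : R4 => w 3 • q)
          ((ContinuousLinearMap.proj (R := ℝ) (φ := fun _ : Fin 4 => ℝ) 3).smulRight q) w :=
        ((ContinuousLinearMap.proj (R := ℝ) (φ := fun _ : Fin 4 => ℝ) 3).smulRight q).hasFDerivAt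
      exact (h2.sub h3).sub h4
    rw [h1.fderiv]
    set A := (((pr κ).comp (fderiv ℝ P.F (Lz w))).comp Lz) -
        (ContinuousLinearMap.proj (R := ℝ) (φ := fun _ : Fin 4 => ℝ) 2).smulRight p -
        (ContinuousLinearMap.proj (R := ℝ) (φ := fun _ : Fin 4 => ℝ) 3).smulRight q with hA
    have hL : ∀ v : R4, Lz v = v 0 • (1 : ℂ) + v 1 • Complex.I := fun v => rfl
    have hAv : ∀ v : R4, A v = pr κ (fderiv ℝ P.F (Lz w) (Lz v)) - v 2 • p - v 3 • q := fun v => rfl
    have l0 : Lz (ev 0) = 1 := by rw [hL]; simp [ev]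
    have l1 : Lz (ev 1) = Complex.I := by rw [hL]; simp [ev]
    have l2 : Lz (ev 2) = 0 := by rw [hL]; simp [ev]
    have l3 : Lz (ev 3) = 0 := by rw [hL]; simp [ev]
    have a0 : A (ev 0) = pr κ (fderiv ℝ P.F (Lz w) 1) := by
      rw [hAv, l0]
      simp [ev]
    have a1 : A (ev 1) = pr κ (fderiv ℝ P.F (Lz w) Complex.I) := by
      rw [hAv, l1]
      simp [ev]
    have a2 : A (ev 2) = -p := by
      rw [hAv, l2]
      simp [ev]
    have a3 : A (ev 3) = -q := by
      rw [hAv, l3]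
      simp [ev]
    have h5 : A.det = dt (A (ev 0)) (A (ev 1)) (A (ev 2)) (A (ev 3)) := by
      have h6 : A.det = (LinearMap.toMatrix' (A : R4 →ₗ[ℝ] R4)).det := by
        rw [LinearMap.det_toMatrix']
      rw [h6, ← Matrix.det_transpose, dt]
      congr 1
      ext i j
      fin_cases i <;> rfl
    rw [h5, a0, a1, a2, a3]
    unfold Hh
    simp only [dt_eq, Pi.neg_apply]
    ring
  -- integration over `E`
  have htri : volume tri < ⊤ := isCompact_tri.measure_lt_top
  have hprod : (volume : Measure (ℂ × (ℝ × ℝ))).restrict (D ×ˢ tri) =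
      ((volume : Measure ℂ).restrict D).prod ((volume : Measure (ℝ × ℝ)).restrict tri) := by
    rw [Measure.volume_eq_prod, Measure.prod_restrict]
  have hpre : Th ⁻¹' E = D ×ˢ tri := by
    ext ⟨z, s⟩
    simp only [Set.mem_preimage, Set.mem_prod, hEdef]
    constructor
    · rintro ⟨h1, h2⟩
      rw [Lz_Th] at h1
      exact ⟨h1, h2⟩
    · rintro ⟨h1, h2⟩
      refine ⟨?_, h2⟩
      rw [Lz_Th]
      exact h1
  have hemb : MeasurableEmbedding Th := continuous_Th.measurableEmbedding inj_Th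
  have hHprod : Integrable (fun w : ℂ × (ℝ × ℝ) => Hh P κ p q w.1)
      ((volume : Measure (ℂ × (ℝ × ℝ))).restrict (D ×ˢ tri)) := by
    rw [hprod]
    have : IsFiniteMeasure ((volume : Measure (ℝ × ℝ)).restrict tri) :=
      ⟨by rw [Measure.restrict_apply_univ]; exact htri⟩
    have h1 := Integrable.mul_prod (f := Hh P κ p q) (g := fun _ : ℝ × ℝ => (1 : ℝ)) hHint
      (integrable_const (1 : ℝ) (μ := (volume : Measure (ℝ × ℝ)).restrict tri))
    simpa using h1
  have hint : IntegrableOn (fun x => (fderiv ℝ Φ x).det) E := by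
    rw [← mp_Th.integrableOn_comp_preimage hemb, hpre]
    refine hHprod.congr ?_
    have hm : MeasurableSet (D ×ˢ tri) := hDm.prod isCompact_tri.isClosed.measurableSet
    refine (ae_restrict_iff' hm).2 (Filter.Eventually.of_forall ?_)
    rintro ⟨z, s⟩ hzs
    have hzU : Th (z, s) ∈ Ω := by
      show Lz (Th (z, s)) ∈ P.U
      rw [Lz_Th]
      exact hDU hzs.1
    simp only [Function.comp_apply]
    rw [hdet _ hzU, Lz_Th]
  obtain ⟨n, hn, hn2⟩ := deg Ω E hΩ hE hEΩ Φ hΦs hint
  obtain ⟨N, hN1, hN2, hN3⟩ := perio n hn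
  refine ⟨N, hN1, hN2, fun ρ hρ hper => ?_⟩
  rw [← hN3 ρ hρ hper, ← hn2 ρ hρ (bdd_of_per hρ hper), NN_eq P κ p q hρ]
  have hK := unf P hDU hDm hD (fun z => GG ρ p q (pr κ (P.F z)) * Hh P κ p q z)
    ((((continuous_GG hρ p q).comp (pr κ).continuous).comp_continuousOn
      P.F_smooth.continuousOn).mul (cont_Hh P κ p q)) (by
    intro γ z hz
    rw [mul_assoc, Hh_inv P κ p q γ hz, P.F_per γ z hz, map_add]
    have : pr κ (lat (P.ρ γ)) = zv (fun a => P.ρ γ (κ a)) := rfl
    rw [this, GG_per hper])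
  rw [hK.2, ← mp_Th.setIntegral_preimage_emb hemb, hpre]
  have e1 : ∫ x in D ×ˢ tri, ρ (Φ (Th x)) * (fderiv ℝ Φ (Th x)).det =
      ∫ x in D ×ˢ tri, ρ (f x.1 - x.2.1 • p - x.2.2 • q) * Hh P κ p q x.1 := by
    have hm : MeasurableSet (D ×ˢ tri) := hDm.prod isCompact_tri.isClosed.measurableSet
    refine setIntegral_congr_fun hm ?_
    rintro ⟨z, s⟩ hzs
    have hzU : Th (z, s) ∈ Ω := by
      show Lz (Th (z, s)) ∈ P.U
      rw [Lz_Th]
      exact hDU hzs.1
    have e2 : Φ (Th (z, s)) = f z - s.1 • p - s.2 • q := by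
      rw [hΦ]
      simp only
      rw [Lz_Th]
      rfl
    simp only
    rw [hdet _ hzU, Lz_Th, e2]
  rw [e1, hprod, integral_prod]
  · refine integral_congr_ae (Filter.Eventually.of_forall fun z => ?_)
    simp only
    rw [integral_mul_const]
    rfl
  · rw [← hprod]
    obtain ⟨C, hC⟩ := bdd_of_per hρ hper
    refine hHprod.bdd_mul (c := C) ?_ (Filter.Eventually.of_forall fun x => hC _)
    have hm : MeasurableSet (D ×ˢ tri) := hDm.prod isCompact_tri.isClosed.measurableSet
    have hcf : ContinuousOn (fun x : ℂ × (ℝ × ℝ) => ρ (f x.1 - x.2.1 • p - x.2.2 • q))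
        (D ×ˢ tri) := by
      refine hρ.comp_continuousOn ?_
      have h1 : ContinuousOn (fun x : ℂ × (ℝ × ℝ) => f x.1) (D ×ˢ tri) :=
        hfs.continuousOn.comp continuousOn_fst (fun x hx => hDU hx.1)
      have h2 : Continuous (fun x : ℂ × (ℝ × ℝ) => x.2.1 • p) := by fun_prop
      have h3 : Continuous (fun x : ℂ × (ℝ × ℝ) => x.2.2 • q) := by fun_prop
      exact (h1.sub h2.continuousOn).sub h3.continuousOn
    exact hcf.aestronglyMeasurable hm

end Pool.Agent.CT
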