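import Pool.Agent.CT.FT
import Pool.Agent.CT.Stokes

/-!
# CT-STARCURV : curvature of the circle cocycle on a star family

`S_c = fT x_c y_c (s.t b c)` is a closed current supported in `fZ x_c y_c (s.t b c) ⊆ s.car b`
(`fT_cur`, `fZ_per`).
PLAN. `fderiv (s.a κ ρ true τ) b (1, 0) = Σ_c PP κ S_c (pr h'_c) τ (dr E (pr h_c))` by `PP_fT_deriv`
and the chain rule (`h_c = lat (s.h false c)`, `h'_c = lat (s.h true c)`, `E = EE ρ 0 τ`), similarly for
`(0, 1)`; then `curv` (Stokes.lean) for every `c` (the margin gives `ε ≤ ‖pr κ x - τ‖` on `s.car b`).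
-/

set_option autoImplicit false

noncomputable section

open scoped Topology ContDiff

namespace Pool.Agent.CT

variable {g : ℕ}

/-- the translation of the component `c` as a linear map -/
private def scL (s : Star g) (c : Fin g) : (ℝ × ℝ) →L[ℝ] V g :=
  (ContinuousLinearMap.fst ℝ ℝ ℝ).smulRight (lat (s.h false c)) +
    (ContinuousLinearMap.snd ℝ ℝ ℝ).smulRight (lat (s.h true c))

private theorem scL_apply (s : Star g) (c : Fin g) (b : ℝ × ℝ) : scL s c b = s.t b c := rfl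

private theorem sc_fderiv (s : Star g) (κ : Fin 4 → Ix g) (ρ : R4 → ℝ) (hρ : ContDiff ℝ ∞ ρ)
    (τ : R4) (k : Bool) (b v : ℝ × ℝ) :
    fderiv ℝ (s.a κ ρ k τ) b v = ∑ c : Fin g,
      PP κ (fT (lat (s.e (c, false))) (lat (s.e (c, true))) (s.t b c)) (pr κ (lat (s.h k c))) τ
        (dr (EE ρ 0 τ) (pr κ (scL s c v))) := by
  have hE : ContDiff ℝ ∞ (EE ρ 0 τ) := EE_smooth hρ 0 τ
  have hd : ∀ c : Fin g, DifferentiableAt ℝ (fun t : V g =>
      PP κ (fT (lat (s.e (c, false))) (lat (s.e (c, true))) t) (pr κ (lat (s.h k c))) τ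
        (EE ρ 0 τ)) (scL s c b) := fun c =>
    ((PP_fT_smooth κ _ _ _ _ _ hE).differentiable (by simp)).differentiableAt
  have hf : ∀ c : Fin g, HasFDerivAt (fun b : ℝ × ℝ =>
      PP κ (fT (lat (s.e (c, false))) (lat (s.e (c, true))) (scL s c b)) (pr κ (lat (s.h k c))) τ
        (EE ρ 0 τ))
      ((fderiv ℝ (fun t : V g =>
        PP κ (fT (lat (s.e (c, false))) (lat (s.e (c, true))) t) (pr κ (lat (s.h k c))) τ
          (EE ρ 0 τ)) (scL s c b)).comp (scL s c)) b := fun c =>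
    (hd c).hasFDerivAt.comp b (scL s c).hasFDerivAt
  have ha : s.a κ ρ k τ = fun b : ℝ × ℝ => ∑ c : Fin g,
      PP κ (fT (lat (s.e (c, false))) (lat (s.e (c, true))) (scL s c b)) (pr κ (lat (s.h k c))) τ
        (EE ρ 0 τ) := rfl
  have hsum := HasFDerivAt.fun_sum (u := Finset.univ) fun c _ => hf c
  rw [ha, hsum.fderiv, ContinuousLinearMap.sum_apply]
  refine Finset.sum_congr rfl fun c _ => ?_
  rw [ContinuousLinearMap.comp_apply, PP_fT_deriv κ _ _ _ _ _ hE]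
  rfl

theorem star_curv (s : Star g) (κ : Fin 4 → Ix g) (hκ : Function.Injective κ) (ρ : R4 → ℝ)
    (hρ : ContDiff ℝ ∞ ρ) (hper : Per4 ρ) (ε : ℝ) (hsupp : Supp4 ε ρ) (τ : R4) (b : ℝ × ℝ)
    (hM : Mg κ (s.car b) ε τ τ) :
    fderiv ℝ (s.a κ ρ true τ) b (1, 0) - fderiv ℝ (s.a κ ρ false τ) b (0, 1) = s.F κ ρ b := by
  rw [sc_fderiv s κ ρ hρ τ true b (1, 0), sc_fderiv s κ ρ hρ τ false b (0, 1),
    ← Finset.sum_sub_distrib, Star.F, ← Finset.sum_neg_distrib]
  refine Finset.sum_congr rfl fun c _ => ?_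
  have e1 : scL s c (1, 0) = lat (s.h false c) := by
    rw [scL_apply, Star.t]
    simp
  have e2 : scL s c (0, 1) = lat (s.h true c) := by
    rw [scL_apply, Star.t]
    simp
  rw [e1, e2]
  obtain ⟨δ, hδ, hM⟩ := hM
  refine curv (fT_cur (s.e (c, false)) (s.e (c, true)) (s.t b c)) (fZ_per _ _ _) κ hκ ρ hρ hper ε
    hsupp τ _ _ fun x hx => ?_
  have h1 := hM x (Set.mem_iUnion.2 ⟨c, hx⟩) 0 ⟨le_rfl, zero_le_one⟩
  rw [zero_smul, sub_zero] at h1
  exact hδ.le.trans h1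

end Pool.Agent.CT
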