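import Pool.Agent.CT.StarPiece
import Pool.Agent.CT.SympB

/-!
# CT-STARCURVE : a connected union of `g` translated elliptic curves is a curve of compact type

PLAN. `exists_J`: `J v = Σ_c (om v (lat (e (c, false))) • lat (e (c, false)) + om v (lat (e (c, true))) • lat (e (c, true)))`
(continuous linear). By `symp_cc`, `J x_c = y_c` (`om x_c y_c = 1`), `J y_c = - x_c`; `symp_expand` gives
`J (J v) = - v`, `om (J v) (J w) = om v w` and `om v (J v) = Σ_c (om v x_c)² + (om v y_c)²`, which is `> 0` for
`v ≠ 0` (otherwise `v = 0` by `symp_expand`).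
`star_curve`: `m = g`, `blk = id`, `P c` from `exists_piece` (`choose`); `range_ρ`: the set
`{v | ∃ a, a.1 = k ∧ v = e a}` is `{e (k, false), e (k, true)}`; `cls`: `P.cur i j 1 = fT .. 1 = wed2 ..`
(the integral of `1` over `Set.Icc (0 : ℝ × ℝ) 1` is `1`); `Finset.sum_ite_eq`.
`fZ_closed`: by `symp_expand` and `symp_cc`, `v ∈ fZ x_c y_c t` iff `om (v - t) (lat (e (c', k)))` is an
integer for all `c' ≠ c` and all `k` (if so, subtract the lattice vector `Σ_{c' ≠ c} ..`), an intersection
of closed sets.
`star_closed`: finite union.
-/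

set_option autoImplicit false

noncomputable section

namespace Pool.Agent.CT

variable {g : ℕ}

/-- `om · w` as a linear map -/
private def omL (w : V g) : V g →ₗ[ℝ] ℝ where
  toFun v := om v w
  map_add' v v' := (om_lin v v' w 0).1
  map_smul' r v := by
    simpa using (om_lin v 0 w r).2.1

private lemma omL_apply (v w : V g) : omL w v = om v w := rfl

private lemma om_antis (v w : V g) : om v w = - om w v := (om_lin v w 0 0).2.2

private lemma om_expand (e : Ix g → Ix g → ℤ) (he : SympBasis e) (v w : V g) :
    om v w = ∑ c : Fin g, (om v (lat (e (c, false))) * om w (lat (e (c, true))) -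
      om v (lat (e (c, true))) * om w (lat (e (c, false)))) := by
  have h := congrArg (omL w) (symp_expand e he v)
  rw [omL_apply, map_sum] at h
  rw [h]
  apply Finset.sum_congr rfl
  intro c _
  rw [map_sub, map_smul, map_smul, omL_apply, omL_apply, om_antis (lat (e (c, false))) w,
    om_antis (lat (e (c, true))) w]
  simp only [smul_eq_mul]
  ring

theorem exists_J (e : Ix g → Ix g → ℤ) (he : SympBasis e) :
    ∃ J : V g →L[ℝ] V g, IsCplx J ∧ ∀ c : Fin g, J (lat (e (c, false))) = lat (e (c, true)) := by
  classical
  set L : V g →ₗ[ℝ] V g := ∑ c : Fin g,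
    ((omL (lat (e (c, false)))).smulRight (lat (e (c, false))) +
      (omL (lat (e (c, true)))).smulRight (lat (e (c, true)))) with hL
  have hLv : ∀ v, L v = ∑ c : Fin g, (om v (lat (e (c, false))) • lat (e (c, false)) +
      om v (lat (e (c, true))) • lat (e (c, true))) := by
    intro v
    rw [hL, LinearMap.sum_apply]
    rfl
  have ha : ∀ v c, om (L v) (lat (e (c, false))) = - om v (lat (e (c, true))) := by
    intro v c
    rw [hLv, ← omL_apply, map_sum]
    have : ∀ c' : Fin g, omL (lat (e (c, false))) (om v (lat (e (c', false))) • lat (e (c', false)) +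
        om v (lat (e (c', true))) • lat (e (c', true))) =
        if c' = c then - om v (lat (e (c', true))) else 0 := by
      intro c'
      rw [map_add, map_smul, map_smul, omL_apply, omL_apply, (symp_cc e he c' c).2.2.1,
        (symp_cc e he c' c).2.1]
      split_ifs <;> simp
    simp_rw [this]
    rw [Finset.sum_ite_eq' Finset.univ c]
    simp
  have hb : ∀ v c, om (L v) (lat (e (c, true))) = om v (lat (e (c, false))) := by
    intro v c
    rw [hLv, ← omL_apply, map_sum]
    have : ∀ c' : Fin g, omL (lat (e (c, true))) (om v (lat (e (c', false))) • lat (e (c', false)) +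
        om v (lat (e (c', true))) • lat (e (c', true))) =
        if c' = c then om v (lat (e (c', false))) else 0 := by
      intro c'
      rw [map_add, map_smul, map_smul, omL_apply, omL_apply, (symp_cc e he c' c).2.2.2,
        (symp_cc e he c' c).1]
      split_ifs <;> simp
    simp_rw [this]
    rw [Finset.sum_ite_eq' Finset.univ c]
    simp
  refine ⟨LinearMap.toContinuousLinearMap L, ⟨?_, ?_, ?_⟩, ?_⟩
  · intro v
    simp only [LinearMap.coe_toContinuousLinearMap']
    rw [hLv (L v)]
    conv_rhs => rw [symp_expand e he v]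
    rw [← Finset.sum_neg_distrib]
    apply Finset.sum_congr rfl
    intro c _
    rw [ha, hb, neg_smul, neg_sub]
    abel
  · intro v w
    simp only [LinearMap.coe_toContinuousLinearMap']
    rw [om_expand e he (L v) (L w), om_expand e he v w]
    apply Finset.sum_congr rfl
    intro c _
    rw [ha, hb, ha, hb]
    ring
  · intro v hv
    simp only [LinearMap.coe_toContinuousLinearMap']
    rw [om_expand e he v (L v)]
    have h0 : ∀ c : Fin g, om v (lat (e (c, false))) * om (L v) (lat (e (c, true))) -
        om v (lat (e (c, true))) * om (L v) (lat (e (c, false))) =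
        om v (lat (e (c, false))) ^ 2 + om v (lat (e (c, true))) ^ 2 := by
      intro c
      rw [ha, hb]
      ring
    simp_rw [h0]
    by_contra hneg
    apply hv
    have hs : ∀ c ∈ (Finset.univ : Finset (Fin g)),
        om v (lat (e (c, false))) ^ 2 + om v (lat (e (c, true))) ^ 2 = 0 := by
      rw [← Finset.sum_eq_zero_iff_of_nonneg (fun c _ => by positivity)]
      exact le_antisymm (not_lt.1 hneg) (Finset.sum_nonneg fun c _ => by positivity)
    rw [symp_expand e he v]
    apply Finset.sum_eq_zero
    intro c hc
    have h1 := hs c hc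
    have q1 := sq_nonneg (om v (lat (e (c, false))))
    have q2 := sq_nonneg (om v (lat (e (c, true))))
    have h2 : om v (lat (e (c, false))) = 0 := by nlinarith
    have h3 : om v (lat (e (c, true))) = 0 := by nlinarith
    rw [h2, h3, zero_smul, zero_smul, sub_zero]
  · intro c
    simp only [LinearMap.coe_toContinuousLinearMap']
    rw [hLv]
    have : ∀ c' : Fin g, om (lat (e (c, false))) (lat (e (c', false))) • lat (e (c', false)) +
        om (lat (e (c, false))) (lat (e (c', true))) • lat (e (c', true)) =
        if c = c' then lat (e (c', true)) else 0 := by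
      intro c'
      rw [(symp_cc e he c c').2.2.1, (symp_cc e he c c').1]
      split_ifs <;> simp
    simp_rw [this]
    rw [Finset.sum_ite_eq Finset.univ c]
    simp

private lemma lat_add (m n : Ix g → ℤ) : lat (m + n) = lat m + lat n := by
  funext i; simp [lat]

private lemma lat_sub (m n : Ix g → ℤ) : lat (m - n) = lat m - lat n := by
  funext i; simp [lat]

private lemma lat_zsmul (k : ℤ) (n : Ix g → ℤ) : lat (k • n) = (k : ℝ) • lat n := by
  funext i; simp [lat]

private lemma lat_sum {ι : Type*} (s : Finset ι) (f : ι → Ix g → ℤ) :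
    lat (∑ i ∈ s, f i) = ∑ i ∈ s, lat (f i) := by
  funext i; simp [lat]

private lemma fZ_eq (e : Ix g → Ix g → ℤ) (he : SympBasis e) (c : Fin g) (t : V g) :
    fZ (lat (e (c, false))) (lat (e (c, true))) t =
      ⋂ (c' : Fin g) (_ : c' ≠ c) (k : Bool), {v | om (v - t) (lat (e (c', k))) ∈
        Set.range ((↑) : ℤ → ℝ)} := by
  classical
  ext v
  simp only [Set.mem_iInter]
  constructor
  · rintro ⟨s, n, rfl⟩ c' hc' k
    obtain ⟨l, hl⟩ := om_int n (e (c', k))
    refine ⟨l, ?_⟩
    have h1 : s.1 • lat (e (c, false)) + s.2 • lat (e (c, true)) + t + lat n - t =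
        s.1 • lat (e (c, false)) + s.2 • lat (e (c, true)) + lat n := by abel
    have h2 := symp_cc e he c c'
    rw [h1, ← omL_apply, map_add, map_add, map_smul, map_smul, omL_apply, omL_apply, omL_apply, hl]
    cases k
    · rw [h2.2.2.1, h2.2.1, if_neg (Ne.symm hc')]
      simp
    · rw [h2.1, h2.2.2.2, if_neg (Ne.symm hc')]
      simp
  · intro h
    have h' : ∀ (c' : Fin g) (k : Bool), ∃ l : ℤ, c' ≠ c → (l : ℝ) = om (v - t) (lat (e (c', k))) := by
      intro c' k
      by_cases hc : c' = c
      · exact ⟨0, fun h => (h hc).elim⟩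
      · obtain ⟨l, hl⟩ := h c' hc k
        exact ⟨l, fun _ => hl⟩
    choose l hl using h'
    refine ⟨(om (v - t) (lat (e (c, true))), - om (v - t) (lat (e (c, false)))),
      ∑ c' ∈ Finset.univ.erase c, (l c' true • e (c', false) - l c' false • e (c', true)), ?_⟩
    rw [lat_sum]
    have h1 := symp_expand e he (v - t)
    rw [← Finset.add_sum_erase _ _ (Finset.mem_univ c)] at h1
    have h2 : ∀ c' ∈ Finset.univ.erase c,
        om (v - t) (lat (e (c', true))) • lat (e (c', false)) -
          om (v - t) (lat (e (c', false))) • lat (e (c', true)) =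
        lat (l c' true • e (c', false) - l c' false • e (c', true)) := by
      intro c' hc'
      have hne := Finset.ne_of_mem_erase hc'
      rw [← hl c' true hne, ← hl c' false hne, lat_sub, lat_zsmul, lat_zsmul]
    rw [Finset.sum_congr rfl h2] at h1
    have h3 : v = (v - t) + t := by abel
    conv_lhs => rw [h3, h1]
    simp only [neg_smul]
    abel

private lemma om_cont (t w : V g) : Continuous fun v : V g => om (v - t) w := by
  unfold om
  fun_prop

private lemma fZ_closed (e : Ix g → Ix g → ℤ) (he : SympBasis e) (c : Fin g) (t : V g) :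
    IsClosed (fZ (lat (e (c, false))) (lat (e (c, true))) t) := by
  rw [fZ_eq e he c t]
  refine isClosed_iInter fun c' => isClosed_iInter fun _ => isClosed_iInter fun k => ?_
  exact Int.isClosedEmbedding_coe_real.isClosed_range.preimage (om_cont t (lat (e (c', k))))

theorem star_closed (e : Ix g → Ix g → ℤ) (he : SympBasis e) (t : Fin g → V g) :
    IsClosed (⋃ c : Fin g, fZ (lat (e (c, false))) (lat (e (c, true))) (t c)) :=
  isClosed_iUnion_of_finite fun c => fZ_closed e he c (t c)

private lemma fT_one (x y t : V g) (i j : Ix g) : fT x y t i j (fun _ => 1) = wed2 x y i j := by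
  unfold fT
  have h : (MeasureTheory.volume : MeasureTheory.Measure (ℝ × ℝ)).real (Set.Icc 0 1) = 1 := by
    have h1 : (Set.Icc (0 : ℝ × ℝ) 1) = Set.Icc 0 1 ×ˢ Set.Icc 0 1 := by
      rw [Set.Icc_prod_Icc]; rfl
    rw [h1, MeasureTheory.Measure.volume_eq_prod, MeasureTheory.measureReal_prod_prod]
    simp
  rw [MeasureTheory.setIntegral_const, h]
  simp

theorem star_curve (e : Ix g → Ix g → ℤ) (he : SympBasis e) (J : V g →L[ℝ] V g)
    (hJ : IsCplx J) (hJe : ∀ c : Fin g, J (lat (e (c, false))) = lat (e (c, true)))
    (t : Fin g → V g) (hconn : IsConnected (toTor '' ⋃ c : Fin g,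
      fZ (lat (e (c, false))) (lat (e (c, true))) (t c))) :
    ∃ C : CTCurve J,
      C.carrier = ⋃ c : Fin g, fZ (lat (e (c, false))) (lat (e (c, true))) (t c) ∧
      ∀ i j (a : V g → ℝ), Continuous a → IsPer a →
        C.cur i j a = ∑ c : Fin g, fT (lat (e (c, false))) (lat (e (c, true))) (t c) i j a := by
  classical
  have hne : ∀ c : Fin g, e (c, false) ≠ 0 := by
    intro c h0
    have h1 := (symp_cc e he c c).1
    rw [if_pos rfl, h0] at h1
    have h2 : om (lat (0 : Ix g → ℤ)) (lat (e (c, true))) = 0 := by
      simp [om, lat]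
    rw [h2] at h1
    exact zero_ne_one h1
  choose P hcar hcur hran hker using fun c : Fin g =>
    exists_piece (J := J) hJ.sq (e (c, false)) (e (c, true)) (hne c) (hJe c) (t c)
  have hset : ∀ k : Fin g, {v | ∃ a : Ix g, id a.1 = k ∧ v = e a} =
      {e (k, false), e (k, true)} := by
    intro k
    ext v
    simp only [Set.mem_ofPred_eq, Set.mem_insert_iff, Set.mem_singleton_iff]
    constructor
    · rintro ⟨⟨c, b⟩, hc, rfl⟩
      simp only [id] at hc
      subst hc
      cases b
      · left; rfl
      · right; rfl
    · rintro (h | h)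
      · exact ⟨(k, false), rfl, h⟩
      · exact ⟨(k, true), rfl, h⟩
  let C : CTCurve J :=
    { m := g
      e := e
      symp := he
      blk := id
      surj := Function.surjective_id
      P := P
      range_ρ := by
        intro k n
        rw [hset k]
        exact hran k n
      ker_ρ := hker
      cls := by
        intro k i j
        rw [hcur k i j (fun _ => 1) continuous_const (fun _ _ => rfl), fT_one]
        simp only [id]
        rw [Finset.sum_ite_eq' Finset.univ k]
        simp
      conn := by
        simp_rw [hcar]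
        exact hconn }
  refine ⟨C, ?_, ?_⟩
  · change (⋃ k, (P k).carrier) = _
    simp_rw [hcar]
  · intro i j a ha hp
    change ∑ k, (P k).cur i j a = _
    exact Finset.sum_congr rfl fun k _ => hcur k i j a ha hp

end Pool.Agent.CT
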