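import Pool.Agent.CT.FT
import Pool.Agent.CT.Stokes

/-!
# CT-STARPSI : the derivative of the local lift of the circle cocycle on a star family

`S_c = fT x_c y_c (s.t b c)` is a closed current supported in `fZ x_c y_c (s.t b c) ⊆ s.car b`
(`fT_cur`, `fZ_per`).
PLAN. `psi b' = Σ_c (NN κ ρ (S_c b') τ p + NN κ ρ (S_c b') p τ')` (SDefs.lean); `NN κ ρ S p q =
PP κ S p q (GG ρ p q)` is differentiable along `b ↦ s.t b c` (`PP_fT_smooth`, `GG_smooth`), the derivative in
the direction `l` is `Σ_c (NN κ (dr ρ (pr h^l_c)) S_c τ p + NN κ (dr ρ (pr h^l_c)) S_c p τ')` (`PP_fT_deriv`,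
`dr_GG`), and `NN_deriv` (Stokes.lean; the margins of both segments on `s.car b`) gives
`Σ_c [PP κ S_c (pr h^l_c) τ' (EE ρ 0 τ') - PP κ S_c (pr h^l_c) τ (EE ρ 0 τ)]` (the terms with `p` cancel), which
is the difference of the `s.a κ ρ l`.
-/

set_option autoImplicit false

noncomputable section

open scoped Topology ContDiff

namespace Pool.Agent.CT

variable {g : ℕ}

/-- the linear map `b ↦ s.t b c` -/
private def spL (s : Star g) (c : Fin g) : ℝ × ℝ →L[ℝ] V g :=
  (ContinuousLinearMap.fst ℝ ℝ ℝ).smulRight (lat (s.h false c)) +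
    (ContinuousLinearMap.snd ℝ ℝ ℝ).smulRight (lat (s.h true c))

private theorem spL_apply (s : Star g) (c : Fin g) (b : ℝ × ℝ) : spL s c b = s.t b c := rfl

private theorem sp_one (s : Star g) (κ : Fin 4 → Ix g) (ρ : R4 → ℝ) (hρ : ContDiff ℝ ∞ ρ)
    (p q : R4) (b : ℝ × ℝ) (c : Fin g) :
    HasFDerivAt (fun b => NN κ ρ (fT (lat (s.e (c, false))) (lat (s.e (c, true))) (s.t b c)) p q)
      (NN κ (dr ρ (pr κ (lat (s.h false c))))
          (fT (lat (s.e (c, false))) (lat (s.e (c, true))) (s.t b c)) p q •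
          ContinuousLinearMap.fst ℝ ℝ ℝ +
        NN κ (dr ρ (pr κ (lat (s.h true c))))
          (fT (lat (s.e (c, false))) (lat (s.e (c, true))) (s.t b c)) p q •
          ContinuousLinearMap.snd ℝ ℝ ℝ) b := by
  have hG := GG_smooth hρ p q
  have h1 := (PP_fT_smooth κ (lat (s.e (c, false))) (lat (s.e (c, true))) p q _ hG).differentiable
    (by simp) (s.t b c)
  have h2 := h1.hasFDerivAt
  rw [← spL_apply s c b] at h2
  have h3 := h2.comp b (spL s c).hasFDerivAt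
  have h4 : ∀ h : V g, fderiv ℝ (fun t : V g => PP κ (fT (lat (s.e (c, false)))
      (lat (s.e (c, true))) t) p q (GG ρ p q)) (spL s c b) h =
      NN κ (dr ρ (pr κ h)) (fT (lat (s.e (c, false))) (lat (s.e (c, true))) (s.t b c)) p q := by
    intro h
    rw [PP_fT_deriv κ _ _ p q _ hG, dr_GG hρ]
    rfl
  refine h3.congr_fderiv ?_
  refine ContinuousLinearMap.ext fun v => ?_
  have h5 : spL s c v = v.1 • lat (s.h false c) + v.2 • lat (s.h true c) := rfl
  rw [ContinuousLinearMap.comp_apply, h5, map_add, map_smul, map_smul, h4, h4]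
  simp only [ContinuousLinearMap.add_apply, ContinuousLinearMap.smul_apply,
    ContinuousLinearMap.coe_fst', ContinuousLinearMap.coe_snd', smul_eq_mul]
  ring

private theorem sp_mg {κ : Fin 4 → Ix g} {s : Star g} {ε : ℝ} {p q : R4} {b : ℝ × ℝ}
    (hM : Mg κ (s.car b) ε p q) (c : Fin g) :
    ∀ x ∈ fZ (lat (s.e (c, false))) (lat (s.e (c, true))) (s.t b c),
      ∀ t ∈ Set.Icc (0 : ℝ) 1, ε ≤ ‖pr κ x - p - t • (q - p)‖ := by
  obtain ⟨δ, hδ, h⟩ := hM
  intro x hx t ht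
  exact le_trans (le_of_lt hδ) (h x (Set.mem_iUnion.2 ⟨c, hx⟩) t ht)

theorem star_psi (s : Star g) (κ : Fin 4 → Ix g) (hκ : Function.Injective κ) (ρ : R4 → ℝ)
    (hρ : ContDiff ℝ ∞ ρ) (hper : Per4 ρ) (ε : ℝ) (hsupp : Supp4 ε ρ) (τ p τ' : R4) (b : ℝ × ℝ)
    (hM : Mg κ (s.car b) ε τ p) (hM' : Mg κ (s.car b) ε p τ') :
    HasFDerivAt (s.psi κ ρ τ p τ')
      ((s.a κ ρ false τ' b - s.a κ ρ false τ b) • ContinuousLinearMap.fst ℝ ℝ ℝ +
        (s.a κ ρ true τ' b - s.a κ ρ true τ b) • ContinuousLinearMap.snd ℝ ℝ ℝ) b := by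
  have h1 := HasFDerivAt.fun_sum (u := Finset.univ) fun (c : Fin g) _ =>
    (sp_one s κ ρ hρ τ p b c).add (sp_one s κ ρ hρ p τ' b c)
  refine HasFDerivAt.congr_fderiv h1 ?_
  refine ContinuousLinearMap.ext fun v => ?_
  have h2 : ∀ (c : Fin g) (w : R4),
      NN κ (dr ρ w) (fT (lat (s.e (c, false))) (lat (s.e (c, true))) (s.t b c)) τ p +
      NN κ (dr ρ w) (fT (lat (s.e (c, false))) (lat (s.e (c, true))) (s.t b c)) p τ' =
      PP κ (fT (lat (s.e (c, false))) (lat (s.e (c, true))) (s.t b c)) w τ' (EE ρ 0 τ') -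
      PP κ (fT (lat (s.e (c, false))) (lat (s.e (c, true))) (s.t b c)) w τ (EE ρ 0 τ) := by
    intro c w
    rw [NN_deriv (fT_cur (s.e (c, false)) (s.e (c, true)) (s.t b c)) (fZ_per _ _ _) κ hκ ρ hρ hper
      ε hsupp τ p w (sp_mg hM c),
      NN_deriv (fT_cur (s.e (c, false)) (s.e (c, true)) (s.t b c)) (fZ_per _ _ _) κ hκ ρ hρ hper
      ε hsupp p τ' w (sp_mg hM' c)]
    ring
  simp only [ContinuousLinearMap.sum_apply, ContinuousLinearMap.add_apply,
    ContinuousLinearMap.smul_apply, ContinuousLinearMap.coe_fst', ContinuousLinearMap.coe_snd',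
    smul_eq_mul, Star.a]
  rw [← Finset.sum_sub_distrib, ← Finset.sum_sub_distrib, Finset.sum_mul, Finset.sum_mul,
    ← Finset.sum_add_distrib]
  refine Finset.sum_congr rfl fun c _ => ?_
  rw [← h2 c, ← h2 c]
  ring

end Pool.Agent.CT
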