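import Pool.Agent.CT.StarLoc
import Pool.Agent.CT.StarCurv
import Pool.Agent.CT.StarPsi
import Pool.Agent.CT.MgOpen
import Pool.Agent.CT.IntMat
import Pool.Agent.CT.CW

/-!
# CT-STAREVAL : the value of the circle cocycle on a star family

PLAN. `star_int`: `PP_fT` gives `s.F κ ρ b = - Σ_c dt (pr h_c) (pr h'_c) (pr x_c) (pr y_c) *
∫ σ, ρ (σ.1 pr x_c + σ.2 pr y_c + b.1 pr h_c + b.2 pr h'_c)`; integrate over `b` and use `int_mat` (the
projections of lattice vectors are `zv` of integer vectors) and `∫ ρ = 1`.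
`star_eval`: `chern_weil` with `a1 i = s.a κ ρ false (t i)`, `a2 i = s.a κ ρ true (t i)`, `F = s.F κ ρ`.
`Q` is periodic: two points of `K ⊆ Zs g` with the same closed set and the same current are equal;
`s.car (x + 1, y) = s.car (x, y)` and the currents agree on `Per g` (`fT_per`).
`hcurv`: `star_curv` with the margin `hc.mg`. `hh`: at `b` take `p` from `hc.path`; for `b'` near `b`,
`Q b' ∈ N i ∩ N j` and both margins hold (`Mg_open`, `Q` continuous, `c.op`), so
`c.h i j (Q b') = (s.psi κ ρ (t i) p (t j) b' : AddCircle)` (`hc.eq`, `star_NN`), and `star_psi`.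
-/

set_option autoImplicit false

noncomputable section

open scoped Topology ContDiff

namespace Pool.Agent.CT

variable {g : ℕ}

private theorem pr_lat_zv (κ : Fin 4 → Ix g) (n : Ix g → ℤ) :
    pr κ (lat n) = zv (fun a => n (κ a)) := rfl

private theorem t_cont (s : Star g) (c : Fin g) : Continuous (fun b : ℝ × ℝ => s.t b c) := by
  unfold Star.t
  fun_prop

theorem star_int (s : Star g) (κ : Fin 4 → Ix g) (ε : ℝ) (ρ : R4 → ℝ) (hρ : Bump ε ρ) :
    - ∫ b in Set.Icc (0 : ℝ × ℝ) 1, s.F κ ρ b = s.val κ := by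
  have h1 : ∀ c : Fin g, MeasureTheory.IntegrableOn
      (fun b : ℝ × ℝ => PP κ (fT (lat (s.e (c, false))) (lat (s.e (c, true))) (s.t b c))
        (pr κ (lat (s.h false c))) (pr κ (lat (s.h true c))) ρ) (Set.Icc (0 : ℝ × ℝ) 1)
        MeasureTheory.volume := by
    intro c
    refine ContinuousOn.integrableOn_compact isCompact_Icc (Continuous.continuousOn ?_)
    exact (PP_fT_smooth κ _ _ _ _ ρ hρ.smooth).continuous.comp (t_cont s c)
  have h2 : ∀ b : ℝ × ℝ, s.F κ ρ b = -∑ c : Fin g,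
      PP κ (fT (lat (s.e (c, false))) (lat (s.e (c, true))) (s.t b c))
        (pr κ (lat (s.h false c))) (pr κ (lat (s.h true c))) ρ := fun b => rfl
  simp only [h2]
  rw [MeasureTheory.integral_neg, neg_neg, MeasureTheory.integral_finset_sum _ fun c _ => h1 c]
  unfold Star.val
  refine Finset.sum_congr rfl fun c _ => ?_
  have h3 := int_mat ρ hρ.smooth.continuous hρ.per (fun a => s.h false c (κ a))
    (fun a => s.h true c (κ a)) (fun a => s.e (c, false) (κ a)) (fun a => s.e (c, true) (κ a))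
  rw [hρ.int, mul_one] at h3
  rw [pr_lat_zv, pr_lat_zv, pr_lat_zv, pr_lat_zv]
  refine Eq.trans ?_ h3
  rw [← MeasureTheory.integral_const_mul]
  refine MeasureTheory.integral_congr_ae (Filter.Eventually.of_forall fun b => ?_)
  change PP κ (fT (lat (s.e (c, false))) (lat (s.e (c, true))) (s.t b c))
        (zv fun a => s.h false c (κ a)) (zv fun a => s.h true c (κ a)) ρ = _
  rw [PP_fT, pr_lat_zv, pr_lat_zv]
  congr 1
  refine MeasureTheory.integral_congr_ae (Filter.Eventually.of_forall fun σ => ?_)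
  change ρ (pr κ (σ.1 • lat (s.e (c, false)) + σ.2 • lat (s.e (c, true)) + s.t b c)) = _
  congr 1
  unfold Star.t
  rw [map_add, map_add, map_smul, map_smul, map_add, map_smul, map_smul, pr_lat_zv, pr_lat_zv, pr_lat_zv,
    pr_lat_zv]
  abel

private theorem fZ_add (x y t : V g) (n : Ix g → ℤ) : fZ x y (t + lat n) = fZ x y t := by
  have hlat : ∀ a b : Ix g → ℤ, lat (a + b) = lat a + lat b := by
    intro a b
    funext i
    simp [lat]
  have hneg : ∀ a : Ix g → ℤ, lat (-a) = -lat a := by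
    intro a
    funext i
    simp [lat]
  ext v
  constructor
  · rintro ⟨s, m, rfl⟩
    exact ⟨s, n + m, by rw [hlat]; abel⟩
  · rintro ⟨s, m, rfl⟩
    exact ⟨s, -n + m, by rw [hlat, hneg]; abel⟩

private theorem t_per1 (s : Star g) (x y : ℝ) (c : Fin g) :
    s.t (x + 1, y) c = s.t (x, y) c + lat (s.h false c) := by
  simp only [Star.t, add_smul, one_smul]
  abel

private theorem t_per2 (s : Star g) (x y : ℝ) (c : Fin g) :
    s.t (x, y + 1) c = s.t (x, y) c + lat (s.h true c) := by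
  simp only [Star.t, add_smul, one_smul]
  abel

private theorem fam_ext (s : Star g) (K : Set (Zs g)) (Q : C(ℝ × ℝ, K))
    (hQ : IsFam s (fun b => (Q b : Zs g))) (b b' : ℝ × ℝ) (n : Fin g → Ix g → ℤ)
    (h : ∀ c, s.t b' c = s.t b c + lat (n c)) : Q b' = Q b := by
  apply Subtype.ext
  refine Prod.ext ?_ ?_
  · apply TopologicalSpace.Closeds.ext
    refine (hQ.1 b').trans (Eq.trans ?_ (hQ.1 b).symm)
    unfold Star.car
    refine Set.iUnion_congr fun c => ?_
    rw [h c, fZ_add]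
  · funext i j a
    refine (hQ.2 b' i j a).trans (Eq.trans ?_ (hQ.2 b i j a).symm)
    unfold Star.cur
    refine Finset.sum_congr rfl fun c _ => ?_
    rw [h c, fT_per _ _ _ _ _ _ _ a.2.2]

theorem star_eval (s : Star g) (κ : Fin 4 → Ix g) (hκ : Function.Injective κ)
    (K : Set (Zs g)) (c : CC K) (t : c.ι → R4) (ε : ℝ) (ρ : R4 → ℝ) (hc : IsNC κ K c t ε ρ)
    (Q : C(ℝ × ℝ, K)) (hQ : IsFam s (fun b => (Q b : Zs g))) :
    ∃ (u : c.ι → Sq → AddCircle (1 : ℝ)) (d1 d2 : C(unitInterval, AddCircle (1 : ℝ))),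
      c.Tor (sqr Q) u d1 d2 ∧ incr d1 + incr d2 = s.val κ := by
  have hb := hc.bump
  have hQ1 : ∀ x y, Q (x + 1, y) = Q (x, y) := fun x y =>
    fam_ext s K Q hQ (x, y) (x + 1, y) (fun c => s.h false c) (t_per1 s x y)
  have hQ2 : ∀ x y, Q (x, y + 1) = Q (x, y) := fun x y =>
    fam_ext s K Q hQ (x, y) (x, y + 1) (fun c => s.h true c) (t_per2 s x y)
  have hmg : ∀ (b : ℝ × ℝ) (p q : R4),
      Mg κ (((Q b : Zs g)).1 : Set (V g)) ε p q → Mg κ (s.car b) ε p q := by
    intro b p q h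
    rw [← hQ.1 b]
    exact h
  rw [← star_int s κ ε ρ hb]
  refine chern_weil c Q hQ1 hQ2 (fun i => s.a κ ρ false (t i)) (fun i => s.a κ ρ true (t i))
    (s.F κ ρ) (star_F_cont s κ ρ hb.smooth)
    (fun i => star_a_smooth s κ ρ hb.smooth false (t i))
    (fun i => star_a_smooth s κ ρ hb.smooth true (t i))
    (fun i x y => (star_a_per s κ ρ hb.per false (t i) x y).2)
    (fun i x y => (star_a_per s κ ρ hb.per true (t i) x y).1)
    (fun i b hi => star_curv s κ hκ ρ hb.smooth hb.per ε hb.supp (t i) b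
      (hmg b _ _ (hc.mg i (Q b) hi))) ?_
  intro i j b hi hj
  obtain ⟨p, hp1, hp2⟩ := hc.path i j (Q b) hi hj
  have hcont : Continuous fun b' : ℝ × ℝ => (Q b' : Zs g) :=
    continuous_subtype_val.comp Q.continuous
  have hev : ∀ᶠ b' in 𝓝 b, Q b' ∈ c.N i ∧ Q b' ∈ c.N j ∧
      Mg κ (((Q b' : Zs g)).1 : Set (V g)) ε (t i) p ∧
      Mg κ (((Q b' : Zs g)).1 : Set (V g)) ε p (t j) := by
    have e1 : ∀ᶠ b' in 𝓝 b, Q b' ∈ c.N i :=
      Q.continuous.continuousAt.eventually ((c.op i).mem_nhds hi)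
    have e2 : ∀ᶠ b' in 𝓝 b, Q b' ∈ c.N j :=
      Q.continuous.continuousAt.eventually ((c.op j).mem_nhds hj)
    have e3 : ∀ᶠ b' in 𝓝 b, (Q b' : Zs g) ∈ {y : Zs g | Mg κ (y.1 : Set (V g)) ε (t i) p} :=
      hcont.continuousAt.eventually ((Mg_open κ ε (t i) p).mem_nhds hp1)
    have e4 : ∀ᶠ b' in 𝓝 b, (Q b' : Zs g) ∈ {y : Zs g | Mg κ (y.1 : Set (V g)) ε p (t j)} :=
      hcont.continuousAt.eventually ((Mg_open κ ε p (t j)).mem_nhds hp2)
    filter_upwards [e1, e2, e3, e4] with b' h1 h2 h3 h4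
    exact ⟨h1, h2, h3, h4⟩
  refine ⟨s.psi κ ρ (t i) p (t j), ?_, ?_⟩
  · filter_upwards [hev] with b' hb'
    obtain ⟨h1, h2, h3, h4⟩ := hb'
    rw [hc.eq i j (Q b') p h1 h2 h3 h4]
    rw [star_NN s κ ρ hb.smooth.continuous hb.per b' (Q b' : Zs g) (hQ.2 b') (t i) p (t j)]
  · filter_upwards [hev] with b' hb'
    obtain ⟨h1, h2, h3, h4⟩ := hb'
    exact star_psi s κ hκ ρ hb.smooth hb.per ε hb.supp (t i) p (t j) b' (hmg b' _ _ h3)
      (hmg b' _ _ h4)

end Pool.Agent.CT
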