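import Pool.Agent.CT.FT
import Pool.Agent.CT.Calc
import Pool.Agent.CT.PPid
import Pool.Agent.CT.CycBasic

/-!
# CT-STARLOC : connection form of the circle cocycle on a star family

`S_c = fT x_c y_c (s.t b c)` is a closed current supported in `fZ x_c y_c (s.t b c) ⊆ s.car b`
(`fT_cur`, `fZ_per`).
PLAN. `star_a_smooth`: `s.a κ ρ k τ b` is a sum of `PP κ (fT x_c y_c ·) ..` (smooth, `PP_fT_smooth`, `EE_smooth`)
composed with the linear map `b ↦ s.t b c`. `star_a_per`: `s.t (b + e_l) c = s.t b c + lat (h l c)`,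
`fT_per` (the functions `EE ρ 0 τ ∘ pr κ` are periodic: `EE_per`, `per_pr`).
`star_NN`: `y.cur i j a = s.cur b i j a` for continuous periodic `a` (`toPer_coe`, `GG_per'`).
-/

set_option autoImplicit false

noncomputable section

open scoped Topology ContDiff

namespace Pool.Agent.CT

variable {g : ℕ}

private theorem StarLoc_t_smooth (s : Star g) (c : Fin g) : ContDiff ℝ ∞ (fun b : ℝ × ℝ => s.t b c) := by
  unfold Star.t
  exact (contDiff_fst.smul contDiff_const).add (contDiff_snd.smul contDiff_const)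

private theorem StarLoc_PP (s : Star g) (κ : Fin 4 → Ix g) (c : Fin g) (x y : V g) (p q : R4)
    (f : R4 → ℝ) (hf : ContDiff ℝ ∞ f) :
    ContDiff ℝ ∞ (fun b : ℝ × ℝ => PP κ (fT x y (s.t b c)) p q f) :=
  (PP_fT_smooth κ x y p q f hf).comp (StarLoc_t_smooth s c)

theorem star_a_smooth (s : Star g) (κ : Fin 4 → Ix g) (ρ : R4 → ℝ) (hρ : ContDiff ℝ ∞ ρ)
    (k : Bool) (τ : R4) : ContDiff ℝ 1 (s.a κ ρ k τ) := by
  have h : ContDiff ℝ ∞ (s.a κ ρ k τ) := by
    unfold Star.a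
    exact ContDiff.sum fun c _ => StarLoc_PP s κ c _ _ _ _ _ (EE_smooth hρ 0 τ)
  exact h.of_le (by exact_mod_cast le_top)

private theorem StarLoc_PP_per (κ : Fin 4 → Ix g) (x y t : V g) (n : Ix g → ℤ) (p q : R4)
    (f : R4 → ℝ) (hf : Per4 f) : PP κ (fT x y (t + lat n)) p q f = PP κ (fT x y t) p q f := by
  unfold PP
  congr 1
  refine Finset.sum_congr rfl fun b _ => Finset.sum_congr rfl fun c _ => ?_
  rw [fT_per x y t n _ _ _ (per_pr κ f hf)]

theorem star_a_per (s : Star g) (κ : Fin 4 → Ix g) (ρ : R4 → ℝ) (hper : Per4 ρ)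
    (k : Bool) (τ : R4) (x y : ℝ) : s.a κ ρ k τ (x + 1, y) = s.a κ ρ k τ (x, y) ∧
      s.a κ ρ k τ (x, y + 1) = s.a κ ρ k τ (x, y) := by
  constructor
  · unfold Star.a
    refine Finset.sum_congr rfl fun c _ => ?_
    have h1 : s.t (x + 1, y) c = s.t (x, y) c + lat (s.h false c) := by
      unfold Star.t
      simp only [add_smul, one_smul]
      abel
    rw [h1, StarLoc_PP_per κ _ _ _ _ _ _ _ (EE_per hper 0 τ)]
  · unfold Star.a
    refine Finset.sum_congr rfl fun c _ => ?_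
    have h1 : s.t (x, y + 1) c = s.t (x, y) c + lat (s.h true c) := by
      unfold Star.t
      simp only [add_smul, one_smul]
      abel
    rw [h1, StarLoc_PP_per κ _ _ _ _ _ _ _ (EE_per hper 0 τ)]

theorem star_F_cont (s : Star g) (κ : Fin 4 → Ix g) (ρ : R4 → ℝ) (hρ : ContDiff ℝ ∞ ρ) :
    Continuous (s.F κ ρ) := by
  unfold Star.F
  exact (continuous_finsetSum _ fun c _ => (StarLoc_PP s κ c _ _ _ _ _ hρ).continuous).neg

private theorem StarLoc_NN (s : Star g) (κ : Fin 4 → Ix g) (ρ : R4 → ℝ) (hρ : Continuous ρ)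
    (hper : Per4 ρ) (b : ℝ × ℝ) (y : Zs g) (hy : ∀ i j (a : Per g), y.2 i j a = s.cur b i j a.1)
    (p q : R4) : NN κ ρ y.cur p q =
      ∑ c : Fin g, NN κ ρ (fT (lat (s.e (c, false))) (lat (s.e (c, true))) (s.t b c)) p q := by
  obtain ⟨h1, h2⟩ := GG_per' κ ρ hρ hper p q
  have h3 : ∀ i j, y.cur i j (fun x => GG ρ p q (pr κ x)) =
      ∑ c : Fin g, fT (lat (s.e (c, false))) (lat (s.e (c, true))) (s.t b c) i j
        (fun x => GG ρ p q (pr κ x)) := by
    intro i j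
    unfold Zs.cur
    rw [hy, toPer_coe _ h1 h2]
    rfl
  unfold NN PP
  simp only [h3]
  rw [← Finset.mul_sum]
  congr 1
  simp only [Finset.mul_sum]
  rw [Finset.sum_congr rfl fun b' _ => Finset.sum_comm, Finset.sum_comm]

theorem star_NN (s : Star g) (κ : Fin 4 → Ix g) (ρ : R4 → ℝ) (hρ : Continuous ρ)
    (hper : Per4 ρ) (b : ℝ × ℝ) (y : Zs g) (hy : ∀ i j (a : Per g), y.2 i j a = s.cur b i j a.1)
    (τ p τ' : R4) :
    NN κ ρ y.cur τ p + NN κ ρ y.cur p τ' = s.psi κ ρ τ p τ' b := by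
  rw [StarLoc_NN s κ ρ hρ hper b y hy, StarLoc_NN s κ ρ hρ hper b y hy, ← Finset.sum_add_distrib]
  rfl

end Pool.Agent.CT
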