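import Pool.Agent.CT.SDefs

/-!
# CT-STARPIECE : an elliptic curve as a piece

PLAN. `ψ`: a smooth function `ψ : ℝ → ℝ`, `ψ ≥ 0`, with support in `[-1, 1]` (or `[-2, 2]`) and
`Σ_n ψ (x + n) = 1` (take a smooth bump `φ ≥ 0`, positive on `[0, 1]`, compact support, and divide by the
periodic function `Σ_n φ (x + n)`, a locally finite sum; or use `Real.smoothTransition`:
`ψ x = smoothTransition (x + 1) - smoothTransition x`? check: `T (x + 1) - T x` with `T` smooth, `T = 0` for
`x ≤ 0`, `T = 1` for `x ≥ 1`: telescoping sum `= 1`, nonnegative since `T` is monotone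
(`Real.smoothTransition.monotone`?), support in `[-1, 1]`). Then `∫ ψ = 1` and
`∫ ψ(x) f(x) dx = ∫_0^1 f` for continuous `f` with period 1.
The piece: `U = univ`, `Γ = Multiplicative (ℤ × ℤ)`, `act γ z = z + γ.1 + γ.2 * I`, `χ z = ψ z.re * ψ z.im`,
`F z = z.re • lat x + z.im • lat y + t`, `ρ γ = γ.1 • x + γ.2 • y`. `F_hol`: `fderiv F z w = w.re • lat x + w.im • lat y` and
`J (lat x) = lat y`, `J (lat y) = - lat x`. `simply`: `(Set.univ : Set ℂ)` is contractible. `proper`: the
set of Gaussian integers in a compact set `L - L` is finite.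
`P.carrier = fZ`: clear. `P.cur i j a = wed2 (lat x) (lat y) i j * ∫ χ z a (F z) dz` and unfolding in both
variables (`Complex.volume_preserving_equiv_real_prod`, Fubini).
kernel: the commutator subgroup of a commutative group is trivial (`commutator_eq_bot..`), and
`m • x + n • y = 0` implies `(m² + n²) • lat x = 0` (apply `m - n J` to `m lat x + n J lat x = 0`).
-/

set_option autoImplicit false

noncomputable section

namespace Pool.Agent.CT

open MeasureTheory Set
open scoped ContDiff

/-! ## the cut-off function in one variable -/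

private def sps (x : ℝ) : ℝ := Real.smoothTransition (x + 1) - Real.smoothTransition x

private lemma sps_smooth : ContDiff ℝ ∞ sps :=
  (Real.smoothTransition.contDiff.comp (contDiff_id.add contDiff_const)).sub
    Real.smoothTransition.contDiff

private lemma sps_cont : Continuous sps := sps_smooth.continuous

private lemma sps_nonneg (x : ℝ) : 0 ≤ sps x :=
  sub_nonneg.2 (Real.smoothTransition.monotone (by linarith))

private lemma sps_neg {x : ℝ} (h : x ≤ -1) : sps x = 0 := by
  unfold sps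
  rw [Real.smoothTransition.zero_of_nonpos (by linarith),
    Real.smoothTransition.zero_of_nonpos (by linarith), sub_zero]

private lemma sps_pos {x : ℝ} (h : 1 ≤ x) : sps x = 0 := by
  unfold sps
  rw [Real.smoothTransition.one_of_one_le (by linarith),
    Real.smoothTransition.one_of_one_le h, sub_self]

private lemma sps_left {x : ℝ} (h : x ∈ Icc (0 : ℝ) 1) : sps (x - 1) = Real.smoothTransition x := by
  unfold sps
  rw [sub_add_cancel, Real.smoothTransition.zero_of_nonpos (x := x - 1) (by linarith [h.2]),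
    sub_zero]

private lemma sps_right {x : ℝ} (h : x ∈ Icc (0 : ℝ) 1) :
    sps x = 1 - Real.smoothTransition x := by
  unfold sps
  rw [Real.smoothTransition.one_of_one_le (by linarith [h.1])]

private lemma sps_supp {u : ℝ} {m : ℤ} (h : sps (u + m) ≠ 0) :
    m ∈ ({-⌊u⌋ - 1, -⌊u⌋} : Finset ℤ) := by
  have h1 : -1 < u + m := by
    by_contra h'
    exact h (sps_neg (not_lt.1 h'))
  have h2 : u + m < 1 := by
    by_contra h'
    exact h (sps_pos (not_lt.1 h'))
  have h3 := Int.floor_le u
  have h4 := Int.lt_floor_add_one u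
  have h5 : (-2 : ℝ) < ((⌊u⌋ + m : ℤ) : ℝ) := by push_cast; linarith
  have h6 : ((⌊u⌋ + m : ℤ) : ℝ) < 1 := by push_cast; linarith
  have h7 : -2 < ⌊u⌋ + m := by exact_mod_cast h5
  have h8 : ⌊u⌋ + m < 1 := by exact_mod_cast h6
  simp only [Finset.mem_insert, Finset.mem_singleton]
  omega

private lemma sps_sum (u : ℝ) : ∑ m ∈ ({-⌊u⌋ - 1, -⌊u⌋} : Finset ℤ), sps (u + m) = 1 := by
  rw [Finset.sum_pair (by omega)]
  have h3 := Int.floor_le u
  have h4 := Int.lt_floor_add_one u
  unfold sps
  push_cast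
  rw [Real.smoothTransition.zero_of_nonpos (x := u + (-(⌊u⌋ : ℝ) - 1)) (by linarith),
    Real.smoothTransition.one_of_one_le (x := u + -(⌊u⌋ : ℝ) + 1) (by linarith),
    show u + (-(⌊u⌋ : ℝ) - 1) + 1 = u + -(⌊u⌋ : ℝ) by ring]
  ring

private lemma sps_int (f : ℝ → ℝ) (hf : Continuous f) (hper : ∀ x, f (x + 1) = f x) :
    ∫ x, sps x * f x = ∫ x in Icc (0 : ℝ) 1, f x := by
  have hc : Continuous fun x => sps x * f x := sps_cont.mul hf
  have h1 : ∫ x in (-1 : ℝ)..1, sps x * f x = ∫ x, sps x * f x := by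
    refine intervalIntegral.integral_eq_integral_of_support_subset fun x hx => ?_
    have hx' : sps x ≠ 0 := fun h => hx (by simp [h])
    constructor
    · by_contra h
      exact hx' (sps_neg (not_lt.1 h))
    · by_contra h
      exact hx' (sps_pos (not_le.1 h).le)
  rw [← h1, ← intervalIntegral.integral_add_adjacent_intervals (b := 0)
    (hc.intervalIntegrable _ _) (hc.intervalIntegrable _ _)]
  have h2 : ∫ x in (-1 : ℝ)..0, sps x * f x = ∫ x in (0 : ℝ)..1, sps (x - 1) * f (x - 1) := by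
    rw [intervalIntegral.integral_comp_sub_right (fun x => sps x * f x) 1]
    norm_num
  have hc' : Continuous fun x => sps (x - 1) * f (x - 1) :=
    hc.comp (continuous_id.sub continuous_const)
  rw [h2, ← intervalIntegral.integral_add (hc'.intervalIntegrable _ _)
    (hc.intervalIntegrable _ _), integral_Icc_eq_integral_Ioc,
    ← intervalIntegral.integral_of_le zero_le_one]
  refine intervalIntegral.integral_congr fun x hx => ?_
  rw [uIcc_of_le zero_le_one] at hx
  show sps (x - 1) * f (x - 1) + sps x * f x = f x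
  have h3 : f (x - 1) = f x := by
    have := hper (x - 1)
    rw [sub_add_cancel] at this
    exact this.symm
  rw [sps_left hx, sps_right hx, h3]
  ring

private lemma sps_int2 (b : ℝ × ℝ → ℝ) (hb : Continuous b) (h1 : ∀ u v, b (u + 1, v) = b (u, v))
    (h2 : ∀ u v, b (u, v + 1) = b (u, v)) :
    ∫ p : ℝ × ℝ, sps p.1 * sps p.2 * b p = ∫ p in Icc (0 : ℝ × ℝ) 1, b p := by
  have hc : Continuous fun p : ℝ × ℝ => sps p.1 * sps p.2 * b p :=
    ((sps_cont.comp continuous_fst).mul (sps_cont.comp continuous_snd)).mul hb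
  have hsupp : HasCompactSupport fun p : ℝ × ℝ => sps p.1 * sps p.2 * b p := by
    refine HasCompactSupport.intro (K := Icc (-1 : ℝ) 1 ×ˢ Icc (-1 : ℝ) 1)
      (isCompact_Icc.prod isCompact_Icc) fun p hp => ?_
    have hz : ∀ x : ℝ, x ∉ Icc (-1 : ℝ) 1 → sps x = 0 := by
      intro x hx
      by_cases h : x ≤ -1
      · exact sps_neg h
      · by_cases h' : 1 ≤ x
        · exact sps_pos h'
        · exact absurd ⟨(not_le.1 h).le, (not_le.1 h').le⟩ hx
    by_cases hp1 : p.1 ∈ Icc (-1 : ℝ) 1
    · have hp2 : p.2 ∉ Icc (-1 : ℝ) 1 := fun h => hp ⟨hp1, h⟩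
      rw [hz _ hp2, mul_zero, zero_mul]
    · rw [hz _ hp1, zero_mul, zero_mul]
  have hI : Integrable (fun p : ℝ × ℝ => sps p.1 * sps p.2 * b p) (volume.prod volume) :=
    hc.integrable_of_hasCompactSupport hsupp
  have e1 : ∫ p : ℝ × ℝ, sps p.1 * sps p.2 * b p =
      ∫ u : ℝ, ∫ v : ℝ, sps u * sps v * b (u, v) := integral_prod _ hI
  have e2 : ∀ u : ℝ, ∫ v : ℝ, sps u * sps v * b (u, v) =
      sps u * ∫ v in Icc (0 : ℝ) 1, b (u, v) := by
    intro u
    have e3 : (fun v : ℝ => sps u * sps v * b (u, v)) =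
        fun v => sps u * (sps v * b (u, v)) := by
      funext v
      ring
    rw [e3, integral_const_mul,
      sps_int (fun v => b (u, v)) (hb.comp (Continuous.prodMk_right u)) (fun v => h2 u v)]
  simp only [e2] at e1
  have hbi : Continuous fun u : ℝ => ∫ v in Icc (0 : ℝ) 1, b (u, v) :=
    continuous_parametric_integral_of_continuous
      (f := fun u v => b (u, v)) (by exact hb) isCompact_Icc
  rw [e1, sps_int (fun u => ∫ v in Icc (0 : ℝ) 1, b (u, v)) hbi (fun u => by simp only [h1])]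
  have e4 : Icc (0 : ℝ × ℝ) 1 = Icc (0 : ℝ) 1 ×ˢ Icc (0 : ℝ) 1 := by
    ext p
    simp only [mem_Icc, mem_prod, Prod.le_def, Prod.fst_zero, Prod.snd_zero, Prod.fst_one,
      Prod.snd_one]
    tauto
  rw [e4]
  have hII : IntegrableOn b (Icc (0 : ℝ) 1 ×ˢ Icc (0 : ℝ) 1) (volume.prod volume) :=
    hb.continuousOn.integrableOn_compact (isCompact_Icc.prod isCompact_Icc)
  exact (setIntegral_prod b hII).symm

variable {g : ℕ} {J : V g →L[ℝ] V g}

private lemma sp_lat (m n : ℤ) (x y : Ix g → ℤ) :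
    (lat (m • x + n • y) : V g) = (m : ℝ) • lat x + (n : ℝ) • lat y := by
  funext i
  simp [lat]

/-- the linear part -/
private def spA (x y : Ix g → ℤ) : ℂ →L[ℝ] V g :=
  Complex.reCLM.smulRight (lat x) + Complex.imCLM.smulRight (lat y)

private lemma spA_apply (x y : Ix g → ℤ) (z : ℂ) :
    spA x y z = z.re • (lat x : V g) + z.im • (lat y : V g) := by
  simp [spA]

private lemma spA_fderiv (x y : Ix g → ℤ) (t : V g) (z : ℂ) :
    fderiv ℝ (fun z => spA x y z + t) z = spA x y := by
  rw [fderiv_add_const]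
  exact (spA x y).fderiv

/-- the action -/
private def spact (γ : Multiplicative (ℤ × ℤ)) (z : ℂ) : ℂ :=
  z + ((((Multiplicative.toAdd γ).1 : ℝ) : ℂ) + (((Multiplicative.toAdd γ).2 : ℝ) : ℂ) * Complex.I)

private lemma spact_re (γ : Multiplicative (ℤ × ℤ)) (z : ℂ) :
    (spact γ z).re = z.re + ((Multiplicative.toAdd γ).1 : ℝ) := by
  simp [spact]

private lemma spact_im (γ : Multiplicative (ℤ × ℤ)) (z : ℂ) :
    (spact γ z).im = z.im + ((Multiplicative.toAdd γ).2 : ℝ) := by
  simp [spact]

private lemma sp_indep (hJ : ∀ v, J (J v) = -v) (x y : Ix g → ℤ) (hx : x ≠ 0)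
    (hxy : J (lat x) = lat y) (m n : ℤ) (h : m • x + n • y = 0) : m = 0 ∧ n = 0 := by
  have h1 : (m : ℝ) • (lat x : V g) + (n : ℝ) • lat y = 0 := by
    rw [← sp_lat, h]
    funext i
    simp [lat]
  have hJy : J (lat y) = -lat x := by rw [← hxy, hJ]
  have h2 : (m : ℝ) • (lat y : V g) - (n : ℝ) • lat x = 0 := by
    have h3 := congrArg J h1
    rw [map_add, map_smul, map_smul, hxy, hJy, map_zero] at h3
    rw [← h3, smul_neg, sub_eq_add_neg]
  have h3 : ((m : ℝ) ^ 2 + (n : ℝ) ^ 2) • (lat x : V g) = 0 := by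
    have h4 : ((m : ℝ) ^ 2 + (n : ℝ) ^ 2) • (lat x : V g) =
        (m : ℝ) • ((m : ℝ) • (lat x : V g) + (n : ℝ) • lat y) -
          (n : ℝ) • ((m : ℝ) • (lat y : V g) - (n : ℝ) • lat x) := by
      funext i
      simp only [Pi.smul_apply, Pi.add_apply, Pi.sub_apply, smul_eq_mul]
      ring
    rw [h4, h1, h2, smul_zero, smul_zero, sub_zero]
  have hlx : (lat x : V g) ≠ 0 := by
    intro h0
    refine hx (funext fun i => ?_)
    have := congrFun h0 i
    simpa [lat] using this
  have h5 : (m : ℝ) ^ 2 + (n : ℝ) ^ 2 = 0 := (smul_eq_zero.1 h3).resolve_right hlx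
  have h6 : (m : ℝ) = 0 := by nlinarith [sq_nonneg (m : ℝ), sq_nonneg (n : ℝ)]
  have h7 : (n : ℝ) = 0 := by nlinarith [sq_nonneg (m : ℝ), sq_nonneg (n : ℝ)]
  exact ⟨by exact_mod_cast h6, by exact_mod_cast h7⟩

private lemma sp_ker (hJ : ∀ v, J (J v) = -v) (x y : Ix g → ℤ) (hx : x ≠ 0)
    (hxy : J (lat x) = lat y) (γ : Multiplicative (ℤ × ℤ)) :
    (Multiplicative.toAdd γ).1 • x + (Multiplicative.toAdd γ).2 • y = 0 ↔
      γ ∈ commutator (Multiplicative (ℤ × ℤ)) := by
  have hcom : commutator (Multiplicative (ℤ × ℤ)) = ⊥ := by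
    rw [commutator_def, Subgroup.commutator_eq_bot_iff_le_centralizer]
    intro a _
    rw [Subgroup.mem_centralizer_iff]
    intro b _
    exact mul_comm b a
  rw [hcom, Subgroup.mem_bot]
  constructor
  · intro h
    obtain ⟨h1, h2⟩ := sp_indep hJ x y hx hxy _ _ h
    exact toAdd_eq_zero.1 (Prod.ext h1 h2)
  · intro h
    rw [h]
    simp

/-- the piece -/
private def spP (hJ : ∀ v, J (J v) = -v) (x y : Ix g → ℤ) (hxy : J (lat x) = lat y) (t : V g) :
    Piece J where
  U := Set.univ
  isOpen := isOpen_univ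
  simply := by
    have : ContractibleSpace (Set.univ : Set ℂ) := convex_univ.contractibleSpace univ_nonempty
    infer_instance
  Γ := Multiplicative (ℤ × ℤ)
  act := spact
  maps := fun _ _ _ => mem_univ _
  act_one := by
    intro z _
    apply Complex.ext
    · rw [spact_re]; simp
    · rw [spact_im]; simp
  act_mul := by
    intro γ δ z _
    apply Complex.ext
    · rw [spact_re, spact_re, spact_re, toAdd_mul]
      push_cast [Prod.fst_add]
      ring
    · rw [spact_im, spact_im, spact_im, toAdd_mul]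
      push_cast [Prod.snd_add]
      ring
  hol := fun γ => ((differentiable_id.add_const _).differentiableOn)
  free := by
    intro γ z _ h
    have h1 := congrArg Complex.re h
    have h2 := congrArg Complex.im h
    rw [spact_re] at h1
    rw [spact_im] at h2
    have h3 : ((Multiplicative.toAdd γ).1 : ℝ) = 0 := by linarith
    have h4 : ((Multiplicative.toAdd γ).2 : ℝ) = 0 := by linarith
    have h5 : Multiplicative.toAdd γ = 0 :=
      Prod.ext (by exact_mod_cast h3) (by exact_mod_cast h4)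
    exact toAdd_eq_zero.1 h5
  proper := by
    intro L hL _
    obtain ⟨R, hR⟩ := hL.isBounded.exists_norm_le
    obtain ⟨M, hM⟩ := exists_nat_gt (2 * R)
    refine ((Set.finite_Icc (-(M : ℤ)) M).prod (Set.finite_Icc (-(M : ℤ)) M)).subset ?_
    rintro γ ⟨z, hz, hz'⟩
    have h1 := hR z hz
    have h2 := hR _ hz'
    have key : ∀ (c : ℤ) (s s' : ℝ), |s| ≤ R → |s'| ≤ R → s' = s + c →
        c ∈ Icc (-(M : ℤ)) M := by
      intro c s s' hs hs' he
      rw [abs_le] at hs hs'
      have h3 : (c : ℝ) ≤ M := by linarith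
      have h4 : -(M : ℝ) ≤ c := by linarith
      exact ⟨by exact_mod_cast h4, by exact_mod_cast h3⟩
    exact ⟨key _ _ _ ((Complex.abs_re_le_norm z).trans h1) ((Complex.abs_re_le_norm _).trans h2)
      (spact_re γ z), key _ _ _ ((Complex.abs_im_le_norm z).trans h1)
      ((Complex.abs_im_le_norm _).trans h2) (spact_im γ z)⟩
  χ := fun z => sps z.re * sps z.im
  χ_smooth := (sps_smooth.comp Complex.reCLM.contDiff).mul (sps_smooth.comp Complex.imCLM.contDiff)
  χ_nonneg := fun z => mul_nonneg (sps_nonneg _) (sps_nonneg _)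
  χ_cpt := by
    refine HasCompactSupport.intro (K := Icc (-1 : ℝ) 1 ×ℂ Icc (-1 : ℝ) 1)
      (isCompact_Icc.reProdIm isCompact_Icc) fun z hz => ?_
    have hz0 : ∀ x : ℝ, x ∉ Icc (-1 : ℝ) 1 → sps x = 0 := by
      intro x hx
      by_cases h : x ≤ -1
      · exact sps_neg h
      · by_cases h' : 1 ≤ x
        · exact sps_pos h'
        · exact absurd ⟨(not_le.1 h).le, (not_le.1 h').le⟩ hx
    by_cases hp1 : z.re ∈ Icc (-1 : ℝ) 1
    · have hp2 : z.im ∉ Icc (-1 : ℝ) 1 := fun h => hz (Complex.mem_reProdIm.2 ⟨hp1, h⟩)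
      rw [hz0 _ hp2, mul_zero]
    · rw [hz0 _ hp1, zero_mul]
  χ_sub := subset_univ _
  χ_sum := by
    intro z _
    show (∑ᶠ γ : ℤ × ℤ, sps (spact (Multiplicative.ofAdd γ) z).re *
      sps (spact (Multiplicative.ofAdd γ) z).im) = 1
    simp only [spact_re, spact_im, toAdd_ofAdd]
    rw [finsum_eq_sum_of_support_subset (s := ({-⌊z.re⌋ - 1, -⌊z.re⌋} : Finset ℤ) ×ˢ
      ({-⌊z.im⌋ - 1, -⌊z.im⌋} : Finset ℤ)) _ (by
        intro γ hγ
        have h1 : sps (z.re + γ.1) ≠ 0 := fun h => hγ (by simp [h])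
        have h2 : sps (z.im + γ.2) ≠ 0 := fun h => hγ (by simp [h])
        rw [Finset.mem_coe, Finset.mem_product]
        exact ⟨sps_supp h1, sps_supp h2⟩), Finset.sum_product]
    have h3 : ∀ m ∈ ({-⌊z.re⌋ - 1, -⌊z.re⌋} : Finset ℤ),
        ∑ n ∈ ({-⌊z.im⌋ - 1, -⌊z.im⌋} : Finset ℤ), sps (z.re + m) * sps (z.im + n) =
          sps (z.re + m) := by
      intro m _
      rw [← Finset.mul_sum, sps_sum, mul_one]
    rw [Finset.sum_congr rfl h3, sps_sum]
  F := fun z => spA x y z + t
  F_smooth := ((spA x y).contDiff.add contDiff_const).contDiffOn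
  F_hol := by
    intro z _ w
    rw [spA_fderiv, spA_apply, spA_apply, map_add, map_smul, map_smul, hxy]
    have hJy : J (lat y) = -lat x := by rw [← hxy, hJ]
    rw [hJy]
    simp only [Complex.mul_re, Complex.mul_im, Complex.I_re, Complex.I_im, zero_mul, one_mul,
      zero_sub, zero_add, neg_smul, smul_neg]
    rw [add_comm]
  ρ := fun γ => (Multiplicative.toAdd γ).1 • x + (Multiplicative.toAdd γ).2 • y
  F_per := by
    intro γ z _
    rw [spA_apply, spA_apply, spact_re, spact_im, sp_lat, add_smul, add_smul]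
    abel

theorem exists_piece (hJ : ∀ v, J (J v) = -v) (x y : Ix g → ℤ) (hx : x ≠ 0)
    (hxy : J (lat x) = lat y) (t : V g) :
    ∃ P : Piece J, P.carrier = fZ (lat x) (lat y) t ∧
      (∀ i j (a : V g → ℝ), Continuous a → IsPer a →
        P.cur i j a = fT (lat x) (lat y) t i j a) ∧
      (∀ n : Ix g → ℤ, (∃ γ, P.ρ γ = n) ↔ n ∈ AddSubgroup.closure {x, y}) ∧
      ∀ γ, P.ρ γ = 0 ↔ γ ∈ commutator P.Γ := by
  refine ⟨spP hJ x y hxy t, ?_, ?_, ?_, ?_⟩
  · ext v
    constructor
    · rintro ⟨z, _, n, hv⟩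
      refine ⟨(z.re, z.im), n, ?_⟩
      rw [hv]
      show spA x y z + t + lat n = _
      rw [spA_apply]
    · rintro ⟨s, n, hv⟩
      refine ⟨⟨s.1, s.2⟩, mem_univ _, n, ?_⟩
      rw [hv]
      show _ = spA x y ⟨s.1, s.2⟩ + t + lat n
      rw [spA_apply]
  · intro i j a ha hp
    show ∫ z : ℂ, sps z.re * sps z.im * a (spA x y z + t) *
      wed2 (fderiv ℝ (fun z => spA x y z + t) z 1) (fderiv ℝ (fun z => spA x y z + t) z Complex.I) i j
        = wed2 (lat x) (lat y) i j * ∫ s in Set.Icc (0 : ℝ × ℝ) 1, a (s.1 • lat x + s.2 • lat y + t)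
    have e1 : (fun z : ℂ => sps z.re * sps z.im * a (spA x y z + t) *
        wed2 (fderiv ℝ (fun z => spA x y z + t) z 1)
          (fderiv ℝ (fun z => spA x y z + t) z Complex.I) i j) =
        fun z : ℂ => (fun p : ℝ × ℝ => wed2 (lat x : V g) (lat y) i j *
          (sps p.1 * sps p.2 * a (p.1 • lat x + p.2 • lat y + t)))
            (Complex.measurableEquivRealProd z) := by
      funext z
      rw [spA_fderiv, spA_apply, spA_apply, spA_apply]
      simp only [Complex.one_re, Complex.one_im, Complex.I_re, Complex.I_im, one_smul, zero_smul,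
        add_zero, zero_add]
      show _ = wed2 (lat x : V g) (lat y) i j *
          (sps z.re * sps z.im * a (z.re • lat x + z.im • lat y + t))
      ring
    rw [e1, Complex.volume_preserving_equiv_real_prod.integral_comp'
      (g := fun p : ℝ × ℝ => wed2 (lat x : V g) (lat y) i j *
          (sps p.1 * sps p.2 * a (p.1 • lat x + p.2 • lat y + t))), integral_const_mul]
    congr 1
    refine sps_int2 (fun p => a (p.1 • lat x + p.2 • lat y + t)) (ha.comp (by fun_prop)) ?_ ?_
    · intro u v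
      have h1 := hp x (u • lat x + v • lat y + t)
      rw [← h1]
      congr 1
      rw [add_smul, one_smul]
      abel
    · intro u v
      have h1 := hp y (u • lat x + v • lat y + t)
      rw [← h1]
      congr 1
      rw [add_smul, one_smul]
      abel
  · intro n
    rw [AddSubgroup.mem_closure_pair]
    constructor
    · rintro ⟨γ, hγ⟩
      exact ⟨(Multiplicative.toAdd γ).1, (Multiplicative.toAdd γ).2, hγ⟩
    · rintro ⟨m, k, h⟩
      exact ⟨Multiplicative.ofAdd (m, k), h⟩
  · exact fun γ => sp_ker hJ x y hx hxy γ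

end Pool.Agent.CT
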