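import Pool.Agent.CT.ChainStar

/-!
# CT-TRANS : translations act on the set of points

PLAN. Translate a piece: `F' = F + v` (all other data unchanged): carrier `+ v`,
`P'.cur i j a = P.cur i j (fun x => a (x + v))` (`fderiv` does not change: `fderiv_add_const`). Translate all
pieces of a `CTCurve`: `conn`: `toTor '' (A + v)` is the image of `toTor '' A` under the translation of the
torus (continuous). `cls`: the function `1` is invariant. Chain: `Hm C'.cur cur0 (ξ + wom v)`: `Hm.shift` of
`⟨G, ..⟩ : Hm C.cur cur0 ξ` by `v` gives `Hm (C.cur translated) (cur0 translated) ξ`, then `cur0_transl v`,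
`Hm.trans`.
`trP`, `trZ`, `trA` are in SDefs.lean.
-/

set_option autoImplicit false

noncomputable section

namespace Pool.Agent.CT

variable {g : ℕ}

private def trPc {J : V g →L[ℝ] V g} (P : Piece J) (v : V g) : Piece J :=
  { P with
    F := fun z => P.F z + v
    F_smooth := P.F_smooth.add contDiffOn_const
    F_hol := fun z hz w => by
      have h : fderiv ℝ (fun z => P.F z + v) z = fderiv ℝ P.F z := fderiv_add_const _
      rw [h]
      exact P.F_hol z hz w
    F_per := fun γ z hz => by
      show P.F (P.act γ z) + v = P.F z + v + lat (P.ρ γ)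
      rw [P.F_per γ z hz, add_right_comm] }

private theorem trPc_cur {J : V g →L[ℝ] V g} (P : Piece J) (v : V g) (i j : Ix g)
    (a : V g → ℝ) : (trPc P v).cur i j a = P.cur i j (fun x => a (x + v)) := by
  have h : ∀ z, fderiv ℝ (fun z => P.F z + v) z = fderiv ℝ P.F z := fun z => fderiv_add_const _
  unfold Piece.cur
  refine MeasureTheory.integral_congr_ae (Filter.Eventually.of_forall fun z => ?_)
  show P.χ z * a (P.F z + v) *
      wed2 (fderiv ℝ (fun z => P.F z + v) z 1) (fderiv ℝ (fun z => P.F z + v) z Complex.I) i j =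
    P.χ z * a (P.F z + v) * wed2 (fderiv ℝ P.F z 1) (fderiv ℝ P.F z Complex.I) i j
  rw [h]

private theorem trPc_carrier {J : V g →L[ℝ] V g} (P : Piece J) (v : V g) :
    (trPc P v).carrier = (fun x => x + v) '' P.carrier := by
  ext x
  constructor
  · rintro ⟨z, hz, n, rfl⟩
    exact ⟨P.F z + lat n, ⟨z, hz, n, rfl⟩, add_right_comm _ _ _⟩
  · rintro ⟨y, ⟨z, hz, n, rfl⟩, rfl⟩
    exact ⟨z, hz, n, add_right_comm _ _ _⟩

private theorem tr_union {J : V g →L[ℝ] V g} (C : CTCurve J) (v : V g) :
    (⋃ k, (trPc (C.P k) v).carrier) = (fun x => x + v) '' (⋃ k, (C.P k).carrier) := by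
  rw [Set.image_iUnion]
  exact Set.iUnion_congr fun k => trPc_carrier _ _

private theorem toTor_cont : Continuous (toTor : V g → Ix g → AddCircle (1 : ℝ)) :=
  continuous_pi fun i => (AddCircle.continuous_mk' (1 : ℝ)).comp (continuous_apply i)

private theorem tr_conn {A : Set (V g)} (v : V g) (h : IsConnected (toTor '' A)) :
    IsConnected (toTor '' ((fun x => x + v) '' A)) := by
  have h1 : toTor '' ((fun x => x + v) '' A) = (fun y => y + toTor v) '' (toTor '' A) := by
    rw [Set.image_image, Set.image_image]
    refine Set.image_congr fun x _ => ?_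
    funext i
    simp [toTor]
  rw [h1]
  exact h.image _ (continuous_add_const _).continuousOn

private def trCv {J : V g →L[ℝ] V g} (C : CTCurve J) (v : V g) : CTCurve J :=
  { C with
    P := fun k => trPc (C.P k) v
    range_ρ := C.range_ρ
    ker_ρ := C.ker_ρ
    cls := fun k i j => by
      rw [trPc_cur]
      exact C.cls k i j
    conn := by
      rw [tr_union]
      exact tr_conn v C.conn }

private theorem trCv_cur {J : V g →L[ℝ] V g} (C : CTCurve J) (v : V g) :
    (trCv C v).cur = fun i j a => C.cur i j (fun x => a (x + v)) := by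
  funext i j a
  exact Finset.sum_congr rfl fun k _ => trPc_cur _ _ _ _ _

private theorem wed3_eq (u v w : V g) (i j k : Ix g) :
    wed3 u v w i j k = u i * (v j * w k - v k * w j) - u j * (v i * w k - v k * w i) +
      u k * (v i * w j - v j * w i) := by
  unfold wed3
  rw [Matrix.det_fin_three]
  simp
  ring

private theorem wed3_add (u u' x y : V g) (i j k : Ix g) :
    wed3 (u + u') x y i j k = wed3 u x y i j k + wed3 u' x y i j k := by
  simp only [wed3_eq, Pi.add_apply]
  ring

private theorem wed3_smul (r : ℝ) (u x y : V g) (i j k : Ix g) :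
    wed3 (r • u) x y i j k = r * wed3 u x y i j k := by
  simp only [wed3_eq, Pi.smul_apply, smul_eq_mul]
  ring

private theorem wom_add' (v w : V g) : wom (v + w) = wom v + wom w := by
  funext i j k
  simp only [wom, wed3_add, Finset.sum_add_distrib, Pi.add_apply]

private theorem wom_smul' (r : ℝ) (v : V g) : wom (r • v) = r • wom v := by
  funext i j k
  simp only [wom, wed3_smul, Pi.smul_apply, smul_eq_mul, Finset.mul_sum]

theorem trA_isPt (v : V g) (p : Amb g) (hp : IsPt p) : IsPt (trA v p) := by
  obtain ⟨hJ, C, h1, h2, G, h3, h4⟩ := hp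
  refine ⟨hJ, trCv C v, ?_, ?_, ?_⟩
  · show (fun x => x + v) '' (p.2.1 : Set (V g)) = ⋃ k, (trPc (C.P k) v).carrier
    rw [tr_union, h1]
    rfl
  · intro i j a
    rw [trCv_cur]
    exact h2 i j (trP v a)
  · have h5 : Hm C.cur cur0 p.2.2.2 := ⟨G, h3, h4⟩
    have h6 := (h5.shift v).trans (cur0_transl v)
    rw [← trCv_cur] at h6
    exact h6

theorem trA_zero (p : Amb g) : trA 0 p = p := by
  obtain ⟨J, Z, S, ξ⟩ := p
  have h1 : trZ 0 Z = Z := by
    apply TopologicalSpace.Closeds.ext
    show (fun x => x + 0) '' (Z : Set (V g)) = Z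
    simp
  have h2 : ∀ a : Per g, trP 0 a = a := by
    intro a
    apply Subtype.ext
    funext x
    show a.1 (x + 0) = a.1 x
    rw [add_zero]
  have h3 : wom (0 : V g) = 0 := by
    have h := wom_smul' (0 : ℝ) (0 : V g)
    rw [zero_smul, zero_smul] at h
    exact h
  simp only [trA, h1, h2, h3, Pi.zero_apply, add_zero]

theorem trA_add (v w : V g) (p : Amb g) : trA v (trA w p) = trA (v + w) p := by
  obtain ⟨J, Z, S, ξ⟩ := p
  have h1 : trZ v (trZ w Z) = trZ (v + w) Z := by
    apply TopologicalSpace.Closeds.ext
    show (fun x => x + v) '' ((fun x => x + w) '' (Z : Set (V g))) =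
      (fun x => x + (v + w)) '' (Z : Set (V g))
    rw [Set.image_image]
    refine Set.image_congr fun x _ => ?_
    rw [add_assoc, add_comm w v]
  have h2 : ∀ a : Per g, trP w (trP v a) = trP (v + w) a := by
    intro a
    apply Subtype.ext
    funext x
    show a.1 (x + w + v) = a.1 (x + (v + w))
    rw [add_assoc, add_comm w v]
  simp only [trA, h1, h2, wom_add', Pi.add_apply]
  refine Prod.ext rfl (Prod.ext rfl (Prod.ext rfl ?_))
  funext i j k
  show ξ i j k + wom w i j k + wom v i j k = ξ i j k + (wom v i j k + wom w i j k)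
  ring

theorem ctr_wom (v : V g) : ctr (wom v) = ((g : ℝ) - 1) • v := by
  funext k
  show ∑ i : Fin g, wom v (i, false) (i, true) k = ((g : ℝ) - 1) * v k
  have h1 : ∀ i c : Fin g, wed3 v (eV (c, false)) (eV (c, true)) (i, false) (i, true) k =
      if c = i then v k - (if k = (i, false) then v k else 0) -
        (if k = (i, true) then v k else 0) else 0 := by
    intro i c
    rw [wed3_eq]
    by_cases h : c = i
    · subst h
      rw [if_pos rfl]
      by_cases h1 : k = (c, false)
      · subst h1
        simp
      · by_cases h2 : k = (c, true)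
        · subst h2
          simp
        · rw [if_neg h1, if_neg h2]
          simp [h1, h2]
    · rw [if_neg h]
      simp [Pi.single_apply, Ne.symm h]
  have h2 : ∀ i : Fin g, wom v (i, false) (i, true) k =
      v k - (if k = (i, false) then v k else 0) - (if k = (i, true) then v k else 0) := by
    intro i
    unfold wom
    simp only [h1]
    rw [Finset.sum_ite_eq']
    simp
  simp only [h2]
  rw [Finset.sum_sub_distrib, Finset.sum_sub_distrib, Finset.sum_const, Finset.card_univ,
    Fintype.card_fin, nsmul_eq_mul]
  obtain ⟨c, b⟩ := k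
  cases b
  · simp
    ring
  · simp
    ring

theorem wom_lin (v w : V g) (r : ℝ) : wom (v + w) = wom v + wom w ∧ wom (r • v) = r • wom v :=
  ⟨wom_add' v w, wom_smul' r v⟩

end Pool.Agent.CT
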