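import Pool.Agent.CT.Cub

/-!
# CT-TVBOX : circle cocycles are trivial over boxes

PLAN. (a) Gluing: let `a ≤ m ≤ b` be a division in the coordinate `k` of the box `[a, b]` (i.e.
`B1 = Icc a (update b k m)`, `B2 = Icc (update a k m) b`, `F = B1 ∩ B2`). If `u` is a trivialisation
over `B1` and `v` over `B2`, then on `F` the difference `d y = u i y - v i y` (`σ y ∈ N i`) does not
depend on `i` and is continuous on `F`; `π y = update y k m` maps `B2` continuously to `F`; so
`v' i y = v i y + d (π y)` (with `d z := u i z - v i z` for a chosen `i = i(z)` with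
`σ z ∈ N i`) is a trivialisation over `B2` which agrees with `u` on `F`; glue `u` and `v'`
(`u'' i y = if y k ≤ m then u i y else v' i y`; continuity on the union of two closed sets:
`ContinuousOn.union_of_isClosed` / `ContinuousOn.piecewise`).
(b) Lebesgue number (`lebesgue_number_lemma_of_metric` for the compact box and the open cover by
the `σ⁻¹ (N i)`; `σ` is continuous on the box, so the preimages are relatively open): there is
`δ > 0` such that for every box of diameter `< δ` in `[a, b]` there is `i` with `σ (box) ⊆ N i`;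
there `u j = h i j ∘ σ` is a trivialisation (by `coc`; note `h i i = 0` follows from `coc`).
(c) Induction: for `k ≤ n`, every sub-box of `[a, b]` with side lengths `≤ δ'` in the coordinates
`≥ k` is good; in the step the side length of the coordinate `k` is `≤ 2 ^ m * δ'`, induction on
`m` by halving.
-/

set_option autoImplicit false

noncomputable section

namespace Pool.Agent.CT

private theorem tv_mono {K : Type*} [TopologicalSpace K] {c : CC K} {B : Type*}
    [TopologicalSpace B] {σ : B → K} {s t : Set B} {u : c.ι → B → AddCircle (1 : ℝ)}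
    (h : c.Tv σ t u) (hst : s ⊆ t) : c.Tv σ s u :=
  ⟨fun i => (h.cont i).mono fun _ hb => ⟨hst hb.1, hb.2⟩, fun i j b hb hi hj =>
    h.eq i j b (hst hb) hi hj⟩

private theorem tv_glue {K : Type*} [TopologicalSpace K] (c : CC K) {n : ℕ} {a b : Fin n → ℝ}
    {σ : (Fin n → ℝ) → K} (hσ : ContinuousOn σ (Set.Icc a b)) (k : Fin n) {m : ℝ}
    (ham : a k ≤ m) (hmb : m ≤ b k) {u v : c.ι → (Fin n → ℝ) → AddCircle (1 : ℝ)}
    (hu : c.Tv σ {y | y ∈ Set.Icc a b ∧ y k ≤ m} u)
    (hv : c.Tv σ {y | y ∈ Set.Icc a b ∧ m ≤ y k} v) :
    ∃ w, c.Tv σ (Set.Icc a b) w := by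
  classical
  choose ic hic using c.cov
  set F : Set (Fin n → ℝ) := {y | y ∈ Set.Icc a b ∧ y k = m} with hF
  let d : (Fin n → ℝ) → AddCircle (1 : ℝ) := fun y => u (ic (σ y)) y - v (ic (σ y)) y
  have hd : ∀ y ∈ F, ∀ i, σ y ∈ c.N i → d y = u i y - v i y := by
    intro y hy i hi
    have h1 := hu.eq i (ic (σ y)) y ⟨hy.1, hy.2.le⟩ hi (hic _)
    have h2 := hv.eq i (ic (σ y)) y ⟨hy.1, hy.2.ge⟩ hi (hic _)
    show u (ic (σ y)) y - v (ic (σ y)) y = u i y - v i y
    rw [← h2] at h1
    rw [sub_eq_sub_iff_add_eq_add] at h1 ⊢
    rw [h1, add_comm]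
  have hdc : ContinuousOn d F := by
    intro y0 hy0
    have hN : σ ⁻¹' (c.N (ic (σ y0))) ∈ nhdsWithin y0 F := by
      have h1 : ContinuousWithinAt σ (Set.Icc a b) y0 := hσ y0 hy0.1
      have h2 := h1.preimage_mem_nhdsWithin ((c.op _).mem_nhds (hic (σ y0)))
      exact nhdsWithin_mono y0 (fun y hy => hy.1) h2
    have hF0 : F ∈ nhdsWithin y0 F := self_mem_nhdsWithin
    have h3 : ContinuousWithinAt (fun y => u (ic (σ y0)) y - v (ic (σ y0)) y) F y0 := by
      refine ContinuousWithinAt.sub ?_ ?_
      · refine ContinuousWithinAt.mono_of_mem_nhdsWithin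
          (hu.cont (ic (σ y0)) y0 ⟨⟨hy0.1, hy0.2.le⟩, hic _⟩) ?_
        filter_upwards [hN, hF0] with y h1 h2
        exact ⟨⟨h2.1, h2.2.le⟩, h1⟩
      · refine ContinuousWithinAt.mono_of_mem_nhdsWithin
          (hv.cont (ic (σ y0)) y0 ⟨⟨hy0.1, hy0.2.ge⟩, hic _⟩) ?_
        filter_upwards [hN, hF0] with y h1 h2
        exact ⟨⟨h2.1, h2.2.ge⟩, h1⟩
    refine h3.congr_of_eventuallyEq ?_ (hd y0 hy0 _ (hic _))
    filter_upwards [hN, hF0] with y h1 h2
    exact hd y h2 _ h1
  let π : (Fin n → ℝ) → (Fin n → ℝ) := fun y => Function.update y k m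
  have hπ : Continuous π := continuous_id.update k continuous_const
  have hπF : ∀ y ∈ Set.Icc a b, π y ∈ F := by
    intro y hy
    refine ⟨⟨fun i => ?_, fun i => ?_⟩, Function.update_self k m y⟩
    · by_cases hi : i = k
      · subst hi
        show a i ≤ Function.update y i m i
        rw [Function.update_self]
        exact ham
      · show a i ≤ Function.update y k m i
        rw [Function.update_of_ne hi]
        exact hy.1 i
    · by_cases hi : i = k
      · subst hi
        show Function.update y i m i ≤ b i
        rw [Function.update_self]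
        exact hmb
      · show Function.update y k m i ≤ b i
        rw [Function.update_of_ne hi]
        exact hy.2 i
  have hπ1 : ∀ y ∈ F, π y = y := by
    intro y hy
    show Function.update y k m = y
    rw [← hy.2, Function.update_eq_self]
  refine ⟨fun i y => if y k ≤ m then u i y else v i y + d (π y), fun i => ?_,
    fun i j y hy hi hj => ?_⟩
  · refine ContinuousOn.if ?_ ?_ ?_
    · intro y hy
      have h1 : y k = m := frontier_le_subset_eq (continuous_apply k) continuous_const hy.2
      have hyF : y ∈ F := ⟨hy.1.1, h1⟩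
      rw [hπ1 y hyF, hd y hyF i hy.1.2]
      abel
    · refine (hu.cont i).mono ?_
      intro y hy
      have h1 : y ∈ {y : Fin n → ℝ | y k ≤ m} := by
        rw [← closure_le_eq (continuous_apply k) continuous_const]
        exact hy.2
      exact ⟨⟨hy.1.1, h1⟩, hy.1.2⟩
    · have hsub : ∀ y ∈ {b_1 | b_1 ∈ Set.Icc a b ∧ σ b_1 ∈ c.N i} ∩
          closure {y : Fin n → ℝ | ¬ y k ≤ m}, m ≤ y k := by
        intro y hy
        have h1 : {y : Fin n → ℝ | ¬ y k ≤ m} = {y : Fin n → ℝ | m < y k} := by
          ext z
          simp only [Set.mem_ofPred_eq, not_le]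
        rw [h1] at hy
        exact closure_lt_subset_le continuous_const (continuous_apply k) hy.2
      refine ContinuousOn.add ((hv.cont i).mono ?_) (hdc.comp hπ.continuousOn ?_)
      · intro y hy
        exact ⟨⟨hy.1.1, hsub y hy⟩, hy.1.2⟩
      · intro y hy
        exact hπF y hy.1.1
  · show (if y k ≤ m then u j y else v j y + d (π y)) -
      (if y k ≤ m then u i y else v i y + d (π y)) = c.h i j (σ y)
    by_cases h : y k ≤ m
    · rw [if_pos h, if_pos h]
      exact hu.eq i j y ⟨hy, h⟩ hi hj
    · rw [if_neg h, if_neg h, add_sub_add_right_eq_sub]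
      exact hv.eq i j y ⟨hy, (not_le.1 h).le⟩ hi hj

theorem tv_box {K : Type*} [TopologicalSpace K] (c : CC K) (n : ℕ) (a b : Fin n → ℝ)
    (hab : a ≤ b) (σ : (Fin n → ℝ) → K) (hσ : ContinuousOn σ (Set.Icc a b)) :
    ∃ u, c.Tv σ (Set.Icc a b) u := by
  classical
  have hpre : ∀ i, ∃ U : Set (Fin n → ℝ), IsOpen U ∧
      σ ⁻¹' (c.N i) ∩ Set.Icc a b = U ∩ Set.Icc a b := fun i =>
    (continuousOn_iff'.1 hσ) _ (c.op i)
  choose U hU hUe using hpre
  obtain ⟨δ0, hδ0, hleb⟩ := lebesgue_number_lemma_of_metric
    (isCompact_Icc : IsCompact (Set.Icc a b)) hU (fun y hy => by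
      obtain ⟨i, hi⟩ := c.cov (σ y)
      have h1 : y ∈ σ ⁻¹' (c.N i) ∩ Set.Icc a b := ⟨hi, hy⟩
      rw [hUe i] at h1
      exact Set.mem_iUnion.2 ⟨i, h1.1⟩)
  obtain ⟨δ, hδ, hδδ⟩ : ∃ δ : ℝ, 0 < δ ∧ δ < δ0 := ⟨δ0 / 2, by linarith, by linarith⟩
  have small : ∀ a' b' : Fin n → ℝ, a ≤ a' → a' ≤ b' → b' ≤ b → (∀ k, b' k - a' k ≤ δ) →
      ∃ u, c.Tv σ (Set.Icc a' b') u := by
    intro a' b' h1 h2 h3 h4
    obtain ⟨i, hi⟩ := hleb a' ⟨h1, h2.trans h3⟩
    have hin : ∀ y ∈ Set.Icc a' b', σ y ∈ c.N i := by
      intro y hy
      have hyb : y ∈ Set.Icc a b := ⟨h1.trans hy.1, hy.2.trans h3⟩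
      have hyU : y ∈ U i := by
        apply hi
        rw [Metric.mem_ball]
        refine lt_of_le_of_lt ((dist_pi_le_iff hδ.le).2 fun k => ?_) hδδ
        rw [Real.dist_eq, abs_le]
        have e1 := hy.1 k
        have e2 := hy.2 k
        have e3 := h4 k
        constructor <;> linarith
      have h5 : y ∈ U i ∩ Set.Icc a b := ⟨hyU, hyb⟩
      rw [← hUe i] at h5
      exact h5.1
    refine ⟨fun j y => c.h i j (σ y), fun j => ?_, fun j l y hy hj hl => ?_⟩
    · refine (c.cont i j).comp (hσ.mono ?_) ?_
      · intro y hy
        exact ⟨h1.trans hy.1.1, hy.1.2.trans h3⟩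
      · intro y hy
        exact ⟨hin y hy.1, hy.2⟩
    · have h5 := c.coc i j l (σ y) (hin y hy) hj hl
      show c.h i l (σ y) - c.h i j (σ y) = c.h j l (σ y)
      rw [← h5, add_sub_cancel_left]
  have main : ∀ M : ℕ, ∀ a' b' : Fin n → ℝ, a ≤ a' → a' ≤ b' → b' ≤ b →
      ∑ k, ⌈(b' k - a' k) / δ⌉₊ ≤ M → ∃ u, c.Tv σ (Set.Icc a' b') u := by
    intro M
    induction M with
    | zero =>
      intro a' b' h1 h2 h3 h4
      refine small a' b' h1 h2 h3 fun k => ?_
      have h5 : ⌈(b' k - a' k) / δ⌉₊ = 0 := by
        have h6 := Finset.single_le_sum (f := fun k => ⌈(b' k - a' k) / δ⌉₊)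
          (fun _ _ => Nat.zero_le _) (Finset.mem_univ k)
        omega
      rw [Nat.ceil_eq_zero] at h5
      have h7 : b' k - a' k ≤ 0 := by
        by_contra hc
        have := div_pos (not_le.1 hc) hδ
        linarith
      linarith
    | succ M ih =>
      intro a' b' h1 h2 h3 h4
      by_cases hs : ∀ k, b' k - a' k ≤ δ
      · exact small a' b' h1 h2 h3 hs
      · push Not at hs
        obtain ⟨k, hk⟩ := hs
        have hm1 : a' k ≤ a' k + δ := by linarith
        have hm2 : a' k + δ ≤ b' k := by linarith
        have hL : 1 < (b' k - a' k) / δ := by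
          rw [lt_div_iff₀ hδ, one_mul]
          exact hk
        obtain ⟨u, hu⟩ := ih a' (Function.update b' k (a' k + δ)) h1 (fun i => by
            by_cases hi : i = k
            · subst hi
              rw [Function.update_self]
              exact hm1
            · rw [Function.update_of_ne hi]
              exact h2 i) (fun i => by
            by_cases hi : i = k
            · subst hi
              rw [Function.update_self]
              exact hm2.trans (h3 i)
            · rw [Function.update_of_ne hi]
              exact h3 i) (by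
            have h5 : ∑ i, ⌈(Function.update b' k (a' k + δ) i - a' i) / δ⌉₊ <
                ∑ i, ⌈(b' i - a' i) / δ⌉₊ := by
              refine Finset.sum_lt_sum (fun i _ => ?_) ⟨k, Finset.mem_univ k, ?_⟩
              · by_cases hi : i = k
                · subst hi
                  rw [Function.update_self]
                  exact Nat.ceil_le_ceil (div_le_div_of_nonneg_right (by linarith) hδ.le)
                · rw [Function.update_of_ne hi]
              · rw [Function.update_self, add_sub_cancel_left, div_self hδ.ne', Nat.ceil_one,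
                  Nat.lt_ceil]
                exact_mod_cast hL
            omega)
        obtain ⟨v, hv⟩ := ih (Function.update a' k (a' k + δ)) b' (fun i => by
            by_cases hi : i = k
            · subst hi
              rw [Function.update_self]
              exact (h1 i).trans hm1
            · rw [Function.update_of_ne hi]
              exact h1 i) (fun i => by
            by_cases hi : i = k
            · subst hi
              rw [Function.update_self]
              exact hm2
            · rw [Function.update_of_ne hi]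
              exact h2 i) h3 (by
            have h5 : ∑ i, ⌈(b' i - Function.update a' k (a' k + δ) i) / δ⌉₊ <
                ∑ i, ⌈(b' i - a' i) / δ⌉₊ := by
              refine Finset.sum_lt_sum (fun i _ => ?_) ⟨k, Finset.mem_univ k, ?_⟩
              · by_cases hi : i = k
                · subst hi
                  rw [Function.update_self]
                  exact Nat.ceil_le_ceil (div_le_div_of_nonneg_right (by linarith) hδ.le)
                · rw [Function.update_of_ne hi]
              · rw [Function.update_self]
                have h6 : (b' k - (a' k + δ)) / δ = (b' k - a' k) / δ - 1 := by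
                  field_simp
                  ring
                have h7 : 1 ≤ ⌈(b' k - a' k) / δ⌉₊ := Nat.one_le_ceil_iff.2 (by linarith)
                have h8 : ⌈(b' k - a' k) / δ - 1⌉₊ ≤ ⌈(b' k - a' k) / δ⌉₊ - 1 := by
                  rw [Nat.ceil_le, Nat.cast_sub h7]
                  have := Nat.le_ceil ((b' k - a' k) / δ)
                  push_cast
                  linarith
                rw [h6]
                omega
            omega)
        refine tv_glue c (hσ.mono (Set.Icc_subset_Icc h1 h3)) k hm1 hm2
          (tv_mono hu ?_) (tv_mono hv ?_)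
        · rintro y ⟨hy, hyk⟩
          refine ⟨hy.1, fun i => ?_⟩
          by_cases hi : i = k
          · subst hi
            rw [Function.update_self]
            exact hyk
          · rw [Function.update_of_ne hi]
            exact hy.2 i
        · rintro y ⟨hy, hyk⟩
          refine ⟨fun i => ?_, hy.2⟩
          by_cases hi : i = k
          · subst hi
            rw [Function.update_self]
            exact hyk
          · rw [Function.update_of_ne hi]
            exact hy.1 i
  exact main _ a b le_rfl hab le_rfl le_rfl

end Pool.Agent.CT
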