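import Pool.Agent.CT.TvBox

/-!
# CT-TVCUBE : circle cocycles are trivial over the interval, the square and the cube

PLAN. Pull back by the homeomorphisms of `unitInterval`, `Sq`, `Cu` with the boxes
`Set.Icc (0 : Fin n → ℝ) 1`, `n = 1, 2, 3`: given `σ : C(Sq, K)` put
`σ' y = σ (projIcc (y 0), projIcc (y 1))`, use `tv_box c 2 0 1`, and `u i s = u' i ![s.1, s.2]`.
Similarly for `n = 1, 3`. General lemma first: if `ψ : B' → B` is continuous, maps `s'` to `s`
and `c.Tv σ s u` then `c.Tv (σ ∘ ψ) s' (fun i b => u i (ψ b))`.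
-/

set_option autoImplicit false

noncomputable section

namespace Pool.Agent.CT

variable {K : Type*} [TopologicalSpace K]

theorem CC.Tv.comp {c : CC K} {B B' : Type*} [TopologicalSpace B] [TopologicalSpace B']
    {σ : B → K} {s : Set B} {u : c.ι → B → AddCircle (1 : ℝ)} (h : c.Tv σ s u) (ψ : B' → B)
    (hψ : Continuous ψ) (s' : Set B') (hs : ∀ b ∈ s', ψ b ∈ s) :
    c.Tv (fun b => σ (ψ b)) s' (fun i b => u i (ψ b)) where
  cont i := (h.cont i).comp hψ.continuousOn fun b hb => ⟨hs b hb.1, hb.2⟩
  eq i j b hb h1 h2 := h.eq i j (ψ b) (hs b hb) h1 h2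

theorem tv_int (c : CC K) (σ : C(unitInterval, K)) : ∃ u, c.Tv σ Set.univ u := by
  set σ' : (Fin 1 → ℝ) → K := fun y => σ (Set.projIcc 0 1 zero_le_one (y 0)) with hσ'
  have hc : Continuous σ' := σ.continuous.comp (continuous_projIcc.comp (continuous_apply 0))
  obtain ⟨u, hu⟩ := tv_box c 1 0 1 zero_le_one σ' hc.continuousOn
  set ψ : unitInterval → (Fin 1 → ℝ) := fun s => fun _ => (s : ℝ) with hψ
  have hψc : Continuous ψ := continuous_pi fun _ => continuous_subtype_val
  have h := hu.comp ψ hψc Set.univ fun s _ => ⟨fun _ => s.2.1, fun _ => s.2.2⟩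
  have e : (fun b => σ' (ψ b)) = σ := by
    funext b
    simp only [hσ', hψ, Set.projIcc_val]
  rw [e] at h
  exact ⟨_, h⟩

theorem tv_sq (c : CC K) (σ : C(Sq, K)) : ∃ u, c.Tv σ Set.univ u := by
  set σ' : (Fin 2 → ℝ) → K := fun y => σ (Set.projIcc 0 1 zero_le_one (y 0),
    Set.projIcc 0 1 zero_le_one (y 1)) with hσ'
  have hc : Continuous σ' := σ.continuous.comp
    ((continuous_projIcc.comp (continuous_apply 0)).prodMk
      (continuous_projIcc.comp (continuous_apply 1)))
  obtain ⟨u, hu⟩ := tv_box c 2 0 1 zero_le_one σ' hc.continuousOn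
  set ψ : Sq → (Fin 2 → ℝ) := fun s => ![(s.1 : ℝ), (s.2 : ℝ)] with hψ
  have hψc : Continuous ψ := by
    refine continuous_pi fun k => ?_
    fin_cases k
    · exact continuous_subtype_val.comp continuous_fst
    · exact continuous_subtype_val.comp continuous_snd
  have h := hu.comp ψ hψc Set.univ fun s _ => by
    constructor
    · intro k
      fin_cases k
      · exact s.1.2.1
      · exact s.2.2.1
    · intro k
      fin_cases k
      · exact s.1.2.2
      · exact s.2.2.2
  have e : (fun b => σ' (ψ b)) = σ := by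
    funext b
    simp [hσ', hψ, Set.projIcc_val]
  rw [e] at h
  exact ⟨_, h⟩

theorem tv_cu (c : CC K) (σ : C(Cu, K)) : ∃ u, c.Tv σ Set.univ u := by
  set σ' : (Fin 3 → ℝ) → K := fun y => σ (Set.projIcc 0 1 zero_le_one (y 0),
    Set.projIcc 0 1 zero_le_one (y 1), Set.projIcc 0 1 zero_le_one (y 2)) with hσ'
  have hc : Continuous σ' := σ.continuous.comp
    ((continuous_projIcc.comp (continuous_apply 0)).prodMk
      ((continuous_projIcc.comp (continuous_apply 1)).prodMk
        (continuous_projIcc.comp (continuous_apply 2))))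
  obtain ⟨u, hu⟩ := tv_box c 3 0 1 zero_le_one σ' hc.continuousOn
  set ψ : Cu → (Fin 3 → ℝ) := fun s => ![(s.1 : ℝ), (s.2.1 : ℝ), (s.2.2 : ℝ)] with hψ
  have hψc : Continuous ψ := by
    refine continuous_pi fun k => ?_
    fin_cases k
    · exact continuous_subtype_val.comp continuous_fst
    · exact continuous_subtype_val.comp (continuous_fst.comp continuous_snd)
    · exact continuous_subtype_val.comp (continuous_snd.comp continuous_snd)
  have h := hu.comp ψ hψc Set.univ fun s _ => by
    constructor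
    · intro k
      fin_cases k
      · exact s.1.2.1
      · exact s.2.1.2.1
      · exact s.2.2.2.1
    · intro k
      fin_cases k
      · exact s.1.2.2
      · exact s.2.1.2.2
      · exact s.2.2.2.2
  have e : (fun b => σ' (ψ b)) = σ := by
    funext b
    simp [hσ', hψ, Set.projIcc_val]
  rw [e] at h
  exact ⟨_, h⟩

end Pool.Agent.CT
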