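import Pool.Agent.CT.NDefs

/-!
# CT-UNFOLD : a fundamental domain and unfolding for a Riemann surface `U / Γ`

PLAN. (1) `act γ` is a bijection of `U` with inverse `act γ⁻¹`, holomorphic, `deriv (act γ) z ≠ 0`
on `U` (chain rule with the inverse). (2) `Γ` is countable: `U` is a countable union of compact sets
(`U` open in `ℂ`), fix `z0 ∈ U`, every `γ` lies in one of the finite sets given by `proper` for a
compact set which contains `z0` and `act γ z0`. (3) Every `z ∈ U` has an open neighbourhood `B ⊆ U`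
with `act γ '' B ∩ B = ∅` for `γ ≠ 1` (`proper` for a compact neighbourhood, `free`, continuity);
countably many `B n` cover `U` (Lindelöf). `D = ⋃ n, (B n \ ⋃_{m < n} ⋃ γ, act γ '' B m)`: measurable,
the sets `act γ '' D` are pairwise disjoint with union `U`.
(4) `∫ η = ∫_U η = Σ_γ ∫_{act γ '' D} η = Σ_γ ∫_D η (act γ z) ‖deriv (act γ) z‖²` by
`integral_image_eq_integral_abs_det_fderiv_smul` (the determinant of the real derivative
`w ↦ c * w` of `ℂ` is `‖c‖²`), and `Σ_γ ∫_D = ∫_D Σ_γ` (absolutely convergent: the same computation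
for `|η|`); for every `z ∈ U` only finitely many `γ` have `act γ z ∈ tsupport η` (`proper` for
`tsupport η ∪ {z}`), so `Σ_γ` is a `finsum`.
-/

set_option autoImplicit false

noncomputable section

open MeasureTheory Set Filter Topology

namespace Pool.Agent.CT

variable {g : ℕ} {J : V g →L[ℝ] V g}

private theorem uf_nonempty (P : Piece J) : P.U.Nonempty := by
  haveI := P.simply
  haveI : PathConnectedSpace P.U := inferInstance
  obtain ⟨z⟩ := (PathConnectedSpace.nonempty : Nonempty P.U)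
  exact ⟨z, z.2⟩

private theorem uf_inv (P : Piece J) (γ : P.Γ) {z : ℂ} (hz : z ∈ P.U) : P.act γ⁻¹ (P.act γ z) = z := by
  rw [← P.act_mul γ⁻¹ γ z hz, inv_mul_cancel, P.act_one z hz]

private theorem uf_inv' (P : Piece J) (γ : P.Γ) {z : ℂ} (hz : z ∈ P.U) : P.act γ (P.act γ⁻¹ z) = z := by
  rw [← P.act_mul γ γ⁻¹ z hz, mul_inv_cancel, P.act_one z hz]

private theorem uf_injOn (P : Piece J) (γ : P.Γ) : InjOn (P.act γ) P.U := by
  intro a ha b hb hab
  rw [← uf_inv P γ ha, hab, uf_inv P γ hb]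

private theorem uf_cont (P : Piece J) (γ : P.Γ) : ContinuousOn (P.act γ) P.U := (P.hol γ).continuousOn

/-- exhaustion by compact sets -/
private theorem uf_exh (P : Piece J) : ∃ K : ℕ → Set ℂ, (∀ n, IsCompact (K n)) ∧ (∀ n, K n ⊆ P.U) ∧
    Monotone K ∧ ∀ z ∈ P.U, ∃ n, z ∈ K n := by
  obtain ⟨F, hF1, hF2, hF3, hF4⟩ := P.isOpen.exists_iUnion_isClosed
  refine ⟨fun n => F n ∩ Metric.closedBall 0 n, fun n => ?_, fun n => inter_subset_left.trans (hF2 n), ?_, ?_⟩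
  · exact (isCompact_closedBall (0 : ℂ) (n : ℝ)).inter_left (hF1 n)
  · intro a b hab
    exact inter_subset_inter (hF4 hab) (Metric.closedBall_subset_closedBall (by exact_mod_cast hab))
  · intro z hz
    rw [← hF3] at hz
    obtain ⟨n, hn⟩ := mem_iUnion.1 hz
    obtain ⟨m, hm⟩ := exists_nat_ge ‖z‖
    refine ⟨max n m, hF4 (le_max_left n m) hn, ?_⟩
    rw [mem_closedBall_zero_iff]
    exact hm.trans (by exact_mod_cast le_max_right n m)

theorem piece_countable (P : Piece J) : Countable P.Γ := by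
  obtain ⟨K, hK1, hK2, hK3, hK4⟩ := uf_exh P
  obtain ⟨z0, hz0⟩ := uf_nonempty P
  rw [← Set.countable_univ_iff]
  have h1 : (univ : Set P.Γ) = ⋃ n, {γ | ∃ z ∈ K n, P.act γ z ∈ K n} := by
    refine (eq_univ_of_forall fun γ => ?_).symm
    obtain ⟨n, hn⟩ := hK4 z0 hz0
    obtain ⟨m, hm⟩ := hK4 (P.act γ z0) (P.maps γ z0 hz0)
    exact mem_iUnion.2 ⟨max n m, z0, hK3 (le_max_left n m) hn, hK3 (le_max_right n m) hm⟩
  rw [h1]
  exact countable_iUnion fun n => (P.proper (K n) (hK1 n) (hK2 n)).countable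

theorem piece_finite (P : Piece J) (L : Set ℂ) (hL : IsCompact L) (hLU : L ⊆ P.U) (z : ℂ)
    (hz : z ∈ P.U) : ∃ W : Set ℂ, IsOpen W ∧ z ∈ W ∧ W ⊆ P.U ∧
      {γ | ∃ z' ∈ W, P.act γ z' ∈ L}.Finite := by
  obtain ⟨r, hr, hr'⟩ := Metric.nhds_basis_closedBall.mem_iff.1 (P.isOpen.mem_nhds hz)
  refine ⟨Metric.ball z r, Metric.isOpen_ball, Metric.mem_ball_self hr, Metric.ball_subset_closedBall.trans hr', ?_⟩
  refine (P.proper (L ∪ Metric.closedBall z r) (hL.union (isCompact_closedBall z r)) (union_subset hLU hr')).subset ?_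
  rintro γ ⟨z', hz', hz2⟩
  exact ⟨z', Or.inr (Metric.ball_subset_closedBall hz'), Or.inl hz2⟩

private theorem uf_nbhd (P : Piece J) {z : ℂ} (hz : z ∈ P.U) : ∃ B : Set ℂ, IsOpen B ∧ z ∈ B ∧ B ⊆ P.U ∧
    ∀ γ, γ ≠ 1 → ∀ z' ∈ B, P.act γ z' ∉ B := by
  obtain ⟨r, hr, hr'⟩ := Metric.nhds_basis_closedBall.mem_iff.1 (P.isOpen.mem_nhds hz)
  have hfin := P.proper (Metric.closedBall z r) (isCompact_closedBall z r) hr'
  have h1 : ∀ γ ∈ {γ | ∃ z' ∈ Metric.closedBall z r, P.act γ z' ∈ Metric.closedBall z r} \ {1},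
      ∀ᶠ δ in 𝓝[>] (0 : ℝ), ∀ z' ∈ Metric.ball z δ, P.act γ z' ∉ Metric.ball z δ := by
    rintro γ ⟨-, hγ⟩
    have hne : P.act γ z ≠ z := fun h => hγ (P.free γ z hz h)
    have hd : 0 < dist (P.act γ z) z / 2 := half_pos (dist_pos.2 hne)
    have hc : ContinuousAt (P.act γ) z := (uf_cont P γ).continuousAt (P.isOpen.mem_nhds hz)
    obtain ⟨δ0, hδ0, hδ1⟩ := Metric.continuousAt_iff.1 hc _ hd
    have h2 : Ioo (0 : ℝ) (min δ0 (dist (P.act γ z) z / 2)) ∈ 𝓝[>] (0 : ℝ) :=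
      Ioo_mem_nhdsGT (lt_min hδ0 hd)
    filter_upwards [h2] with δ hδ z' hz' hz2
    have h3 : dist z' z < δ0 := (Metric.mem_ball.1 hz').trans (hδ.2.trans_le (min_le_left _ _))
    have h4 := hδ1 h3
    have h5 : dist (P.act γ z') z < dist (P.act γ z) z / 2 :=
      (Metric.mem_ball.1 hz2).trans (hδ.2.trans_le (min_le_right _ _))
    have h6 := dist_triangle (P.act γ z) (P.act γ z') z
    rw [dist_comm (P.act γ z) (P.act γ z')] at h6
    linarith
  have h2 := (eventually_all_finite (hfin.diff (t := {1}))).2 h1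
  have h3 : Ioo (0 : ℝ) r ∈ 𝓝[>] (0 : ℝ) := Ioo_mem_nhdsGT hr
  obtain ⟨δ, hδ1, hδ2⟩ := (h2.and h3).exists
  have hsub : Metric.ball z δ ⊆ Metric.closedBall z r :=
    (Metric.ball_subset_ball hδ2.2.le).trans Metric.ball_subset_closedBall
  refine ⟨Metric.ball z δ, Metric.isOpen_ball, Metric.mem_ball_self hδ2.1, hsub.trans hr', ?_⟩
  intro γ hγ z' hz' hz2
  exact hδ1 γ ⟨⟨z', hsub hz', hsub hz2⟩, hγ⟩ z' hz' hz2

private theorem uf_cover (P : Piece J) : ∃ B : ℕ → Set ℂ, (∀ n, IsOpen (B n)) ∧ (∀ n, B n ⊆ P.U) ∧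
    (∀ z ∈ P.U, ∃ n, z ∈ B n) ∧ ∀ n γ, γ ≠ 1 → ∀ z' ∈ B n, P.act γ z' ∉ B n := by
  have h0 : ∀ z : P.U, ∃ B : Set ℂ, IsOpen B ∧ (z : ℂ) ∈ B ∧ B ⊆ P.U ∧
    ∀ γ, γ ≠ 1 → ∀ z' ∈ B, P.act γ z' ∉ B := fun z => uf_nbhd P z.2
  choose B hB1 hB2 hB3 hB4 using h0
  obtain ⟨T, hT, hT2⟩ := TopologicalSpace.isOpen_iUnion_countable B hB1
  have h1 : ∀ z ∈ P.U, ∃ i ∈ T, z ∈ B i := by
    intro z hz
    have h2 : z ∈ ⋃ i, B i := mem_iUnion.2 ⟨⟨z, hz⟩, hB2 ⟨z, hz⟩⟩
    rw [← hT2] at h2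
    simpa using h2
  obtain ⟨z0, hz0⟩ := uf_nonempty P
  obtain ⟨i0, hi0, -⟩ := h1 z0 hz0
  obtain ⟨f, hf⟩ := hT.exists_eq_range ⟨i0, hi0⟩
  refine ⟨fun n => B (f n), fun n => hB1 _, fun n => hB3 _, ?_, fun n => hB4 _⟩
  intro z hz
  obtain ⟨i, hi, hi2⟩ := h1 z hz
  rw [hf] at hi
  obtain ⟨n, rfl⟩ := hi
  exact ⟨n, hi2⟩

/-- a fundamental domain -/
private theorem uf_dom (P : Piece J) : ∃ D : Set ℂ, MeasurableSet D ∧ D ⊆ P.U ∧
    (∀ z ∈ P.U, ∃ γ, P.act γ z ∈ D) ∧ ∀ z ∈ D, ∀ γ, P.act γ z ∈ D → γ = 1 := by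
  classical
  obtain ⟨B, hB1, hB2, hB3, hB4⟩ := uf_cover P
  set S : ℕ → Set ℂ := fun n => {z | z ∈ P.U ∧ ∃ γ, P.act γ z ∈ B n} with hS
  have hSo : ∀ n, IsOpen (S n) := by
    intro n
    have h1 : S n = ⋃ γ, (P.U ∩ P.act γ ⁻¹' B n) := by
      ext z
      simp [hS]
    rw [h1]
    exact isOpen_iUnion fun γ => (uf_cont P γ).isOpen_inter_preimage P.isOpen (hB1 n)
  have hSinv : ∀ n z γ, z ∈ P.U → P.act γ z ∈ S n → z ∈ S n := by
    rintro n z γ hz ⟨-, δ, hδ⟩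
    refine ⟨hz, δ * γ, ?_⟩
    rw [P.act_mul δ γ z hz]
    exact hδ
  have hBS : ∀ n, B n ⊆ S n := by
    intro n z hz
    refine ⟨hB2 n hz, 1, ?_⟩
    rw [P.act_one z (hB2 n hz)]
    exact hz
  refine ⟨⋃ n, (B n \ ⋃ m ∈ Finset.range n, S m), ?_, ?_, ?_, ?_⟩
  · refine MeasurableSet.iUnion fun n => (hB1 n).measurableSet.diff ?_
    exact Finset.measurableSet_biUnion _ fun m _ => (hSo m).measurableSet
  · exact iUnion_subset fun n => diff_subset.trans (hB2 n)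
  · intro z hz
    have h1 : ∃ n, z ∈ S n := by
      obtain ⟨n, hn⟩ := hB3 z hz
      exact ⟨n, hBS n hn⟩
    obtain ⟨-, γ, hγ⟩ := Nat.find_spec h1
    refine ⟨γ, mem_iUnion.2 ⟨Nat.find h1, hγ, ?_⟩⟩
    intro hc
    simp only [mem_iUnion, Finset.mem_range] at hc
    obtain ⟨m, hm, hm2⟩ := hc
    exact Nat.find_min h1 hm (hSinv m z γ hz hm2)
  · intro z hz γ hγ
    obtain ⟨n, hn1, hn2⟩ := mem_iUnion.1 hz
    obtain ⟨k, hk1, hk2⟩ := mem_iUnion.1 hγ
    simp only [mem_iUnion, Finset.mem_range, not_exists] at hn2 hk2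
    have hzU := hB2 n hn1
    rcases lt_trichotomy n k with h | h | h
    · exfalso
      refine hk2 n h ?_
      refine ⟨P.maps γ z hzU, γ⁻¹, ?_⟩
      rw [uf_inv P γ hzU]
      exact hn1
    · subst h
      by_contra hc
      exact hB4 n γ hc z hn1 hk1
    · exfalso
      exact hn2 k h ⟨hzU, γ, hk1⟩

private theorem uf_det (c : ℂ) :
    ((ContinuousLinearMap.toSpanSingleton ℂ c : ℂ →L[ℂ] ℂ).restrictScalars ℝ).det = ‖c‖ ^ 2 := by
  have h1 : (((ContinuousLinearMap.toSpanSingleton ℂ c : ℂ →L[ℂ] ℂ).restrictScalars ℝ : ℂ →L[ℝ] ℂ) : ℂ →ₗ[ℝ] ℂ) =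
      Algebra.lmul ℝ ℂ c := by
    refine LinearMap.ext fun z => ?_
    simp [mul_comm]
  rw [ContinuousLinearMap.det, h1, ← Algebra.norm_apply, Algebra.norm_complex_apply, Complex.normSq_eq_norm_sq]

private theorem uf_int {α ι : Type*} [MeasurableSpace α] {μ : Measure α} [Countable ι] {F : ι → α → ℝ}
    (h1 : ∀ i, Integrable (F i) μ) (h2 : Summable fun i => ∫ a, ‖F i a‖ ∂μ)
    (h3 : ∀ᵐ a ∂μ, Summable fun i => F i a) : Integrable (fun a => ∑' i, F i a) μ := by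
  constructor
  · refine aestronglyMeasurable_of_tendsto_ae (atTop : Filter (Finset ι)) (f := fun s a => ∑ i ∈ s, F i a) ?_ ?_
    · intro s
      have h4 : (fun a => ∑ i ∈ s, F i a) = ∑ i ∈ s, F i := by
        funext a
        simp
      rw [h4]
      exact Finset.aestronglyMeasurable_sum s fun i _ => (h1 i).aestronglyMeasurable
    · filter_upwards [h3] with a ha
      exact ha.hasSum
  · have h4 : ∫⁻ a, ‖∑' i, F i a‖ₑ ∂μ ≤ ∑' i, ENNReal.ofReal (∫ a, ‖F i a‖ ∂μ) := by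
      calc ∫⁻ a, ‖∑' i, F i a‖ₑ ∂μ ≤ ∫⁻ a, ∑' i, ‖F i a‖ₑ ∂μ :=
            lintegral_mono fun a => enorm_tsum_le_tsum_enorm
        _ = ∑' i, ∫⁻ a, ‖F i a‖ₑ ∂μ := lintegral_tsum fun i => (h1 i).aestronglyMeasurable.enorm
        _ = ∑' i, ENNReal.ofReal (∫ a, ‖F i a‖ ∂μ) := by
            congr 1
            funext i
            exact (ofReal_integral_norm_eq_lintegral_enorm (h1 i)).symm
    refine lt_of_le_of_lt h4 ?_
    exact lt_top_iff_ne_top.2 h2.tsum_ofReal_ne_top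

/-- unfolding: the integral of a compactly supported 2-form over `U` is the integral over a
fundamental domain of the sum of its translates -/
theorem unfold (P : Piece J) : ∃ D : Set ℂ, MeasurableSet D ∧ D ⊆ P.U ∧
    ∀ η : ℂ → ℝ, Continuous η → HasCompactSupport η → tsupport η ⊆ P.U →
      IntegrableOn (fun z => ∑ᶠ γ, η (P.act γ z) * ‖deriv (P.act γ) z‖ ^ 2) D ∧
      ∫ z, η z = ∫ z in D, ∑ᶠ γ, η (P.act γ z) * ‖deriv (P.act γ) z‖ ^ 2 := by
  obtain ⟨D, hD1, hD2, hD3, hD4⟩ := uf_dom P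
  refine ⟨D, hD1, hD2, ?_⟩
  intro η hη hηc hηU
  haveI := piece_countable P
  have hder : ∀ γ, ∀ z ∈ P.U, HasFDerivAt (P.act γ)
      ((ContinuousLinearMap.toSpanSingleton ℂ (deriv (P.act γ) z) : ℂ →L[ℂ] ℂ).restrictScalars ℝ) z := by
    intro γ z hz
    have h1 : DifferentiableAt ℂ (P.act γ) z := (P.hol γ).differentiableAt (P.isOpen.mem_nhds hz)
    exact h1.hasDerivAt.hasFDerivAt.restrictScalars ℝ
  have hmeas : ∀ γ, MeasurableSet (P.act γ '' D) := by
    intro γ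
    exact measurable_image_of_fderivWithin hD1 (fun z hz => (hder γ z (hD2 hz)).hasFDerivWithinAt)
      ((uf_injOn P γ).mono hD2)
  have hU : ⋃ γ, P.act γ '' D = P.U := by
    refine Subset.antisymm ?_ ?_
    · refine iUnion_subset fun γ => ?_
      rintro _ ⟨z, hz, rfl⟩
      exact P.maps γ z (hD2 hz)
    · intro z hz
      obtain ⟨γ, hγ⟩ := hD3 z hz
      exact mem_iUnion.2 ⟨γ⁻¹, P.act γ z, hγ, uf_inv P γ hz⟩
  have hdisj : Pairwise (Function.onFun Disjoint fun γ => P.act γ '' D) := by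
    intro γ δ hne
    rw [Function.onFun, Set.disjoint_left]
    rintro _ ⟨a, ha, rfl⟩ ⟨b, hb, hab⟩
    apply hne
    have h1 : P.act (γ⁻¹ * δ) b = a := by
      rw [P.act_mul γ⁻¹ δ b (hD2 hb), hab, uf_inv P γ (hD2 ha)]
    have h2 := hD4 b hb (γ⁻¹ * δ) (by rw [h1]; exact ha)
    exact (inv_mul_eq_one.1 h2)
  have hint : ∀ f : ℂ → ℝ, Integrable f → Function.support f ⊆ P.U →
      (∀ γ, IntegrableOn (fun z => f (P.act γ z) * ‖deriv (P.act γ) z‖ ^ 2) D) ∧
      HasSum (fun γ => ∫ z in D, f (P.act γ z) * ‖deriv (P.act γ) z‖ ^ 2) (∫ z, f z) := by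
    intro f hf hfs
    have h1 : ∫ z, f z = ∫ z in ⋃ γ, P.act γ '' D, f z := by
      rw [hU]
      exact (setIntegral_eq_integral_of_forall_compl_eq_zero fun z hz => by
        by_contra hc
        exact hz (hfs hc)).symm
    have h2 := hasSum_integral_iUnion hmeas hdisj (f := f) (μ := volume) hf.integrableOn
    have h3 : ∀ γ, ∫ z in P.act γ '' D, f z = ∫ z in D, f (P.act γ z) * ‖deriv (P.act γ) z‖ ^ 2 := by
      intro γ
      rw [integral_image_eq_integral_abs_det_fderiv_smul volume hD1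
        (fun z hz => (hder γ z (hD2 hz)).hasFDerivWithinAt) ((uf_injOn P γ).mono hD2)]
      refine setIntegral_congr_fun hD1 fun z _ => ?_
      show |((ContinuousLinearMap.toSpanSingleton ℂ (deriv (P.act γ) z) : ℂ →L[ℂ] ℂ).restrictScalars ℝ).det| •
        f (P.act γ z) = f (P.act γ z) * ‖deriv (P.act γ) z‖ ^ 2
      rw [uf_det, abs_of_nonneg (by positivity), smul_eq_mul, mul_comm]
    constructor
    · intro γ
      have h4 : IntegrableOn f (P.act γ '' D) := hf.integrableOn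
      rw [integrableOn_image_iff_integrableOn_abs_det_fderiv_smul volume hD1
        (fun z hz => (hder γ z (hD2 hz)).hasFDerivWithinAt) ((uf_injOn P γ).mono hD2)] at h4
      refine h4.congr_fun ?_ hD1
      intro z _
      show |((ContinuousLinearMap.toSpanSingleton ℂ (deriv (P.act γ) z) : ℂ →L[ℂ] ℂ).restrictScalars ℝ).det| •
        f (P.act γ z) = f (P.act γ z) * ‖deriv (P.act γ) z‖ ^ 2
      rw [uf_det, abs_of_nonneg (by positivity), smul_eq_mul, mul_comm]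
    · rw [h1]
      simp only [← h3]
      exact h2
  have hηi : Integrable η := hη.integrable_of_hasCompactSupport hηc
  have hηs : Function.support η ⊆ P.U := subset_closure.trans hηU
  obtain ⟨i1, s1⟩ := hint η hηi hηs
  obtain ⟨-, s2⟩ := hint (fun z => |η z|) hηi.norm (by
    intro z hz
    apply hηs
    intro hc
    apply hz
    show |η z| = 0
    rw [hc, abs_zero])
  have hfin : ∀ z ∈ D, (Function.support fun γ => η (P.act γ z) * ‖deriv (P.act γ) z‖ ^ 2).Finite := by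
    intro z hz
    obtain ⟨W, -, hzW, -, hW⟩ := piece_finite P (tsupport η) hηc hηU z (hD2 hz)
    refine hW.subset ?_
    intro γ hγ
    refine ⟨z, hzW, subset_closure ?_⟩
    intro hc
    apply hγ
    show η (P.act γ z) * ‖deriv (P.act γ) z‖ ^ 2 = 0
    rw [hc, zero_mul]
  have hsum : Summable fun γ => ∫ z in D, ‖η (P.act γ z) * ‖deriv (P.act γ) z‖ ^ 2‖ := by
    refine s2.summable.congr fun γ => ?_
    refine setIntegral_congr_fun hD1 fun z _ => ?_
    show |η (P.act γ z)| * ‖deriv (P.act γ) z‖ ^ 2 = ‖η (P.act γ z) * ‖deriv (P.act γ) z‖ ^ 2‖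
    rw [Real.norm_eq_abs, abs_mul, abs_of_nonneg (by positivity : (0 : ℝ) ≤ ‖deriv (P.act γ) z‖ ^ 2)]
  have hcongr : ∀ z ∈ D, ∑' γ, η (P.act γ z) * ‖deriv (P.act γ) z‖ ^ 2 =
      ∑ᶠ γ, η (P.act γ z) * ‖deriv (P.act γ) z‖ ^ 2 := fun z hz => tsum_eq_finsum (hfin z hz)
  constructor
  · have h5 : IntegrableOn (fun z => ∑' γ, η (P.act γ z) * ‖deriv (P.act γ) z‖ ^ 2) D := by
      refine uf_int (fun γ => i1 γ) hsum ?_
      rw [ae_restrict_iff' hD1]
      exact Eventually.of_forall fun z hz => summable_of_finite_support (hfin z hz)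
    exact h5.congr_fun (fun z hz => hcongr z hz) hD1
  · have h5 := hasSum_integral_of_summable_integral_norm (μ := volume.restrict D) (fun γ => i1 γ) hsum
    have h6 := s1.unique h5
    rw [h6]
    exact setIntegral_congr_fun hD1 fun z hz => hcongr z hz

end Pool.Agent.CT
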